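import Pool.Agent.H69.ED.Pisot

/-!
# Beta: good shifts are relatively dense with bounded conjugates

`digits`: induction on `N`: for `0 ≤ y < b^(N+1)` take `d N = ⌊y / b^N⌋₊ ≤ b`, `y - d N b^N ∈ [0, b^N)`.
(For `N = 0`: `0 ≤ y < 1`, no digits.)

`expand`: let `0 ≠ r ∈ R η`; there is a positive integer `m` with `m r` integral
(`exists_integral_multiple`-type lemma, `K` is algebraic over `ℤ`), so we may assume `r` integral, and
`re r > 0` after a sign. For `X ≥ 0` apply `digits` with `b = L`, `y = X / re r`, `N` with `y < L^N`: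
`g = r * ∑_{i<N} d_i lam^i ∈ R η` (`R_nsmul`, `R_lam_pow`, `R_add`), `|re g - X| ≤ re r`, and for `φ ≠ idC`, which is
contracting by `pisot`, `‖φ g‖ ≤ ‖φ r‖ L / (1 - ρ)`. For `X < 0` take `-g`.
-/

namespace H69.ED

theorem digits {b : ℝ} (hb : 1 < b) : ∀ (N : ℕ) (y : ℝ), 0 ≤ y → y < b ^ N →
    ∃ d : ℕ → ℕ, (∀ i, (d i : ℝ) ≤ b) ∧ 0 ≤ y - ∑ i ∈ Finset.range N, (d i : ℝ) * b ^ i ∧
      y - ∑ i ∈ Finset.range N, (d i : ℝ) * b ^ i < 1 := by
  intro N
  induction N with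
  | zero =>
    intro y h0 h1
    refine ⟨fun _ => 0, fun i => ?_, ?_, ?_⟩
    · simp only [Nat.cast_zero]
      linarith
    · simpa using h0
    · simpa using h1
  | succ N ih =>
    intro y h0 h1
    have hb0 : (0 : ℝ) < b := by linarith
    have hbN : (0 : ℝ) < b ^ N := pow_pos hb0 N
    have hq0 : 0 ≤ y / b ^ N := div_nonneg h0 hbN.le
    have hqle : ((⌊y / b ^ N⌋₊ : ℕ) : ℝ) ≤ y / b ^ N := Nat.floor_le hq0
    have hqlt : y / b ^ N < ((⌊y / b ^ N⌋₊ : ℕ) : ℝ) + 1 := Nat.lt_floor_add_one _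
    have hyb : y / b ^ N < b := by
      rw [div_lt_iff₀ hbN]
      rw [pow_succ] at h1
      linarith [mul_comm b (b ^ N)]
    have h2 : ((⌊y / b ^ N⌋₊ : ℕ) : ℝ) * b ^ N ≤ y := by
      rwa [← le_div_iff₀ hbN]
    have h3 : y < (((⌊y / b ^ N⌋₊ : ℕ) : ℝ) + 1) * b ^ N := by
      rwa [← div_lt_iff₀ hbN]
    obtain ⟨d, hd, hd0, hd1⟩ := ih (y - ((⌊y / b ^ N⌋₊ : ℕ) : ℝ) * b ^ N) (by linarith)
      (by linarith)
    refine ⟨Function.update d N ⌊y / b ^ N⌋₊, fun i => ?_, ?_⟩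
    · by_cases hi : i = N
      · subst hi
        rw [Function.update_self]
        linarith
      · rw [Function.update_of_ne hi]
        exact hd i
    · have hs : ∑ i ∈ Finset.range (N + 1), ((Function.update d N ⌊y / b ^ N⌋₊ i : ℕ) : ℝ) * b ^ i =
          ∑ i ∈ Finset.range N, (d i : ℝ) * b ^ i + ((⌊y / b ^ N⌋₊ : ℕ) : ℝ) * b ^ N := by
        rw [Finset.sum_range_succ, Function.update_self]
        congr 1
        refine Finset.sum_congr rfl fun i hi => ?_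
        rw [Function.update_of_ne (Finset.mem_range.1 hi).ne]
      rw [hs]
      constructor
      · linarith
      · linarith

namespace Geo

variable {A K : Type} [Fintype A] [Field K] [NumberField K] (G : Geo A K)

private theorem beta_pos {η : ℝ} {r : K} (hr : r ∈ G.R η) (h0 : r ≠ 0) :
    ∃ s ∈ G.R η, IsIntegral ℤ s ∧ 0 < G.re s := by
  have hr' : G.re r ≠ 0 := (map_ne_zero G.re).2 h0
  have halg : IsAlgebraic ℤ r :=
    (IsFractionRing.isAlgebraic_iff ℤ ℚ K).2 (IsAlgebraic.of_finite ℚ r)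
  obtain ⟨y, hy0, hy⟩ := halg.exists_integral_multiple
  have hyK : y • r = (y : K) * r := by simp
  rw [hyK] at hy
  -- the positive multiple
  have h1 : IsIntegral ℤ ((y.natAbs : K) * r) := by
    rcases Int.natAbs_eq y with h | h
    · have : (y.natAbs : K) = (y : K) := by
        conv_rhs => rw [h]
        simp
      rw [this]; exact hy
    · have : (y.natAbs : K) = -(y : K) := by
        conv_rhs => rw [h]
        simp
      rw [this, neg_mul]; exact hy.neg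
  have hn0 : (0 : ℝ) < y.natAbs := by exact_mod_cast Int.natAbs_pos.2 hy0
  rcases lt_or_gt_of_ne hr' with h | h
  · refine ⟨-((y.natAbs : K) * r), G.R_neg (G.R_nsmul hr _), h1.neg, ?_⟩
    rw [map_neg, map_mul, map_natCast]
    have := mul_pos hn0 (neg_pos.2 h)
    linarith
  · refine ⟨(y.natAbs : K) * r, G.R_nsmul hr _, h1, ?_⟩
    rw [map_mul, map_natCast]
    exact mul_pos hn0 h

theorem expand {η : ℝ} (hη : η < 1) {r : K} (hr : r ∈ G.R η) (h0 : r ≠ 0) :
    ∃ C : ℝ, 0 ≤ C ∧ ∀ X : ℝ, ∃ g ∈ G.R η, IsIntegral ℤ g ∧ |G.re g - X| ≤ C ∧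
      ∀ φ : K →+* ℂ, φ ≠ G.idC → ‖φ g‖ ≤ C := by
  obtain ⟨s, hs, hsi, hs0⟩ := G.beta_pos hr h0
  have hnc : ∀ φ : K →+* ℂ, φ ≠ G.idC → ‖φ G.lam‖ < 1 := by
    intro φ hφ
    by_contra hcon
    exact G.pisot hη hr h0 φ ⟨not_lt.1 hcon, hφ⟩
  have hL : 1 < G.L := G.one_lt
  have hL0 : 0 < G.L := by linarith
  classical
  set B : (K →+* ℂ) → ℝ := fun φ => if φ = G.idC then 0 else ‖φ s‖ * (G.L * (1 - ‖φ G.lam‖)⁻¹)
    with hB
  have hB0 : ∀ φ, 0 ≤ B φ := by
    intro φ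
    by_cases hφ : φ = G.idC
    · simp [hB, hφ]
    · simp only [hB, if_neg hφ]
      have := hnc φ hφ
      have h1 : 0 < 1 - ‖φ G.lam‖ := by linarith
      positivity
  have hBle : ∀ φ, φ ≠ G.idC → ‖φ s‖ * (G.L * (1 - ‖φ G.lam‖)⁻¹) ≤ ∑ ψ, B ψ := by
    intro φ hφ
    have h1 : B φ ≤ ∑ ψ, B ψ := Finset.single_le_sum (fun ψ _ => hB0 ψ) (Finset.mem_univ φ)
    simpa only [hB, if_neg hφ] using h1
  have hsum0 : 0 ≤ ∑ ψ, B ψ := Finset.sum_nonneg fun ψ _ => hB0 ψ
  have key : ∀ X : ℝ, 0 ≤ X → ∃ g ∈ G.R η, IsIntegral ℤ g ∧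
      |G.re g - X| ≤ G.re s + ∑ ψ, B ψ ∧
      ∀ φ : K →+* ℂ, φ ≠ G.idC → ‖φ g‖ ≤ G.re s + ∑ ψ, B ψ := by
    intro X hX
    obtain ⟨N, hN⟩ := pow_unbounded_of_one_lt (X / G.re s) hL
    obtain ⟨d, hd, hd0, hd1⟩ := digits hL N (X / G.re s) (div_nonneg hX hs0.le) hN
    refine ⟨∑ i ∈ Finset.range N, (d i : K) * (G.lam ^ i * s), ?_, ?_, ?_, ?_⟩
    · refine Finset.sum_induction _ (fun g => g ∈ G.R η) (fun a b ha hb => G.R_add ha hb)
        (G.R_zero η) ?_
      intro i _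
      exact G.R_nsmul ((G.R_lam_pow i).2 hs) (d i)
    · refine IsIntegral.sum _ fun i _ => ?_
      exact (isIntegral_natCast (d i)).mul ((G.lam_int.pow i).mul hsi)
    · have h1 : G.re (∑ i ∈ Finset.range N, (d i : K) * (G.lam ^ i * s)) =
          G.re s * ∑ i ∈ Finset.range N, (d i : ℝ) * G.L ^ i := by
        rw [map_sum, Finset.mul_sum]
        refine Finset.sum_congr rfl fun i _ => ?_
        rw [map_mul, map_mul, map_pow, map_natCast]
        simp only [Geo.L]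
        ring
      have h2 : X = G.re s * (X / G.re s) := by field_simp
      rw [h1]
      have h3 : G.re s * ∑ i ∈ Finset.range N, (d i : ℝ) * G.L ^ i - X =
          -(G.re s * (X / G.re s - ∑ i ∈ Finset.range N, (d i : ℝ) * G.L ^ i)) := by
        rw [mul_sub, ← h2]
        ring
      rw [h3, abs_neg, abs_mul, abs_of_pos hs0, abs_of_nonneg hd0]
      nlinarith
    · intro φ hφ
      have hρ := hnc φ hφ
      have hρ0 : 0 ≤ ‖φ G.lam‖ := norm_nonneg _
      have h1 : ‖φ (∑ i ∈ Finset.range N, (d i : K) * (G.lam ^ i * s))‖ ≤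
          ∑ i ∈ Finset.range N, G.L * (‖φ G.lam‖ ^ i * ‖φ s‖) := by
        rw [map_sum]
        refine (norm_sum_le _ _).trans (Finset.sum_le_sum fun i _ => ?_)
        rw [map_mul, map_mul, map_pow, map_natCast, norm_mul, norm_mul, norm_pow]
        refine mul_le_mul_of_nonneg_right ?_ (by positivity)
        rw [Complex.norm_natCast]
        exact hd i
      have h2 : ∑ i ∈ Finset.range N, G.L * (‖φ G.lam‖ ^ i * ‖φ s‖) =
          ‖φ s‖ * (G.L * ∑ i ∈ Finset.range N, ‖φ G.lam‖ ^ i) := by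
        rw [Finset.mul_sum, Finset.mul_sum]
        refine Finset.sum_congr rfl fun i _ => ?_
        ring
      have h3 : ∑ i ∈ Finset.range N, ‖φ G.lam‖ ^ i ≤ (1 - ‖φ G.lam‖)⁻¹ := by
        rw [← tsum_geometric_of_lt_one hρ0 hρ]
        exact (summable_geometric_of_lt_one hρ0 hρ).sum_le_tsum _ (fun i _ => by positivity)
      have h4 : ‖φ s‖ * (G.L * ∑ i ∈ Finset.range N, ‖φ G.lam‖ ^ i) ≤
          ‖φ s‖ * (G.L * (1 - ‖φ G.lam‖)⁻¹) := by
        refine mul_le_mul_of_nonneg_left ?_ (norm_nonneg _)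
        exact mul_le_mul_of_nonneg_left h3 hL0.le
      have h5 := hBle φ hφ
      linarith
  refine ⟨G.re s + ∑ ψ, B ψ, by linarith, ?_⟩
  intro X
  rcases le_or_gt 0 X with hX | hX
  · exact key X hX
  · obtain ⟨g, hg, hgi, hg1, hg2⟩ := key (-X) (by linarith)
    refine ⟨-g, G.R_neg hg, hgi.neg, ?_, ?_⟩
    · rw [map_neg]
      have : -G.re g - X = -(G.re g - -X) := by ring
      rw [this, abs_neg]
      exact hg1
    · intro φ hφ
      rw [map_neg, norm_neg]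
      exact hg2 φ hφ

end Geo

end H69.ED
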