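import Mathlib

/-!
# ConA: Perron's theorem (existence)

`N = M^k > 0` entrywise, `M ≥ 0`. On the compact set `S = {N x / ‖N x‖₁ : x ≥ 0, ∑ x = 1}` (image of the
standard simplex under a continuous map; all its vectors are positive with sum one) the function
`q x = min_i (M x)_i / x_i` is continuous; let `x` be a maximum point and `θ = q x`. Then `y = M x - θ x ≥ 0`. If `y ≠ 0`
then `N y > 0` in every coordinate, i.e. for `x' = N x`: `M x' - θ x' = N y > 0` (`N` commutes with `M`), so
`q (x' / ∑ x') > θ`, and `x' / ∑ x' ∈ S`: contradiction. So `M x = θ x`. `θ > 0`: `θ ≥ 0` is clear and `M^k x = θ^k x` is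
positive (`A` is nonempty, `k ≥ 1`).
-/

namespace H69.ED

private theorem ConA_pos {A : Type} [Fintype A] [DecidableEq A]
    (N : Matrix A A ℝ) (hN : ∀ i j, 0 < N i j) (x : A → ℝ) (hx : ∀ a, 0 ≤ x a) (hne : ∃ a, 0 < x a) :
    ∀ a, 0 < N.mulVec x a := by
  intro a
  obtain ⟨b, hb⟩ := hne
  have : N.mulVec x a = ∑ j, N a j * x j := rfl
  rw [this]
  exact Finset.sum_pos' (fun j _ => mul_nonneg (hN a j).le (hx j)) ⟨b, Finset.mem_univ _, mul_pos (hN a b) hb⟩

theorem perron {A : Type} [Fintype A] [DecidableEq A] [Nonempty A] (M : Matrix A A ℝ)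
    (h0 : ∀ i j, 0 ≤ M i j) {k : ℕ} (hk : 1 ≤ k) (h1 : ∀ i j, 0 < (M ^ k) i j) :
    ∃ (θ : ℝ) (x : A → ℝ), 0 < θ ∧ (∀ a, 0 < x a) ∧ M.mulVec x = θ • x := by
  classical
  set N := M ^ k with hNdef
  have hcomm : ∀ v : A → ℝ, M.mulVec (N.mulVec v) = N.mulVec (M.mulVec v) := by
    intro v
    rw [Matrix.mulVec_mulVec, Matrix.mulVec_mulVec, hNdef, ← pow_succ', ← pow_succ]
  let q : (A → ℝ) → ℝ := fun z => Finset.univ.inf' Finset.univ_nonempty (fun i => M.mulVec z i / z i)
  have hposS : ∀ x ∈ stdSimplex ℝ A, ∀ a, 0 < N.mulVec x a := by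
    intro x hx
    apply ConA_pos N h1 x hx.1
    by_contra hcon
    push Not at hcon
    have h2 : ∑ a, x a ≤ 0 := Finset.sum_nonpos (fun a _ => hcon a)
    rw [hx.2] at h2
    linarith
  have hcont : ContinuousOn (fun x : A → ℝ => q (N.mulVec x)) (stdSimplex ℝ A) := by
    apply ContinuousOn.finset_inf'_apply
    intro i _
    apply ContinuousOn.div
    · apply Continuous.continuousOn
      have : Continuous (fun x : A → ℝ => M.mulVec (N.mulVec x)) :=
        (Continuous.matrix_mulVec continuous_const (Continuous.matrix_mulVec continuous_const continuous_id))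
      exact (continuous_apply i).comp this
    · apply Continuous.continuousOn
      have : Continuous (fun x : A → ℝ => N.mulVec x) :=
        (Continuous.matrix_mulVec continuous_const continuous_id)
      exact (continuous_apply i).comp this
    · intro x hx
      exact (hposS x hx i).ne'
  have hne : (stdSimplex ℝ A).Nonempty := by
    obtain ⟨a⟩ := (inferInstance : Nonempty A)
    exact ⟨_, single_mem_stdSimplex ℝ a⟩
  obtain ⟨x, hxS, hmax⟩ := (isCompact_stdSimplex ℝ A).exists_isMaxOn hne hcont
  set z := N.mulVec x with hz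
  have hzpos : ∀ a, 0 < z a := hposS x hxS
  set θ := q z with hθ
  have hle : ∀ i, θ ≤ M.mulVec z i / z i := fun i => Finset.inf'_le _ (Finset.mem_univ i)
  have hy : ∀ i, 0 ≤ (M.mulVec z - θ • z) i := by
    intro i
    have := (le_div_iff₀ (hzpos i)).1 (hle i)
    simp only [Pi.sub_apply, Pi.smul_apply, smul_eq_mul]
    linarith
  have heq : M.mulVec z = θ • z := by
    by_contra hcon
    have hex : ∃ a, 0 < (M.mulVec z - θ • z) a := by
      by_contra hc
      push Not at hc
      apply hcon
      funext a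
      have := le_antisymm (hc a) (hy a)
      simp only [Pi.sub_apply] at this
      linarith
    have hNy := ConA_pos N h1 _ hy hex
    set z' := N.mulVec z with hz'
    have hz'pos : ∀ a, 0 < z' a := ConA_pos N h1 z (fun a => (hzpos a).le) ⟨_, hzpos (Classical.arbitrary A)⟩
    have hgt : ∀ i, θ < M.mulVec z' i / z' i := by
      intro i
      rw [lt_div_iff₀ (hz'pos i)]
      have h2 := hNy i
      rw [Matrix.mulVec_sub, Matrix.mulVec_smul, ← hcomm] at h2
      simp only [Pi.sub_apply, Pi.smul_apply, smul_eq_mul] at h2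
      linarith
    set s := ∑ a, z a with hs
    have hspos : 0 < s := Finset.sum_pos (fun a _ => hzpos a) Finset.univ_nonempty
    have hmem : s⁻¹ • z ∈ stdSimplex ℝ A := by
      constructor
      · intro a
        exact mul_nonneg (inv_nonneg.2 hspos.le) (hzpos a).le
      · simp only [Pi.smul_apply, smul_eq_mul]
        rw [← Finset.mul_sum, ← hs]
        exact inv_mul_cancel₀ hspos.ne'
    have h3 := hmax hmem
    simp only [Set.mem_ofPred_eq] at h3
    have h4 : θ < q (N.mulVec (s⁻¹ • z)) := by
      show θ < Finset.univ.inf' Finset.univ_nonempty _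
      rw [Finset.lt_inf'_iff]
      intro i _
      rw [Matrix.mulVec_smul, Matrix.mulVec_smul, ← hz']
      simp only [Pi.smul_apply, smul_eq_mul]
      rw [mul_div_mul_left _ _ (inv_ne_zero hspos.ne')]
      exact hgt i
    have h5 : q (N.mulVec (s⁻¹ • z)) ≤ θ := h3
    linarith
  have hθ0 : 0 ≤ θ := by
    obtain ⟨a⟩ := (inferInstance : Nonempty A)
    have h2 : 0 ≤ M.mulVec z a := Finset.sum_nonneg (fun j _ => mul_nonneg (h0 a j) (hzpos j).le)
    rw [heq] at h2
    simp only [Pi.smul_apply, smul_eq_mul] at h2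
    exact nonneg_of_mul_nonneg_left h2 (hzpos a)
  have hpow : ∀ n : ℕ, (M ^ n).mulVec z = θ ^ n • z := by
    intro n
    induction n with
    | zero => simp
    | succ n ih =>
      rw [pow_succ, ← Matrix.mulVec_mulVec, heq, Matrix.mulVec_smul, ih, smul_smul, pow_succ]
      ring_nf
  refine ⟨θ, z, ?_, hzpos, heq⟩
  rcases hθ0.lt_or_eq with h | h
  · exact h
  · exfalso
    obtain ⟨a⟩ := (inferInstance : Nonempty A)
    have h2 := ConA_pos N h1 z (fun a => (hzpos a).le) ⟨_, hzpos a⟩ a
    rw [hNdef, hpow k, ← h, zero_pow (by omega)] at h2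
    simp at h2

end H69.ED
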