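import Mathlib

/-!
# ConB: Perron's theorem (uniqueness and the spectrum)

`M ≥ 0`, `M^k > 0`, `x > 0`, `M x = θ x`, `y > 0`, `y M = θ y` (`Matrix.vecMul y M = θ • y`), `θ > 0`.

`eig_zero`: `u ∈ ℂ^A`, `M u = μ u`, `‖μ‖ ≥ θ`, `μ ≠ θ`. Suppose `u ≠ 0`. `|μ| |u_a| ≤ ∑ M_ab |u_b|`; multiply by `y_a` and sum:
`|μ| ∑ y_a |u_a| ≤ θ ∑ y_b |u_b|`, so `|μ| = θ` and equality holds for every `a`: `M |u| = θ |u|`. So `M^k |u| = θ^k |u|`, hence
`|u| > 0` everywhere, and `|(M^k u)_a| = θ^k |u_a| = ∑_b (M^k)_ab |u_b|`: equality in the triangle inequality with positive weights,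
so all `u_b` have the same argument: `u = ω |u|`, `M u = ω M |u| = θ u`, `μ = θ`, contradiction.

`eig_unique`: real `u` with `M u = θ u`: let `c = min_a u_a / x_a`, attained at `a₀`: `w = u - c x ≥ 0`, `w_{a₀} = 0`,
`M^k w = θ^k w`, at `a₀`: `∑ (M^k)_{a₀ b} w_b = 0`, so `w = 0`.

`solv`: `u ↦ M u - μ u` is injective on `ℂ^A` by `eig_zero`, hence surjective.
-/

namespace H69.ED

variable {A : Type} [Fintype A] [DecidableEq A]

/-- Equality in the triangle inequality. -/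
private theorem conB_ray (z : A → ℂ) (h : ‖∑ b, z b‖ = ∑ b, ‖z b‖) (h0 : ∑ b, z b ≠ 0) :
    ∃ ω : ℂ, ‖ω‖ = 1 ∧ ∀ b, z b = ω * (‖z b‖ : ℂ) := by
  set S : ℂ := ∑ b, z b with hS
  have hS0 : (‖S‖ : ℂ) ≠ 0 := by
    exact_mod_cast (norm_ne_zero_iff.mpr h0)
  set ω : ℂ := S / (‖S‖ : ℂ) with hω
  have hω1 : ‖ω‖ = 1 := by
    rw [hω, norm_div, Complex.norm_real, norm_norm]
    exact div_self (norm_ne_zero_iff.mpr h0)
  have hcc : (starRingEnd ℂ) ω * ω = 1 := by
    rw [← Complex.normSq_eq_conj_mul_self, Complex.normSq_eq_norm_sq, hω1]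
    norm_num
  have hSω : (starRingEnd ℂ) ω * S = (‖S‖ : ℂ) := by
    have h1 : S = ω * (‖S‖ : ℂ) := by
      rw [hω, div_mul_cancel₀ _ hS0]
    calc (starRingEnd ℂ) ω * S = (starRingEnd ℂ) ω * (ω * (‖S‖ : ℂ)) := by rw [← h1]
      _ = ((starRingEnd ℂ) ω * ω) * (‖S‖ : ℂ) := by ring
      _ = (‖S‖ : ℂ) := by rw [hcc, one_mul]
  have hle : ∀ b ∈ (Finset.univ : Finset A), ((starRingEnd ℂ) ω * z b).re ≤ ‖z b‖ := by
    intro b _
    refine le_trans (Complex.re_le_norm _) ?_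
    rw [norm_mul, RCLike.norm_conj, hω1, one_mul]
  have hsum : ∑ b, ((starRingEnd ℂ) ω * z b).re = ∑ b, ‖z b‖ := by
    rw [← Complex.re_sum, ← Finset.mul_sum, ← hS, hSω, ← h]
    exact Complex.ofReal_re _
  have heq := (Finset.sum_eq_sum_iff_of_le hle).mp hsum
  refine ⟨ω, hω1, fun b => ?_⟩
  have h1 : ((starRingEnd ℂ) ω * z b).re = ‖z b‖ := heq b (Finset.mem_univ b)
  have h2 : ‖(starRingEnd ℂ) ω * z b‖ = ‖z b‖ := by
    rw [norm_mul, RCLike.norm_conj, hω1, one_mul]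
  have h3 : (starRingEnd ℂ) ω * z b = (‖z b‖ : ℂ) := by
    apply Complex.ext
    · rw [h1, Complex.ofReal_re]
    · rw [Complex.ofReal_im]
      have h4 : ((starRingEnd ℂ) ω * z b).re * ((starRingEnd ℂ) ω * z b).re +
          ((starRingEnd ℂ) ω * z b).im * ((starRingEnd ℂ) ω * z b).im = ‖z b‖ ^ 2 := by
        rw [← Complex.normSq_apply, Complex.normSq_eq_norm_sq, h2]
      rw [h1] at h4
      have h5 : ((starRingEnd ℂ) ω * z b).im * ((starRingEnd ℂ) ω * z b).im = 0 := by nlinarith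
      exact mul_self_eq_zero.mp h5
  calc z b = ((starRingEnd ℂ) ω * ω) * z b := by rw [hcc, one_mul]
    _ = ω * ((starRingEnd ℂ) ω * z b) := by ring
    _ = ω * (‖z b‖ : ℂ) := by rw [h3]

private theorem conB_powR (M : Matrix A A ℝ) {θ : ℝ} {v : A → ℝ} (hv : M.mulVec v = θ • v) (j : ℕ) :
    (M ^ j).mulVec v = θ ^ j • v := by
  induction j with
  | zero => simp
  | succ j ih =>
    rw [pow_succ, ← Matrix.mulVec_mulVec, hv, Matrix.mulVec_smul, ih, smul_smul, pow_succ, mul_comm]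

private theorem conB_powC (M : Matrix A A ℝ) {μ : ℂ} {u : A → ℂ}
    (hu : ∀ a, ∑ b, (M a b : ℂ) * u b = μ * u a) (j : ℕ) :
    ∀ a, ∑ b, ((M ^ j) a b : ℂ) * u b = μ ^ j * u a := by
  induction j with
  | zero =>
    intro a
    rw [Finset.sum_eq_single a]
    · simp
    · intro b _ hb
      rw [pow_zero, Matrix.one_apply_ne (Ne.symm hb)]
      simp
    · intro h
      exact absurd (Finset.mem_univ _) h
  | succ j ih =>
    intro a
    have h1 : ∀ b, ((M ^ (j + 1)) a b : ℂ) * u b = ∑ c, ((M ^ j) a c : ℂ) * ((M c b : ℂ) * u b) := by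
      intro b
      rw [pow_succ, Matrix.mul_apply]
      push_cast
      rw [Finset.sum_mul]
      exact Finset.sum_congr rfl (fun c _ => by ring)
    rw [Finset.sum_congr rfl (fun b _ => h1 b), Finset.sum_comm]
    have h2 : ∀ c, ∑ b, ((M ^ j) a c : ℂ) * ((M c b : ℂ) * u b) =
        μ * (((M ^ j) a c : ℂ) * u c) := by
      intro c
      rw [← Finset.mul_sum, hu c]
      ring
    rw [Finset.sum_congr rfl (fun c _ => h2 c), ← Finset.mul_sum, ih a]
    ring

theorem eig_zero (M : Matrix A A ℝ) (h0 : ∀ i j, 0 ≤ M i j) {k : ℕ}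
    (h1 : ∀ i j, 0 < (M ^ k) i j) {θ : ℝ} (hθ : 0 < θ) {y : A → ℝ} (hy : ∀ a, 0 < y a)
    (hy1 : Matrix.vecMul y M = θ • y) {μ : ℂ} (hμ : θ ≤ ‖μ‖) (hμ1 : μ ≠ (θ : ℂ)) {u : A → ℂ}
    (hu : ∀ a, ∑ b, (M a b : ℂ) * u b = μ * u a) : u = 0 := by
  by_contra hne
  obtain ⟨a₀, ha₀⟩ := Function.ne_iff.mp hne
  have ha₀' : 0 < ‖u a₀‖ := norm_pos_iff.mpr ha₀
  set v : A → ℝ := fun a => ‖u a‖ with hv
  have hv0 : ∀ a, 0 ≤ v a := fun a => norm_nonneg _
  -- the triangle inequality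
  have htri : ∀ a, ‖μ‖ * v a ≤ ∑ b, M a b * v b := by
    intro a
    rw [hv]
    show ‖μ‖ * ‖u a‖ ≤ _
    rw [← norm_mul, ← hu a]
    refine le_trans (norm_sum_le _ _) (Finset.sum_le_sum (fun b _ => ?_))
    rw [norm_mul, Complex.norm_real, Real.norm_of_nonneg (h0 a b)]
  have hyv : 0 < ∑ a, y a * v a := by
    apply Finset.sum_pos'
    · exact fun a _ => mul_nonneg (hy a).le (hv0 a)
    · exact ⟨a₀, Finset.mem_univ _, mul_pos (hy a₀) ha₀'⟩
  have hswap : ∑ a, y a * ∑ b, M a b * v b = θ * ∑ a, y a * v a := by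
    have h2 : ∀ b, ∑ a, y a * M a b = θ * y b := by
      intro b
      have := congrFun hy1 b
      simpa [Matrix.vecMul, dotProduct] using this
    calc ∑ a, y a * ∑ b, M a b * v b = ∑ a, ∑ b, y a * M a b * v b := by
          refine Finset.sum_congr rfl (fun a _ => ?_)
          rw [Finset.mul_sum]
          exact Finset.sum_congr rfl (fun b _ => by ring)
      _ = ∑ b, ∑ a, y a * M a b * v b := Finset.sum_comm
      _ = ∑ b, θ * (y b * v b) := by
          refine Finset.sum_congr rfl (fun b _ => ?_)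
          rw [← Finset.sum_mul, h2 b]
          ring
      _ = θ * ∑ a, y a * v a := by rw [Finset.mul_sum]
  have hge : ∑ a, y a * (‖μ‖ * v a) ≤ ∑ a, y a * ∑ b, M a b * v b :=
    Finset.sum_le_sum (fun a _ => mul_le_mul_of_nonneg_left (htri a) (hy a).le)
  have hge' : ‖μ‖ * ∑ a, y a * v a ≤ θ * ∑ a, y a * v a := by
    rw [← hswap]
    refine le_trans (le_of_eq ?_) hge
    rw [Finset.mul_sum]
    exact Finset.sum_congr rfl (fun a _ => by ring)
  have hμθ : ‖μ‖ = θ := le_antisymm (le_of_mul_le_mul_right hge' hyv) hμ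
  -- equality everywhere
  have heq : ∀ a, ∑ b, M a b * v b = θ * v a := by
    have h3 : ∑ a, y a * (‖μ‖ * v a) = ∑ a, y a * ∑ b, M a b * v b := by
      rw [hswap, hμθ, Finset.mul_sum]
      exact Finset.sum_congr rfl (fun a _ => by ring)
    have h4 := (Finset.sum_eq_sum_iff_of_le
      (fun a _ => mul_le_mul_of_nonneg_left (htri a) (hy a).le)).mp h3
    intro a
    have h5 := h4 a (Finset.mem_univ a)
    have h6 := mul_left_cancel₀ (hy a).ne' h5
    rw [← h6, hμθ]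
  have hMv : M.mulVec v = θ • v := by
    funext a
    simpa [Matrix.mulVec, dotProduct] using heq a
  have hk := conB_powR M hMv k
  have hk' : ∀ a, ∑ b, (M ^ k) a b * v b = θ ^ k * v a := by
    intro a
    have := congrFun hk a
    simpa [Matrix.mulVec, dotProduct] using this
  have hθk : 0 < θ ^ k := pow_pos hθ k
  have hvpos : ∀ a, 0 < v a := by
    intro a
    have h2 : 0 < ∑ b, (M ^ k) a b * v b := by
      apply Finset.sum_pos'
      · exact fun b _ => mul_nonneg (h1 a b).le (hv0 b)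
      · exact ⟨a₀, Finset.mem_univ _, mul_pos (h1 a a₀) ha₀'⟩
    rw [hk' a] at h2
    exact (mul_pos_iff_of_pos_left hθk).mp h2
  -- the complex side
  have hC := conB_powC M hu k a₀
  have hnorm : ‖∑ b, ((M ^ k) a₀ b : ℂ) * u b‖ = ∑ b, ‖((M ^ k) a₀ b : ℂ) * u b‖ := by
    rw [hC, norm_mul, norm_pow, hμθ]
    have h2 := hk' a₀
    show θ ^ k * v a₀ = _
    rw [← h2]
    refine Finset.sum_congr rfl (fun b _ => ?_)
    rw [norm_mul, Complex.norm_real, Real.norm_of_nonneg (h1 a₀ b).le]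
  have hμ0 : μ ≠ 0 := by
    intro h
    rw [h, norm_zero] at hμθ
    exact hθ.ne hμθ
  have hne0 : ∑ b, ((M ^ k) a₀ b : ℂ) * u b ≠ 0 := by
    rw [hC]
    exact mul_ne_zero (pow_ne_zero _ hμ0) ha₀
  obtain ⟨ω, hω1, hω⟩ := conB_ray _ hnorm hne0
  have huω : ∀ b, u b = ω * (v b : ℂ) := by
    intro b
    have h2 := hω b
    rw [norm_mul, Complex.norm_real, Real.norm_of_nonneg (h1 a₀ b).le] at h2
    have h3 : ((M ^ k) a₀ b : ℂ) ≠ 0 := by exact_mod_cast (h1 a₀ b).ne'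
    apply mul_left_cancel₀ h3
    rw [h2]
    push_cast
    ring
  apply hμ1
  have h2 := hu a₀
  have h3 : ∑ b, (M a₀ b : ℂ) * u b = (θ : ℂ) * u a₀ := by
    calc ∑ b, (M a₀ b : ℂ) * u b = ω * ((∑ b, M a₀ b * v b : ℝ) : ℂ) := by
          push_cast
          rw [Finset.mul_sum]
          refine Finset.sum_congr rfl (fun b _ => ?_)
          rw [huω b]
          ring
      _ = (θ : ℂ) * u a₀ := by
          rw [heq a₀, huω a₀]
          push_cast
          ring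
  exact mul_right_cancel₀ ha₀ (h2.symm.trans h3)

theorem eig_unique (M : Matrix A A ℝ) {k : ℕ} (h1 : ∀ i j, 0 < (M ^ k) i j)
    {θ : ℝ} {x : A → ℝ} (hx : ∀ a, 0 < x a) (hx1 : M.mulVec x = θ • x) {u : A → ℝ}
    (hu : M.mulVec u = θ • u) : ∃ c : ℝ, u = c • x := by
  rcases isEmpty_or_nonempty A with hA | hA
  · exact ⟨0, funext (fun a => (hA.false a).elim)⟩
  obtain ⟨a₀, ha₀⟩ := Finite.exists_min (fun a => u a / x a)
  refine ⟨u a₀ / x a₀, ?_⟩
  set c : ℝ := u a₀ / x a₀ with hc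
  set w : A → ℝ := u - c • x with hw
  have hw0 : ∀ a, 0 ≤ w a := by
    intro a
    have h2 : c ≤ u a / x a := ha₀ a
    have h3 : c * x a ≤ u a := (le_div_iff₀ (hx a)).mp h2
    show 0 ≤ u a - c * x a
    linarith
  have hwa : w a₀ = 0 := by
    show u a₀ - c * x a₀ = 0
    rw [hc, div_mul_cancel₀ _ (hx a₀).ne', sub_self]
  have hMw : M.mulVec w = θ • w := by
    rw [hw, Matrix.mulVec_sub, Matrix.mulVec_smul, hu, hx1, smul_sub, smul_comm]
  have hk := congrFun (conB_powR M hMw k) a₀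
  have hk' : ∑ b, (M ^ k) a₀ b * w b = 0 := by
    have h2 : ∑ b, (M ^ k) a₀ b * w b = θ ^ k * w a₀ := by
      simpa [Matrix.mulVec, dotProduct] using hk
    rw [h2, hwa, mul_zero]
  have h3 := (Finset.sum_eq_zero_iff_of_nonneg
    (fun b _ => mul_nonneg (h1 a₀ b).le (hw0 b))).mp hk'
  have h4 : w = 0 := by
    funext b
    have h5 := h3 b (Finset.mem_univ b)
    rcases mul_eq_zero.mp h5 with h6 | h6
    · exact absurd h6 (h1 a₀ b).ne'
    · exact h6
  rw [hw] at h4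
  exact sub_eq_zero.mp h4

theorem solv_of (M : Matrix A A ℝ) (h0 : ∀ i j, 0 ≤ M i j) {k : ℕ}
    (h1 : ∀ i j, 0 < (M ^ k) i j) {θ : ℝ} (hθ : 0 < θ) {y : A → ℝ} (hy : ∀ a, 0 < y a)
    (hy1 : Matrix.vecMul y M = θ • y) {μ : ℂ} (hμ : θ ≤ ‖μ‖) (hμ1 : μ ≠ (θ : ℂ))
    (g : A → ℂ) : ∃ u : A → ℂ, ∀ a, ∑ b, (M a b : ℂ) * u b - μ * u a = g a := by
  let L : (A → ℂ) →ₗ[ℂ] (A → ℂ) :=
    { toFun := fun u a => ∑ b, (M a b : ℂ) * u b - μ * u a
      map_add' := by
        intro u w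
        funext a
        simp only [Pi.add_apply, mul_add, Finset.sum_add_distrib]
        ring
      map_smul' := by
        intro r u
        funext a
        simp only [Pi.smul_apply, smul_eq_mul, RingHom.id_apply]
        rw [mul_sub, Finset.mul_sum]
        congr 1
        · exact Finset.sum_congr rfl (fun b _ => by ring)
        · ring }
  have hinj : Function.Injective L := by
    rw [← LinearMap.ker_eq_bot, LinearMap.ker_eq_bot']
    intro u hu
    apply eig_zero M h0 h1 hθ hy hy1 hμ hμ1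
    intro a
    have h2 : ∑ b, (M a b : ℂ) * u b - μ * u a = 0 := congrFun hu a
    exact sub_eq_zero.mp h2
  have hsurj := LinearMap.surjective_of_injective hinj
  obtain ⟨u, hu⟩ := hsurj g
  exact ⟨u, fun a => congrFun hu a⟩

end H69.ED
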