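import Mathlib

/-!
# ConC: the Perron eigenvector over a number field

`M` is a matrix of natural numbers, `x > 0` real, `M x = θ x`, and every real `u` with `M u = θ u` is a multiple of
`x`. `θ` is an eigenvalue of an integer matrix, so it is a root of the (monic, integral) characteristic
polynomial: `θ` is integral over `ℤ`. `K = ℚ⟮θ⟯ ⊆ ℝ` (`IntermediateField.adjoin ℚ {θ}`, finite dimensional over `ℚ`: number
field), `lam` = the generator, `re` = the inclusion. The matrix `M - lam` over `K` is singular (its determinant maps to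
`det (M - θ) = 0`), so there is `0 ≠ ξ ∈ K^A` with `M ξ = lam ξ` (`Matrix.exists_mulVec_eq_zero_iff`). Its image in `ℝ^A` is
`c x`, `c ≠ 0`; after a sign `c > 0`, so all `re (ξ a) > 0`. Multiply by a positive integer such that all `ξ a` are integral
(every element of `K` is algebraic: `exists_integral_multiple`-type; finitely many `a`) and by another one such that
`re (ξ a) ≥ 1`. Two ring homomorphisms `K → ℂ` which agree at `lam` are equal
(`IntermediateField.adjoin` is generated by `θ`; ring homs from `K` are `ℚ`-linear).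
-/

namespace H69.ED

open IntermediateField in
private theorem vec_mul_eq {A R : Type} [Fintype A] [DecidableEq A] [CommRing R]
    (M : A → A → ℕ) (t : R) (u : A → R) :
    (∀ a, ∑ b, (M a b : R) * u b = t * u a) ↔
      (Matrix.scalar A t - Matrix.of (fun a b => (M a b : R))).mulVec u = 0 := by
  rw [Matrix.sub_mulVec]
  constructor
  · intro h
    funext a
    simp only [Pi.sub_apply, Pi.zero_apply, Matrix.scalar_apply, Matrix.mulVec_diagonal]
    rw [sub_eq_zero, ← h a]
    rfl
  · intro h a
    have h1 := congrFun h a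
    simp only [Pi.sub_apply, Pi.zero_apply, Matrix.scalar_apply, Matrix.mulVec_diagonal] at h1
    rw [sub_eq_zero] at h1
    rw [h1]
    rfl

theorem field_vector {A : Type} [Fintype A] [DecidableEq A] [Nonempty A] (M : A → A → ℕ)
    {θ : ℝ} {x : A → ℝ} (hx : ∀ a, 0 < x a) (hx1 : ∀ a, ∑ b, (M a b : ℝ) * x b = θ * x a)
    (huniq : ∀ u : A → ℝ, (∀ a, ∑ b, (M a b : ℝ) * u b = θ * u a) → ∃ c : ℝ, u = c • x) :
    ∃ (K : Type) (_ : Field K) (_ : NumberField K) (re : K →+* ℝ) (lam : K) (ell : A → K),
      re lam = θ ∧ IsIntegral ℤ lam ∧ (∀ a, IsIntegral ℤ (ell a)) ∧ (∀ a, 1 ≤ re (ell a)) ∧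
      (∀ a, ∑ b, (M a b : K) * ell b = lam * ell a) ∧
      ∀ φ ψ : K →+* ℂ, φ lam = ψ lam → φ = ψ := by
  classical
  have hx0 : x ≠ 0 := by
    intro h
    obtain ⟨a⟩ := (inferInstance : Nonempty A)
    have := hx a
    rw [h] at this
    exact lt_irrefl _ this
  have hdet : (Matrix.scalar A θ - Matrix.of (fun a b => (M a b : ℝ))).det = 0 :=
    Matrix.exists_mulVec_eq_zero_iff.1 ⟨x, hx0, (vec_mul_eq M θ x).1 hx1⟩
  have hθZ : IsIntegral ℤ θ := by
    refine ⟨(Matrix.of (fun a b => (M a b : ℤ))).charpoly, Matrix.charpoly_monic _, ?_⟩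
    rw [← Polynomial.eval_map, ← Matrix.charpoly_map, Matrix.eval_charpoly]
    rw [← hdet]
    congr 2
  have hθQ : IsIntegral ℚ θ := hθZ.tower_top
  let K : IntermediateField ℚ ℝ := IntermediateField.adjoin ℚ {θ}
  let pb := IntermediateField.adjoin.powerBasis hθQ
  have : FiniteDimensional ℚ K := IntermediateField.adjoin.finiteDimensional hθQ
  have hNF : NumberField K := { to_charZero := inferInstance, to_finiteDimensional := inferInstance }
  let re : K →+* ℝ := algebraMap K ℝ
  have hre : Function.Injective re := (algebraMap K ℝ).injective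
  let lam : K := IntermediateField.AdjoinSimple.gen ℚ θ
  have hlam : re lam = θ := IntermediateField.AdjoinSimple.algebraMap_gen ℚ θ
  have hlamZ : IsIntegral ℤ lam := by
    have h1 : IsIntegral ℤ (re lam) := by rw [hlam]; exact hθZ
    exact (isIntegral_algHom_iff (re.toIntAlgHom) hre).1 h1
  -- eigenvector over K
  obtain ⟨ξ, hξ0, hξ⟩ : ∃ ξ : A → K, ξ ≠ 0 ∧ ∀ a, ∑ b, (M a b : K) * ξ b = lam * ξ a := by
    have hdetK : (Matrix.scalar A lam - Matrix.of (fun a b => (M a b : K))).det = 0 := by
      apply hre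
      rw [map_zero, RingHom.map_det, ← hdet]
      congr 1
      ext a b
      simp only [RingHom.mapMatrix_apply, Matrix.map_apply, Matrix.sub_apply, map_sub,
        Matrix.of_apply, map_natCast, Matrix.scalar_apply, Matrix.diagonal_apply]
      split_ifs
      · rw [hlam]
      · rw [map_zero]
    obtain ⟨v, hv0, hv⟩ := Matrix.exists_mulVec_eq_zero_iff.2 hdetK
    exact ⟨v, hv0, (vec_mul_eq M lam v).2 hv⟩
  -- sign
  obtain ⟨ζ, hζpos, hζ⟩ : ∃ ζ : A → K, (∀ a, 0 < re (ζ a)) ∧
      ∀ a, ∑ b, (M a b : K) * ζ b = lam * ζ a := by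
    have h1 : ∀ a, ∑ b, (M a b : ℝ) * re (ξ b) = θ * re (ξ a) := by
      intro a
      have h2 := congrArg re (hξ a)
      rw [map_sum, map_mul, hlam] at h2
      rw [← h2]
      apply Finset.sum_congr rfl
      intro b _
      rw [map_mul, map_natCast]
    obtain ⟨c, hc⟩ := huniq (fun a => re (ξ a)) h1
    have hc' : ∀ a, re (ξ a) = c * x a := fun a => congrFun hc a
    have hc0 : c ≠ 0 := by
      rintro rfl
      apply hξ0
      funext a
      apply hre
      rw [hc' a]
      simp
    rcases lt_or_gt_of_ne hc0 with hneg | hpos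
    · refine ⟨fun a => - ξ a, fun a => ?_, fun a => ?_⟩
      · rw [map_neg, hc' a]
        have := mul_pos (neg_pos.2 hneg) (hx a)
        linarith
      · have := hξ a
        simp only [mul_neg, Finset.sum_neg_distrib]
        rw [this]
    · exact ⟨ξ, fun a => by rw [hc' a]; exact mul_pos hpos (hx a), hξ⟩
  -- integrality
  have hAlg : Algebra.IsAlgebraic ℤ K := by
    have h1 := IsLocalization.isAlgebraic ℚ (nonZeroDivisors ℤ)
    exact Algebra.IsAlgebraic.trans ℤ ℚ K
  obtain ⟨y, hy0, hy⟩ := Algebra.IsAlgebraic.exists_integral_multiples ℤ (Finset.univ.image ζ)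
  have hy' : ∀ a, IsIntegral ℤ (y • ζ a) := fun a =>
    hy _ (Finset.mem_image_of_mem ζ (Finset.mem_univ a))
  let D : ℕ := y.natAbs
  have hD0 : 0 < D := Int.natAbs_pos.2 hy0
  have hD : ∀ a, IsIntegral ℤ ((D : K) * ζ a) := by
    intro a
    have h1 := hy' a
    rw [zsmul_eq_mul] at h1
    rcases Int.natAbs_eq y with h2 | h2
    · have h3 : ((y : ℤ) : K) = (D : K) := by
        have : ((y : ℤ) : K) = (((D : ℕ) : ℤ) : K) := congrArg _ h2
        rw [this]
        simp
      rwa [h3] at h1
    · have h3 : ((y : ℤ) : K) = -(D : K) := by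
        have : ((y : ℤ) : K) = ((-((D : ℕ) : ℤ) : ℤ) : K) := congrArg _ h2
        rw [this]
        simp
      rw [h3, neg_mul] at h1
      simpa using h1.neg
  obtain ⟨m, hm⟩ := exists_nat_ge (∑ a, 1 / ((D : ℝ) * re (ζ a)))
  refine ⟨K, inferInstance, hNF, re, lam, fun a => (m : K) * ((D : K) * ζ a), hlam, hlamZ,
    fun a => ?_, fun a => ?_, fun a => ?_, ?_⟩
  · exact (isIntegral_natCast (R := ℤ) (B := K) m).mul (hD a)
  · rw [map_mul, map_mul, map_natCast, map_natCast]
    have h1 : 0 < (D : ℝ) * re (ζ a) := mul_pos (by exact_mod_cast hD0) (hζpos a)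
    have h2 : 1 / ((D : ℝ) * re (ζ a)) ≤ m := by
      refine le_trans ?_ hm
      exact Finset.single_le_sum (f := fun a => 1 / ((D : ℝ) * re (ζ a)))
        (fun b _ => by
          have : 0 < (D : ℝ) * re (ζ b) := mul_pos (by exact_mod_cast hD0) (hζpos b)
          positivity) (Finset.mem_univ a)
    rwa [div_le_iff₀ h1] at h2
  · have h1 := hζ a
    calc ∑ b, (M a b : K) * ((m : K) * ((D : K) * ζ b))
        = (m : K) * ((D : K) * ∑ b, (M a b : K) * ζ b) := by
          rw [Finset.mul_sum, Finset.mul_sum]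
          apply Finset.sum_congr rfl
          intro b _
          ring
      _ = lam * ((m : K) * ((D : K) * ζ a)) := by
          rw [h1]
          ring
  · intro φ ψ h
    have h1 : φ.toRatAlgHom = ψ.toRatAlgHom := by
      apply pb.algHom_ext
      rw [IntermediateField.adjoin.powerBasis_gen]
      exact h
    have h2 := congrArg (fun F : K →ₐ[ℚ] ℂ => (F : K →+* ℂ)) h1
    exact h2

end H69.ED
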