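import Mathlib
import Pool.Agent.H95.Edit.Pub

/-!
# ConD: the one-sided fixed point

`(subst τ)^[k] [b]` is a prefix of `(subst τ)^[k+1] [b]` (induction: `subst τ` maps prefixes to prefixes and `[b]` is a
prefix of `τ b`). The lengths are unbounded, so `x n` = letter number `n` of `(subst τ)^[k] [b]` for any `k` with
`n < length` is well defined: `(subst τ)^[k] [b] = (List.range _).map x` for all `k`. `s n = ∑_{i<n} |τ (x i)|`. For
`n` choose `k` with `n < |(subst τ)^[k] [b]|`: applying `subst τ`, `(subst τ)^[k+1] [b] = flatMap`: the letters number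
`s n + j`, `j < |τ (x n)|`, of the image of `x 0, x 1, ...` are those of `τ (x n)`.
-/

namespace H69.ED

open H95.Edit

private theorem ConD_pre {A : Type} (τ : A → List A) (b : A) (w : List A) (hb : τ b = b :: w)
    (k : ℕ) : (subst τ)^[k] [b] <+: (subst τ)^[k + 1] [b] := by
  induction k with
  | zero =>
    refine ⟨w, ?_⟩
    simp [subst, hb]
  | succ k ih =>
    obtain ⟨t, ht⟩ := ih
    refine ⟨subst τ t, ?_⟩
    have h1 : (subst τ)^[k + 1 + 1] [b] = subst τ ((subst τ)^[k] [b] ++ t) := by
      rw [Function.iterate_succ_apply' (subst τ) (k + 1), ← ht]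
    have h2 : (subst τ)^[k + 1] [b] = subst τ ((subst τ)^[k] [b]) :=
      Function.iterate_succ_apply' (subst τ) k [b]
    rw [h1, h2]
    simp [subst]

private theorem ConD_pre' {A : Type} (τ : A → List A) (b : A) (w : List A) (hb : τ b = b :: w)
    {k l : ℕ} (h : k ≤ l) : (subst τ)^[k] [b] <+: (subst τ)^[l] [b] := by
  induction l, h using Nat.le_induction with
  | base => exact List.prefix_refl _
  | succ l _ ih => exact ih.trans (ConD_pre τ b w hb l)

theorem right_fixed {A : Type} (τ : A → List A) (hne : ∀ a, τ a ≠ []) (b : A) (w : List A)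
    (hb : τ b = b :: w) (hgrow : ∀ N : ℕ, ∃ k : ℕ, N ≤ ((subst τ)^[k] [b]).length) :
    ∃ (x : ℕ → A) (s : ℕ → ℕ), x 0 = b ∧ s 0 = 0 ∧ (∀ n, s (n + 1) = s n + (τ (x n)).length) ∧
      (∀ (n j : ℕ) (h : j < (τ (x n)).length), x (s n + j) = (τ (x n))[j]) := by
  classical
  have _ := hne
  choose kk hkk using hgrow
  let x : ℕ → A := fun n => ((subst τ)^[kk (n + 1)] [b])[n]'(by have := hkk (n + 1); omega)
  have hx : ∀ (k n : ℕ) (h : n < ((subst τ)^[k] [b]).length), ((subst τ)^[k] [b])[n] = x n := by
    intro k n h
    have h' : n < ((subst τ)^[kk (n + 1)] [b]).length := by have := hkk (n + 1); omega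
    change ((subst τ)^[k] [b])[n] = ((subst τ)^[kk (n + 1)] [b])[n]
    rcases le_total k (kk (n + 1)) with hl | hl
    · exact (ConD_pre' τ b w hb hl).getElem h
    · exact ((ConD_pre' τ b w hb hl).getElem h').symm
  let s : ℕ → ℕ := fun n => (((List.range n).map x).flatMap τ).length
  have hs : ∀ n, s (n + 1) = s n + (τ (x n)).length := by
    intro n
    simp only [s]
    rw [List.range_succ]
    simp
  refine ⟨x, s, ?_, by simp [s], hs, ?_⟩
  · have h0 : 0 < ((subst τ)^[0] [b]).length := by simp
    have := hx 0 0 h0
    rw [← this]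
    rfl
  · intro n j hj
    let k := kk (n + 1)
    have hk : n + 1 ≤ ((subst τ)^[k] [b]).length := hkk (n + 1)
    have htake : ((subst τ)^[k] [b]).take (n + 1) = (List.range (n + 1)).map x := by
      apply List.ext_getElem
      · simp [hk]
      · intro i h1 h2
        rw [List.getElem_take, List.getElem_map, List.getElem_range]
        exact hx k i _
    have hsplit : (subst τ)^[k + 1] [b] = ((List.range n).map x).flatMap τ ++ (τ (x n) ++
        (((subst τ)^[k] [b]).drop (n + 1)).flatMap τ) := by
      rw [Function.iterate_succ_apply']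
      conv_lhs => rw [← List.take_append_drop (n + 1) ((subst τ)^[k] [b])]
      rw [htake, List.range_succ]
      simp [subst]
    have hlen : s n + j < ((subst τ)^[k + 1] [b]).length := by
      rw [hsplit, List.length_append, List.length_append]
      simp only [s]
      omega
    rw [← hx (k + 1) (s n + j) hlen]
    have h1 : ((subst τ)^[k + 1] [b])[s n + j]? = (τ (x n))[j]? := by
      rw [hsplit, List.getElem?_append_right (by simp [s])]
      have e : s n + j - (((List.range n).map x).flatMap τ).length = j := by
        simp only [s]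
        omega
      rw [e, List.getElem?_append_left hj]
    rw [List.getElem?_eq_getElem hlen, List.getElem?_eq_getElem hj] at h1
    exact Option.some.inj h1

end H69.ED
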