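import Pool.Agent.H69.ED.ConD

/-!
# ConE: the two-sided fixed point

Right half: `right_fixed` for `τ`, `b`: `x`, `s`. Left half: `right_fixed` for `τ' a = (τ a).reverse` and `a`
(`τ' a = a :: w'.reverse` because `τ a = w' ++ [a]`; `(subst τ')^[k] [a] = ((subst τ)^[k] [a]).reverse`): `y`, `t`. Put
`z n = x n` for `n ≥ 0`, `z n = y (-1-n)` for `n < 0`, `io n = s n` for `n ≥ 0`, `io n = - t (-n)` for `n < 0`. For `n < 0`:
`io (n+1) = - t (-n-1)`, `io n = - (t (-n-1) + |τ (z n)|)`, and for `j < |τ (z n)|`: `io n + j < 0`,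
`z (io n + j) = y (t (-n-1) + (|τ (z n)| - 1 - j)) = (τ' (z n))[|τ (z n)| - 1 - j] = (τ (z n))[j]`.
-/

namespace H69.ED

open H95.Edit

private theorem conE_rev_subst {A : Type} (τ : A → List A) (l : List A) :
    subst (fun a => (τ a).reverse) l.reverse = (subst τ l).reverse := by
  unfold subst
  induction l with
  | nil => rfl
  | cons a l ih =>
    rw [List.reverse_cons, List.flatMap_append, ih]
    simp

private theorem conE_rev_iter {A : Type} (τ : A → List A) (k : ℕ) (l : List A) :
    (subst (fun a => (τ a).reverse))^[k] l.reverse = ((subst τ)^[k] l).reverse := by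
  induction k generalizing l with
  | zero => rfl
  | succ k ih =>
    rw [Function.iterate_succ_apply, Function.iterate_succ_apply, conE_rev_subst, ih]

theorem two_sided {A : Type} (τ : A → List A) (hne : ∀ a, τ a ≠ []) (a b : A) (w w' : List A)
    (hb : τ b = b :: w) (ha : τ a = w' ++ [a])
    (hgb : ∀ N : ℕ, ∃ k : ℕ, N ≤ ((subst τ)^[k] [b]).length)
    (hga : ∀ N : ℕ, ∃ k : ℕ, N ≤ ((subst τ)^[k] [a]).length) :
    ∃ (z : ℤ → A) (io : ℤ → ℤ), z 0 = b ∧ z (-1) = a ∧ io 0 = 0 ∧
      (∀ n, io (n + 1) = io n + (τ (z n)).length) ∧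
      ∀ (n : ℤ) (j : ℕ) (h : j < (τ (z n)).length), z (io n + j) = (τ (z n))[j] := by
  obtain ⟨x, s, hx0, hs0, hs, hx⟩ := right_fixed τ hne b w hb hgb
  obtain ⟨y, t, hy0, ht0, ht, hy⟩ := right_fixed (fun a => (τ a).reverse)
    (fun a => by simpa using hne a) a w'.reverse (by simp [ha])
    (fun N => by
      obtain ⟨k, hk⟩ := hga N
      refine ⟨k, ?_⟩
      have h := conE_rev_iter τ k [a]
      rw [List.reverse_singleton] at h
      rw [h, List.length_reverse]
      exact hk)
  refine ⟨fun n => if 0 ≤ n then x n.toNat else y (-1 - n).toNat,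
    fun n => if 0 ≤ n then (s n.toNat : ℤ) else - (t (-n).toNat : ℤ), ?_, ?_, ?_, ?_, ?_⟩
  · simpa using hx0
  · simpa using hy0
  · simpa using hs0
  · intro n
    rcases le_or_gt 0 n with hn | hn
    · have h1 : (n + 1).toNat = n.toNat + 1 := by omega
      simp only [hn, if_true, (by omega : (0 : ℤ) ≤ n + 1), h1, hs]
      push_cast
      ring
    · have h0 : ¬ (0 : ℤ) ≤ n := by omega
      simp only [h0, if_false]
      have h2 : (-n).toNat = (-1 - n).toNat + 1 := by omega
      have h3 := ht (-1 - n).toNat
      simp only [List.length_reverse] at h3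
      rcases le_or_gt 0 (n + 1) with hn1 | hn1
      · have h4 : n = -1 := by omega
        subst h4
        simp only [hn1, if_true]
        have h5 : (-1 - (-1 : ℤ)).toNat = 0 := by norm_num
        have h6 : (- (-1 : ℤ)).toNat = 1 := by norm_num
        have h7 : ((-1 : ℤ) + 1).toNat = 0 := by norm_num
        rw [h5] at h3
        rw [h5, h6, h7, hs0]
        simp only [ht0, zero_add] at h3
        rw [h3]
        push_cast
        ring
      · have h4 : ¬ (0 : ℤ) ≤ n + 1 := by omega
        simp only [h4, if_false]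
        have h5 : (-(n + 1)).toNat = (-1 - n).toNat := by omega
        rw [h5, h2, h3]
        push_cast
        ring
  · intro n j h
    rcases le_or_gt 0 n with hn | hn
    · simp only [hn, if_true] at h ⊢
      have h1 : (0 : ℤ) ≤ (s n.toNat : ℤ) + j := by positivity
      simp only [h1, if_true]
      have h2 : ((s n.toNat : ℤ) + j).toNat = s n.toNat + j := by omega
      rw [h2]
      exact hx n.toNat j h
    · have h0 : ¬ (0 : ℤ) ≤ n := by omega
      simp only [h0, if_false] at h ⊢
      have h2 : (-n).toNat = (-1 - n).toNat + 1 := by omega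
      have h3 := ht (-1 - n).toNat
      simp only [List.length_reverse] at h3
      have h4 := hy (-1 - n).toNat ((τ (y (-1 - n).toNat)).length - 1 - j)
        (by simp only [List.length_reverse]; omega)
      have h5 : ¬ (0 : ℤ) ≤ - (t (-n).toNat : ℤ) + j := by
        rw [h2, h3]
        push_cast
        omega
      simp only [h5, if_false]
      have h6 : (-1 - (- (t (-n).toNat : ℤ) + j)).toNat
          = t (-1 - n).toNat + ((τ (y (-1 - n).toNat)).length - 1 - j) := by
        rw [h2, h3]
        push_cast
        omega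
      rw [h6, h4]
      simp only [List.getElem_reverse]
      congr 1
      omega

end H69.ED
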