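import Mathlib
import Pool.Agent.H95.Edit.Pub

/-!
# ConF: factors of a two-sided fixed point

`z, io` with `io (n+1) = io n + |τ (z n)|`, `z (io n + j) = (τ (z n))[j]`, `io 0 = 0`.
`word_image`: `subst τ (word z n h) = word z (io n) (io (n+h) - io n)` (induction on `h`).
`word_iter`: `(subst τ)^[k] [z n] = word z (io^[k] n) ((subst τ)^[k] [z n]).length` and
`io^[k] (n+1) = io^[k] n + ((subst τ)^[k] [z n]).length` (induction on `k`, `word_image`).
`recur_of`: suppose `τ` is primitive (for `k ≥ k₀` every letter occurs in every `(subst τ)^[k] [a]`), the lengths of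
`(subst τ)^[k] [a]` are unbounded, and the two-letter word `[z (-1), z 0]` is a factor of `(subst τ)^[k₁] [c]` for some `c`, `k₁`. Then
(i) every word `word z p n` is a factor of some `(subst τ)^[k] [c']` for EVERY letter `c'` and all large `k`: choose `k` with
`io^[k] (-1) ≤ p`, `p + n ≤ io^[k] 1` (lengths unbounded), then `word z p n` is a factor of `(subst τ)^[k] [z (-1), z 0]`, a factor of
`(subst τ)^[k+k₁] [c]`, and `c` occurs in `(subst τ)^[j] [c']` for all large `j`.
(ii) conversely a factor of `(subst τ)^[k] [c]`, `k ≥ 0`, is a word of `z`: `c` occurs in `(subst τ)^[j] [z 0]`, and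
`(subst τ)^[j+k] [z 0]` is a word of `z` by `word_iter`.
(iii) uniform recurrence: given `n` there are finitely many words of length `n` (`A` finite); by (i) there is one `k` such that
each word of `z` of length `n` is a factor of `(subst τ)^[k] [c']` for every letter `c'`. Every window of `z` of length
`R = 2 max_c |(subst τ)^[k] [c]| + n` contains a complete block `[io^[k] m, io^[k] (m+1))`, which is `(subst τ)^[k] [z m]`.
-/

namespace H69.ED

open H95.Edit

variable {A : Type} {τ : A → List A} {z : ℤ → A} {io : ℤ → ℤ}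

private theorem ConF_subst_append (u v : List A) :
    subst τ (u ++ v) = subst τ u ++ subst τ v := List.flatMap_append

private theorem ConF_iter_append (k : ℕ) (u v : List A) :
    (subst τ)^[k] (u ++ v) = (subst τ)^[k] u ++ (subst τ)^[k] v := by
  induction k generalizing u v with
  | zero => rfl
  | succ k ih =>
    rw [Function.iterate_succ_apply, Function.iterate_succ_apply, Function.iterate_succ_apply,
      ConF_subst_append, ih]

private theorem ConF_iter_infix (k : ℕ) {u v : List A} (h : u <:+: v) :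
    (subst τ)^[k] u <:+: (subst τ)^[k] v := by
  obtain ⟨s, t, rfl⟩ := h
  rw [ConF_iter_append, ConF_iter_append]
  exact ⟨_, _, rfl⟩

private theorem ConF_word_add (z : ℤ → A) (a : ℤ) (n m : ℕ) :
    word z a (n + m) = word z a n ++ word z (a + n) m := by
  unfold word
  rw [List.range_add, List.map_append, List.map_map]
  congr 1
  apply List.map_congr_left
  intro i _
  simp only [Function.comp_apply, Nat.cast_add]
  congr 1
  ring

private theorem ConF_length (z : ℤ → A) (a : ℤ) (n : ℕ) : (word z a n).length = n := by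
  simp [word]

private theorem ConF_word_one (z : ℤ → A) (a : ℤ) : word z a 1 = [z a] := by
  simp [word]

private theorem ConF_tau_word
    (h2 : ∀ (n : ℤ) (j : ℕ) (h : j < (τ (z n)).length), z (io n + j) = (τ (z n))[j]) (m : ℤ) :
    τ (z m) = word z (io m) (τ (z m)).length := by
  apply List.ext_getElem
  · rw [ConF_length]
  · intro i hi hi'
    simp only [word, List.getElem_map, List.getElem_range]
    rw [h2 m i hi]

private theorem ConF_image (h1 : ∀ n, io (n + 1) = io n + (τ (z n)).length)
    (h2 : ∀ (n : ℤ) (j : ℕ) (h : j < (τ (z n)).length), z (io n + j) = (τ (z n))[j]) (h : ℕ)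
    (n : ℤ) : subst τ (word z n h) = word z (io n) (subst τ (word z n h)).length ∧
      io (n + h) = io n + (subst τ (word z n h)).length := by
  induction h with
  | zero => simp [word, subst]
  | succ h ih =>
    have e1 : subst τ (word z n (h + 1)) = subst τ (word z n h) ++ τ (z (n + h)) := by
      rw [ConF_word_add, ConF_subst_append, ConF_word_one]
      simp [subst]
    have e2 : io (n + ((h + 1 : ℕ) : ℤ)) = io n + (subst τ (word z n (h + 1))).length := by
      rw [e1, List.length_append, Nat.cast_add, Nat.cast_add, ← add_assoc, ← add_assoc, ← ih.2, ← h1]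
      simp
    refine ⟨?_, e2⟩
    rw [e1, List.length_append, ConF_word_add, ← ih.1, ← ih.2, ← ConF_tau_word h2]

private theorem ConF_iter (h1 : ∀ n, io (n + 1) = io n + (τ (z n)).length)
    (h2 : ∀ (n : ℤ) (j : ℕ) (h : j < (τ (z n)).length), z (io n + j) = (τ (z n))[j]) (h : ℕ)
    (k : ℕ) (n : ℤ) :
    (subst τ)^[k] (word z n h) = word z (io^[k] n) ((subst τ)^[k] (word z n h)).length ∧
      io^[k] (n + h) = io^[k] n + ((subst τ)^[k] (word z n h)).length := by
  induction k with
  | zero => simp [ConF_length]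
  | succ k ih =>
    rw [Function.iterate_succ_apply', Function.iterate_succ_apply', Function.iterate_succ_apply']
    generalize hl : ((subst τ)^[k] (word z n h)).length = l at ih
    rw [ih.1, ih.2]
    exact ConF_image h1 h2 l (io^[k] n)

theorem word_iter (h0 : io 0 = 0) (h1 : ∀ n, io (n + 1) = io n + (τ (z n)).length)
    (h2 : ∀ (n : ℤ) (j : ℕ) (h : j < (τ (z n)).length), z (io n + j) = (τ (z n))[j]) (k : ℕ)
    (n : ℤ) : (subst τ)^[k] [z n] = word z (io^[k] n) ((subst τ)^[k] [z n]).length ∧
      io^[k] (n + 1) = io^[k] n + ((subst τ)^[k] [z n]).length := by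
  have := ConF_iter h1 h2 1 k n
  rw [ConF_word_one] at this
  exact_mod_cast this

private theorem ConF_infix_word (z : ℤ → A) (a : ℤ) {s n m : ℕ} (h : s + n ≤ m) :
    word z (a + s) n <:+: word z a m := by
  obtain ⟨e, rfl⟩ := Nat.exists_eq_add_of_le h
  rw [ConF_word_add, ConF_word_add]
  exact ⟨_, _, rfl⟩

private theorem ConF_of_infix {z : ℤ → A} {a : ℤ} {m : ℕ} {w : List A} (h : w <:+: word z a m) :
    ∃ s : ℕ, s + w.length ≤ m ∧ w = word z (a + s) w.length := by
  obtain ⟨u, v, huv⟩ := h
  have hlen : u.length + w.length + v.length = m := by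
    have := congrArg List.length huv
    rw [ConF_length, List.length_append, List.length_append] at this
    exact this
  refine ⟨u.length, by omega, ?_⟩
  rw [← hlen, ConF_word_add, ConF_word_add] at huv
  have h3 := List.append_inj_left huv (by simp [ConF_length])
  exact List.append_inj_right h3 (by simp [ConF_length])

theorem words_of_fixed [Finite A] (h0 : io 0 = 0)
    (h1 : ∀ n, io (n + 1) = io n + (τ (z n)).length)
    (h2 : ∀ (n : ℤ) (j : ℕ) (h : j < (τ (z n)).length), z (io n + j) = (τ (z n))[j])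
    (hne : ∀ a, τ a ≠ []) (hp : ∃ k₀ : ℕ, ∀ m, k₀ ≤ m → ∀ a b : A, b ∈ (subst τ)^[m] [a])
    (hg : ∀ N : ℕ, ∃ k₀ : ℕ, ∀ k, k₀ ≤ k → ∀ a, N ≤ ((subst τ)^[k] [a]).length)
    (hab : ∃ (k : ℕ) (c : A), [z (-1), z 0] <:+: (subst τ)^[k] [c]) :
    (∀ (p : ℤ) (n : ℕ) (c : A), ∃ k₀ : ℕ, ∀ k, k₀ ≤ k → word z p n <:+: (subst τ)^[k] [c]) ∧
    (∀ (w : List A) (k : ℕ) (c : A), w <:+: (subst τ)^[k] [c] →
      ∃ p : ℤ, w = word z p w.length) ∧
    ∀ n : ℕ, ∃ R : ℕ, ∀ p q : ℤ, ∃ t : ℕ, t ≤ R ∧
      ∀ i : ℕ, i < n → z (q + t + i) = z (p + i) := by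
  classical
  have hz0 : ∀ k, io^[k] 0 = 0 := by
    intro k
    exact Function.iterate_fixed h0 k
  have hmem : ∀ (l : List A) (c : A), c ∈ l → [c] <:+: l := by
    intro l c hc
    obtain ⟨s, t, rfl⟩ := List.append_of_mem hc
    exact ⟨s, t, by simp⟩
  obtain ⟨k₀, hk₀⟩ := hp
  have part1 : ∀ (p : ℤ) (n : ℕ) (c : A), ∃ k₀ : ℕ, ∀ k, k₀ ≤ k →
      word z p n <:+: (subst τ)^[k] [c] := by
    intro p n c
    obtain ⟨kc, c1, hc1⟩ := hab
    obtain ⟨k1, hk1⟩ := hg (p.natAbs + n)
    have e1 := ConF_iter h1 h2 2 k1 (-1)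
    have e2 := word_iter h0 h1 h2 k1 (-1)
    have e3 := word_iter h0 h1 h2 k1 0
    have e4 : io^[k1] (-1) ≤ -((p.natAbs + n : ℕ) : ℤ) := by
      have h3 := e2.2
      rw [show (-1 : ℤ) + 1 = 0 by ring, hz0] at h3
      have h4 := hk1 k1 le_rfl (z (-1))
      omega
    have e5 : ((p.natAbs + n : ℕ) : ℤ) ≤ io^[k1] 1 := by
      have h3 := e3.2
      rw [zero_add, hz0] at h3
      have h4 := hk1 k1 le_rfl (z 0)
      omega
    have e6 : word z p n <:+: (subst τ)^[k1] (word z (-1) 2) := by
      rw [e1.1]
      have h5 := e1.2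
      rw [show (-1 : ℤ) + ((2 : ℕ) : ℤ) = 1 by norm_num] at h5
      obtain ⟨s, hs⟩ : ∃ s : ℕ, p = io^[k1] (-1) + s := ⟨(p - io^[k1] (-1)).toNat, by omega⟩
      rw [hs]
      apply ConF_infix_word
      omega
    have e7 : word z (-1) 2 = [z (-1), z 0] := by
      simp [word, List.range_succ]
    rw [e7] at e6
    refine ⟨k1 + (kc + k₀), ?_⟩
    intro k hk
    obtain ⟨j, rfl⟩ := Nat.exists_eq_add_of_le hk
    have e8 : [z (-1), z 0] <:+: (subst τ)^[kc + (k₀ + j)] [c] := by
      rw [Function.iterate_add_apply]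
      exact hc1.trans (ConF_iter_infix kc (hmem _ _ (hk₀ (k₀ + j) (by omega) c c1)))
    have e9 := ConF_iter_infix (τ := τ) k1 e8
    rw [← Function.iterate_add_apply] at e9
    rw [show k1 + (kc + k₀) + j = k1 + (kc + (k₀ + j)) by ring]
    exact e6.trans e9
  refine ⟨part1, ?_, ?_⟩
  · intro w k c hw
    have e1 : w <:+: (subst τ)^[k + k₀] [z 0] := by
      rw [Function.iterate_add_apply]
      exact hw.trans (ConF_iter_infix k (hmem _ _ (hk₀ k₀ le_rfl (z 0) c)))
    rw [(word_iter h0 h1 h2 (k + k₀) 0).1] at e1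
    obtain ⟨s, -, hs⟩ := ConF_of_infix e1
    exact ⟨_, hs⟩
  · intro n
    have hfin : (Set.range (fun p : ℤ => word z p n)).Finite := by
      apply (List.finite_length_eq A n).subset
      rintro _ ⟨p, rfl⟩
      exact ConF_length z p n
    have hev : ∀ᶠ k in Filter.atTop, ∀ w ∈ Set.range (fun p : ℤ => word z p n), ∀ c : A,
        w <:+: (subst τ)^[k] [c] := by
      rw [Filter.eventually_all_finite hfin]
      rintro _ ⟨p, rfl⟩
      rw [Filter.eventually_all]
      intro c
      obtain ⟨k, hk⟩ := part1 p n c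
      exact Filter.eventually_atTop.2 ⟨k, hk⟩
    obtain ⟨k, hk⟩ := hev.exists
    obtain ⟨M, hM⟩ : ∃ M : ℕ, ∀ c, ((subst τ)^[k] [c]).length ≤ M := by
      obtain ⟨M, hM⟩ := (Set.finite_range (fun c : A => ((subst τ)^[k] [c]).length)).bddAbove
      exact ⟨M, fun c => hM ⟨c, rfl⟩⟩
    have hpos : ∀ (k : ℕ) (l : List A), l ≠ [] → (subst τ)^[k] l ≠ [] := by
      intro k
      induction k with
      | zero => intro l h; exact h
      | succ k ih =>
        intro l h
        rw [Function.iterate_succ_apply]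
        apply ih
        obtain ⟨a, l, rfl⟩ := List.exists_cons_of_ne_nil h
        intro hcon
        rw [subst, List.flatMap_cons, List.append_eq_nil_iff] at hcon
        exact hne a hcon.1
    have hstep : ∀ m : ℤ, io^[k] m + 1 ≤ io^[k] (m + 1) := by
      intro m
      rw [(word_iter h0 h1 h2 k m).2]
      have := List.length_pos_iff.2 (hpos k [z m] (by simp))
      omega
    have hup : ∀ m : ℕ, (m : ℤ) ≤ io^[k] m := by
      intro m
      induction m with
      | zero => simp [hz0]
      | succ m ih =>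
        have := hstep m
        push_cast
        omega
    have hdn : ∀ m : ℕ, io^[k] (-(m : ℤ)) ≤ -(m : ℤ) := by
      intro m
      induction m with
      | zero => simp [hz0]
      | succ m ih =>
        have := hstep (-((m : ℤ) + 1))
        rw [show -((m : ℤ) + 1) + 1 = -(m : ℤ) by ring] at this
        push_cast
        omega
    refine ⟨2 * M, ?_⟩
    intro p q
    obtain ⟨m, hm1, hm2⟩ := Int.exists_least_of_bdd (P := fun m => q ≤ io^[k] m)
      ⟨-(q.natAbs : ℤ), by
        intro m hm
        by_contra hcon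
        push Not at hcon
        have h3 := hdn m.natAbs
        have h4 : -((m.natAbs : ℕ) : ℤ) = m := by omega
        rw [h4] at h3
        omega⟩
      ⟨(q.natAbs : ℤ), by
        have := hup q.natAbs
        omega⟩
    have hm3 : io^[k] (m - 1) < q := by
      by_contra hcon
      push Not at hcon
      have := hm2 (m - 1) hcon
      omega
    have hm4 : io^[k] m ≤ io^[k] (m - 1) + M := by
      have h3 := (word_iter h0 h1 h2 k (m - 1)).2
      rw [sub_add_cancel] at h3
      have h4 := hM (z (m - 1))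
      omega
    have h5 := hk (word z p n) ⟨p, rfl⟩ (z m)
    rw [(word_iter h0 h1 h2 k m).1] at h5
    obtain ⟨s, hs1, hs2⟩ := ConF_of_infix h5
    rw [ConF_length] at hs1 hs2
    have h6 := hM (z m)
    refine ⟨(io^[k] m + s - q).toNat, by omega, ?_⟩
    intro i hi
    have h7 : (word z p n)[i]? = (word z (io^[k] m + s) n)[i]? := by rw [← hs2]
    simp only [word, List.getElem?_map, List.getElem?_range hi, Option.map_some,
      Option.some.injEq] at h7
    rw [h7]
    congr 1
    omega

end H69.ED
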