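import Mathlib
import Pool.Agent.H95.Edit.Pub

/-!
# ConG: a power with a fixed pair

`σ` primitive, at least two letters. Facts: `σ a ≠ []` (otherwise `(subst σ)^[m] [a] = []` for `m ≥ 1`);
`(subst σ)^[k] [a]` contains all letters for `k ≥ k₀`, so its length is at least two, and the lengths tend to infinity:
`|(subst σ)^[k+k₀] [a]| ≥ 2 |(subst σ)^[k] [a]|` (every letter of `(subst σ)^[k] [a]` contributes at least two). Iterates:
`(subst σ)^[k]` is the substitution of `a ↦ (subst σ)^[k] [a]` (`subst σ` is compatible with concatenation), so with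
`τ a = (subst σ)^[K] [a]` one has `(subst τ)^[k] [a] = (subst σ)^[K k] [a]`.

Pairs: call `(a,b)` admissible if `[a,b]` is a factor of some `(subst σ)^[k] [c]`. There is an admissible pair (a word of
length at least two). If `(a,b)` is admissible then so is (last letter of `σ a`, first letter of `σ b`). This defines a
self-map of the finite set of admissible pairs, so some admissible pair `(a,b)` is periodic, with period `K ≥ 1`
(`exists periodic point of a self-map of a finite nonempty type`): the last letter of `(subst σ)^[K] [a]` is `a`, the first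
letter of `(subst σ)^[K] [b]` is `b` (first letters: the first letter of `(subst σ)^[k] [b]` is the `k`-th iterate of the
first-letter map).
-/

namespace H69.ED

open H95.Edit

private theorem conG_append {A : Type} (σ : A → List A) (u v : List A) :
    subst σ (u ++ v) = subst σ u ++ subst σ v := by
  unfold subst
  exact List.flatMap_append

private theorem conG_nil {A : Type} (σ : A → List A) : subst σ [] = [] := rfl

private theorem conG_cons {A : Type} (σ : A → List A) (a : A) (v : List A) :
    subst σ (a :: v) = σ a ++ subst σ v := by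
  unfold subst
  exact List.flatMap_cons

private theorem conG_iter_append {A : Type} (σ : A → List A) (k : ℕ) (u v : List A) :
    (subst σ)^[k] (u ++ v) = (subst σ)^[k] u ++ (subst σ)^[k] v := by
  induction k generalizing u v with
  | zero => rfl
  | succ k ih =>
    rw [Function.iterate_succ_apply, Function.iterate_succ_apply, Function.iterate_succ_apply,
      conG_append, ih]

private theorem conG_iter_nil {A : Type} (σ : A → List A) (k : ℕ) :
    (subst σ)^[k] [] = [] := by
  induction k with
  | zero => rfl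
  | succ k ih => rw [Function.iterate_succ_apply, conG_nil, ih]

private theorem conG_iter_cons {A : Type} (σ : A → List A) (k : ℕ) (a : A) (v : List A) :
    (subst σ)^[k] (a :: v) = (subst σ)^[k] [a] ++ (subst σ)^[k] v := by
  have h := conG_iter_append σ k [a] v
  rw [List.singleton_append] at h
  exact h

private theorem conG_flat {A : Type} (σ : A → List A) (K : ℕ) (w : List A) :
    subst (fun a => (subst σ)^[K] [a]) w = (subst σ)^[K] w := by
  induction w with
  | nil => rw [conG_nil, conG_iter_nil]
  | cons a w ih => rw [conG_cons, ih, conG_iter_cons σ K a w]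

theorem subst_pow {A : Type} (σ : A → List A) (K k : ℕ) (a : A) :
    (subst (fun a => (subst σ)^[K] [a]))^[k] [a] = (subst σ)^[K * k] [a] := by
  have h : subst (fun a => (subst σ)^[K] [a]) = (subst σ)^[K] := by
    funext w
    exact conG_flat σ K w
  rw [h, Function.iterate_mul]

theorem iter_infix {A : Type} (σ : A → List A) (k : ℕ) {u v : List A} (h : u <:+: v) :
    (subst σ)^[k] u <:+: (subst σ)^[k] v := by
  obtain ⟨s, t, rfl⟩ := h
  rw [conG_iter_append, conG_iter_append]
  exact ⟨_, _, rfl⟩

theorem prim_ne {A : Type} [Nonempty A] (σ : A → List A) (hp : Primitive σ) (a : A) :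
    σ a ≠ [] := by
  intro h
  obtain ⟨k, hk⟩ := hp
  have h1 := hk (k + 1) (by omega) a a
  rw [Function.iterate_succ_apply, conG_cons, h, conG_nil, List.nil_append, conG_iter_nil] at h1
  simp at h1

private theorem conG_two {A : Type} [Nontrivial A] (σ : A → List A) (k : ℕ)
    (hk : ∀ m : ℕ, k ≤ m → ∀ a b : A, b ∈ (subst σ)^[m] [a]) (m : ℕ) (hm : k ≤ m) (a : A) :
    2 ≤ ((subst σ)^[m] [a]).length := by
  obtain ⟨b, c, hbc⟩ := exists_pair_ne A
  have hb := hk m hm a b
  have hc := hk m hm a c
  generalize (subst σ)^[m] [a] = l at hb hc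
  match l, hb, hc with
  | [], hb, _ => simp at hb
  | [x], hb, hc =>
    rw [List.mem_singleton] at hb hc
    exact absurd (hb.trans hc.symm) hbc
  | x :: y :: l, _, _ => simp

private theorem conG_dbl {A : Type} (σ : A → List A) (k : ℕ)
    (hk : ∀ a, 2 ≤ ((subst σ)^[k] [a]).length) (w : List A) :
    2 * w.length ≤ ((subst σ)^[k] w).length := by
  induction w with
  | nil => simp
  | cons a w ih =>
    rw [conG_iter_cons, List.length_append, List.length_cons]
    have := hk a
    omega

theorem prim_grow {A : Type} [Finite A] [Nontrivial A] (σ : A → List A) (hp : Primitive σ) :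
    ∀ N : ℕ, ∃ k₀ : ℕ, ∀ k, k₀ ≤ k → ∀ a, N ≤ ((subst σ)^[k] [a]).length := by
  obtain ⟨k, hk⟩ := hp
  intro N
  induction N with
  | zero => exact ⟨0, fun _ _ _ => Nat.zero_le _⟩
  | succ N ih =>
    rcases Nat.eq_zero_or_pos N with h0 | h0
    · subst h0
      refine ⟨k, fun m hm a => ?_⟩
      have := conG_two σ k hk m hm a
      omega
    · obtain ⟨k₀, hk₀⟩ := ih
      refine ⟨k + k₀, fun m hm a => ?_⟩
      obtain ⟨j, rfl⟩ : ∃ j, m = k + j := ⟨m - k, by omega⟩
      rw [Function.iterate_add_apply]
      have h1 := conG_dbl σ k (fun a => conG_two σ k hk k le_rfl a) ((subst σ)^[j] [a])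
      have h2 := hk₀ j (by omega) a
      omega

private theorem conG_first {A : Type} (σ : A → List A) (g : A → A)
    (hg : ∀ a, ∃ w, σ a = g a :: w) (k : ℕ) (b : A) :
    ∃ w, (subst σ)^[k] [b] = g^[k] b :: w := by
  induction k with
  | zero => exact ⟨[], rfl⟩
  | succ k ih =>
    obtain ⟨w, hw⟩ := ih
    obtain ⟨v, hv⟩ := hg (g^[k] b)
    refine ⟨v ++ subst σ w, ?_⟩
    rw [Function.iterate_succ_apply', hw, conG_cons, hv, Function.iterate_succ_apply']
    rfl

private theorem conG_last {A : Type} (σ : A → List A) (g : A → A)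
    (hg : ∀ a, ∃ w, σ a = w ++ [g a]) (k : ℕ) (b : A) :
    ∃ w, (subst σ)^[k] [b] = w ++ [g^[k] b] := by
  induction k with
  | zero => exact ⟨[], rfl⟩
  | succ k ih =>
    obtain ⟨w, hw⟩ := ih
    obtain ⟨v, hv⟩ := hg (g^[k] b)
    refine ⟨subst σ w ++ v, ?_⟩
    rw [Function.iterate_succ_apply', hw, conG_append, conG_cons, conG_nil, hv,
      Function.iterate_succ_apply']
    simp

theorem exists_pair {A : Type} [Finite A] [Nontrivial A] (σ : A → List A) (hp : Primitive σ) :
    ∃ (K : ℕ) (a b : A) (w w' : List A), 1 ≤ K ∧ (subst σ)^[K] [b] = b :: w ∧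
      (subst σ)^[K] [a] = w' ++ [a] ∧ ∃ (k : ℕ) (c : A), [a, b] <:+: (subst σ)^[k] [c] := by
  have hne : ∀ a, σ a ≠ [] := prim_ne σ hp
  let g : A → A := fun a => (σ a).head (hne a)
  let h : A → A := fun a => (σ a).getLast (hne a)
  have hg : ∀ a, ∃ w, σ a = g a :: w := fun a => ⟨(σ a).tail, (List.cons_head_tail (hne a)).symm⟩
  have hh : ∀ a, ∃ w, σ a = w ++ [h a] := fun a =>
    ⟨(σ a).dropLast, (List.dropLast_append_getLast (hne a)).symm⟩
  -- an admissible pair
  obtain ⟨p, hadm⟩ : ∃ p : A × A, ∃ (k : ℕ) (c : A), [p.1, p.2] <:+: (subst σ)^[k] [c] := by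
    obtain ⟨c⟩ : Nonempty A := inferInstance
    obtain ⟨k₀, hk₀⟩ := prim_grow σ hp 2
    have h2 := hk₀ k₀ le_rfl c
    match hl : (subst σ)^[k₀] [c], h2 with
    | [], h2 => simp at h2
    | [x], h2 => simp at h2
    | x :: y :: l, _ => exact ⟨(x, y), k₀, c, by rw [hl]; exact ⟨[], l, rfl⟩⟩
  -- invariance
  have hinv : ∀ n : ℕ, ∃ (k : ℕ) (c : A),
      [((Prod.map h g)^[n] p).1, ((Prod.map h g)^[n] p).2] <:+: (subst σ)^[k] [c] := by
    intro n
    induction n with
    | zero => exact hadm
    | succ n ih =>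
      obtain ⟨k, c, hk⟩ := ih
      refine ⟨k + 1, c, ?_⟩
      rw [Function.iterate_succ_apply' (f := subst σ)]
      have h1 := iter_infix σ 1 hk
      rw [Function.iterate_one] at h1
      rw [Function.iterate_succ_apply']
      generalize (Prod.map h g)^[n] p = q at h1 ⊢
      refine List.IsInfix.trans ?_ h1
      obtain ⟨v, hv⟩ := hh q.1
      obtain ⟨w, hw⟩ := hg q.2
      rw [conG_cons, conG_cons, conG_nil, hv, hw]
      exact ⟨v, w, by simp⟩
  obtain ⟨m, n, hmn, hmn'⟩ := Finite.exists_ne_map_eq_of_infinite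
    (fun n : ℕ => (Prod.map h g)^[n] p)
  wlog hlt : m < n generalizing m n
  · exact this n m hmn.symm hmn'.symm (by omega)
  obtain ⟨K, hK, rfl⟩ : ∃ K, 1 ≤ K ∧ n = K + m := ⟨n - m, by omega, by omega⟩
  rw [Function.iterate_add_apply] at hmn'
  obtain ⟨k, c, hkc⟩ := hinv m
  generalize (Prod.map h g)^[m] p = q at hmn' hkc
  rw [Prod.map_iterate] at hmn'
  obtain ⟨w, hw⟩ := conG_first σ g hg K q.2
  obtain ⟨w', hw'⟩ := conG_last σ h hh K q.1
  have e1 : h^[K] q.1 = q.1 := (congrArg Prod.fst hmn').symm
  have e2 : g^[K] q.2 = q.2 := (congrArg Prod.snd hmn').symm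
  rw [e2] at hw
  rw [e1] at hw'
  exact ⟨K, q.1, q.2, w, w', hK, hw, hw', k, c, hkc⟩

end H69.ED
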