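import Mathlib
import Pool.Agent.H95.Edit.Pub

/-!
# ConM: the matrix of a substitution

`sum_count`: `Finset.sum_list_map_count`-type statement; induction on the list.
`pow_count`: the entries of the `k`-th power of the matrix `M a b = count b (τ a)` are the numbers of letters of
`(subst τ)^[k] [a]`: `(subst τ)^[k+1] [a] = (subst τ)^[k] (τ a)` is the concatenation of the `(subst τ)^[k] [c]` over the
letters `c` of `τ a`; `sum_count`, `M^(k+1) = M * M^k`.
-/

namespace H69.ED

open H95.Edit

theorem sum_count {A R : Type} [Fintype A] [DecidableEq A] [CommSemiring R] (l : List A)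
    (g : A → R) : (l.map g).sum = ∑ b, (l.count b : R) * g b := by
  induction l with
  | nil => simp
  | cons a l ih =>
    rw [List.map_cons, List.sum_cons, ih]
    have h : ∀ b, ((List.count b (a :: l) : ℕ) : R) * g b =
        (l.count b : R) * g b + (if b = a then g b else 0) := by
      intro b
      rw [List.count_cons]
      by_cases hb : b = a
      · subst hb
        simp [add_mul]
      · have : ¬ a = b := fun h => hb h.symm
        simp [hb, this]
    simp_rw [h]
    rw [Finset.sum_add_distrib, Finset.sum_ite_eq' Finset.univ a g]
    simp only [Finset.mem_univ, if_true]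
    rw [add_comm]

private theorem conM_append {A : Type} (τ : A → List A) (k : ℕ) (x y : List A) :
    (subst τ)^[k] (x ++ y) = (subst τ)^[k] x ++ (subst τ)^[k] y := by
  induction k generalizing x y with
  | zero => rfl
  | succ k ih =>
    rw [Function.iterate_succ_apply, Function.iterate_succ_apply, Function.iterate_succ_apply,
      ← ih]
    congr 1
    simp [subst]

private theorem conM_nil {A : Type} (τ : A → List A) (k : ℕ) :
    (subst τ)^[k] ([] : List A) = [] := by
  induction k with
  | zero => rfl
  | succ k ih =>
    rw [Function.iterate_succ_apply]
    simpa [subst] using ih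

private theorem conM_count {A : Type} [DecidableEq A] (τ : A → List A) (k : ℕ) (b : A)
    (l : List A) : ((((subst τ)^[k] l).count b : ℕ) : ℝ) =
      (l.map fun c => ((((subst τ)^[k] [c]).count b : ℕ) : ℝ)).sum := by
  induction l with
  | nil => simp [conM_nil]
  | cons a l ih =>
    have h : a :: l = [a] ++ l := rfl
    rw [List.map_cons, List.sum_cons, ← ih, h, conM_append, List.count_append, Nat.cast_add]

theorem pow_count {A : Type} [Fintype A] [DecidableEq A] (τ : A → List A) (k : ℕ) (a b : A) :
    ((Matrix.of fun a b : A => ((τ a).count b : ℝ)) ^ k) a b =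
      (((subst τ)^[k] [a]).count b : ℝ) := by
  induction k generalizing a with
  | zero =>
    rw [pow_zero, Function.iterate_zero, id, Matrix.one_apply]
    by_cases h : a = b
    · subst h; simp
    · simp [h]
  | succ k ih =>
    rw [pow_succ', Matrix.mul_apply, Function.iterate_succ_apply]
    have h1 : subst τ [a] = τ a := by simp [subst]
    rw [h1, conM_count, sum_count]
    refine Finset.sum_congr rfl fun c _ => ?_
    rw [Matrix.of_apply, ih]

end H69.ED
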