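import Pool.Agent.H69.ED.Defs
import Pool.Agent.H69.ED.ConA
import Pool.Agent.H69.ED.ConB
import Pool.Agent.H69.ED.ConC
import Pool.Agent.H69.ED.ConE
import Pool.Agent.H69.ED.ConF
import Pool.Agent.H69.ED.ConG
import Pool.Agent.H69.ED.ConM

/-!
# ConH: every primitive substitution gives a system `Geo` (assembly, proved)
-/

namespace H69.ED

open H95.Edit

open Classical in
theorem construct {A : Type} [Fintype A] [Nontrivial A] (σ : A → List A) (hp : Primitive σ) :
    ∃ (K : Type) (_ : Field K) (_ : NumberField K) (G : Geo A K),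
      ∀ n, Words σ n = Set.range (fun a : ℤ => word G.z a n) := by
  obtain ⟨K0, a, b, w, w', hK, hb, ha, hab⟩ := exists_pair σ hp
  obtain ⟨k₀, hk₀⟩ := id hp
  set τ : A → List A := fun a => (subst σ)^[K0] [a] with hτ
  have hpow : ∀ (k : ℕ) (a : A), (subst τ)^[k] [a] = (subst σ)^[K0 * k] [a] := fun k a =>
    subst_pow σ K0 k a
  have hpτ : ∃ k₀ : ℕ, ∀ m, k₀ ≤ m → ∀ a b : A, b ∈ (subst τ)^[m] [a] := by
    refine ⟨k₀, fun m hm a b => ?_⟩
    rw [hpow]
    exact hk₀ _ (hm.trans (Nat.le_mul_of_pos_left _ hK)) a b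
  have hneτ : ∀ a, τ a ≠ [] := by
    apply prim_ne
    exact hpτ
  have hgτ : ∀ N : ℕ, ∃ k₀ : ℕ, ∀ k, k₀ ≤ k → ∀ a, N ≤ ((subst τ)^[k] [a]).length := by
    intro N
    obtain ⟨k₁, hk₁⟩ := prim_grow σ hp N
    refine ⟨k₁, fun k hk a => ?_⟩
    rw [hpow]
    exact hk₁ _ (hk.trans (Nat.le_mul_of_pos_left _ hK)) a
  obtain ⟨z, io, hz0, hz1, hio0, hio1, himg⟩ := two_sided τ hneτ a b w w' hb ha
    (fun N => by obtain ⟨k, h⟩ := hgτ N; exact ⟨k, h k le_rfl b⟩)
    (fun N => by obtain ⟨k, h⟩ := hgτ N; exact ⟨k, h k le_rfl a⟩)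
  have hab' : ∃ (k : ℕ) (c : A), [z (-1), z 0] <:+: (subst τ)^[k] [c] := by
    obtain ⟨k, c, hkc⟩ := hab
    rw [hz0, hz1]
    -- bring the exponent to a multiple of `K0`
    have h1 : k ≤ K0 * (k + k₀) := by nlinarith
    have h2 : c ∈ (subst σ)^[K0 * (k + k₀) - k] [c] := by
      apply hk₀
      have : k + k₀ ≤ K0 * (k + k₀) := Nat.le_mul_of_pos_left _ hK
      omega
    refine ⟨k + k₀, c, ?_⟩
    rw [hpow]
    have h3 : K0 * (k + k₀) = k + (K0 * (k + k₀) - k) := by omega
    rw [h3, Function.iterate_add_apply]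
    exact hkc.trans (iter_infix σ k ((List.singleton_infix_iff _ _).2 h2))
  obtain ⟨hw1, hw2, hrec⟩ := words_of_fixed hio0 hio1 himg hneτ hpτ hgτ hab'
  have hWords : ∀ n, Words σ n = Set.range (fun a : ℤ => word z a n) := by
    intro n
    ext u
    constructor
    · rintro ⟨hu, k, c, hk, huk⟩
      have h1 : k ≤ K0 * (k + k₀) := by nlinarith
      have h2 : c ∈ (subst σ)^[K0 * (k + k₀) - k] [c] := by
        apply hk₀
        have : k + k₀ ≤ K0 * (k + k₀) := Nat.le_mul_of_pos_left _ hK
        omega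
      have h3 : K0 * (k + k₀) = k + (K0 * (k + k₀) - k) := by omega
      have h4 : u <:+: (subst τ)^[k + k₀] [c] := by
        rw [hpow, h3, Function.iterate_add_apply]
        exact huk.trans (iter_infix σ k ((List.singleton_infix_iff _ _).2 h2))
      obtain ⟨p, hp'⟩ := hw2 u _ c h4
      exact ⟨p, by simp only; rw [← hu]; exact hp'.symm⟩
    · rintro ⟨p, rfl⟩
      refine ⟨by simp [word], ?_⟩
      obtain ⟨k₁, h⟩ := hw1 p n a
      have h2 := h (k₁ + 1) (by omega)
      rw [hpow] at h2
      exact ⟨K0 * (k₁ + 1), a, by nlinarith, h2⟩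
  -- letters occur
  have hocc : ∀ x : A, ∃ n : ℤ, z n = x := by
    intro x
    obtain ⟨k₂, h⟩ := hpτ
    have h1 := h k₂ le_rfl x x
    obtain ⟨p, hp'⟩ := hw2 [x] k₂ x ((List.singleton_infix_iff _ _).2 h1)
    refine ⟨p, ?_⟩
    simp only [List.length_singleton, word, List.range_one, List.map_cons, List.map_nil,
      List.cons.injEq, and_true, Nat.cast_zero, add_zero] at hp'
    exact hp'.symm
  -- Perron theory
  set M : Matrix A A ℝ := Matrix.of fun a b : A => ((τ a).count b : ℝ) with hM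
  have hM0 : ∀ i j, 0 ≤ M i j := fun i j => Nat.cast_nonneg _
  obtain ⟨kp, hkp⟩ := id hpτ
  have hMk : ∀ i j, 0 < (M ^ (kp + 1)) i j := by
    intro i j
    rw [hM, pow_count]
    exact_mod_cast List.count_pos_iff.2 (hkp (kp + 1) (by omega) i j)
  obtain ⟨θ, x, hθ, hx, hMx⟩ := perron M hM0 (by omega : 1 ≤ kp + 1) hMk
  obtain ⟨θ', y, hθ', hy, hMy⟩ := perron M.transpose (fun i j => hM0 j i)
    (by omega : 1 ≤ kp + 1) (fun i j => by rw [← Matrix.transpose_pow]; exact hMk j i)
  rw [Matrix.mulVec_transpose] at hMy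
  have hθθ : θ' = θ := by
    have h1 : (Matrix.vecMul y M) ⬝ᵥ x = y ⬝ᵥ (M.mulVec x) := (Matrix.dotProduct_mulVec y M x).symm
    rw [hMy, hMx, smul_dotProduct, dotProduct_smul, smul_eq_mul, smul_eq_mul] at h1
    have h2 : 0 < y ⬝ᵥ x := Finset.sum_pos (fun i _ => mul_pos (hy i) (hx i)) Finset.univ_nonempty
    exact mul_right_cancel₀ h2.ne' h1
  rw [hθθ] at hMy
  have hcount : ∀ (R : Type) [CommSemiring R] (g : A → R) (a : A),
      ((τ a).map g).sum = ∑ b, ((τ a).count b : R) * g b := fun R _ g a => sum_count _ g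
  have hxe : ∀ a, ∑ b, (((τ a).count b : ℕ) : ℝ) * x b = θ * x a := by
    intro a
    have := congrFun hMx a
    simpa [Matrix.mulVec, dotProduct, hM] using this
  obtain ⟨K, iF, iN, re, lam, ell, hre, hlam, hell, hone, heig, hgen⟩ :=
    field_vector (fun a b => (τ a).count b) hx hxe (by
      intro u hu
      apply eig_unique M hMk hx hMx
      funext a
      simpa [Matrix.mulVec, dotProduct, hM] using hu a)
  have hone_lt : 1 < θ := by
    -- the image of a letter under a power contains all letters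
    by_contra hcon
    push Not at hcon
    have h1 : ∀ k : ℕ, (M ^ k).mulVec x = θ ^ k • x := by
      intro k
      induction k with
      | zero => simp
      | succ k ih => rw [pow_succ, ← Matrix.mulVec_mulVec, hMx, Matrix.mulVec_smul, ih, smul_smul,
          pow_succ, mul_comm]
    obtain ⟨c, hc⟩ : ∃ c : A, ∀ b, x b ≤ x c := Finite.exists_max x
    obtain ⟨d, hd⟩ := exists_ne c
    have h2 := congrFun (h1 (kp + 1)) c
    have h3 : x c + x d ≤ (M ^ (kp + 1)).mulVec x c := by
      have h4 : ∀ b, x b ≤ (M ^ (kp + 1)) c b * x b := by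
        intro b
        have h5 : (1 : ℝ) ≤ (M ^ (kp + 1)) c b := by
          have h6 := hMk c b
          rw [hM, pow_count] at h6 ⊢
          exact_mod_cast h6
        nlinarith [hx b]
      calc x c + x d = ∑ b ∈ ({c, d} : Finset A), x b := by
            rw [Finset.sum_pair hd.symm]
        _ ≤ ∑ b, x b := Finset.sum_le_sum_of_subset_of_nonneg (Finset.subset_univ _)
            (fun b _ _ => (hx b).le)
        _ ≤ ∑ b, (M ^ (kp + 1)) c b * x b := Finset.sum_le_sum fun b _ => h4 b
        _ = _ := rfl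
    rw [h2, Pi.smul_apply, smul_eq_mul] at h3
    have h7 : θ ^ (kp + 1) ≤ 1 := pow_le_one₀ hθ.le hcon
    nlinarith [hx c, hx d]
  have hMC : ∀ (g : A → ℂ) (a : A), ((τ a).map g).sum = ∑ b, ((M a b : ℝ) : ℂ) * g b := by
    intro g a
    rw [hcount ℂ g a]
    apply Finset.sum_congr rfl
    intro b _
    simp [hM]
  refine ⟨K, iF, iN, ⟨τ, z, io, re, lam, ell,
    fun n => if 0 ≤ n then ∑ i ∈ Finset.range n.toNat, ell (z i)
      else - ∑ i ∈ Finset.range (-n).toNat, ell (z (-1 - (i : ℤ))),
    y, hneτ, hio0, hio1, himg, hrec, hocc, by rw [hre]; exact hone_lt, hlam, hell, hone,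
    fun a => by rw [hcount K ell a]; exact heig a, by simp, ?_, ?_, ?_, hy, ?_⟩, hWords⟩
  · -- positions
    intro n
    rcases lt_trichotomy n (-1) with h | h | h
    · have e1 : ¬ (0 ≤ n + 1) := by omega
      have e2 : ¬ (0 ≤ n) := by omega
      rw [if_neg e1, if_neg e2]
      have e3 : (-n).toNat = (-(n + 1)).toNat + 1 := by omega
      rw [e3, Finset.sum_range_succ]
      have e4 : -1 - (((-(n + 1)).toNat : ℕ) : ℤ) = n := by omega
      rw [e4]
      ring
    · subst h
      simp
    · have e1 : 0 ≤ n + 1 := by omega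
      have e2 : 0 ≤ n := by omega
      rw [if_pos e1, if_pos e2]
      have e3 : (n + 1).toNat = n.toNat + 1 := by omega
      rw [e3, Finset.sum_range_succ]
      congr 3
      omega
  · -- dominance
    intro φ hφ
    by_contra hcon
    push Not at hcon
    have h1 : φ lam ≠ ((re lam : ℝ) : ℂ) := by
      intro h
      exact hφ (hgen φ (Complex.ofRealHom.comp re) h)
    have h2 : (fun a => φ (ell a)) = 0 := by
      apply eig_zero M hM0 hMk hθ hy hMy (μ := φ lam) (by rw [← hre]; exact hcon)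
        (by rw [← hre]; exact h1)
      intro a
      have h3 := congrArg φ (heig a)
      rw [map_sum, map_mul] at h3
      rw [← h3]
      apply Finset.sum_congr rfl
      intro b _
      simp [hM]
    have h3 := congrFun h2 (Classical.arbitrary A)
    have h4 : ell (Classical.arbitrary A) = 0 := by
      have : φ (ell (Classical.arbitrary A)) = 0 := h3
      exact (map_eq_zero φ).1 this
    have h5 := hone (Classical.arbitrary A)
    rw [h4, map_zero] at h5
    linarith
  · -- solvability
    intro μ hμ hμ1 g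
    rw [hre] at hμ hμ1
    obtain ⟨u, hu⟩ := solv_of M hM0 hMk hθ hy hMy hμ hμ1 g
    refine ⟨u, fun a => ?_⟩
    rw [hMC, hu a]
  · -- frequencies
    intro f
    rw [hre]
    have h1 : ∀ b, ∑ a, y a * M a b = θ * y b := by
      intro b
      have := congrFun hMy b
      simpa [Matrix.vecMul, dotProduct] using this
    have h2 : ∀ a, y a * ((τ a).map f).sum = ∑ b, y a * M a b * f b := by
      intro a
      rw [hcount ℝ f a, Finset.mul_sum]
      apply Finset.sum_congr rfl
      intro b _
      rw [← mul_assoc]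
      rfl
    simp only [h2]
    rw [Finset.sum_comm]
    simp only [← Finset.sum_mul, h1]
    rw [Finset.mul_sum]
    apply Finset.sum_congr rfl
    intro b _
    ring

end H69.ED
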