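import Mathlib
import Pool.Agent.H95.Edit.Defs

/-!
# Edit distance exponent of primitive substitutions, general case: definitions

`Geo A K` : a substitution `tau` with a two-sided, uniformly recurrent fixed point `z`, tile lengths
`ell` (the Perron eigenvector, algebraic integers of the number field `K`, at least one), the
positions `pos` of the tiles, the inflation factor `lam`.  The tiles `[P n, P (n+1))` tile the line,
multiplied by `L` they are cut by `tau`.

`Mt r x` : the tiling and the tiling shifted by `r` have the same tile at `x`; `nc r` is the set of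
the other points, `V k x y r` the measure of the part of `nc (lam ^ k * r)` in
`[L ^ k * x, L ^ k * y)`, `Good η x y r` : it is at most `C * L ^ (η * k)` for all `k`.
-/

namespace H69.ED

open MeasureTheory H95.Edit

structure Geo (A K : Type) [Fintype A] [Field K] [NumberField K] where
  tau : A → List A
  z : ℤ → A
  io : ℤ → ℤ
  re : K →+* ℝ
  lam : K
  ell : A → K
  pos : ℤ → K
  fr : A → ℝ
  ne : ∀ a, tau a ≠ []
  io_zero : io 0 = 0
  io_succ : ∀ n, io (n + 1) = io n + (tau (z n)).length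
  img : ∀ (n : ℤ) (j : ℕ) (h : j < (tau (z n)).length), z (io n + j) = (tau (z n))[j]
  recur : ∀ n : ℕ, ∃ R : ℕ, ∀ p q : ℤ, ∃ t : ℕ, t ≤ R ∧ ∀ i : ℕ, i < n → z (q + t + i) = z (p + i)
  occ : ∀ a : A, ∃ n : ℤ, z n = a
  one_lt : 1 < re lam
  lam_int : IsIntegral ℤ lam
  ell_int : ∀ a, IsIntegral ℤ (ell a)
  one_le : ∀ a, 1 ≤ re (ell a)
  eig : ∀ a, ((tau a).map ell).sum = lam * ell a
  pos_zero : pos 0 = 0
  pos_succ : ∀ n, pos (n + 1) = pos n + ell (z n)
  dom : ∀ φ : K →+* ℂ, φ ≠ Complex.ofRealHom.comp re → ‖φ lam‖ < re lam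
  solv : ∀ θ : ℂ, re lam ≤ ‖θ‖ → θ ≠ ((re lam : ℝ) : ℂ) → ∀ g : A → ℂ, ∃ u : A → ℂ,
    ∀ a, ((tau a).map u).sum - θ * u a = g a
  fr_pos : ∀ a, 0 < fr a
  fr_eig : ∀ f : A → ℝ, ∑ a, fr a * ((tau a).map f).sum = re lam * ∑ a, fr a * f a

namespace Geo

variable {A K : Type} [Fintype A] [Field K] [NumberField K] (G : Geo A K)

/-- the real inflation factor -/
def L : ℝ := G.re G.lam

/-- the position of the tile `n` on the real line -/
def P (n : ℤ) : ℝ := G.re (G.pos n)

/-- the sum of all tile lengths (an upper bound for the lengths) -/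
noncomputable def lm : ℝ := ∑ a, G.re (G.ell a)

/-- the identical embedding -/
def idC : K →+* ℂ := Complex.ofRealHom.comp G.re

/-- contracting embeddings -/
def Con (φ : K →+* ℂ) : Prop := ‖φ G.lam‖ < 1

/-- non-contracting embeddings -/
def Non (φ : K →+* ℂ) : Prop := 1 ≤ ‖φ G.lam‖ ∧ φ ≠ G.idC

/-- the tile which contains `x` -/
noncomputable def tl (x : ℝ) : ℤ := Classical.epsilon fun n : ℤ => G.P n ≤ x ∧ x < G.P (n + 1)

/-- the left end of the tile which contains `x` -/
noncomputable def v (x : ℝ) : K := G.pos (G.tl x)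

/-- the letter of the tile which contains `x` -/
noncomputable def c (x : ℝ) : A := G.z (G.tl x)

/-- the point `x` is matched under the shift `r` -/
def Mt (r : K) (x : ℝ) : Prop := G.v (x + G.re r) = G.v x + r ∧ G.c (x + G.re r) = G.c x

/-- the unmatched points -/
def nc (r : K) : Set ℝ := {x | ¬ G.Mt r x}

/-- measure of the unmatched part, level `k` -/
noncomputable def V (k : ℕ) (x y : ℝ) (r : K) : ℝ :=
  (volume (G.nc (G.lam ^ k * r) ∩ Set.Ico (G.L ^ k * x) (G.L ^ k * y))).toReal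

/-- the shift `r` is good on `[x, y)` -/
def Good (η x y : ℝ) (r : K) : Prop := ∃ C : ℝ, ∀ k : ℕ, G.V k x y r ≤ C * G.L ^ (η * k)

/-- the shift `r` is good on the tile `i` -/
def GT (η : ℝ) (i : ℤ) (r : K) : Prop := G.Good η (G.P i) (G.P (i + 1)) r

/-- the shifts which are good everywhere -/
def R (η : ℝ) : Set K := {r | ∀ x y : ℝ, G.Good η x y r}

/-- registered shifts -/
def Reg (C : ℝ) : Set K := {r | IsIntegral ℤ r ∧ ∀ φ : K →+* ℂ, G.Con φ → ‖φ r‖ ≤ C}

open Classical in
/-- the number of bad descendants of level `k` of the tile `i` with the shift `r` -/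
noncomputable def NB (η : ℝ) (k : ℕ) (i : ℤ) (r : K) : ℕ :=
  ((Finset.Ico (G.io^[k] i) (G.io^[k] (i + 1))).filter
    (fun m => ¬ G.GT η m (G.lam ^ k * r))).card

open Classical in
/-- the total length of the bad descendants of level `k` -/
noncomputable def WB (η : ℝ) (k : ℕ) (i : ℤ) (r : K) : ℝ :=
  ∑ m ∈ (Finset.Ico (G.io^[k] i) (G.io^[k] (i + 1))).filter
    (fun m => ¬ G.GT η m (G.lam ^ k * r)), G.re (G.ell (G.z m))

/-- the local picture of the tile `i` with the shift `r`: the letter, the offset, the word of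
length `m` which covers the shifted tile -/
noncomputable def pic (m : ℕ) (i : ℤ) (r : K) : A × K × List A :=
  (G.z i, G.pos i + r - G.v (G.P i + G.re r), word G.z (G.tl (G.P i + G.re r)) m)

/-- positions near vertices: `pos n + s`, `s ∈ S` -/
def Lam (S : Set K) : Set K := {x | ∃ n : ℤ, ∃ s ∈ S, x = G.pos n + s}

/-- the admissible small offsets -/
def SB (B : ℝ) : Set K := {s | IsIntegral ℤ s ∧ 0 ≤ G.re s ∧ G.re s ≤ G.lm ∧
  ∀ φ : K →+* ℂ, φ ≠ G.idC → ‖φ s‖ ≤ B}

/-- the patches of length `M` at `x` and at `y` are equivalent -/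
def EqM (η M : ℝ) (x y : K) : Prop := G.Good η (G.re x) (G.re x + M) (y - x)

/-- registration passes up one level, for windows of `l` tiles -/
def Rec (η C : ℝ) (l : ℕ) : Prop :=
  ∀ (r : K) (p : ℤ), G.lam * r ∈ G.Reg C → G.Good η (G.P p) (G.P (p + l)) r → r ∈ G.Reg C

/-- cheap alignments of windows of `l` tiles of level `m` are registered and good -/
def Kap (η C κ : ℝ) (l m : ℕ) (Q : ℝ) : Prop :=
  ∀ (p b : ℤ) (n : ℕ),
    (D (word G.z (G.io^[m] p) (G.io^[m] (p + l) - G.io^[m] p).toNat) (word G.z b n) : ℝ) < Q →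
    ∃ r ∈ G.Reg C, G.Good η (G.P p) (G.P (p + l)) r ∧
      |G.P b - G.L ^ m * (G.P p + G.re r)| ≤ κ * G.L ^ m

/-- lower bound for the number of bad descendants -/
def Gro (η C θ c : ℝ) : Prop := ∀ (k : ℕ) (i : ℤ) (r : K), r ∈ G.Reg C → ¬ G.GT η i r →
  c * θ ^ k ≤ G.NB η k i r

/-- the fixed point is periodic -/
def Per : Prop := ∃ p : ℕ, 1 ≤ p ∧ ∀ n : ℤ, G.z (n + p) = G.z n

end Geo

end H69.ED
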