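import Pool.Agent.H69.ED.Scale

/-!
# DisA: the discrepancy function

`T g a = ((tau a).map g).sum`, `lbar = (∑ fr a re (ell a)) / ∑ fr a`, `f a = re (ell a) - lbar`,
`Phi n = P n - lbar n`, so `Phi (n+1) - Phi n = f (z n)`.
* `Phi_iter`: `Phi (io^[k] (n+1)) - Phi (io^[k] n) = (T^k f) (z n)`: more generally for every `g : A → ℝ` the sum of
  `g (z i)` over `i ∈ [io^[k] n, io^[k] (n+1))` is `(T^k g) (z n)`: induction on `k` (`T^(k+1) g = T^k (T g)`, the sum of
  `(T g) (z m)` over `m ∈ [io^[k] n, io^[k] (n+1))` is the sum of `g (z i)` over the images).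
* `fr_T`: `∑ fr a (T g) a = L ∑ fr a g a` (`fr_eig`), so `∑ fr a (T^k f) a = L^k ∑ fr a f a = 0`.
* `Phi_upper`: for `k` and `a, n` with `n ≤ L^k`: parents `a_0 = a`, `io a_(j+1) ≤ a_j < io (a_(j+1) + 1)`, the same for
  `b_0 = a + n`. `|(Phi (io^[j] a_j)) - Phi (io^[j+1] a_(j+1))| = |∑_{io a_(j+1) ≤ i < a_j} (T^j f) (z i)| ≤ |tau| ‖T^j f‖`
  (`|tau|` = maximal length of an image). After `k` steps `|b_k - a_k| ≤ C`: `L^k |P b_k - P a_k| ≤ |P (a+n) - P a| + 2 L^k lm
  ≤ lm n + 2 L^k lm`. The rest is at most `C ‖T^k f‖`.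
* `sum_T_pos`: not all `(T^k f) a` are positive, and not all are negative (`fr > 0`, `∑ fr a (T^k f) a = 0`).
-/

namespace H69.ED.Geo

variable {A K : Type} [Fintype A] [Field K] [NumberField K] (G : Geo A K)

/-- the substitution operator -/
def T : (A → ℝ) →ₗ[ℝ] (A → ℝ) where
  toFun g := fun a => ((G.tau a).map g).sum
  map_add' g h := by
    funext a
    simp only [Pi.add_apply]
    induction G.tau a with
    | nil => simp
    | cons b w ih =>
      simp only [List.map_cons, List.sum_cons, ih, Pi.add_apply]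
      ring
  map_smul' c g := by
    funext a
    simp only [Pi.smul_apply, smul_eq_mul, RingHom.id_apply]
    induction G.tau a with
    | nil => simp
    | cons b w ih =>
      simp only [List.map_cons, List.sum_cons, ih, Pi.smul_apply, smul_eq_mul]
      ring

noncomputable def lbar : ℝ := (∑ a, G.fr a * G.re (G.ell a)) / ∑ a, G.fr a

noncomputable def f (a : A) : ℝ := G.re (G.ell a) - G.lbar

noncomputable def Phi (n : ℤ) : ℝ := G.P n - G.lbar * n

private theorem disA_cons (h : ℤ → ℝ) {a b c : ℤ} (hab : a ≤ b) (hbc : b ≤ c) :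
    ∑ i ∈ Finset.Ico a b, h i + ∑ i ∈ Finset.Ico b c, h i = ∑ i ∈ Finset.Ico a c, h i := by
  rw [← Finset.Ico_union_Ico_eq_Ico hab hbc,
    Finset.sum_union (Finset.Ico_disjoint_Ico_consecutive a b c)]

private theorem disA_one (h : ℤ → ℝ) (a : ℤ) : ∑ i ∈ Finset.Ico a (a + 1), h i = h a := by
  have h1 : Finset.Ico a (a + 1) = {a} := by
    ext x
    rw [Finset.mem_Ico, Finset.mem_singleton]
    omega
  rw [h1, Finset.sum_singleton]

private theorem disA_take (g : A → ℝ) (b : ℤ) (j : ℕ) (hj : j ≤ (G.tau (G.z b)).length) :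
    ∑ i ∈ Finset.Ico (G.io b) (G.io b + j), g (G.z i) = (((G.tau (G.z b)).take j).map g).sum := by
  induction j with
  | zero => simp
  | succ j ih =>
    have h1 : j < (G.tau (G.z b)).length := by omega
    have h2 : G.io b + ((j + 1 : ℕ) : ℤ) = (G.io b + j) + 1 := by push_cast; ring
    rw [h2, ← disA_cons (fun i => g (G.z i)) (b := G.io b + j) (by omega) (by omega),
      ih h1.le, disA_one (fun i => g (G.z i)), G.img b j h1, List.take_succ_eq_append_getElem h1,
      List.map_append, List.sum_append]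
    simp

private theorem disA_io (g : A → ℝ) (b : ℤ) :
    ∑ i ∈ Finset.Ico (G.io b) (G.io (b + 1)), g (G.z i) = G.T g (G.z b) := by
  rw [G.io_succ, disA_take G g b _ le_rfl, List.take_length]
  rfl

private theorem disA_ioI (g : A → ℝ) {a b : ℤ} (hab : a ≤ b) :
    ∑ i ∈ Finset.Ico (G.io a) (G.io b), g (G.z i) = ∑ m ∈ Finset.Ico a b, G.T g (G.z m) := by
  induction b, hab using Int.leInduction with
  | base => simp
  | succ b hab ih =>
    rw [← disA_cons (fun i => g (G.z i)) (G.io_strictMono.monotone hab)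
      (G.io_strictMono.monotone (by omega : b ≤ b + 1)), ih, disA_io,
      ← disA_cons (fun m => G.T g (G.z m)) hab (by omega : b ≤ b + 1), disA_one]

theorem sum_iter (g : A → ℝ) (k : ℕ) (n : ℤ) :
    ∑ i ∈ Finset.Ico (G.io^[k] n) (G.io^[k] (n + 1)), g (G.z i) = (G.T ^ k) g (G.z n) := by
  induction k generalizing g with
  | zero =>
    simp only [Function.iterate_zero, id, pow_zero]
    rw [disA_one (fun i => g (G.z i))]
    rfl
  | succ k ih =>
    rw [Function.iterate_succ_apply', Function.iterate_succ_apply',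
      disA_ioI G g ((G.iter_strictMono k).monotone (by omega : n ≤ n + 1)), ih (G.T g), pow_succ]
    rfl

private theorem disA_Phi {a b : ℤ} (hab : a ≤ b) :
    G.Phi b - G.Phi a = ∑ i ∈ Finset.Ico a b, G.f (G.z i) := by
  induction b, hab using Int.leInduction with
  | base => simp
  | succ b hab ih =>
    rw [← disA_cons (fun i => G.f (G.z i)) hab (by omega : b ≤ b + 1), ← ih,
      disA_one (fun i => G.f (G.z i))]
    unfold Phi f
    rw [G.P_succ]
    push_cast
    ring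

theorem Phi_iter (k : ℕ) (n : ℤ) :
    G.Phi (G.io^[k] (n + 1)) - G.Phi (G.io^[k] n) = (G.T ^ k) G.f (G.z n) := by
  rw [disA_Phi G ((G.iter_strictMono k).monotone (by omega : n ≤ n + 1)), sum_iter]

theorem Phi_sub (a b : ℤ) (n : ℕ) : (G.Phi (a + n) - G.Phi a) - (G.Phi (b + n) - G.Phi b) =
    (G.P (a + n) - G.P a) - (G.P (b + n) - G.P b) := by
  unfold Phi
  push_cast
  ring

theorem fr_sum (k : ℕ) : ∑ a, G.fr a * (G.T ^ k) G.f a = 0 := by
  induction k with
  | zero =>
    have h1 : ∀ a, G.fr a * (G.T ^ 0) G.f a = G.fr a * G.re (G.ell a) - G.lbar * G.fr a := by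
      intro a
      show G.fr a * G.f a = _
      unfold f
      ring
    rw [Finset.sum_congr rfl (fun a _ => h1 a), Finset.sum_sub_distrib, ← Finset.mul_sum]
    have h2 : 0 < ∑ a, G.fr a :=
      Finset.sum_pos (fun a _ => G.fr_pos a) ⟨G.z 0, Finset.mem_univ _⟩
    unfold lbar
    rw [div_mul_cancel₀ _ h2.ne', sub_self]
  | succ k ih =>
    have h1 := G.fr_eig ((G.T ^ k) G.f)
    rw [ih, mul_zero] at h1
    rw [pow_succ']
    exact h1

theorem not_all_pos (k : ℕ) : ∃ a : A, (G.T ^ k) G.f a ≤ 0 := by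
  by_contra hc
  push Not at hc
  have h1 : 0 < ∑ a, G.fr a * (G.T ^ k) G.f a :=
    Finset.sum_pos (fun a _ => mul_pos (G.fr_pos a) (hc a)) ⟨G.z 0, Finset.mem_univ _⟩
  rw [fr_sum] at h1
  exact lt_irrefl _ h1

theorem not_all_neg (k : ℕ) : ∃ a : A, 0 ≤ (G.T ^ k) G.f a := by
  by_contra hc
  push Not at hc
  have h1 : ∑ a, G.fr a * (G.T ^ k) G.f a < 0 :=
    Finset.sum_neg (fun a _ => mul_neg_of_pos_of_neg (G.fr_pos a) (hc a))
      ⟨G.z 0, Finset.mem_univ _⟩
  rw [fr_sum] at h1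
  exact lt_irrefl _ h1

private theorem disA_block (k : ℕ) {a b : ℤ} (hab : a ≤ b) :
    G.Phi (G.io^[k] b) - G.Phi (G.io^[k] a) = ∑ i ∈ Finset.Ico a b, (G.T ^ k) G.f (G.z i) := by
  induction b, hab using Int.leInduction with
  | base => simp
  | succ b hab ih =>
    rw [← disA_cons (fun i => (G.T ^ k) G.f (G.z i)) hab (by omega : b ≤ b + 1), ← ih,
      disA_one (fun i => (G.T ^ k) G.f (G.z i)), ← Phi_iter]
    ring

private theorem disA_bd (k : ℕ) {a b : ℤ} (hab : a ≤ b) :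
    |G.Phi (G.io^[k] b) - G.Phi (G.io^[k] a)| ≤ ((b - a : ℤ) : ℝ) * ‖(G.T ^ k) G.f‖ := by
  rw [disA_block G k hab]
  refine le_trans (Finset.abs_sum_le_sum_abs _ _) ?_
  refine le_trans (Finset.sum_le_card_nsmul _ _ ‖(G.T ^ k) G.f‖ (fun i _ => ?_)) ?_
  · have h1 := norm_le_pi_norm ((G.T ^ k) G.f) (G.z i)
    rwa [Real.norm_eq_abs] at h1
  · rw [nsmul_eq_mul, Int.card_Ico]
    apply mul_le_mul_of_nonneg_right _ (norm_nonneg _)
    have h2 : ((b - a).toNat : ℤ) = b - a := Int.toNat_of_nonneg (by omega)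
    have h3 : (((b - a).toNat : ℤ) : ℝ) = ((b - a : ℤ) : ℝ) := by rw [h2]
    exact le_of_eq (by rw [← h3, Int.cast_natCast])

/-- the ancestor of level `j` -/
private noncomputable def disAq (m : ℤ) (j : ℕ) : ℤ := G.tl (G.P m / G.L ^ j)

private theorem disA_q_zero (m : ℤ) : disAq G m 0 = m := by
  unfold disAq
  rw [pow_zero, div_one, tl_P]

private theorem disA_q_succ (m : ℤ) (j : ℕ) :
    G.io (disAq G m (j + 1)) ≤ disAq G m j ∧ disAq G m j < G.io (disAq G m (j + 1) + 1) := by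
  have hL : 0 < G.L := lt_trans zero_lt_one G.L_gt_one
  have hLj : 0 < G.L ^ j := pow_pos hL j
  have hPio : ∀ n, G.P (G.io n) = G.L * G.P n := by
    intro n
    have := G.P_iter 1 n
    simpa using this
  have h1 := G.tl_spec (G.P m / G.L ^ (j + 1))
  have h2 : G.L * (G.P m / G.L ^ (j + 1)) = G.P m / G.L ^ j := by
    rw [pow_succ]
    field_simp
  constructor
  · show _ ≤ G.tl _
    rw [le_tl_iff, hPio, ← h2]
    exact mul_le_mul_of_nonneg_left h1.1 hL.le
  · show G.tl _ < _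
    rw [tl_lt_iff, hPio, ← h2]
    exact mul_lt_mul_of_pos_left h1.2 hL

theorem Phi_upper : ∃ C : ℝ, 0 ≤ C ∧ ∀ (k n : ℕ), (n : ℝ) ≤ G.L ^ k → ∀ a : ℤ,
    |G.Phi (a + n) - G.Phi a| ≤ C * ∑ j ∈ Finset.range (k + 1), ‖(G.T ^ j) G.f‖ := by
  have hL : 0 < G.L := lt_trans zero_lt_one G.L_gt_one
  set t : ℝ := ∑ a, ((G.tau a).length : ℝ) with ht
  have ht0 : 0 ≤ t := Finset.sum_nonneg (fun a _ => Nat.cast_nonneg _)
  have htau : ∀ a, ((G.tau a).length : ℝ) ≤ t := fun a =>
    Finset.single_le_sum (f := fun a => ((G.tau a).length : ℝ)) (fun b _ => Nat.cast_nonneg _)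
      (Finset.mem_univ a)
  have hlm : 1 ≤ G.lm := G.one_le_lm
  -- telescope
  have htel : ∀ (m : ℤ) (k : ℕ), |G.Phi m - G.Phi (G.io^[k] (disAq G m k))| ≤
      t * ∑ j ∈ Finset.range k, ‖(G.T ^ j) G.f‖ := by
    intro m k
    induction k with
    | zero => simp [disA_q_zero]
    | succ k ih =>
      obtain ⟨h1, h2⟩ := disA_q_succ G m k
      have h3 := disA_bd G k h1
      rw [← Function.iterate_succ_apply] at h3
      have h4 : ((disAq G m k - G.io (disAq G m (k + 1)) : ℤ) : ℝ) ≤ t := by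
        rw [G.io_succ] at h2
        have h5 : disAq G m k - G.io (disAq G m (k + 1)) ≤
            ((G.tau (G.z (disAq G m (k + 1)))).length : ℤ) := by omega
        have h6 : ((disAq G m k - G.io (disAq G m (k + 1)) : ℤ) : ℝ) ≤
            (((G.tau (G.z (disAq G m (k + 1)))).length : ℤ) : ℝ) := Int.cast_le.mpr h5
        refine le_trans h6 ?_
        rw [Int.cast_natCast]
        exact htau _
      have h7 : |G.Phi (G.io^[k] (disAq G m k)) - G.Phi (G.io^[k + 1] (disAq G m (k + 1)))| ≤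
          t * ‖(G.T ^ k) G.f‖ :=
        le_trans h3 (mul_le_mul_of_nonneg_right h4 (norm_nonneg _))
      rw [Finset.sum_range_succ, mul_add]
      calc |G.Phi m - G.Phi (G.io^[k + 1] (disAq G m (k + 1)))|
          = |(G.Phi m - G.Phi (G.io^[k] (disAq G m k))) +
            (G.Phi (G.io^[k] (disAq G m k)) - G.Phi (G.io^[k + 1] (disAq G m (k + 1))))| := by
            congr 1; ring
        _ ≤ _ := le_trans (abs_add_le _ _) (add_le_add ih h7)
  refine ⟨2 * t + G.lm + 1, by linarith, fun k n hn a => ?_⟩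
  have hLk : 0 < G.L ^ k := pow_pos hL k
  have hP : G.P a ≤ G.P (a + n) := (G.P_le_iff _ _).mpr (by omega)
  have h1 := htel a k
  have h2 := htel (a + n) k
  have h3 : disAq G a k ≤ disAq G (a + n) k :=
    G.tl_mono (div_le_div_of_nonneg_right hP hLk.le)
  have h4 := disA_bd G k h3
  have h5 : ((disAq G (a + n) k - disAq G a k : ℤ) : ℝ) ≤ G.lm + 1 := by
    have h6 := G.tl_sub_lt (div_le_div_of_nonneg_right hP hLk.le)
    have h7 : G.P (a + n) / G.L ^ k - G.P a / G.L ^ k ≤ G.lm := by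
      rw [← sub_div, div_le_iff₀ hLk]
      have h8 := G.P_sub_le (by omega : a ≤ a + n)
      have h9 : ((a + n - a : ℤ) : ℝ) = n := by push_cast; ring
      rw [h9] at h8
      exact le_trans h8 (mul_le_mul_of_nonneg_left hn (by linarith))
    have h10 : ((disAq G (a + n) k - disAq G a k : ℤ) : ℝ) <
        G.P (a + n) / G.L ^ k - G.P a / G.L ^ k + 1 := h6
    linarith
  have h6 : |G.Phi (G.io^[k] (disAq G (a + n) k)) - G.Phi (G.io^[k] (disAq G a k))| ≤
      (G.lm + 1) * ‖(G.T ^ k) G.f‖ :=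
    le_trans h4 (mul_le_mul_of_nonneg_right h5 (norm_nonneg _))
  set S : ℝ := ∑ j ∈ Finset.range k, ‖(G.T ^ j) G.f‖ with hS
  have hS0 : 0 ≤ S := Finset.sum_nonneg (fun j _ => norm_nonneg _)
  rw [Finset.sum_range_succ, ← hS]
  have h7 : |G.Phi (a + n) - G.Phi a| ≤
      |G.Phi (a + n) - G.Phi (G.io^[k] (disAq G (a + n) k))| +
      |G.Phi (G.io^[k] (disAq G (a + n) k)) - G.Phi (G.io^[k] (disAq G a k))| +
      |G.Phi a - G.Phi (G.io^[k] (disAq G a k))| := by
    have e1 : G.Phi (a + n) - G.Phi a =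
        (G.Phi (a + n) - G.Phi (G.io^[k] (disAq G (a + n) k))) +
        (G.Phi (G.io^[k] (disAq G (a + n) k)) - G.Phi (G.io^[k] (disAq G a k))) +
        (G.Phi (G.io^[k] (disAq G a k)) - G.Phi a) := by ring
    rw [e1]
    refine le_trans (abs_add_le _ _) (add_le_add (abs_add_le _ _) ?_)
    rw [abs_sub_comm]
  have hN : 0 ≤ ‖(G.T ^ k) G.f‖ := norm_nonneg _
  nlinarith [mul_nonneg ht0 hS0, mul_nonneg ht0 hN, mul_nonneg (by linarith : 0 ≤ G.lm + 1) hS0]

end H69.ED.Geo
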