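import Pool.Agent.H69.ED.DisA

/-!
# DisB: windows with large discrepancy

Let `k ≥ 0`, `X = ‖T^k f‖` (maximum norm), attained at the letter `a₀ = z n₀` (`occ`), `N = |image of order k of a₀| =
io^[k] (n₀+1) - io^[k] n₀ ≤ L^k lm` (`iter_sub_le`), `N ≥ 1`. The window `[io^[k] n₀, io^[k] n₀ + N)` has
`Phi`-increment `± X`. Suppose `+ X`, `X > 0`, and suppose that all windows of `N` letters have length differing by less than
`X/2` from this one, i.e. (`Phi_sub`) `Phi (b+N) - Phi b > X/2` for all `b`. Then `Phi (b + j N) - Phi b ≥ j X/2` for all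
`b`, `j`, and with `E = max_{0 ≤ s < N} |Phi (b+s) - Phi b|` (bounded by `N (lm + |lbar|)`)
`Phi (b + n) - Phi b ≥ ⌊n/N⌋ X/2 - E > 0` for large `n`. So `(T^K f) a = Phi (io^[K] (n+1)) - Phi (io^[K] n) > 0` for all `a = z n`
and a large `K` (the images of order `K` become long: `L^K P`-length), against `not_all_pos`. The case `- X` is the same with
`not_all_neg`.
-/

namespace H69.ED.Geo

variable {A K : Type} [Fintype A] [Field K] [NumberField K] (G : Geo A K)

private theorem dB_norm [Nonempty A] (g : A → ℝ) : ∃ a, ‖g‖ = |g a| := by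
  obtain ⟨a, ha⟩ := Finite.exists_max fun a => |g a|
  refine ⟨a, le_antisymm ?_ ?_⟩
  · exact (pi_norm_le_iff_of_nonneg (abs_nonneg _)).2 fun b => ha b
  · exact norm_le_pi_norm g a

private theorem dB_step (m : ℕ) (b : ℤ) :
    |G.Phi (b + m) - G.Phi b| ≤ m * (G.lm + |G.lbar|) := by
  have h1 : G.P b ≤ G.P (b + m) := (G.P_le_iff _ _).2 (by omega)
  have h2 : G.P (b + m) - G.P b ≤ G.lm * m := by
    have h3 := G.P_sub_le (show b ≤ b + m by omega)
    rwa [add_sub_cancel_left, Int.cast_natCast] at h3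
  have h3 : G.Phi (b + m) - G.Phi b = (G.P (b + m) - G.P b) - G.lbar * m := by
    unfold Phi
    push_cast
    ring
  rw [h3]
  have h4 : |G.lbar * (m : ℝ)| = |G.lbar| * m := by
    rw [abs_mul, Nat.abs_cast]
  have h5 := abs_sub (G.P (b + m) - G.P b) (G.lbar * m)
  rw [h4, abs_of_nonneg (sub_nonneg.2 h1)] at h5
  nlinarith

private theorem dB_key (s : ℝ) (hs : s = 1 ∨ s = -1) (N : ℕ) (hN : 1 ≤ N) (X : ℝ) (hX : 0 < X)
    (h : ∀ b : ℤ, X / 2 ≤ s * (G.Phi (b + N) - G.Phi b)) : False := by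
  have h1 : ∀ (j : ℕ) (b : ℤ), j * (X / 2) ≤ s * (G.Phi (b + (j * N : ℕ)) - G.Phi b) := by
    intro j
    induction j with
    | zero => intro b; simp
    | succ j ih =>
      intro b
      have h2 := ih b
      have h3 := h (b + (j * N : ℕ))
      have h4 : b + ((j * N : ℕ) : ℤ) + (N : ℤ) = b + (((j + 1) * N : ℕ) : ℤ) := by
        push_cast
        ring
      rw [h4] at h3
      push_cast at h2 h3 ⊢
      nlinarith
  set E : ℝ := N * (G.lm + |G.lbar|) with hE
  have hlm : 1 ≤ G.lm := G.one_le_lm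
  have hE0 : 0 ≤ E := by positivity
  obtain ⟨j0, hj0⟩ := exists_nat_gt (2 * E / X)
  obtain ⟨k, hk⟩ := pow_unbounded_of_one_lt ((N : ℝ) * j0 * G.lm) G.L_gt_one
  have h5 : ∀ n : ℤ, 0 < s * (G.Phi (G.io^[k] (n + 1)) - G.Phi (G.io^[k] n)) := by
    intro n
    have h6 := G.iter_sub_ge k (show n ≤ n + 1 by omega)
    obtain ⟨M, hM⟩ := Int.eq_ofNat_of_zero_le
      (sub_nonneg.2 ((G.iter_strictMono k).monotone (show n ≤ n + 1 by omega)))
    have h7 : G.io^[k] (n + 1) = G.io^[k] n + M := by omega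
    rw [hM, Int.cast_natCast] at h6
    have h8 : (1 : ℝ) ≤ G.P (n + 1) - G.P n := by
      have := G.P_succ_ge n
      linarith
    have hLk : 0 < G.L ^ k := pow_pos (lt_trans one_pos G.L_gt_one) k
    have h9 : (N : ℝ) * j0 * G.lm < G.lm * M := by nlinarith
    have h10 : (N : ℝ) * j0 < M := by
      have : 0 < G.lm * (M - (N : ℝ) * j0) := by nlinarith
      exact sub_pos.1 (pos_of_mul_pos_right this (by linarith))
    have h11 : N * j0 < M := by exact_mod_cast h10
    have h12 : j0 ≤ M / N := by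
      rw [Nat.le_div_iff_mul_le (by omega)]
      nlinarith
    have h13 := h1 (M / N) (G.io^[k] n)
    have h14 := dB_step G (M % N) (G.io^[k] n + (M / N * N : ℕ))
    have h15 : G.io^[k] n + ((M / N * N : ℕ) : ℤ) + ((M % N : ℕ) : ℤ) = G.io^[k] n + M := by
      have := Nat.div_add_mod' M N
      omega
    rw [h15] at h14
    have h16 : ((M % N : ℕ) : ℝ) * (G.lm + |G.lbar|) ≤ E := by
      rw [hE]
      have : ((M % N : ℕ) : ℝ) ≤ N := by
        exact_mod_cast (Nat.mod_lt M (by omega)).le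
      exact mul_le_mul_of_nonneg_right this (by positivity)
    have h17 : (j0 : ℝ) ≤ ((M / N : ℕ) : ℝ) := by exact_mod_cast h12
    have h18 : E < j0 * (X / 2) := by
      rw [div_lt_iff₀ hX] at hj0
      linarith
    have h19 : (j0 : ℝ) * (X / 2) ≤ ((M / N : ℕ) : ℝ) * (X / 2) :=
      mul_le_mul_of_nonneg_right h17 (by linarith)
    have h20 : |s * (G.Phi (G.io^[k] n + M) - G.Phi (G.io^[k] n + (M / N * N : ℕ)))| ≤ E := by
      have hs1 : |s| = 1 := by rcases hs with rfl | rfl <;> simp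
      rw [abs_mul, hs1, one_mul]
      exact h14.trans h16
    have h21 := (abs_le.1 h20).1
    rw [h7]
    nlinarith
  rcases hs with rfl | rfl
  · obtain ⟨a, ha⟩ := G.not_all_pos k
    obtain ⟨n, hn⟩ := G.occ a
    have h6 := h5 n
    rw [G.Phi_iter, hn] at h6
    linarith
  · obtain ⟨a, ha⟩ := G.not_all_neg k
    obtain ⟨n, hn⟩ := G.occ a
    have h6 := h5 n
    rw [G.Phi_iter, hn] at h6
    linarith

theorem big_window (k : ℕ) : ∃ N : ℕ, 1 ≤ N ∧ (N : ℝ) ≤ G.lm * G.L ^ k ∧ ∃ a b : ℤ,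
    ‖(G.T ^ k) G.f‖ / 2 ≤ |(G.P (a + N) - G.P a) - (G.P (b + N) - G.P b)| := by
  have hne : Nonempty A := ⟨G.z 0⟩
  obtain ⟨a₀, ha₀⟩ := dB_norm ((G.T ^ k) G.f)
  obtain ⟨n, hn⟩ := G.occ a₀
  have h1 : G.io^[k] n < G.io^[k] (n + 1) := G.iter_strictMono k (by omega)
  obtain ⟨N, hN⟩ := Int.eq_ofNat_of_zero_le (sub_nonneg.2 h1.le)
  have hLk : 0 < G.L ^ k := pow_pos (lt_trans one_pos G.L_gt_one) k
  refine ⟨N, by omega, ?_, G.io^[k] n, ?_⟩
  · have h2 := G.iter_sub_le k (show n ≤ n + 1 by omega)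
    rw [hN, Int.cast_natCast] at h2
    have h3 := G.P_succ_le n
    nlinarith
  · by_contra hcon
    push Not at hcon
    have h2 : G.io^[k] n + (N : ℤ) = G.io^[k] (n + 1) := by omega
    have h3 := G.Phi_iter k n
    rw [← h2, hn] at h3
    have hX : 0 < ‖(G.T ^ k) G.f‖ := by
      have h4 := (abs_nonneg _).trans_lt (hcon 0)
      linarith
    have h5 : ∀ b : ℤ, |(G.Phi (G.io^[k] n + N) - G.Phi (G.io^[k] n)) -
        (G.Phi (b + N) - G.Phi b)| < ‖(G.T ^ k) G.f‖ / 2 := by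
      intro b
      rw [G.Phi_sub]
      exact hcon b
    rcases le_total 0 ((G.T ^ k) G.f a₀) with h6 | h6
    · refine dB_key G 1 (Or.inl rfl) N (by omega) _ hX fun b => ?_
      have h7 := (abs_lt.1 (h5 b)).2
      rw [abs_of_nonneg h6] at ha₀
      linarith
    · refine dB_key G (-1) (Or.inr rfl) N (by omega) _ hX fun b => ?_
      have h7 := (abs_lt.1 (h5 b)).1
      rw [abs_of_nonpos h6] at ha₀
      linarith

end H69.ED.Geo
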