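import Mathlib

/-!
# LinA: growth of an orbit of a linear map

`submult`: let `W` be the span of all `T^k f`; it is finite dimensional, so it is spanned by `T^j f`, `j < d`, for some
`d`. The linear map `(Fin d → ℝ) → W`, `c ↦ ∑ c_j T^j f`, is surjective, so it has a linear right inverse, which is
bounded: every `g ∈ W` is `∑ c_j T^j f` with `|c_j| ≤ C0 ‖g‖`. Then
`‖T^m g‖ ≤ ∑ |c_j| ‖T^j (T^m f)‖ ≤ C ‖g‖ ‖T^m f‖` with the operator norms of the `T^j`, `j < d`. Put `g = T^k f`.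

`rate`: `u k = log (max 1 (C a_k))` is nonnegative and subadditive: `max 1 (C a_(k+m)) ≤ max 1 (C a_k · C a_m) ≤
max 1 (C a_k) max 1 (C a_m)`. `b = Subadditive.lim`: `b k ≤ u k` (`Subadditive.lim_le_div`) and `u k / k → b`
(`Subadditive.tendsto_lim`), so `u k ≤ (b + ε) k` for large `k`; enlarge the constant for the others.
-/

namespace H69.ED

theorem submult {E : Type} [NormedAddCommGroup E] [NormedSpace ℝ E] [FiniteDimensional ℝ E]
    (T : E →ₗ[ℝ] E) (f : E) : ∃ C : ℝ, 1 ≤ C ∧ ∀ k m : ℕ,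
      ‖(T ^ (k + m)) f‖ ≤ C * ‖(T ^ k) f‖ * ‖(T ^ m) f‖ := by
  classical
  obtain ⟨d, hd⟩ : ∃ d : ℕ, d = Module.finrank ℝ E := ⟨_, rfl⟩
  let L : (Fin d → ℝ) →ₗ[ℝ] E :=
    { toFun := fun c => ∑ j, c j • (T ^ (j : ℕ)) f
      map_add' := by
        intro c c'
        simp only [Pi.add_apply, add_smul, Finset.sum_add_distrib]
      map_smul' := by
        intro r c
        simp only [Pi.smul_apply, smul_eq_mul, mul_smul, Finset.smul_sum, RingHom.id_apply] }
  have hmem : ∀ k : ℕ, (T ^ k) f ∈ LinearMap.range L := by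
    intro k
    rw [LinearMap.pow_eq_aeval_mod_charpoly T k]
    set p := (Polynomial.X ^ k %ₘ T.charpoly : Polynomial ℝ) with hp
    have hdeg : p.natDegree < d ∨ p = 0 := by
      by_cases h0 : p = 0
      · exact Or.inr h0
      · left
        have h1 : p.degree < T.charpoly.degree :=
          Polynomial.degree_modByMonic_lt _ (LinearMap.charpoly_monic T)
        have h2 : T.charpoly.natDegree = d := by rw [LinearMap.charpoly_natDegree, hd]
        rw [← h2]
        exact Polynomial.natDegree_lt_natDegree h0 h1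
    refine ⟨fun j => p.coeff j, ?_⟩
    change ∑ j : Fin d, p.coeff j • (T ^ (j : ℕ)) f = _
    rcases hdeg with h1 | h1
    · rw [Polynomial.aeval_eq_sum_range' h1]
      rw [Finset.sum_range, LinearMap.sum_apply]
      rfl
    · rw [h1]
      simp
  obtain ⟨g, hg⟩ := L.rangeRestrict.exists_rightInverse_of_surjective
    (LinearMap.range_rangeRestrict L)
  let G : LinearMap.range L →L[ℝ] (Fin d → ℝ) := LinearMap.toContinuousLinearMap g
  let S : ℝ := ∑ j : Fin d, ‖LinearMap.toContinuousLinearMap (T ^ (j : ℕ))‖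
  have hS : 0 ≤ S := Finset.sum_nonneg (fun j _ => norm_nonneg _)
  refine ⟨max 1 (‖G‖ * S), le_max_left _ _, fun k m => ?_⟩
  obtain ⟨c, hc⟩ : ∃ c : Fin d → ℝ, c = G ⟨(T ^ k) f, hmem k⟩ := ⟨_, rfl⟩
  have hc1 : ‖c‖ ≤ ‖G‖ * ‖(T ^ k) f‖ := by
    rw [hc]
    exact G.le_opNorm _
  have hc2 : ∑ j, c j • (T ^ (j : ℕ)) f = (T ^ k) f := by
    have h1 := congrArg (fun F => F ⟨(T ^ k) f, hmem k⟩) hg
    have h2 := congrArg Subtype.val h1
    rw [hc]
    exact h2
  have h3 : (T ^ (k + m)) f = ∑ j, c j • (T ^ (j : ℕ)) ((T ^ m) f) := by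
    rw [add_comm, pow_add, Module.End.mul_apply, ← hc2, map_sum]
    apply Finset.sum_congr rfl
    intro j _
    rw [map_smul, ← Module.End.mul_apply, ← Module.End.mul_apply, ← pow_add, ← pow_add, add_comm]
  rw [h3]
  calc ‖∑ j, c j • (T ^ (j : ℕ)) ((T ^ m) f)‖
      ≤ ∑ j, ‖c j • (T ^ (j : ℕ)) ((T ^ m) f)‖ := norm_sum_le _ _
    _ ≤ ∑ j : Fin d, ‖c‖ * (‖LinearMap.toContinuousLinearMap (T ^ (j : ℕ))‖ * ‖(T ^ m) f‖) := by
        apply Finset.sum_le_sum
        intro j _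
        rw [norm_smul]
        apply mul_le_mul (norm_le_pi_norm c j) _ (norm_nonneg _) (norm_nonneg _)
        exact (LinearMap.toContinuousLinearMap (T ^ (j : ℕ))).le_opNorm _
    _ = ‖c‖ * (S * ‖(T ^ m) f‖) := by
        rw [← Finset.mul_sum, ← Finset.sum_mul]
    _ ≤ (‖G‖ * ‖(T ^ k) f‖) * (S * ‖(T ^ m) f‖) :=
        mul_le_mul_of_nonneg_right hc1 (mul_nonneg hS (norm_nonneg _))
    _ = (‖G‖ * S) * (‖(T ^ k) f‖ * ‖(T ^ m) f‖) := by ring
    _ ≤ max 1 (‖G‖ * S) * (‖(T ^ k) f‖ * ‖(T ^ m) f‖) :=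
        mul_le_mul_of_nonneg_right (le_max_right _ _)
          (mul_nonneg (norm_nonneg _) (norm_nonneg _))
    _ = _ := by ring

theorem rate {a : ℕ → ℝ} (h0 : ∀ k, 0 ≤ a k) {C : ℝ} (hC : 1 ≤ C)
    (h : ∀ k m, a (k + m) ≤ C * a k * a m) : ∃ b : ℝ, 0 ≤ b ∧
      (∀ k : ℕ, Real.exp (b * k) ≤ max 1 (C * a k)) ∧
      ∀ ε : ℝ, 0 < ε → ∃ C' : ℝ, 0 ≤ C' ∧ ∀ k : ℕ, a k ≤ C' * Real.exp ((b + ε) * k) := by
  have hC0 : 0 ≤ C := by linarith
  let u : ℕ → ℝ := fun k => Real.log (max 1 (C * a k))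
  have hmax : ∀ k, 1 ≤ max 1 (C * a k) := fun k => le_max_left _ _
  have hu0 : ∀ k, 0 ≤ u k := fun k => Real.log_nonneg (hmax k)
  have hsub : Subadditive u := by
    intro k m
    change Real.log (max 1 (C * a (k + m))) ≤ Real.log (max 1 (C * a k)) + Real.log (max 1 (C * a m))
    have e1 : 0 < max 1 (C * a k) := lt_of_lt_of_le one_pos (hmax k)
    have e2 : 0 < max 1 (C * a m) := lt_of_lt_of_le one_pos (hmax m)
    rw [← Real.log_mul e1.ne' e2.ne']
    apply Real.log_le_log (lt_of_lt_of_le one_pos (hmax _))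
    apply max_le
    · calc (1 : ℝ) = 1 * 1 := by ring
        _ ≤ _ := mul_le_mul (hmax k) (hmax m) zero_le_one e1.le
    · calc C * a (k + m) ≤ C * (C * a k * a m) := mul_le_mul_of_nonneg_left (h k m) hC0
        _ = (C * a k) * (C * a m) := by ring
        _ ≤ _ := mul_le_mul (le_max_right _ _) (le_max_right _ _) (mul_nonneg hC0 (h0 m)) e1.le
  have hbdd : BddBelow (Set.range fun n : ℕ => u n / n) := by
    refine ⟨0, ?_⟩
    rintro _ ⟨n, rfl⟩
    exact div_nonneg (hu0 n) (Nat.cast_nonneg n)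
  have hlim := hsub.tendsto_lim hbdd
  refine ⟨hsub.lim, ?_, ?_, ?_⟩
  · exact ge_of_tendsto' hlim (fun n => div_nonneg (hu0 n) (Nat.cast_nonneg n))
  · intro k
    rcases Nat.eq_zero_or_pos k with h1 | h1
    · subst h1
      simp
    · have h2 := hsub.lim_le_div hbdd h1.ne'
      have h3 : (0 : ℝ) < k := by exact_mod_cast h1
      rw [le_div_iff₀ h3] at h2
      calc Real.exp (hsub.lim * k) ≤ Real.exp (u k) := Real.exp_le_exp.2 h2
        _ = max 1 (C * a k) := Real.exp_log (lt_of_lt_of_le one_pos (hmax k))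
  · intro ε hε
    have h1 : ∀ᶠ n : ℕ in Filter.atTop, u n / n < hsub.lim + ε :=
      hlim.eventually_lt_const (by linarith)
    obtain ⟨N, hN⟩ := Filter.eventually_atTop.1 h1
    have hb : 0 ≤ hsub.lim := ge_of_tendsto' hlim (fun n => div_nonneg (hu0 n) (Nat.cast_nonneg n))
    have hsum : 0 ≤ ∑ k ∈ Finset.range (N + 1), a k := Finset.sum_nonneg (fun k _ => h0 k)
    refine ⟨1 + ∑ k ∈ Finset.range (N + 1), a k, by linarith, fun k => ?_⟩
    have hexp : 1 ≤ Real.exp ((hsub.lim + ε) * k) :=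
      Real.one_le_exp (mul_nonneg (by linarith) (Nat.cast_nonneg k))
    rcases Nat.lt_or_ge k (N + 1) with h2 | h2
    · have h3 : a k ≤ ∑ k ∈ Finset.range (N + 1), a k :=
        Finset.single_le_sum (f := a) (fun i _ => h0 i) (Finset.mem_range.2 h2)
      calc a k ≤ 1 + ∑ k ∈ Finset.range (N + 1), a k := by linarith
        _ = (1 + ∑ k ∈ Finset.range (N + 1), a k) * 1 := by ring
        _ ≤ _ := mul_le_mul_of_nonneg_left hexp (by linarith)
    · have h3 : (0 : ℝ) < k := by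
        have : 0 < k := by omega
        exact_mod_cast this
      have h4 := hN k (by omega)
      rw [div_lt_iff₀ h3] at h4
      have h5 : max 1 (C * a k) ≤ Real.exp ((hsub.lim + ε) * k) := by
        rw [← Real.exp_log (lt_of_lt_of_le one_pos (hmax k))]
        exact Real.exp_le_exp.2 h4.le
      have h6 : a k ≤ C * a k := by nlinarith [h0 k]
      calc a k ≤ max 1 (C * a k) := h6.trans (le_max_right _ _)
        _ ≤ Real.exp ((hsub.lim + ε) * k) := h5
        _ = 1 * Real.exp ((hsub.lim + ε) * k) := by ring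
        _ ≤ _ := mul_le_mul_of_nonneg_right (by linarith) (Real.exp_pos _).le

end H69.ED
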