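import Pool.Agent.H69.ED.DisB
import Pool.Agent.H69.ED.LinA

/-!
# DisC: the discrepancy has an exponent

Write `δ n a b = |(P (a+n) - P a) - (P (b+n) - P b)|`. `submult` and `rate` for `a_k = ‖T^k f‖` give `Cc` and `b`; `β = b / log L`.
Upper bound: for `n ≥ 1` let `k = ⌈log n / log L⌉₊`, `n ≤ L^k ≤ L n`. `Phi_upper`, `Phi_sub`:
`δ n a b ≤ 2 C ∑_{j≤k} ‖T^j f‖ ≤ C' ∑_{j ≤ k} exp ((b+ε') j) ≤ C'' exp ((b+ε') k) ≤ C''' n^(β+ε)` (`ε' = ε log L`).
Lower bound, `β > 0`: let `B n = sup δ n`, `Bs n = max_{s≤n} B s` (work with explicit witnesses `s ≤ n`, `a`, `b`).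
(1) For every `N ≥ lm L` there are `s ≤ N`, `a`, `b` with `δ s a b ≥ c N^β`: take `k` maximal with `lm L^k ≤ N`, `big_window k`;
    `Cc ‖T^k f‖ ≥ exp (b k)` because `exp (b k) > 1` for `k ≥ 1`.
(2) If `δ n a b ≤ B` for all `a, b` and `δ t a b ≤ E` for all `t < n`, `a, b`, then `δ s a b ≤ (s / n) B + E` (cut the window of `s`
    letters into `s / n` windows of `n` letters and a rest).
(3) `N = ⌈n^(1+ε)⌉`, `E = C n^(β+ε β/2)` (upper bound, for `t ≤ n`).
-/

namespace H69.ED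

open Filter

theorem disc_abs {δ : ℕ → ℤ → ℤ → ℝ}
    (hadd : ∀ (m n : ℕ) (a b : ℤ), δ (n + m) a b ≤ δ n a b + δ m (a + n) (b + n))
    (h0 : ∀ a b, δ 0 a b = 0) {β c N0 : ℝ} (hβ : 0 < β) (hc : 0 < c)
    (hup : ∀ ε : ℝ, 0 < ε → ∃ C : ℝ, 0 ≤ C ∧ ∀ n : ℕ, 1 ≤ n → ∀ a b,
      δ n a b ≤ C * (n : ℝ) ^ (β + ε))
    (hlow : ∀ N : ℕ, N0 ≤ N → ∃ s : ℕ, s ≤ N ∧ ∃ a b, c * (N : ℝ) ^ β ≤ δ s a b)
    {ε : ℝ} (hε : 0 < ε) :
    ∀ᶠ n : ℕ in atTop, ∃ a b, (n : ℝ) ^ (β - ε) ≤ δ n a b := by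
  obtain ⟨C, hC, hCu⟩ := hup (ε * β / 2) (by positivity)
  have step : ∀ (n : ℕ) (B E : ℝ), (∀ a b, δ n a b ≤ B) → (∀ t < n, ∀ a b, δ t a b ≤ E) →
      ∀ (q t : ℕ), t < n → ∀ a b, δ (n * q + t) a b ≤ q * B + E := by
    intro n B E h1 h2 q
    induction q with
    | zero => intro t ht a b; simpa using h2 t ht a b
    | succ q ih =>
      intro t ht a b
      have e : n * (q + 1) + t = n + (n * q + t) := by ring
      rw [e]
      have e1 := hadd (n * q + t) n a b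
      have e2 := h1 a b
      have e3 := ih t ht (a + n) (b + n)
      push_cast
      linarith
  have hx : Tendsto (fun n : ℕ => (n : ℝ) ^ (ε * β / 2)) atTop atTop :=
    (tendsto_rpow_atTop (by positivity)).comp tendsto_natCast_atTop_atTop
  have hev1 : ∀ᶠ n : ℕ in atTop,
      2 + C * ((n : ℝ) ^ (ε * β / 2)) < c * ((n : ℝ) ^ (ε * β / 2)) ^ 2 := by
    filter_upwards [hx.eventually_ge_atTop 1, hx.eventually_ge_atTop ((2 + C) / c + 1)] with n h1 h2
    set x := (n : ℝ) ^ (ε * β / 2)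
    have h3 : 2 + C + c ≤ c * x := by
      have := mul_le_mul_of_nonneg_left h2 hc.le
      have e : c * ((2 + C) / c + 1) = 2 + C + c := by field_simp
      linarith
    have h4 : (2 + C + c) * x ≤ (c * x) * x := mul_le_mul_of_nonneg_right h3 (by linarith)
    nlinarith
  have hev2 : ∀ᶠ n : ℕ in atTop, N0 ≤ (n : ℝ) :=
    tendsto_natCast_atTop_atTop.eventually_ge_atTop N0
  filter_upwards [hev1, hev2, eventually_ge_atTop 1] with n h1 h2 hn
  by_contra hcon
  push Not at hcon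
  have hn1 : (1 : ℝ) ≤ n := by exact_mod_cast hn
  have hn0 : (0 : ℝ) < n := by linarith
  set y : ℝ := (n : ℝ) ^ (1 + ε) with hy
  set N : ℕ := ⌈y⌉₊ with hN
  have hy1 : (n : ℝ) ≤ y := by
    calc (n : ℝ) = (n : ℝ) ^ (1 : ℝ) := (Real.rpow_one _).symm
      _ ≤ y := Real.rpow_le_rpow_of_exponent_le hn1 (by linarith)
  have hyN : y ≤ N := Nat.le_ceil y
  have hNy : (N : ℝ) ≤ 2 * y := by
    have := Nat.ceil_lt_add_one (a := y) (by linarith)
    linarith
  obtain ⟨s, hs, a, b, hsab⟩ := hlow N (by linarith)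
  have hB : ∀ a b, δ n a b ≤ (n : ℝ) ^ (β - ε) := fun a b => (hcon a b).le
  have hE : ∀ t < n, ∀ a b, δ t a b ≤ C * (n : ℝ) ^ (β + ε * β / 2) := by
    intro t ht a b
    rcases Nat.eq_zero_or_pos t with rfl | htp
    · rw [h0]; positivity
    · refine (hCu t htp a b).trans ?_
      refine mul_le_mul_of_nonneg_left ?_ hC
      exact Real.rpow_le_rpow (by positivity) (by exact_mod_cast ht.le) (by positivity)
  have key := step n _ _ hB hE (s / n) (s % n) (Nat.mod_lt _ hn) a b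
  rw [Nat.div_add_mod] at key
  have hq : ((s / n : ℕ) : ℝ) ≤ 2 * (n : ℝ) ^ ε := by
    have e1 : ((s / n : ℕ) : ℝ) ≤ (s : ℝ) / n := Nat.cast_div_le
    have e2 : (s : ℝ) ≤ 2 * y := le_trans (by exact_mod_cast hs) hNy
    have e3 : (s : ℝ) / n ≤ 2 * y / n := by gcongr
    have e4 : 2 * y / n = 2 * (n : ℝ) ^ ε := by
      rw [hy, Real.rpow_add hn0, Real.rpow_one]
      field_simp
    linarith
  have hq2 : ((s / n : ℕ) : ℝ) * (n : ℝ) ^ (β - ε) ≤ 2 * (n : ℝ) ^ β := by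
    calc ((s / n : ℕ) : ℝ) * (n : ℝ) ^ (β - ε) ≤ 2 * (n : ℝ) ^ ε * (n : ℝ) ^ (β - ε) := by gcongr
      _ = 2 * (n : ℝ) ^ β := by
        rw [mul_assoc, ← Real.rpow_add hn0]; congr 2; ring
  have hNb : (n : ℝ) ^ β * ((n : ℝ) ^ (ε * β / 2)) ^ 2 ≤ (N : ℝ) ^ β := by
    calc (n : ℝ) ^ β * ((n : ℝ) ^ (ε * β / 2)) ^ 2 = y ^ β := by
          rw [hy, ← Real.rpow_mul hn0.le, ← Real.rpow_natCast, ← Real.rpow_mul hn0.le,
            ← Real.rpow_add hn0]
          congr 1; push_cast; ring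
      _ ≤ (N : ℝ) ^ β := Real.rpow_le_rpow (by linarith) hyN hβ.le
  have hEe : C * (n : ℝ) ^ (β + ε * β / 2) = (n : ℝ) ^ β * (C * (n : ℝ) ^ (ε * β / 2)) := by
    rw [Real.rpow_add hn0]; ring
  have hnb : 0 < (n : ℝ) ^ β := Real.rpow_pos_of_pos hn0 _
  have f1 : c * ((n : ℝ) ^ β * ((n : ℝ) ^ (ε * β / 2)) ^ 2) ≤ c * (N : ℝ) ^ β :=
    mul_le_mul_of_nonneg_left hNb hc.le
  have f2 : (n : ℝ) ^ β * (c * ((n : ℝ) ^ (ε * β / 2)) ^ 2) ≤
      (n : ℝ) ^ β * (2 + C * (n : ℝ) ^ (ε * β / 2)) := by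
    rw [hEe] at key
    nlinarith
  have f3 := le_of_mul_le_mul_left f2 hnb
  linarith

namespace Geo

variable {A K : Type} [Fintype A] [Field K] [NumberField K] (G : Geo A K)

theorem disc : ∃ β : ℝ, 0 ≤ β ∧
    (∀ ε : ℝ, 0 < ε → ∃ C : ℝ, 0 ≤ C ∧ ∀ (n : ℕ), 1 ≤ n → ∀ a b : ℤ,
      |(G.P (a + n) - G.P a) - (G.P (b + n) - G.P b)| ≤ C * (n : ℝ) ^ (β + ε)) ∧
    (0 < β → ∀ ε : ℝ, 0 < ε → ∃ c : ℝ, 0 < c ∧ ∀ᶠ n : ℕ in atTop, ∃ a b : ℤ,
      c * (n : ℝ) ^ (β - ε) ≤ |(G.P (a + n) - G.P a) - (G.P (b + n) - G.P b)|) := by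
  obtain ⟨Cc, hCc, hsub⟩ := submult G.T G.f
  obtain ⟨b, hb, hb1, hb2⟩ := rate (a := fun k => ‖(G.T ^ k) G.f‖) (fun k => norm_nonneg _)
    hCc hsub
  have hL : 1 < G.L := G.L_gt_one
  have hL0 : 0 < G.L := by linarith
  have hl : 0 < Real.log G.L := Real.log_pos hL
  set l := Real.log G.L with hldef
  have hexp : ∀ (x : ℝ) (k : ℕ), Real.exp (x * l * k) = (G.L ^ k : ℝ) ^ x := by
    intro x k
    rw [Real.rpow_def_of_pos (by positivity), Real.log_pow, ← hldef]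
    congr 1; ring
  have hbl : b = b / l * l := by field_simp
  have hup : ∀ ε : ℝ, 0 < ε → ∃ C : ℝ, 0 ≤ C ∧ ∀ (n : ℕ), 1 ≤ n → ∀ a c : ℤ,
      |(G.P (a + n) - G.P a) - (G.P (c + n) - G.P c)| ≤ C * (n : ℝ) ^ (b / l + ε) := by
    intro ε hε
    obtain ⟨C1, hC1, hC1'⟩ := G.Phi_upper
    obtain ⟨C2, hC2, hC2'⟩ := hb2 (ε * l) (by positivity)
    have hw : 0 < b + ε * l := by positivity
    set w := b + ε * l with hwdef
    have hr : 1 < Real.exp w := Real.one_lt_exp_iff.2 hw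
    set r := Real.exp w with hrdef
    have hr1 : 0 < r - 1 := by linarith
    have hgeo : ∀ k : ℕ, ∑ j ∈ Finset.range (k + 1), ‖(G.T ^ j) G.f‖ ≤ C2 * (r / (r - 1)) * r ^ k := by
      intro k
      have e1 : ∑ j ∈ Finset.range (k + 1), ‖(G.T ^ j) G.f‖ ≤ ∑ j ∈ Finset.range (k + 1), C2 * r ^ j := by
        refine Finset.sum_le_sum fun j _ => ?_
        have := hC2' j
        have e : Real.exp (w * j) = r ^ j := by
          rw [hrdef, ← Real.exp_nat_mul]; congr 1; ring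
        rwa [e] at this
      have e2 : ∑ j ∈ Finset.range (k + 1), C2 * r ^ j = C2 * ((r ^ (k + 1) - 1) / (r - 1)) := by
        rw [← Finset.mul_sum, geom_sum_eq hr.ne']
      rw [e2] at e1
      refine e1.trans ?_
      have e3 : (r ^ (k + 1) - 1) / (r - 1) ≤ r / (r - 1) * r ^ k := by
        rw [div_mul_eq_mul_div]
        gcongr
        rw [pow_succ]; linarith [mul_comm r (r ^ k)]
      calc C2 * ((r ^ (k + 1) - 1) / (r - 1)) ≤ C2 * (r / (r - 1) * r ^ k) := by gcongr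
        _ = _ := by ring
    refine ⟨2 * (C1 * (C2 * (r / (r - 1)) * G.L ^ (b / l + ε))), by positivity, ?_⟩
    intro n hn a c
    have hn1 : (1 : ℝ) ≤ n := by exact_mod_cast hn
    have hn0 : (0 : ℝ) < n := by linarith
    set k := ⌈Real.log n / l⌉₊ with hk
    have hk1 : Real.log n ≤ k * l := by
      have := Nat.le_ceil (Real.log n / l)
      rw [div_le_iff₀ hl] at this
      exact this
    have hk2 : (k : ℝ) * l < Real.log n + l := by
      have := Nat.ceil_lt_add_one (a := Real.log n / l) (div_nonneg (Real.log_nonneg hn1) hl.le)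
      have h2 : (k : ℝ) * l < (Real.log n / l + 1) * l := mul_lt_mul_of_pos_right this hl
      have h3 : (Real.log n / l + 1) * l = Real.log n + l := by field_simp
      linarith
    have hLk : Real.log (G.L ^ k) = k * l := by rw [Real.log_pow]
    have hk3 : (n : ℝ) ≤ G.L ^ k := by
      rw [← Real.log_le_log_iff hn0 (by positivity), hLk]; exact hk1
    have hk4 : G.L ^ k ≤ G.L * n := by
      rw [← Real.log_le_log_iff (by positivity) (by positivity), hLk,
        Real.log_mul hL0.ne' hn0.ne', ← hldef]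
      linarith
    have hrk : r ^ k ≤ G.L ^ (b / l + ε) * (n : ℝ) ^ (b / l + ε) := by
      have e1 : r ^ k = (G.L ^ k : ℝ) ^ (b / l + ε) := by
        rw [← hexp, hrdef, ← Real.exp_nat_mul]
        congr 1
        rw [hwdef]
        have : (b / l + ε) * l = b + ε * l := by field_simp
        rw [this]; ring
      rw [e1, ← Real.mul_rpow hL0.le hn0.le]
      exact Real.rpow_le_rpow (by positivity) hk4 (by positivity)
    have hA := hC1' k n hk3 a
    have hB := hC1' k n hk3 c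
    have hS := hgeo k
    have hSb : C1 * ∑ j ∈ Finset.range (k + 1), ‖(G.T ^ j) G.f‖ ≤
        C1 * (C2 * (r / (r - 1)) * (G.L ^ (b / l + ε) * (n : ℝ) ^ (b / l + ε))) := by
      refine mul_le_mul_of_nonneg_left (hS.trans ?_) hC1
      exact mul_le_mul_of_nonneg_left hrk (by positivity)
    rw [← G.Phi_sub]
    calc |(G.Phi (a + n) - G.Phi a) - (G.Phi (c + n) - G.Phi c)|
        ≤ |G.Phi (a + n) - G.Phi a| + |G.Phi (c + n) - G.Phi c| := abs_sub _ _
      _ ≤ 2 * (C1 * (C2 * (r / (r - 1)) * (G.L ^ (b / l + ε) * (n : ℝ) ^ (b / l + ε)))) := by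
        linarith
      _ = _ := by ring
  refine ⟨b / l, by positivity, hup, fun hβ ε hε => ⟨1, one_pos, ?_⟩⟩
  have hbp : 0 < b := by
    rw [hbl]; positivity
  have hlm : 1 ≤ G.lm := G.one_le_lm
  have hlm0 : 0 < G.lm := by linarith
  have hlow : ∀ N : ℕ, G.lm * G.L ≤ N → ∃ s : ℕ, s ≤ N ∧ ∃ a c : ℤ,
      1 / (2 * Cc * (G.lm * G.L) ^ (b / l)) * (N : ℝ) ^ (b / l) ≤
        |(G.P (a + s) - G.P a) - (G.P (c + s) - G.P c)| := by
    intro N hN
    have hN0 : (0 : ℝ) < N := lt_of_lt_of_le (by positivity) hN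
    have hNl : 1 ≤ (N : ℝ) / G.lm := by
      rw [le_div_iff₀ hlm0]; nlinarith
    have hNl2 : G.L ≤ (N : ℝ) / G.lm := by
      rw [le_div_iff₀ hlm0]; linarith [mul_comm G.L G.lm]
    have hlog : l ≤ Real.log (N / G.lm) := Real.log_le_log hL0 hNl2
    set k := ⌊Real.log (N / G.lm) / l⌋₊ with hk
    have hk1 : 1 ≤ k := by
      rw [hk, Nat.one_le_floor_iff, le_div_iff₀ hl]; linarith
    have hk2 : (k : ℝ) * l ≤ Real.log (N / G.lm) := by
      have := Nat.floor_le (a := Real.log (N / G.lm) / l)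
        (div_nonneg (Real.log_nonneg hNl) hl.le)
      rwa [← hk, le_div_iff₀ hl] at this
    have hk3 : Real.log (N / G.lm) < (k + 1) * l := by
      have := Nat.lt_floor_add_one (Real.log (N / G.lm) / l)
      rwa [← hk, div_lt_iff₀ hl] at this
    have hLk : Real.log (G.L ^ k) = k * l := by rw [Real.log_pow]
    have hk4 : G.L ^ k ≤ N / G.lm := by
      rw [← Real.log_le_log_iff (by positivity) (by positivity), hLk]; exact hk2
    have hk5 : (N : ℝ) / (G.lm * G.L) ≤ G.L ^ k := by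
      rw [← Real.log_le_log_iff (by positivity) (by positivity), hLk]
      have : (N : ℝ) / (G.lm * G.L) = N / G.lm / G.L := by rw [div_div]
      rw [this, Real.log_div (by positivity) hL0.ne', ← hldef]
      linarith
    obtain ⟨s, hs1, hs2, a, c, hac⟩ := G.big_window k
    refine ⟨s, ?_, a, c, ?_⟩
    · have : G.lm * G.L ^ k ≤ N := by
        rw [le_div_iff₀ hlm0] at hk4; linarith [mul_comm (G.L ^ k) G.lm]
      exact_mod_cast hs2.trans this
    · refine le_trans ?_ hac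
      have e1 := hb1 k
      have e2 : 1 < Real.exp (b * k) := Real.one_lt_exp_iff.2 (by positivity)
      have e3 : Real.exp (b * k) ≤ Cc * ‖(G.T ^ k) G.f‖ := by
        rcases le_max_iff.1 e1 with h | h
        · exact absurd h (by linarith)
        · exact h
      have e4 : Real.exp (b * k) = (G.L ^ k : ℝ) ^ (b / l) := by
        rw [← hexp, ← hbl]
      have e5 : ((N : ℝ) / (G.lm * G.L)) ^ (b / l) ≤ (G.L ^ k : ℝ) ^ (b / l) :=
        Real.rpow_le_rpow (by positivity) hk5 (by positivity)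
      rw [Real.div_rpow hN0.le (by positivity)] at e5
      have hCc0 : 0 < Cc := by linarith
      have hp : 0 < (G.lm * G.L) ^ (b / l) := Real.rpow_pos_of_pos (by positivity) _
      have e6 : (N : ℝ) ^ (b / l) / (G.lm * G.L) ^ (b / l) ≤ Cc * ‖(G.T ^ k) G.f‖ := by
        linarith
      rw [div_le_iff₀ hp] at e6
      rw [one_div, inv_mul_le_iff₀ (by positivity)]
      calc (N : ℝ) ^ (b / l) ≤ Cc * ‖(G.T ^ k) G.f‖ * (G.lm * G.L) ^ (b / l) := e6
        _ = _ := by ring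
  have main := disc_abs (δ := fun n a c => |(G.P (a + n) - G.P a) - (G.P (c + n) - G.P c)|)
    (fun m n a c => ?_) (fun a c => by simp) hβ (c := 1 / (2 * Cc * (G.lm * G.L) ^ (b / l)))
    (N0 := G.lm * G.L) ?_ hup hlow hε
  · filter_upwards [main] with n hn
    obtain ⟨a, c, h⟩ := hn
    exact ⟨a, c, by rw [one_mul]; exact h⟩
  · have e : (G.P (a + ((n + m : ℕ) : ℤ)) - G.P a) - (G.P (c + ((n + m : ℕ) : ℤ)) - G.P c) =
        ((G.P (a + n) - G.P a) - (G.P (c + n) - G.P c)) +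
        ((G.P (a + n + m) - G.P (a + n)) - (G.P (c + n + m) - G.P (c + n))) := by
      have e1 : a + ((n + m : ℕ) : ℤ) = a + n + m := by push_cast; ring
      have e2 : c + ((n + m : ℕ) : ℤ) = c + n + m := by push_cast; ring
      rw [e1, e2]; ring
    rw [e]
    exact abs_add_le _ _
  · have : 0 < (G.lm * G.L) ^ (b / l) := Real.rpow_pos_of_pos (by positivity) _
    positivity

end Geo

end H69.ED
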