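import Pool.Agent.H69.ED.KapE

/-!
# Low: the lower bound

`sep_point`: if `r ∈ Reg C`, `|re r| ≤ 2` and `Good η (P q) (P (q+l)) r` then all conjugates of `r` are bounded: by `reg_offset`
`o = pos q + r - v (P q + re r)` has conjugates at most `B` and `|tl (P q + re r) - q| ≤ 3`, `lip`. So these `r` form a finite set
`F` (`fin_set`); choose `t ∈ (0,1)` outside `re F` (`(0,1)` is infinite) and `δ ≤ 1` at most the distance of `t` to `re F`.

`lower_core`: `4 κ ≤ δ`, `lm ≤ κ L^m`. `b = tl (L^m t)`: `|P b - L^m t| ≤ lm ≤ κ L^m`. Let `Dd = D (word z 0 n) (word z b n)` and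
suppose `lm Dd < κ L^m`. `path` with `α = 0`, `β = b`. For `g` with `io^[m] ((g+1) l) ≤ n` let `i = io^[m] (g l)`,
`j = io^[m] ((g+1) l)`: if `cost j - cost i < Q` then `Kap` gives `r` with `|P (γ i) - L^m (P (g l) + re r)| ≤ κ L^m`, and
`|(P (γ i) - P b) - P i| ≤ lm cost i ≤ κ L^m`, `P i = L^m P (g l)`: `|P b - L^m re r| ≤ 2 κ L^m`, `|re r - t| ≤ 3 κ < δ`:
contradiction. So all these windows cost at least `Q`: `Dd ≥ Q · #g`, and `#g ≥ n / (l lm L^m) - 1`
(`io^[m] (g l) ≤ L^m P (g l) ≤ L^m lm l g`, `iter_sub_le`, `P_sub_le`, so every `g` with `(g+1) l lm L^m ≤ n` counts).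

`lower`: `e = max η 0`, `ε' = min ε 1 / 4`-type; `kap_all` with `κ0 = δ/4`. Given `n` large choose `j` with
`L^(jk) ≤ n^(1/(2-e)) < L^((j+1)k)`. Then `lower_core` gives
`D ≥ min (κ L^(jk)/lm) ((n/(l lm L^(jk)) - 1) c1 L^((e-ε')jk)) ≥ c n^(1/(2-e) - ε)`: the first term is
`≥ c n^(1/(2-e))`, the second `≥ c n · n^((e-1-ε')/(2-e)) = c n^(1/(2-e) - ε'/(2-e))`.
-/

namespace H69.ED.Geo

open H95.Edit Filter

variable {A K : Type} [Fintype A] [Field K] [NumberField K] (G : Geo A K)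

theorem sep_point {η : ℝ} (hη : η < 1) (C : ℝ) {l : ℕ} (hl : 1 ≤ l) :
    ∃ t δ : ℝ, 0 < t ∧ t < 1 ∧ 0 < δ ∧ ∀ (r : K) (q : ℤ), r ∈ G.Reg C →
      G.Good η (G.P q) (G.P (q + l)) r → δ ≤ |G.re r - t| := by
  obtain ⟨B, hB1, hB⟩ := G.reg_offset hη C
  obtain ⟨Cl, hCl1, hCl⟩ := G.lip
  set B3 : ℝ := max 2 (B + Cl * 3) with hB3
  have hfin := G.fin_set B3
  have hfin' : (G.re '' {x : K | IsIntegral ℤ x ∧ |G.re x| ≤ B3 ∧
    ∀ φ : K →+* ℂ, φ ≠ G.idC → ‖φ x‖ ≤ B3}).Finite := hfin.image _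
  obtain ⟨t, ⟨ht0, ht1⟩, ht⟩ := (Set.Ioo_infinite (zero_lt_one' ℝ)).exists_notMem_finite hfin'
  have hopen := hfin'.isClosed.isOpen_compl
  obtain ⟨δ, hδ, hball⟩ := Metric.isOpen_iff.1 hopen t ht
  refine ⟨t, min δ 1, ht0, ht1, lt_min hδ one_pos, fun r q hr hg => ?_⟩
  by_cases h2 : |G.re r| ≤ 2
  · have hmem : r ∈ {x : K | IsIntegral ℤ x ∧ |G.re x| ≤ B3 ∧
        ∀ φ : K →+* ℂ, φ ≠ G.idC → ‖φ x‖ ≤ B3} := by
      refine ⟨hr.1, h2.trans (le_max_left _ _), fun φ hφ => ?_⟩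
      have h3 : G.P q + 1 ≤ G.P (q + l) := by
        have := G.P_sub_ge (show q ≤ q + (l : ℤ) by omega)
        have e : ((q + (l : ℤ) - q : ℤ) : ℝ) = l := by push_cast; ring
        rw [e] at this
        have : (1 : ℝ) ≤ l := by exact_mod_cast hl
        linarith
      have h4 := hB q r hr (G.good_mono le_rfl h3 hg) φ hφ
      have h5 := hCl φ (G.tl (G.P q + G.re r)) q
      have h6 := G.abs_tl_sub_lt (G.P q) (G.P q + G.re r)
      rw [G.tl_P, add_sub_cancel_left] at h6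
      have h7 : |((G.tl (G.P q + G.re r) - q : ℤ) : ℝ)| ≤ 3 := by linarith
      have h8 : φ r = φ (G.pos q + r - G.v (G.P q + G.re r)) +
          (φ (G.pos (G.tl (G.P q + G.re r))) - φ (G.pos q)) := by
        unfold v
        rw [map_sub, map_add]
        ring
      rw [h8]
      refine (norm_add_le _ _).trans ((add_le_add h4 (h5.trans
        (mul_le_mul_of_nonneg_left h7 (by linarith)))).trans (le_max_right _ _))
    have h9 : G.re r ∉ Metric.ball t δ := by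
      intro hcon
      exact hball hcon ⟨r, hmem, rfl⟩
    rw [Metric.mem_ball, Real.dist_eq, not_lt] at h9
    exact (min_le_left _ _).trans h9
  · push Not at h2
    refine (min_le_right _ _).trans ?_
    have h3 : |G.re r| - |t| ≤ |G.re r - t| := abs_sub_abs_le_abs_sub _ _
    rw [abs_of_pos ht0] at h3
    linarith

theorem lower_core {η C κ Q t δ : ℝ} {l m : ℕ} (hl : 1 ≤ l) (hQ : 0 < Q) (ht : 0 < t)
    (ht1 : t < 1)
    (hsep : ∀ (r : K) (q : ℤ), r ∈ G.Reg C → G.Good η (G.P q) (G.P (q + l)) r →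
      δ ≤ |G.re r - t|) (hκ : 0 < κ) (hκδ : 4 * κ ≤ δ) (hm : G.lm ≤ κ * G.L ^ m)
    (hK : G.Kap η C κ l m Q) (n : ℕ) : ∃ b : ℤ,
      min (κ * G.L ^ m / G.lm) (((n : ℝ) / (l * G.lm * G.L ^ m) - 1) * Q) ≤
        D (word G.z 0 n) (word G.z b n) := by
  have hL1 : 1 < G.L := G.L_gt_one
  have hLm : 0 < G.L ^ m := pow_pos (by linarith) m
  have hlm := G.one_le_lm
  have hl0 : (1 : ℝ) ≤ l := by exact_mod_cast hl
  set b := G.tl (G.L ^ m * t) with hb
  refine ⟨b, ?_⟩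
  set Dd := D (word G.z 0 n) (word G.z b n) with hDd
  have hbt : |G.P b - G.L ^ m * t| ≤ κ * G.L ^ m := by
    have h1 := (G.tl_spec (G.L ^ m * t)).1
    have h2 := G.lt_P_tl (G.L ^ m * t)
    rw [← hb] at h1 h2
    rw [abs_le]
    constructor <;> linarith
  by_cases hcase : κ * G.L ^ m ≤ G.lm * Dd
  · refine (min_le_left _ _).trans ?_
    rw [div_le_iff₀ (by linarith)]
    linarith
  push Not at hcase
  refine (min_le_right _ _).trans ?_
  obtain ⟨γ, cost, hγ0, hγm, hc0, hcm, hcn, hpath⟩ := path G.z 0 b n n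
  have hcnR : (cost n : ℝ) ≤ Dd := by exact_mod_cast hcn
  -- positions of the windows
  have hio : ∀ g : ℕ, 0 ≤ G.io^[m] ((g : ℤ) * l) := by
    intro g
    rw [← G.iter_zero m]
    exact (G.iter_strictMono m).monotone (by positivity)
  have hwin : ∀ g : ℕ, G.io^[m] (((g + 1 : ℕ) : ℤ) * l) ≤ n →
      Q ≤ (cost (G.io^[m] (((g + 1 : ℕ) : ℤ) * l)).toNat : ℝ) -
        cost (G.io^[m] ((g : ℤ) * l)).toNat := by
    intro g hg
    by_contra hcon
    push Not at hcon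
    set i := (G.io^[m] ((g : ℤ) * l)).toNat with hi
    set j := (G.io^[m] (((g + 1 : ℕ) : ℤ) * l)).toNat with hj
    have ei : ((i : ℕ) : ℤ) = G.io^[m] ((g : ℤ) * l) := Int.toNat_of_nonneg (hio g)
    have ej : ((j : ℕ) : ℤ) = G.io^[m] (((g + 1 : ℕ) : ℤ) * l) := Int.toNat_of_nonneg (hio _)
    have eg : ((g + 1 : ℕ) : ℤ) * l = (g : ℤ) * l + l := by push_cast; ring
    have hij : i ≤ j := by
      have : G.io^[m] ((g : ℤ) * l) ≤ G.io^[m] (((g + 1 : ℕ) : ℤ) * l) := by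
        apply (G.iter_strictMono m).monotone
        rw [eg]
        omega
      omega
    have hjn : j ≤ n := by omega
    have h1 := hpath i j hij hjn
    have h2 : (D (word G.z (G.io^[m] ((g : ℤ) * l)) (G.io^[m] ((g : ℤ) * l + l) -
        G.io^[m] ((g : ℤ) * l)).toNat) (word G.z (γ i) (γ j - γ i).toNat) : ℝ) < Q := by
      have e1 : (0 : ℤ) + i = G.io^[m] ((g : ℤ) * l) := by rw [zero_add, ei]
      have e2 : (G.io^[m] ((g : ℤ) * l + l) - G.io^[m] ((g : ℤ) * l)).toNat = j - i := by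
        rw [← eg]
        omega
      rw [e2, ← e1]
      have h3 : ((cost j - cost i : ℕ) : ℝ) = (cost j : ℝ) - cost i := by
        rw [Nat.cast_sub (hcm hij)]
      have h4 : (D (word G.z (0 + (i : ℤ)) (j - i)) (word G.z (γ i) (γ j - γ i).toNat) : ℝ) ≤
          ((cost j - cost i : ℕ) : ℝ) := by exact_mod_cast h1
      linarith
    obtain ⟨r, hr, hg1, hg2⟩ := hK _ _ _ h2
    have h5 := hpath 0 i (Nat.zero_le _) (hij.trans hjn)
    have h6 := G.len_lip 0 b i (γ i - b).toNat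
    have e3 : (b : ℤ) + ((γ i - b).toNat : ℕ) = γ i := by
      have : γ 0 ≤ γ i := hγm (Nat.zero_le _)
      rw [hγ0] at this
      omega
    rw [e3, zero_add, G.P_zero, sub_zero] at h6
    have h7 : (D (word G.z 0 i) (word G.z b (γ i - b).toNat) : ℝ) ≤ Dd := by
      have h8 : D (word G.z 0 i) (word G.z b (γ i - b).toNat) ≤ cost i := by
        have := h5
        rw [hγ0, hc0] at this
        simpa using this
      have h9 : cost i ≤ cost n := hcm (hij.trans hjn)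
      have h10 : (D (word G.z 0 i) (word G.z b (γ i - b).toNat) : ℝ) ≤ cost n := by
        exact_mod_cast h8.trans h9
      linarith
    have h11 : |G.P i - (G.P (γ i) - G.P b)| ≤ κ * G.L ^ m := by
      refine h6.trans ((mul_le_mul_of_nonneg_left h7 (by linarith)).trans hcase.le)
    rw [ei, G.P_iter] at h11
    have h12 : |G.L ^ m * (G.re r - t)| ≤ 3 * κ * G.L ^ m := by
      rw [abs_le] at h11 hg2 hbt ⊢
      constructor
      · nlinarith [h11.1, h11.2, hg2.1, hg2.2, hbt.1, hbt.2]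
      · nlinarith [h11.1, h11.2, hg2.1, hg2.2, hbt.1, hbt.2]
    rw [abs_mul, abs_of_pos hLm] at h12
    have h13 : |G.re r - t| ≤ 3 * κ := by
      by_contra hcon2
      push Not at hcon2
      nlinarith
    have h14 := hsep r _ hr hg1
    linarith
  -- number of windows
  set Gn : ℕ := ⌊(n : ℝ) / (l * G.lm * G.L ^ m)⌋₊ with hGn
  have hden : 0 < l * G.lm * G.L ^ m := by positivity
  have hGn1 : (Gn : ℝ) ≤ (n : ℝ) / (l * G.lm * G.L ^ m) := Nat.floor_le (by positivity)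
  have hGn2 : (n : ℝ) / (l * G.lm * G.L ^ m) < Gn + 1 := Nat.lt_floor_add_one _
  have hle : ∀ g : ℕ, g ≤ Gn → G.io^[m] ((g : ℤ) * l) ≤ n := by
    intro g hg
    have h1 := G.iter_sub_le m (show (0 : ℤ) ≤ (g : ℤ) * l by positivity)
    rw [G.iter_zero, G.P_zero, sub_zero, sub_zero] at h1
    have h2 := G.P_sub_le (show (0 : ℤ) ≤ (g : ℤ) * l by positivity)
    rw [G.P_zero, sub_zero, sub_zero] at h2
    have h3 : (g : ℝ) ≤ (n : ℝ) / (l * G.lm * G.L ^ m) :=
      le_trans (by exact_mod_cast hg) hGn1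
    rw [le_div_iff₀ hden] at h3
    have h4 : ((G.io^[m] ((g : ℤ) * l) : ℤ) : ℝ) ≤ n := by
      refine h1.trans ((mul_le_mul_of_nonneg_left h2 hLm.le).trans (le_of_eq_of_le ?_ h3))
      push_cast
      ring
    exact_mod_cast h4
  have hsum : ∀ g : ℕ, g ≤ Gn → (g : ℝ) * Q ≤ cost (G.io^[m] ((g : ℤ) * l)).toNat := by
    intro g
    induction g with
    | zero => intro _; simp
    | succ g ih =>
      intro hg
      have h1 := ih (by omega)
      have h2 := hwin g (hle (g + 1) hg)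
      push_cast at h2 ⊢
      linarith
  have h1 := hsum Gn le_rfl
  have h2 : cost (G.io^[m] ((Gn : ℤ) * l)).toNat ≤ cost n := by
    apply hcm
    have := hle Gn le_rfl
    omega
  have h3 : (cost (G.io^[m] ((Gn : ℤ) * l)).toNat : ℝ) ≤ cost n := by exact_mod_cast h2
  nlinarith

theorem lower {η : ℝ} (hη : η < 1) (hR : ∀ r ∈ G.R η, r = 0) (ε : ℝ) (hε : 0 < ε) :
    ∃ c : ℝ, 0 < c ∧ ∀ᶠ n : ℕ in atTop, ∃ a b : ℤ,
      c * (n : ℝ) ^ (1 / (2 - max η 0) - ε) ≤ D (word G.z a n) (word G.z b n) := by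
  set e : ℝ := max η 0 with he
  have he0 : 0 ≤ e := le_max_right _ _
  have he1 : e < 1 := max_lt hη one_pos
  obtain ⟨C, l, hl, hall⟩ := G.kap_all hη hR
  obtain ⟨t, δ, ht0, ht1, hδ, hsep⟩ := G.sep_point hη C hl
  set ε' : ℝ := min ε 1 / 2 with hε'
  have hmin : 0 < min ε 1 := lt_min hε one_pos
  have hε'0 : 0 < ε' := by rw [hε']; linarith
  have hε'ε : ε' ≤ ε := by
    have := min_le_left ε 1
    rw [hε']
    linarith
  obtain ⟨κ, c1, k, hκ, hκ0, hc1, hk, hKap⟩ := hall ε' hε'0 (δ / 4) (by linarith)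
  rw [← he] at hKap
  have hL1 : 1 < G.L := G.L_gt_one
  have hL0 : 0 < G.L := by linarith
  have hlm := G.one_le_lm
  have hlR : (1 : ℝ) ≤ l := by exact_mod_cast hl
  set t0 : ℝ := 1 / (2 - e) with ht0def
  have ht00 : 0 < t0 := by
    rw [ht0def]
    apply div_pos one_pos
    linarith
  have ht01 : t0 < 1 := by
    rw [ht0def, div_lt_one (by linarith)]
    linarith
  have ht0e : t0 * (2 - e) = 1 := by
    rw [ht0def]
    have : (2 - e) ≠ 0 := by linarith
    field_simp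
  set c : ℝ := min (κ / (G.lm * G.L ^ k)) (c1 / (2 * l * G.lm)) with hc
  have hcpos : 0 < c := lt_min (by positivity) (by positivity)
  have hlogL : 0 < Real.log G.L := Real.log_pos hL1
  have hkR : (1 : ℝ) ≤ k := by exact_mod_cast hk
  have hT1 : Tendsto (fun n : ℕ => (n : ℝ) ^ t0) atTop atTop :=
    (tendsto_rpow_atTop ht00).comp tendsto_natCast_atTop_atTop
  have hT2 : Tendsto (fun n : ℕ => (n : ℝ) ^ (1 - t0)) atTop atTop :=
    (tendsto_rpow_atTop (by linarith)).comp tendsto_natCast_atTop_atTop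
  refine ⟨c, hcpos, ?_⟩
  filter_upwards [eventually_ge_atTop 1, hT1.eventually_ge_atTop (G.lm * G.L ^ k / κ),
    hT2.eventually_ge_atTop (2 * (l * G.lm))] with n hn hn1 hn2
  have hnR : (1 : ℝ) ≤ n := by exact_mod_cast hn
  have hn0 : (0 : ℝ) < n := by linarith
  have hlogn : 0 ≤ Real.log n := Real.log_nonneg hnR
  set j : ℕ := ⌊t0 * Real.log n / (k * Real.log G.L)⌋₊ with hj
  have hkl : 0 < (k : ℝ) * Real.log G.L := by positivity
  have hj1 : (j : ℝ) ≤ t0 * Real.log n / (k * Real.log G.L) := Nat.floor_le (by positivity)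
  have hj2 : t0 * Real.log n / (k * Real.log G.L) < j + 1 := Nat.lt_floor_add_one _
  rw [le_div_iff₀ hkl] at hj1
  rw [div_lt_iff₀ hkl] at hj2
  set Y : ℝ := G.L ^ (j * k) with hY
  have hYpos : 0 < Y := pow_pos hL0 _
  have eY : Y = Real.exp ((j * k : ℕ) * Real.log G.L) := by
    rw [hY, ← Real.rpow_natCast, Real.rpow_def_of_pos hL0, mul_comm]
  have en : (n : ℝ) ^ t0 = Real.exp (t0 * Real.log n) := by
    rw [Real.rpow_def_of_pos hn0, mul_comm]
  have hY1 : Y ≤ (n : ℝ) ^ t0 := by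
    rw [eY, en]
    apply Real.exp_le_exp.2
    push_cast
    linarith
  have hY2 : (n : ℝ) ^ t0 ≤ G.L ^ k * Y := by
    have e3 : G.L ^ k * Y = Real.exp (((j * k : ℕ) + k) * Real.log G.L) := by
      rw [add_mul, Real.exp_add, ← eY, mul_comm]
      congr 1
      rw [← Real.rpow_natCast, Real.rpow_def_of_pos hL0, mul_comm]
    rw [e3, en]
    apply Real.exp_le_exp.2
    push_cast
    nlinarith
  have hLk : 0 < G.L ^ k := pow_pos hL0 _
  have hmcond : G.lm ≤ κ * G.L ^ (j * k) := by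
    rw [← hY]
    have h1 : G.lm * G.L ^ k / κ ≤ G.L ^ k * Y := hn1.trans hY2
    rw [div_le_iff₀ hκ] at h1
    have h2 : G.L ^ k * G.lm ≤ G.L ^ k * (κ * Y) := by nlinarith
    exact le_of_mul_le_mul_left h2 hLk
  have hQpos : 0 < c1 * G.L ^ ((e - ε') * ((j * k : ℕ) : ℝ)) := by positivity
  obtain ⟨b, hb⟩ := G.lower_core hl hQpos ht0 ht1 hsep hκ (by linarith) hmcond (hKap j) n
  refine ⟨0, b, le_trans ?_ hb⟩
  rw [← hY]
  have hpow : (n : ℝ) ^ (t0 - ε) ≤ (n : ℝ) ^ t0 :=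
    Real.rpow_le_rpow_of_exponent_le hnR (by linarith)
  apply le_min
  · calc c * (n : ℝ) ^ (t0 - ε) ≤ κ / (G.lm * G.L ^ k) * (G.L ^ k * Y) := by
          apply mul_le_mul (min_le_left _ _) (hpow.trans hY2) (by positivity) (by positivity)
      _ = κ * Y / G.lm := by
          field_simp
  · have h1 : (n : ℝ) / (2 * (l * G.lm * Y)) ≤ (n : ℝ) / (l * G.lm * Y) - 1 := by
      have h2 : (2 : ℝ) ≤ (n : ℝ) / (l * G.lm * Y) := by
        rw [le_div_iff₀ (by positivity)]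
        have h3 : (n : ℝ) = (n : ℝ) ^ (1 - t0) * (n : ℝ) ^ t0 := by
          rw [← Real.rpow_add hn0]
          simp
        calc (2 : ℝ) * (l * G.lm * Y) = (2 * (l * G.lm)) * Y := by ring
          _ ≤ (n : ℝ) ^ (1 - t0) * (n : ℝ) ^ t0 := by gcongr
          _ = n := h3.symm
      have h3 : (n : ℝ) / (2 * (l * G.lm * Y)) = (n : ℝ) / (l * G.lm * Y) / 2 := by
        field_simp
      rw [h3]
      linarith
    have e1 : G.L ^ ((e - ε') * ((j * k : ℕ) : ℝ)) = Y * Y ^ (e - 1 - ε') := by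
      have h2 : (e - ε') * ((j * k : ℕ) : ℝ) = ((j * k : ℕ) : ℝ) * (e - ε') := by ring
      rw [h2, Real.rpow_mul hL0.le, Real.rpow_natCast, ← hY]
      have h3 : e - ε' = 1 + (e - 1 - ε') := by ring
      rw [h3, Real.rpow_add hYpos, Real.rpow_one]
    have e2 : (n : ℝ) ^ (t0 * (e - 1 - ε')) ≤ Y ^ (e - 1 - ε') := by
      rw [Real.rpow_mul hn0.le]
      exact Real.rpow_le_rpow_of_nonpos hYpos hY1 (by linarith)
    have e3 : (n : ℝ) ^ (t0 - ε) ≤ n * (n : ℝ) ^ (t0 * (e - 1 - ε')) := by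
      have h5 : (n : ℝ) * (n : ℝ) ^ (t0 * (e - 1 - ε')) = (n : ℝ) ^ (1 + t0 * (e - 1 - ε')) := by
        rw [Real.rpow_add hn0, Real.rpow_one]
      rw [h5]
      apply Real.rpow_le_rpow_of_exponent_le hnR
      nlinarith
    calc c * (n : ℝ) ^ (t0 - ε) ≤ c1 / (2 * l * G.lm) * (n * Y ^ (e - 1 - ε')) := by
          apply mul_le_mul (min_le_right _ _) (e3.trans (by gcongr)) (by positivity)
            (by positivity)
      _ = (n : ℝ) / (2 * (l * G.lm * Y)) * (c1 * G.L ^ ((e - ε') * ((j * k : ℕ) : ℝ))) := by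
          rw [e1]
          field_simp
      _ ≤ ((n : ℝ) / (l * G.lm * Y) - 1) * (c1 * G.L ^ ((e - ε') * ((j * k : ℕ) : ℝ))) := by
          gcongr

end H69.ED.Geo
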