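import Pool.Agent.H69.ED.PicB
import Pool.Agent.H95.Edit.M1_Lcs

/-!
# PerA: negative exponents mean periodicity; periodic fixed points

`per_of_neg`: `η < 0`, `0 ≠ r ∈ R η`. Replace `r` by `m r`, `m ≥ 1` an integer, so that `r` is integral (`R_nsmul`). For
this fixed `r` the conjugates of all offsets `pos i + r - v (P i + re r)` are bounded: `‖φ r‖ + C |i - tl (P i + re r)|`
(`lip`, `abs_tl_sub_lt`, `tl (P i) = i`). `pic_unif`: `V k (P i) (P (i+1)) r ≤ C L^(η k)` for all `i`, `k`. Fix `k` with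
`C L^(η k) < 1`: by `V_count` every tile `m` (it is a descendant of level `k` of some `i`) is matched under
`ρ = lam^k r ≠ 0`. Partners (`mt_partner`): `pos j = pos m + ρ`, `z j = z m`; `j(0) =: q`, `q ≠ 0`, and
`j(m+1) = j(m) + 1` (`pos (j(m)+1) = pos (j(m)) + ell (z m) = pos (m+1) + ρ`, `pos` is injective), so `j(m) = m + q` for all
`m ∈ ℤ`, `z (m + q) = z m`; use `|q|`.

`per_bdd`: period `p`: `word z b n` and `word z a n`: with `s = (b - a) mod p`, `0 ≤ s < p`, `z (a + s + i) = z (b + i)`: if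
`s ≤ n` the word `word z (a+s) (n-s) = word z b (n-s)` is a common subsequence, so `D ≤ 2 s ≤ 2 p`; if `s > n` then
`D ≤ 2 n ≤ 2 p`.
-/

namespace H69.ED

namespace Geo

variable {A K : Type} [Fintype A] [Field K] [NumberField K] (G : Geo A K)

private theorem PerA_integral (r : K) : ∃ n : ℕ, 1 ≤ n ∧ IsIntegral ℤ ((n : K) * r) := by
  have halg : IsAlgebraic ℤ r := by
    have h1 : IsAlgebraic ℚ r := Algebra.IsAlgebraic.isAlgebraic r
    exact (IsFractionRing.isAlgebraic_iff ℤ ℚ K).2 h1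
  obtain ⟨y, hy, hint⟩ := halg.exists_integral_multiple
  refine ⟨y.natAbs, by omega, ?_⟩
  rcases Int.natAbs_eq y with h | h
  · have h2 : ((y.natAbs : ℕ) : K) = (y : K) := by
      rw [← Int.cast_natCast, ← h]
    rw [h2, ← zsmul_eq_mul]
    exact hint
  · have h2 : ((y.natAbs : ℕ) : K) = -(y : K) := by
      rw [← Int.cast_natCast, ← Int.cast_neg]
      congr 1
      omega
    rw [h2, neg_mul, ← zsmul_eq_mul]
    exact hint.neg

private theorem PerA_pos_inj {i j : ℤ} (h : G.pos i = G.pos j) : i = j := by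
  have h1 : G.P i = G.P j := by
    show G.re (G.pos i) = G.re (G.pos j)
    rw [h]
  exact G.P_strictMono.injective h1

theorem per_of_neg {η : ℝ} (hη : η < 0) {r : K} (hr : r ∈ G.R η) (h0 : r ≠ 0) : G.Per := by
  classical
  -- reduction to integral shifts
  obtain ⟨n, hn, hint⟩ := PerA_integral r
  have hr' : (n : K) * r ∈ G.R η := G.R_nsmul hr n
  have h0' : (n : K) * r ≠ 0 := mul_ne_zero (Nat.cast_ne_zero.2 (by omega)) h0
  generalize hs : (n : K) * r = s at hint hr' h0'
  -- bounded conjugates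
  obtain ⟨C, hC1, hC⟩ := G.lip
  have hbound : ∃ B : ℝ, ∀ (i : ℤ) (φ : K →+* ℂ), φ ≠ G.idC →
      ‖φ (G.pos i + s - G.v (G.P i + G.re s))‖ ≤ B := by
    refine ⟨∑ φ : K →+* ℂ, ‖φ s‖ + C * (|G.re s| + 1), ?_⟩
    intro i φ _
    have e1 : φ (G.pos i + s - G.v (G.P i + G.re s)) =
        φ s + (φ (G.pos i) - φ (G.pos (G.tl (G.P i + G.re s)))) := by
      show φ (G.pos i + s - G.pos (G.tl (G.P i + G.re s))) = _
      rw [map_sub, map_add]
      ring
    have e2 := hC φ i (G.tl (G.P i + G.re s))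
    have e3 := G.abs_tl_sub_lt (G.P i + G.re s) (G.P i)
    rw [G.tl_P] at e3
    have e4 : |G.P i - (G.P i + G.re s)| = |G.re s| := by
      rw [show G.P i - (G.P i + G.re s) = -(G.re s) by ring, abs_neg]
    rw [e4] at e3
    have e5 : ‖φ s‖ ≤ ∑ φ : K →+* ℂ, ‖φ s‖ :=
      Finset.single_le_sum (f := fun φ : K →+* ℂ => ‖φ s‖) (fun ψ _ => norm_nonneg _) (Finset.mem_univ φ)
    rw [e1]
    refine (norm_add_le _ _).trans (add_le_add e5 (e2.trans ?_))
    exact mul_le_mul_of_nonneg_left e3.le (by linarith)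
  obtain ⟨B, hB⟩ := hbound
  obtain ⟨Q, hQ0, hQ⟩ := G.pic_unif η B
  have hL0 : 0 < G.L := by have := G.L_gt_one; linarith
  -- choose the level
  have hk : ∃ k : ℕ, Q * G.L ^ (η * k) < 1 := by
    have hlt : G.L ^ η < 1 := Real.rpow_lt_one_of_one_lt_of_neg G.L_gt_one hη
    obtain ⟨k, hk⟩ := exists_pow_lt_of_lt_one (show (0 : ℝ) < 1 / (Q + 1) by positivity) hlt
    refine ⟨k, ?_⟩
    rw [Real.rpow_mul hL0.le, Real.rpow_natCast]
    have h3 : Q * (G.L ^ η) ^ k ≤ Q * (1 / (Q + 1)) := mul_le_mul_of_nonneg_left hk.le hQ0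
    have h4 : Q * (1 / (Q + 1)) < 1 := by
      rw [mul_one_div, div_lt_one (by linarith)]
      linarith
    linarith
  obtain ⟨k, hk⟩ := hk
  -- all tiles are matched
  have hmt : ∀ m : ℤ, G.Mt (G.lam ^ k * s) (G.P m) := by
    intro m
    have hLk : (0 : ℝ) < G.L ^ k := pow_pos hL0 k
    have hx : G.L ^ k * (G.P m / G.L ^ k) = G.P m := by
      field_simp
    have h1 := G.tl_scale k (G.P m / G.L ^ k)
    rw [hx, G.tl_P] at h1
    set i := G.tl (G.P m / G.L ^ k) with hi
    have hcount := G.V_count k (show i ≤ i + 1 by omega) s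
    have hV := hQ i s hint (hB i) (hr' _ _) k
    have hlt : ((((Finset.Ico (G.io^[k] i) (G.io^[k] (i + 1))).filter
      (fun m => ¬ G.Mt (G.lam ^ k * s) (G.P m))).card : ℕ) : ℝ) < 1 := by linarith
    by_contra hcon
    have hmem : m ∈ ((Finset.Ico (G.io^[k] i) (G.io^[k] (i + 1))).filter
      (fun m => ¬ G.Mt (G.lam ^ k * s) (G.P m))) := by
      rw [Finset.mem_filter, Finset.mem_Ico]
      exact ⟨h1, hcon⟩
    have hcard : 1 ≤ ((Finset.Ico (G.io^[k] i) (G.io^[k] (i + 1))).filter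
      (fun m => ¬ G.Mt (G.lam ^ k * s) (G.P m))).card := Finset.card_pos.2 ⟨m, hmem⟩
    have : (1 : ℝ) ≤ ((((Finset.Ico (G.io^[k] i) (G.io^[k] (i + 1))).filter
      (fun m => ¬ G.Mt (G.lam ^ k * s) (G.P m))).card : ℕ) : ℝ) := by exact_mod_cast hcard
    linarith
  have hρ : G.lam ^ k * s ≠ 0 := mul_ne_zero (pow_ne_zero k G.lam_ne_zero) h0'
  generalize G.lam ^ k * s = ρ at hmt hρ
  choose j hj1 hj2 using fun m : ℤ => G.mt_partner (hmt m)
  have hstep : ∀ m, j (m + 1) = j m + 1 := by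
    intro m
    apply G.PerA_pos_inj
    rw [hj1, G.pos_succ, G.pos_succ, hj1, hj2]
    ring
  have hall : ∀ m : ℤ, j m = m + j 0 := by
    intro m
    induction m using Int.induction_on with
    | zero => simp
    | succ i ih => rw [hstep, ih]; ring
    | pred i ih =>
      have := hstep (-(i : ℤ) - 1)
      rw [sub_add_cancel, ih] at this
      linarith
  have hq : j 0 ≠ 0 := by
    intro h
    have h1 := hj1 0
    rw [h] at h1
    apply hρ
    have : G.pos 0 + ρ = G.pos 0 + 0 := by rw [← h1, add_zero]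
    exact add_left_cancel this
  refine ⟨(j 0).natAbs, by omega, ?_⟩
  intro n
  rcases lt_or_gt_of_ne hq with h | h
  · have h1 : (((j 0).natAbs : ℕ) : ℤ) = -(j 0) := by omega
    rw [h1]
    have h2 := hj2 (n + -(j 0))
    rw [hall] at h2
    rw [← h2]
    congr 1
    ring
  · have h1 : (((j 0).natAbs : ℕ) : ℤ) = j 0 := by omega
    rw [h1]
    have h2 := hj2 n
    rw [hall] at h2
    exact h2

end Geo

open H95.Edit in
theorem per_bdd {A : Type} {z : ℤ → A} {p : ℕ} (hp : 1 ≤ p) (h : ∀ n : ℤ, z (n + p) = z n)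
    (a b : ℤ) (n : ℕ) : D (word z a n) (word z b n) ≤ 2 * p := by
  have hmul : ∀ (t : ℤ) (m : ℤ), z (m + p * t) = z m := by
    intro t
    induction t using Int.induction_on with
    | zero => intro m; simp
    | succ i ih =>
      intro m
      rw [show m + (p : ℤ) * ((i : ℤ) + 1) = (m + p * i) + p by ring, h, ih]
    | pred i ih =>
      intro m
      rw [← h, show m + (p : ℤ) * (-(i : ℤ) - 1) + p = m + p * (-(i : ℤ)) by ring, ih]
  have hp' : (0 : ℤ) < p := by exact_mod_cast hp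
  obtain ⟨s, hs⟩ : ∃ s : ℕ, (s : ℤ) = (b - a) % p := ⟨((b - a) % p).toNat, by
    rw [Int.toNat_of_nonneg (Int.emod_nonneg _ hp'.ne')]⟩
  have hsp : s < p := by
    have := Int.emod_lt_of_pos (b - a) hp'
    omega
  have hper : ∀ i : ℕ, z (a + s + i) = z (b + i) := by
    intro i
    have h1 := Int.emod_add_mul_ediv (b - a) p
    have h2 : b + (i : ℤ) = a + s + i + p * ((b - a) / p) := by
      rw [hs]
      linarith
    rw [h2, hmul]
  rcases le_or_gt s n with hsn | hsn
  · have h1 := D_infix z a b n s 0 (n - s) (by omega) (by omega)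
    have h2 : word z (a + s) (n - s) = word z (b + (0 : ℕ)) (n - s) := by
      unfold word
      apply List.map_congr_left
      intro i _
      rw [hper i]
      simp
    have h3 : D (word z (a + s) (n - s)) (word z (b + (0 : ℕ)) (n - s)) = 0 := by
      rw [h2]
      have := D_le_of_sublist (List.Sublist.refl (word z (b + (0 : ℕ)) (n - s))) (List.Sublist.refl _)
      omega
    rw [h3] at h1
    omega
  · have h1 := D_add_lcs (word z a n) (word z b n)
    rw [length_word, length_word] at h1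
    omega

end H69.ED
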