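import Pool.Agent.H69.ED.FinU
import Pool.Agent.H69.ED.Low
import Pool.Agent.H69.ED.DisC
import Pool.Agent.H69.ED.PerA

/-!
# FinA: the exponent (assembly, proved)
-/

namespace H69.ED.Geo

open H95.Edit Filter

variable {A K : Type} [Fintype A] [Field K] [NumberField K] (G : Geo A K)

theorem D_le_two (a b : ℤ) (n : ℕ) : D (word G.z a n) (word G.z b n) ≤ 2 * n := by
  have h := D_add_lcs (word G.z a n) (word G.z b n)
  rw [length_word, length_word] at h
  omega

theorem le_one_of_low {t : ℝ} (h : ∀ s, s < t → ∃ c : ℝ, 0 < c ∧ ∀ᶠ n : ℕ in atTop,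
    ∃ a b : ℤ, c * (n : ℝ) ^ s ≤ D (word G.z a n) (word G.z b n)) : t ≤ 1 := by
  by_contra hcon
  push Not at hcon
  obtain ⟨s, hs1, hs2⟩ := exists_between hcon
  obtain ⟨c, hc, h1⟩ := h s hs2
  have hT : Tendsto (fun n : ℕ => c * (n : ℝ) ^ (s - 1)) atTop atTop :=
    ((tendsto_rpow_atTop (by linarith)).comp tendsto_natCast_atTop_atTop).const_mul_atTop hc
  obtain ⟨n, ⟨⟨a, b, h2⟩, h3⟩, h4⟩ :=
    ((h1.and (hT.eventually_gt_atTop 2)).and (eventually_ge_atTop 1)).exists
  have hn : (0 : ℝ) < n := by exact_mod_cast h4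
  have h5 : (D (word G.z a n) (word G.z b n) : ℝ) ≤ 2 * n := by
    exact_mod_cast G.D_le_two a b n
  have h6 : c * (n : ℝ) ^ s = c * (n : ℝ) ^ (s - 1) * n := by
    rw [mul_assoc]
    congr 1
    conv_rhs => rw [← Real.rpow_one (n : ℝ), Real.rpow_one (n : ℝ)]
    rw [← Real.rpow_add_one hn.ne']
    congr 1
    ring
  rw [h6] at h2
  nlinarith

theorem exponent (hper : ¬ G.Per) : ∃ t : ℝ, 1 / 2 ≤ t ∧ t ≤ 1 ∧
    (∀ s, t < s → ∃ C : ℝ, 0 ≤ C ∧ ∀ n : ℕ, 1 ≤ n → ∀ a b : ℤ,
      (D (word G.z a n) (word G.z b n) : ℝ) ≤ C * (n : ℝ) ^ s) ∧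
    (∀ s, s < t → ∃ c : ℝ, 0 < c ∧ ∀ᶠ n : ℕ in atTop, ∃ a b : ℤ,
      c * (n : ℝ) ^ s ≤ D (word G.z a n) (word G.z b n)) := by
  set Gd : Set ℝ := {η | η < 1 ∧ ∃ r ∈ G.R η, r ≠ 0} with hGd
  have hpos : ∀ η ∈ Gd, 0 ≤ η := by
    rintro η ⟨-, r, hr, hr0⟩
    by_contra hcon
    exact hper (G.per_of_neg (not_le.1 hcon) hr hr0)
  have hzero : ∀ η, η < 1 → η ∉ Gd → ∀ r ∈ G.R η, r = 0 := by
    intro η h1 h2 r hr
    by_contra hcon
    exact h2 ⟨h1, r, hr, hcon⟩
  -- the lower bound for `s < 1 / (2 - max η 0)`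
  have hlow : ∀ η, η < 1 → η ∉ Gd → ∀ s, s < 1 / (2 - max η 0) →
      ∃ c : ℝ, 0 < c ∧ ∀ᶠ n : ℕ in atTop, ∃ a b : ℤ,
        c * (n : ℝ) ^ s ≤ D (word G.z a n) (word G.z b n) := by
    intro η h1 h2 s hs
    obtain ⟨c, hc, h⟩ := G.lower h1 (hzero η h1 h2) (1 / (2 - max η 0) - s) (by linarith)
    refine ⟨c, hc, ?_⟩
    rw [sub_sub_cancel] at h
    exact h
  by_cases hne : Gd.Nonempty
  · -- Pisot case
    obtain ⟨β, hβ0, hβup, hβlow⟩ := G.disc
    have hbdd : BddBelow Gd := ⟨0, fun η h => hpos η h⟩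
    set μ : ℝ := sInf Gd with hμ
    have hμ0 : 0 ≤ μ := le_csInf hne hpos
    have hμ1 : μ < 1 := by
      obtain ⟨η, hη⟩ := hne
      exact (csInf_le hbdd hη).trans_lt hη.1
    have ht0 : 1 / 2 ≤ 1 / (2 - μ) := by
      apply one_div_le_one_div_of_le <;> linarith
    have hL : ∀ s, s < max β (1 / (2 - μ)) → ∃ c : ℝ, 0 < c ∧ ∀ᶠ n : ℕ in atTop, ∃ a b : ℤ,
        c * (n : ℝ) ^ s ≤ D (word G.z a n) (word G.z b n) := by
      intro s hs
      rcases lt_max_iff.1 hs with h | h
      · rcases le_total β (1 / (2 - μ)) with h' | h'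
        · -- reduce to the second case
          have hs' : s < 1 / (2 - μ) := h.trans_le h'
          rcases hμ0.eq_or_lt with h0 | h0
          · apply hlow (-1) (by norm_num) (fun h1 => by linarith [hpos _ h1]) s
            rw [← h0] at hs'
            simpa using hs'
          · obtain ⟨η, h1, h2, h3⟩ : ∃ η, 0 ≤ η ∧ η < μ ∧ s < 1 / (2 - η) := by
              have hc : ContinuousAt (fun η : ℝ => 1 / (2 - η)) μ := by
                apply ContinuousAt.div continuousAt_const (by fun_prop) (by linarith)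
              have h4 : ∀ᶠ η in nhds μ, s < 1 / (2 - η) := hc.eventually (lt_mem_nhds hs')
              have h5 : ∀ᶠ η in nhdsWithin μ (Set.Iio μ), s < 1 / (2 - η) ∧ η < μ ∧ 0 < η := by
                filter_upwards [nhdsWithin_le_nhds h4, self_mem_nhdsWithin,
                  nhdsWithin_le_nhds (lt_mem_nhds h0)] with η a1 a2 a3
                exact ⟨a1, a2, a3⟩
              obtain ⟨η, a1, a2, a3⟩ := h5.exists
              exact ⟨η, a3.le, a2, a1⟩
            apply hlow η (by linarith) (fun h4 => by linarith [csInf_le hbdd h4]) s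
            rwa [max_eq_left h1]
        · -- the discrepancy
          have hβ : 0 < β := by linarith
          obtain ⟨c, hc, h1⟩ := hβlow hβ (β - s) (by linarith)
          rw [sub_sub_cancel] at h1
          have hlm := G.one_le_lm
          refine ⟨c / G.lm, by positivity, ?_⟩
          filter_upwards [h1] with n hn
          obtain ⟨a, b, h2⟩ := hn
          refine ⟨a, b, ?_⟩
          have h3 := G.len_lip a b n n
          rw [div_mul_eq_mul_div, div_le_iff₀ (by linarith)]
          linarith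
      · rcases hμ0.eq_or_lt with h0 | h0
        · apply hlow (-1) (by norm_num) (fun h1 => by linarith [hpos _ h1]) s
          rw [← h0] at h
          simpa using h
        · obtain ⟨η, h1, h2, h3⟩ : ∃ η, 0 ≤ η ∧ η < μ ∧ s < 1 / (2 - η) := by
            have hc : ContinuousAt (fun η : ℝ => 1 / (2 - η)) μ := by
              apply ContinuousAt.div continuousAt_const (by fun_prop) (by linarith)
            have h4 : ∀ᶠ η in nhds μ, s < 1 / (2 - η) := hc.eventually (lt_mem_nhds h)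
            have h5 : ∀ᶠ η in nhdsWithin μ (Set.Iio μ), s < 1 / (2 - η) ∧ η < μ ∧ 0 < η := by
              filter_upwards [nhdsWithin_le_nhds h4, self_mem_nhdsWithin,
                nhdsWithin_le_nhds (lt_mem_nhds h0)] with η a1 a2 a3
              exact ⟨a1, a2, a3⟩
            obtain ⟨η, a1, a2, a3⟩ := h5.exists
            exact ⟨η, a3.le, a2, a1⟩
          apply hlow η (by linarith) (fun h4 => by linarith [csInf_le hbdd h4]) s
          rwa [max_eq_left h1]
    refine ⟨max β (1 / (2 - μ)), ht0.trans (le_max_right _ _), G.le_one_of_low hL, ?_, hL⟩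
    intro s hs
    have hs1 : β < s := (le_max_left _ _).trans_lt hs
    have hs2 : 1 / (2 - μ) < s := (le_max_right _ _).trans_lt hs
    obtain ⟨η, hη, h3⟩ : ∃ η ∈ Gd, 1 / (2 - η) < s := by
      have hc : ContinuousAt (fun η : ℝ => 1 / (2 - η)) μ := by
        apply ContinuousAt.div continuousAt_const (by fun_prop) (by linarith)
      have h4 : ∀ᶠ η in nhds μ, 1 / (2 - η) < s := hc.eventually (gt_mem_nhds hs2)
      obtain ⟨δ, hδ, h5⟩ := Metric.eventually_nhds_iff.1 h4
      obtain ⟨η, hη, h6⟩ := exists_lt_of_csInf_lt hne (show sInf Gd < μ + δ by linarith)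
      refine ⟨η, hη, h5 ?_⟩
      rw [Real.dist_eq, abs_lt]
      have := csInf_le hbdd hη
      constructor <;> linarith
    obtain ⟨h4, r, hr, hr0⟩ := id hη
    exact G.upper_pow (hpos η hη) h4 hr hr0 hβup h3.le hs1
  · -- exponent one
    have hL : ∀ s : ℝ, s < 1 → ∃ c : ℝ, 0 < c ∧ ∀ᶠ n : ℕ in atTop, ∃ a b : ℤ,
        c * (n : ℝ) ^ s ≤ D (word G.z a n) (word G.z b n) := by
      intro s hs
      set s1 : ℝ := (max s (1 / 2) + 1) / 2 with hs1
      have h1 : s < s1 := by
        have := le_max_left s (1 / 2)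
        rw [hs1]
        linarith
      have h2 : 1 / 2 < s1 := by
        have := le_max_right s (1 / 2)
        rw [hs1]
        linarith
      have h3 : s1 < 1 := by
        have : max s (1 / 2) < 1 := max_lt hs (by norm_num)
        rw [hs1]
        linarith
      have h4 : 1 < 1 / s1 := by rw [lt_div_iff₀ (by linarith)]; linarith
      have h5 : 1 / s1 < 2 := by rw [div_lt_iff₀ (by linarith)]; linarith
      apply hlow (2 - 1 / s1) (by linarith) (fun h => hne ⟨_, h⟩) s
      rw [max_eq_left (by linarith)]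
      rw [sub_sub_cancel, one_div_one_div]
      exact h1
    refine ⟨1, by norm_num, le_rfl, ?_, hL⟩
    intro s hs
    refine ⟨2, by norm_num, fun n hn a b => ?_⟩
    have h1 : (D (word G.z a n) (word G.z b n) : ℝ) ≤ 2 * n := by
      exact_mod_cast G.D_le_two a b n
    have h2 : (n : ℝ) ≤ (n : ℝ) ^ s := by
      have h3 : (1 : ℝ) ≤ n := by exact_mod_cast hn
      calc (n : ℝ) = (n : ℝ) ^ (1 : ℝ) := (Real.rpow_one _).symm
        _ ≤ (n : ℝ) ^ s := Real.rpow_le_rpow_of_exponent_le h3 hs.le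
    linarith

end H69.ED.Geo
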