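import Pool.Agent.H69.ED.FinA
import Pool.Agent.H69.ED.ConH

/-!
# FinB: the theorem (assembly, proved)
-/

namespace H69.ED

open H95.Edit Filter Topology

variable {A : Type}

theorem finB_editDist (z : ℤ → A) (a b : ℤ) (n : ℕ) :
    editDist (word z a n) (word z b n) = (D (word z a n) (word z b n) : ℝ) / 2 := by
  have h := D_add_lcs (word z a n) (word z b n)
  rw [length_word, length_word] at h
  unfold editDist
  rw [length_word, length_word]
  have h' : (D (word z a n) (word z b n) : ℝ) + 2 * lcs (word z a n) (word z b n) = n + n := by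
    exact_mod_cast h
  linarith

theorem finB_D_le (z : ℤ → A) (a b : ℤ) (n : ℕ) : D (word z a n) (word z b n) ≤ 2 * n := by
  have h := D_add_lcs (word z a n) (word z b n)
  rw [length_word, length_word] at h
  omega

theorem finB_getElem (z : ℤ → A) (n i : ℕ) (hi : i < n) (a : ℤ) :
    (word z a n)[i]? = some (z (a + i)) := by
  unfold word
  rw [List.getElem?_map, List.getElem?_range hi]
  rfl

section

variable {σ : A → List A} {z : ℤ → A}
  (hW : ∀ n, Words σ n = Set.range (fun a : ℤ => word z a n))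

include hW

theorem finB_bdd (n : ℕ) :
    BddAbove {d | ∃ u ∈ Words σ n, ∃ v ∈ Words σ n, d = editDist u v} := by
  refine ⟨n, ?_⟩
  rintro d ⟨u, hu, v, hv, rfl⟩
  rw [hW] at hu hv
  obtain ⟨a, rfl⟩ := hu
  obtain ⟨b, rfl⟩ := hv
  simp only [finB_editDist]
  have : (D (word z a n) (word z b n) : ℝ) ≤ 2 * n := by exact_mod_cast finB_D_le z a b n
  linarith

theorem finB_le_diam (n : ℕ) (a b : ℤ) :
    (D (word z a n) (word z b n) : ℝ) ≤ 2 * diam σ n := by
  have h : editDist (word z a n) (word z b n) ≤ diam σ n :=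
    le_csSup (finB_bdd hW n) ⟨word z a n, by rw [hW]; exact ⟨a, rfl⟩, word z b n,
      by rw [hW]; exact ⟨b, rfl⟩, rfl⟩
  rw [finB_editDist] at h
  linarith

theorem finB_diam_le (n : ℕ) (B : ℝ)
    (hB : ∀ a b : ℤ, (D (word z a n) (word z b n) : ℝ) ≤ B) : 2 * diam σ n ≤ B := by
  have h : diam σ n ≤ B / 2 := by
    refine csSup_le ⟨_, word z 0 n, by rw [hW]; exact ⟨0, rfl⟩, word z 0 n,
      by rw [hW]; exact ⟨0, rfl⟩, rfl⟩ ?_
    rintro d ⟨u, hu, v, hv, rfl⟩
    rw [hW] at hu hv
    obtain ⟨a, rfl⟩ := hu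
    obtain ⟨b, rfl⟩ := hv
    simp only [finB_editDist]
    have := hB a b
    linarith
  linarith

theorem finB_periodic_iff (p : ℕ) : Periodic σ p ↔ ∀ n : ℤ, z (n + p) = z n := by
  constructor
  · intro h n
    have h1 := h (p + 1) (word z n (p + 1)) (by rw [hW]; exact ⟨n, rfl⟩) 0 (by omega)
    rw [finB_getElem z _ _ (by omega), finB_getElem z _ _ (by omega)] at h1
    simp only [Option.some.injEq] at h1
    have e : n + ((0 + p : ℕ) : ℤ) = n + p := by push_cast; ring
    rw [e] at h1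
    rw [h1]
    simp
  · intro h n w hw i hi
    rw [hW] at hw
    obtain ⟨a, rfl⟩ := hw
    simp only
    rw [finB_getElem z _ _ hi, finB_getElem z _ _ (by omega)]
    have e : a + ((i + p : ℕ) : ℤ) = (a + i) + p := by push_cast; ring
    rw [e, h]

end

theorem finB_lim {Δ : ℕ → ℝ} {t : ℝ}
    (hup : ∀ s, t < s → ∃ C : ℝ, 0 ≤ C ∧ ∀ n : ℕ, 1 ≤ n → Δ n ≤ C * (n : ℝ) ^ s)
    (hlow : ∀ s, s < t → ∃ c : ℝ, 0 < c ∧ ∀ᶠ n : ℕ in atTop, c * (n : ℝ) ^ s ≤ Δ n) :
    Tendsto (fun n : ℕ => Real.log (Δ n) / Real.log n) atTop (𝓝 t) := by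
  have hlogT : Tendsto (fun N : ℕ => Real.log N) atTop atTop :=
    Real.tendsto_log_atTop.comp tendsto_natCast_atTop_atTop
  have hdiv : ∀ K : ℝ, Tendsto (fun N : ℕ => K / Real.log N) atTop (𝓝 0) := fun K =>
    tendsto_const_nhds.div_atTop hlogT
  rw [tendsto_order]
  constructor
  · intro a ha
    obtain ⟨s, hs1, hs2⟩ := exists_between ha
    obtain ⟨c, hc, h⟩ := hlow s hs2
    have hev := (hdiv (Real.log c)).eventually (lt_mem_nhds (show -(s - a) < (0 : ℝ) by linarith))
    filter_upwards [h, hev, hlogT.eventually_gt_atTop 0, eventually_ge_atTop 1] with N hN1 hN2 hN3 hN4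
    have hN0 : (0 : ℝ) < N := by exact_mod_cast hN4
    have h3 : Real.log c + s * Real.log N ≤ Real.log (Δ N) := by
      have h4 : 0 < c * (N : ℝ) ^ s := by positivity
      have h5 := Real.log_le_log h4 hN1
      rwa [Real.log_mul hc.ne' (by positivity), Real.log_rpow hN0] at h5
    have h6 : Real.log c / Real.log N + s ≤ Real.log (Δ N) / Real.log N := by
      rw [div_add' _ _ _ hN3.ne']
      gcongr
    linarith
  · intro b hb
    obtain ⟨s, hs1, hs2⟩ := exists_between hb
    obtain ⟨C, hC, h⟩ := hup s hs1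
    obtain ⟨c, hc, h'⟩ := hlow (t - 1) (by linarith)
    have hev := (hdiv (Real.log (max C 1))).eventually
      (gt_mem_nhds (show (0 : ℝ) < b - s by linarith))
    filter_upwards [h', hev, hlogT.eventually_gt_atTop 0, eventually_ge_atTop 1] with N hN1 hN2 hN3 hN4
    have hN0 : (0 : ℝ) < N := by exact_mod_cast hN4
    have hΔ : 0 < Δ N := by
      have : 0 < c * (N : ℝ) ^ (t - 1) := by positivity
      linarith
    have h1C : (0 : ℝ) < max C 1 := lt_of_lt_of_le one_pos (le_max_right _ _)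
    have h2 : Δ N ≤ max C 1 * (N : ℝ) ^ s := by
      refine (h N hN4).trans ?_
      gcongr
      exact le_max_left _ _
    have h3 : Real.log (Δ N) ≤ Real.log (max C 1) + s * Real.log N := by
      have h5 := Real.log_le_log hΔ h2
      rwa [Real.log_mul h1C.ne' (by positivity), Real.log_rpow hN0] at h5
    have h6 : Real.log (Δ N) / Real.log N ≤ Real.log (max C 1) / Real.log N + s := by
      rw [div_add' _ _ _ hN3.ne']
      gcongr
    linarith

theorem main [Fintype A] (hA : 2 ≤ Fintype.card A) (σ : A → List A) (hp : Primitive σ) :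
    ∃ t : ℝ, Tendsto (fun n : ℕ => Real.log (diam σ n) / Real.log n) atTop (𝓝 t) ∧
      ((∃ p, 1 ≤ p ∧ Periodic σ p) → t = 0) ∧
      ((¬ ∃ p, 1 ≤ p ∧ Periodic σ p) → 1 / 2 ≤ t ∧ t ≤ 1) := by
  have hnt : Nontrivial A := Fintype.one_lt_card_iff_nontrivial.1 (by omega)
  obtain ⟨K, _, _, G, hW⟩ := construct σ hp
  have hPer : (∃ p, 1 ≤ p ∧ Periodic σ p) ↔ G.Per := by
    constructor
    · rintro ⟨p, hp1, hp2⟩
      exact ⟨p, hp1, (finB_periodic_iff hW p).1 hp2⟩
    · rintro ⟨p, hp1, hp2⟩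
      exact ⟨p, hp1, (finB_periodic_iff hW p).2 hp2⟩
  by_cases hc : G.Per
  · refine ⟨0, ?_, fun _ => rfl, fun h => absurd (hPer.2 hc) h⟩
    obtain ⟨p, hp1, hp2⟩ := hc
    have hup : ∀ n : ℕ, diam σ n ≤ p := by
      intro n
      have := finB_diam_le hW n (2 * p) (fun a b => by exact_mod_cast per_bdd hp1 hp2 a b n)
      linarith
    obtain ⟨x, y, hxy⟩ := hnt
    obtain ⟨a, ha⟩ := G.occ x
    obtain ⟨b, hb⟩ := G.occ y
    have hlow : ∀ n : ℕ, 1 ≤ n → 1 / 2 ≤ diam σ n := by
      intro n hn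
      have h1 := finB_le_diam hW n a b
      have h2 : 1 ≤ D (word G.z a n) (word G.z b n) := by
        by_contra hcon
        have h3 : D (word G.z a n) (word G.z b n) = 0 := by omega
        have h4 := D_eq_zero h3
        have h5 : (word G.z a n)[0]? = (word G.z b n)[0]? := by rw [h4]
        rw [finB_getElem G.z _ _ (by omega), finB_getElem G.z _ _ (by omega)] at h5
        simp only [Nat.cast_zero, add_zero, Option.some.injEq] at h5
        exact hxy (by rw [← ha, ← hb, h5])
      have h3 : (1 : ℝ) ≤ D (word G.z a n) (word G.z b n) := by exact_mod_cast h2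
      linarith
    apply finB_lim
    · intro s hs
      refine ⟨p, Nat.cast_nonneg _, fun n hn => ?_⟩
      have h1 : (1 : ℝ) ≤ (n : ℝ) ^ s := Real.one_le_rpow (by exact_mod_cast hn) hs.le
      have h2 : (0 : ℝ) ≤ p := Nat.cast_nonneg _
      nlinarith [hup n]
    · intro s hs
      refine ⟨1 / 2, by norm_num, ?_⟩
      filter_upwards [eventually_ge_atTop 1] with n hn
      have h1 : (n : ℝ) ^ s ≤ 1 :=
        Real.rpow_le_one_of_one_le_of_nonpos (by exact_mod_cast hn) hs.le
      have h2 := hlow n hn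
      linarith
  · obtain ⟨t, ht1, ht2, hup, hlow⟩ := G.exponent hc
    refine ⟨t, ?_, fun h => absurd (hPer.1 h) hc, fun _ => ⟨ht1, ht2⟩⟩
    apply finB_lim
    · intro s hs
      obtain ⟨C, hC, h⟩ := hup s hs
      refine ⟨C / 2, by positivity, fun n hn => ?_⟩
      have := finB_diam_le hW n (C * (n : ℝ) ^ s) (h n hn)
      linarith
    · intro s hs
      obtain ⟨c, hc', h⟩ := hlow s hs
      refine ⟨c / 2, by positivity, ?_⟩
      filter_upwards [h] with n hn
      obtain ⟨a, b, h1⟩ := hn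
      have := finB_le_diam hW n a b
      linarith

end H69.ED
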