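import Pool.Agent.H69.ED.Upper

/-!
# FinU: from `upper` to a power of `n`

`t = 1 / (2 - η) ≤ 1`, `m = ⌊t log n / log L⌋₊`: `n^t / L ≤ L^m ≤ n^t`. Then (`upper`, `L^(η m) = (L^m)^η`)
`L^m ≤ n^t ≤ n^s`; `|δ| ≤ C n^s` (`hB` with `ε = s - β`); `(n / L^m) L^(η m) = n (L^m)^(η-1) ≤ n (n^t / L)^(η-1) =
L^(1-η) n^(1 - (1-η) t) = L^(1-η) n^t`; `L^(η m) ≤ n^(η t) ≤ n^t` (`η ≥ 0`, `n ≥ 1`).
-/

namespace H69.ED.Geo

open H95.Edit

variable {A K : Type} [Fintype A] [Field K] [NumberField K] (G : Geo A K)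

/-- the choice of the level -/
private theorem FinU_level {L t x : ℝ} (hL : 1 < L) (ht : 0 ≤ t) (hx : 1 ≤ x) :
    ∃ m : ℕ, L ^ m ≤ x ^ t ∧ x ^ t / L ≤ L ^ m := by
  have hx0 : 0 < x := by linarith
  have hL0 : 0 < L := by linarith
  have hlL : 0 < Real.log L := Real.log_pos hL
  have hlx : 0 ≤ Real.log x := Real.log_nonneg hx
  have hq : 0 ≤ t * Real.log x / Real.log L := by positivity
  refine ⟨⌊t * Real.log x / Real.log L⌋₊, ?_, ?_⟩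
  · have h1 := Nat.floor_le hq
    have h2 : (⌊t * Real.log x / Real.log L⌋₊ : ℝ) * Real.log L ≤ t * Real.log x := by
      rwa [le_div_iff₀ hlL] at h1
    rw [← Real.log_le_log_iff (pow_pos hL0 _) (Real.rpow_pos_of_pos hx0 _), Real.log_pow,
      Real.log_rpow hx0]
    exact h2
  · have h1 := Nat.lt_floor_add_one (t * Real.log x / Real.log L)
    have h2 : t * Real.log x < ((⌊t * Real.log x / Real.log L⌋₊ : ℝ) + 1) * Real.log L := by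
      rwa [div_lt_iff₀ hlL] at h1
    rw [div_le_iff₀ hL0, ← pow_succ,
      ← Real.log_le_log_iff (Real.rpow_pos_of_pos hx0 _) (pow_pos hL0 _), Real.log_pow,
      Real.log_rpow hx0]
    push_cast
    exact h2.le

theorem upper_pow {η : ℝ} (h0 : 0 ≤ η) (hη : η < 1) {r : K} (hr : r ∈ G.R η) (hr0 : r ≠ 0)
    {β : ℝ} (hB : ∀ ε : ℝ, 0 < ε → ∃ C : ℝ, 0 ≤ C ∧ ∀ (n : ℕ), 1 ≤ n → ∀ a b : ℤ,
      |(G.P (a + n) - G.P a) - (G.P (b + n) - G.P b)| ≤ C * (n : ℝ) ^ (β + ε))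
    {s : ℝ} (hs : 1 / (2 - η) ≤ s) (hβs : β < s) :
    ∃ C : ℝ, 0 ≤ C ∧ ∀ n : ℕ, 1 ≤ n → ∀ a b : ℤ,
      (D (word G.z a n) (word G.z b n) : ℝ) ≤ C * (n : ℝ) ^ s := by
  obtain ⟨C, hC, hup⟩ := G.upper hη hr hr0
  obtain ⟨C1, hC1, hB1⟩ := hB (s - β) (by linarith)
  have hL : 1 < G.L := G.L_gt_one
  have hL0 : 0 < G.L := by linarith
  have h2η : 0 < 2 - η := by linarith
  set t : ℝ := 1 / (2 - η) with ht
  have ht0 : 0 < t := by positivity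
  have hte : t * (2 - η) = 1 := by
    rw [ht]
    field_simp
  refine ⟨C * (2 + C1 + G.L ^ (1 - η)), by positivity, ?_⟩
  intro n hn a b
  have hn1 : (1 : ℝ) ≤ (n : ℝ) := by exact_mod_cast hn
  have hn0 : (0 : ℝ) < (n : ℝ) := by linarith
  obtain ⟨m, hm1, hm2⟩ := FinU_level hL ht0.le hn1
  have h := hup m n a b
  have hδ := hB1 n hn a b
  rw [show β + (s - β) = s by ring] at hδ
  have hLm : 0 < G.L ^ m := pow_pos hL0 m
  have hts : (n : ℝ) ^ t ≤ (n : ℝ) ^ s := Real.rpow_le_rpow_of_exponent_le hn1 hs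
  have e1 : G.L ^ (η * m) = (G.L ^ m) ^ η := by
    rw [mul_comm, Real.rpow_mul hL0.le, Real.rpow_natCast]
  have e2 : (n : ℝ) / G.L ^ m * (G.L ^ m) ^ η ≤ G.L ^ (1 - η) * (n : ℝ) ^ t := by
    have h1 : (n : ℝ) / G.L ^ m * (G.L ^ m) ^ η = n * (G.L ^ m) ^ (η - 1) := by
      rw [Real.rpow_sub_one hLm.ne']
      field_simp
    have hpos : 0 < (n : ℝ) ^ t / G.L := div_pos (Real.rpow_pos_of_pos hn0 _) hL0
    have h2 : (G.L ^ m) ^ (η - 1) ≤ ((n : ℝ) ^ t / G.L) ^ (η - 1) :=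
      Real.rpow_le_rpow_of_nonpos hpos hm2 (by linarith)
    have h3 : ((n : ℝ) ^ t / G.L) ^ (η - 1) = (n : ℝ) ^ (t * (η - 1)) * G.L ^ (1 - η) := by
      rw [Real.div_rpow (Real.rpow_nonneg hn0.le _) hL0.le, ← Real.rpow_mul hn0.le,
        show (1 - η) = - (η - 1) by ring, Real.rpow_neg hL0.le, div_eq_mul_inv]
    have h4 : (n : ℝ) * (n : ℝ) ^ (t * (η - 1)) = (n : ℝ) ^ t := by
      nth_rewrite 1 [← Real.rpow_one (n : ℝ)]
      rw [← Real.rpow_add hn0]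
      congr 1
      linarith
    calc (n : ℝ) / G.L ^ m * (G.L ^ m) ^ η = n * (G.L ^ m) ^ (η - 1) := h1
      _ ≤ n * ((n : ℝ) ^ (t * (η - 1)) * G.L ^ (1 - η)) := by
          rw [← h3]
          gcongr
      _ = G.L ^ (1 - η) * (n : ℝ) ^ t := by
          rw [← mul_assoc, h4, mul_comm]
  have e3 : (G.L ^ m) ^ η ≤ (n : ℝ) ^ t := by
    calc (G.L ^ m) ^ η ≤ ((n : ℝ) ^ t) ^ η := Real.rpow_le_rpow hLm.le hm1 h0
      _ = (n : ℝ) ^ (t * η) := (Real.rpow_mul hn0.le _ _).symm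
      _ ≤ (n : ℝ) ^ t := by
          refine Real.rpow_le_rpow_of_exponent_le hn1 ?_
          nlinarith
  have e4 : ((n : ℝ) / G.L ^ m + 1) * G.L ^ (η * m) ≤ (G.L ^ (1 - η) + 1) * (n : ℝ) ^ s := by
    rw [e1, add_mul, one_mul]
    have hp : 0 ≤ G.L ^ (1 - η) := Real.rpow_nonneg hL0.le _
    calc (n : ℝ) / G.L ^ m * (G.L ^ m) ^ η + (G.L ^ m) ^ η
        ≤ G.L ^ (1 - η) * (n : ℝ) ^ t + (n : ℝ) ^ t := add_le_add e2 e3
      _ = (G.L ^ (1 - η) + 1) * (n : ℝ) ^ t := by ring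
      _ ≤ (G.L ^ (1 - η) + 1) * (n : ℝ) ^ s := by gcongr
  calc (D (word G.z a n) (word G.z b n) : ℝ)
      ≤ C * (G.L ^ m + |(G.P (a + n) - G.P a) - (G.P (b + n) - G.P b)| +
        ((n : ℝ) / G.L ^ m + 1) * G.L ^ (η * m)) := h
    _ ≤ C * ((n : ℝ) ^ s + C1 * (n : ℝ) ^ s + (G.L ^ (1 - η) + 1) * (n : ℝ) ^ s) := by
        gcongr
        exact hm1.trans hts
    _ = C * (2 + C1 + G.L ^ (1 - η)) * (n : ℝ) ^ s := by ring

end H69.ED.Geo
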