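import Pool.Agent.H69.ED.Vol

/-!
# GoodB: elementary properties of `Good`

Immediate from the corresponding statements on `V`.  A constant `C` in `Good` is nonnegative since
`0 ≤ V 0 x y r ≤ C * L ^ (η * 0) = C`.  `good_scale`: from left to right the case `k = 0` is
`V 0 x y r ≤ |y - x|` and `V (k+1) x y r = V k (L x) (L y) (lam r)`.  `good_tiles`: induction on `j`
(`Int.le_induction`) with `V_tiles` (finitely many constants).  `gt_desc`: `good_scale_pow` and
`good_tiles`.  `mem_R_of_tiles`: every interval `[x,y)` is contained in `[P i, P j)` with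
`i = tl x`, `j = tl y + 1`.
-/

namespace H69.ED.Geo

variable {A K : Type} [Fintype A] [Field K] [NumberField K] (G : Geo A K)

private theorem GoodB_L : 0 < G.L := lt_trans one_pos G.L_gt_one

private theorem GoodB_rpow (η : ℝ) (k : ℕ) : 0 < G.L ^ (η * k) :=
  Real.rpow_pos_of_pos (GoodB_L G) _

/-- the constants are nonnegative -/
private theorem GoodB_nonneg {η x y C : ℝ} {r : K} (h : ∀ k : ℕ, G.V k x y r ≤ C * G.L ^ (η * k)) :
    0 ≤ C := by
  have h1 := h 0
  have h2 := G.V_nonneg 0 x y r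
  simp only [Nat.cast_zero, mul_zero, Real.rpow_zero, mul_one] at h1
  linarith

theorem good_mono {η x y x' y' : ℝ} {r : K} (h1 : x' ≤ x) (h2 : y ≤ y')
    (h : G.Good η x' y' r) : G.Good η x y r := by
  obtain ⟨C, hC⟩ := h
  exact ⟨C, fun k => (G.V_mono k h1 h2 r).trans (hC k)⟩

theorem good_union {η x y w : ℝ} {r : K} (h1 : G.Good η x y r) (h2 : G.Good η y w r) :
    G.Good η x w r := by
  obtain ⟨C1, hC1⟩ := h1
  obtain ⟨C2, hC2⟩ := h2
  refine ⟨C1 + C2, fun k => (G.V_union k x y w r).trans ?_⟩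
  rw [add_mul]
  exact add_le_add (hC1 k) (hC2 k)

theorem good_exp {η η' x y : ℝ} {r : K} (h : η ≤ η') (h1 : G.Good η x y r) :
    G.Good η' x y r := by
  obtain ⟨C, hC⟩ := h1
  refine ⟨C, fun k => (hC k).trans ?_⟩
  refine mul_le_mul_of_nonneg_left ?_ (GoodB_nonneg G hC)
  exact Real.rpow_le_rpow_of_exponent_le G.L_gt_one.le
    (mul_le_mul_of_nonneg_right h (Nat.cast_nonneg k))

theorem good_scale {η x y : ℝ} {r : K} :
    G.Good η (G.L * x) (G.L * y) (G.lam * r) ↔ G.Good η x y r := by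
  have hV : ∀ k : ℕ, G.V k (G.L * x) (G.L * y) (G.lam * r) = G.V (k + 1) x y r := by
    intro k
    have h := G.V_scale 1 k x y r
    rw [pow_one, pow_one, add_comm 1 k] at h
    exact h
  have hexp : ∀ k : ℕ, G.L ^ (η * ((k + 1 : ℕ) : ℝ)) = G.L ^ η * G.L ^ (η * k) := by
    intro k
    rw [← Real.rpow_add (GoodB_L G)]
    congr 1
    push_cast
    ring
  have hη : 0 < G.L ^ η := Real.rpow_pos_of_pos (GoodB_L G) _
  constructor
  · rintro ⟨C, hC⟩
    have hC0 := GoodB_nonneg G hC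
    refine ⟨G.V 0 x y r + C / G.L ^ η, fun k => ?_⟩
    have h0 := G.V_nonneg 0 x y r
    rcases k with _ | k
    · simp only [Nat.cast_zero, mul_zero, Real.rpow_zero, mul_one]
      have : 0 ≤ C / G.L ^ η := div_nonneg hC0 hη.le
      linarith
    · rw [← hV k]
      refine (hC k).trans ?_
      rw [hexp, add_mul]
      have h2 : C / G.L ^ η * (G.L ^ η * G.L ^ (η * k)) = C * G.L ^ (η * k) := by
        field_simp
      rw [h2]
      have h3 : 0 ≤ G.V 0 x y r * (G.L ^ η * G.L ^ (η * k)) :=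
        mul_nonneg h0 (mul_nonneg hη.le (GoodB_rpow G η k).le)
      linarith
  · rintro ⟨C, hC⟩
    refine ⟨C * G.L ^ η, fun k => ?_⟩
    rw [hV k, mul_assoc, ← hexp]
    exact hC (k + 1)

theorem good_scale_pow (k : ℕ) {η x y : ℝ} {r : K} :
    G.Good η (G.L ^ k * x) (G.L ^ k * y) (G.lam ^ k * r) ↔ G.Good η x y r := by
  induction k with
  | zero => simp only [pow_zero, one_mul]
  | succ k ih =>
    rw [← ih, pow_succ', pow_succ', mul_assoc, mul_assoc, mul_assoc]
    exact G.good_scale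

theorem good_trans {η x y : ℝ} {r s : K} (h1 : G.Good η x y r)
    (h2 : G.Good η (x + G.re r) (y + G.re r) s) : G.Good η x y (r + s) := by
  obtain ⟨C1, hC1⟩ := h1
  obtain ⟨C2, hC2⟩ := h2
  refine ⟨C1 + C2, fun k => (G.V_trans k x y r s).trans ?_⟩
  rw [add_mul]
  exact add_le_add (hC1 k) (hC2 k)

theorem good_symm {η x y : ℝ} {r : K} (h : G.Good η x y r) :
    G.Good η (x + G.re r) (y + G.re r) (-r) := by
  obtain ⟨C, hC⟩ := h
  exact ⟨C, fun k => by rw [G.V_symm]; exact hC k⟩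

theorem good_local {η x y : ℝ} {r d e : K} (h1 : ∀ t, x ≤ t → t < y → G.Mt d t)
    (h2 : ∀ t, x ≤ t → t < y → G.Mt e (t + G.re r)) :
    G.Good η (x + G.re d) (y + G.re d) (r + e - d) ↔ G.Good η x y r := by
  have h3 : ∀ k : ℕ, G.V k (x + G.re d) (y + G.re d) (r + e - d) = G.V k x y r :=
    fun k => G.V_local k h1 h2
  unfold Good
  simp only [h3]

theorem good_of_mt (η : ℝ) {x y : ℝ} {r : K} (h : ∀ t, x ≤ t → t < y → G.Mt r t) :
    G.Good η x y r := by
  refine ⟨0, fun k => ?_⟩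
  rw [G.V_eq_zero k h, zero_mul]

theorem good_zero (η x y : ℝ) : G.Good η x y 0 := by
  exact G.good_of_mt η fun t _ _ => G.mt_zero t

theorem good_tiles {η : ℝ} {i j : ℤ} (h : i ≤ j) {r : K} :
    G.Good η (G.P i) (G.P j) r ↔ ∀ m, i ≤ m → m < j → G.GT η m r := by
  constructor
  · intro h1 m hm1 hm2
    exact G.good_mono ((G.P_le_iff i m).2 hm1) ((G.P_le_iff (m + 1) j).2 (by omega)) h1
  · induction j, h using Int.leInduction with
    | base =>
      intro _
      refine G.good_of_mt η fun t h1 h2 => ?_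
      exact absurd (lt_of_le_of_lt h1 h2) (lt_irrefl _)
    | succ j hij ih =>
      intro h1
      exact G.good_union (ih fun m hm1 hm2 => h1 m hm1 (by omega)) (h1 j hij (by omega))

theorem gt_desc (k : ℕ) {η : ℝ} {i : ℤ} {r : K} :
    G.GT η i r ↔ ∀ m, G.io^[k] i ≤ m → m < G.io^[k] (i + 1) → G.GT η m (G.lam ^ k * r) := by
  have h1 := G.good_tiles (η := η) (r := G.lam ^ k * r)
    ((G.iter_strictMono k).monotone (show i ≤ i + 1 by omega))
  rw [P_iter, P_iter] at h1
  rw [← h1, GT, G.good_scale_pow k]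

theorem mem_R_of_tiles {η : ℝ} {r : K} (h : ∀ i, G.GT η i r) : r ∈ G.R η := by
  intro x y
  rcases le_or_gt (G.tl x) (G.tl y + 1) with h1 | h1
  · have h2 := (G.good_tiles (η := η) h1 (r := r)).2 fun m _ _ => h m
    exact G.good_mono (G.tl_spec x).1 (G.tl_spec y).2.le h2
  · refine G.good_of_mt η fun t h2 h3 => ?_
    have h4 := G.tl_mono (h2.trans h3.le)
    omega

theorem R_zero (η : ℝ) : (0 : K) ∈ G.R η := fun x y => G.good_zero η x y

theorem R_add {η : ℝ} {r s : K} (h1 : r ∈ G.R η) (h2 : s ∈ G.R η) : r + s ∈ G.R η := by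
  exact fun x y => G.good_trans (h1 x y) (h2 _ _)

theorem R_neg {η : ℝ} {r : K} (h1 : r ∈ G.R η) : -r ∈ G.R η := by
  intro x y
  have h2 := G.good_symm (h1 (x - G.re r) (y - G.re r))
  rw [sub_add_cancel, sub_add_cancel] at h2
  exact h2

theorem R_nsmul {η : ℝ} {r : K} (h1 : r ∈ G.R η) (n : ℕ) : (n : K) * r ∈ G.R η := by
  induction n with
  | zero =>
    rw [Nat.cast_zero, zero_mul]
    exact G.R_zero η
  | succ n ih =>
    have h2 : ((n + 1 : ℕ) : K) * r = (n : K) * r + r := by push_cast; ring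
    rw [h2]
    exact G.R_add ih h1

theorem R_lam {η : ℝ} {r : K} : G.lam * r ∈ G.R η ↔ r ∈ G.R η := by
  constructor
  · intro h x y
    exact G.good_scale.1 (h _ _)
  · intro h x y
    have hL := GoodB_L G
    have h1 := (G.good_scale (η := η) (x := x / G.L) (y := y / G.L) (r := r)).2 (h _ _)
    rw [mul_div_cancel₀ _ hL.ne', mul_div_cancel₀ _ hL.ne'] at h1
    exact h1

theorem R_lam_pow {η : ℝ} {r : K} (k : ℕ) : G.lam ^ k * r ∈ G.R η ↔ r ∈ G.R η := by
  induction k with
  | zero => rw [pow_zero, one_mul]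
  | succ k ih => rw [← ih, pow_succ', mul_assoc]; exact G.R_lam

theorem R_mono {η η' : ℝ} (h : η ≤ η') : G.R η ⊆ G.R η' := by
  exact fun r hr x y => G.good_exp h (hr x y)

end H69.ED.Geo
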