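import Pool.Agent.H69.ED.GoodB

/-!
# GroA: bad descendants

All statements follow from `gt_desc` (a tile is good iff all its descendants of level `k` are) and from the
fact that `[io^[k+l] i, io^[k+l] (i+1))` is the disjoint union of the `[io^[l] m, io^[l] (m+1))`,
`m ∈ [io^[k] i, io^[k] (i+1))` (`io^[l+k] = io^[l] ∘ io^[k]`, `iter_strictMono`, `Finset.sum` over consecutive
intervals), and `lam^l * (lam^k * r) = lam^(k+l) * r`.
`WB_all`: if all children are bad then `WB η 1 i r = ∑ re (ell (z m)) = P (io (i+1)) - P (io i) = L re (ell (z i))`.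
-/

namespace H69.ED.Geo

variable {A K : Type} [Fintype A] [Field K] [NumberField K] (G : Geo A K)

private theorem GroA_split {M : Type} [AddCommMonoid M] {f : ℤ → ℤ} (hf : StrictMono f) {p q : ℤ}
    (h : p ≤ q) (g : ℤ → M) :
    ∑ j ∈ Finset.Ico (f p) (f q), g j =
      ∑ m ∈ Finset.Ico p q, ∑ j ∈ Finset.Ico (f m) (f (m + 1)), g j := by
  induction q, h using Int.leInduction with
  | base => simp
  | succ q hq ih =>
    have h1 : Finset.Ico (f p) (f (q + 1)) = Finset.Ico (f p) (f q) ∪ Finset.Ico (f q) (f (q + 1)) :=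
      (Finset.Ico_union_Ico_eq_Ico (hf.monotone hq) (hf (by omega)).le).symm
    have h2 : Finset.Ico p (q + 1) = Finset.Ico p q ∪ {q} := by
      ext x
      simp only [Finset.mem_Ico, Finset.mem_union, Finset.mem_singleton]
      omega
    rw [h1, Finset.sum_union (Finset.Ico_disjoint_Ico_consecutive _ _ _), ih, h2,
      Finset.sum_union (by simp), Finset.sum_singleton]

open Classical in
private theorem GroA_WB (η : ℝ) (k : ℕ) (i : ℤ) (r : K) : G.WB η k i r =
    ∑ m ∈ Finset.Ico (G.io^[k] i) (G.io^[k] (i + 1)),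
      if ¬ G.GT η m (G.lam ^ k * r) then G.re (G.ell (G.z m)) else 0 := by
  rw [WB, Finset.sum_filter]

open Classical in
private theorem GroA_NB (η : ℝ) (k : ℕ) (i : ℤ) (r : K) : G.NB η k i r =
    ∑ m ∈ Finset.Ico (G.io^[k] i) (G.io^[k] (i + 1)),
      if ¬ G.GT η m (G.lam ^ k * r) then 1 else 0 := by
  rw [NB, Finset.card_filter]

theorem WB_zero {η : ℝ} {i : ℤ} {r : K} (h : ¬ G.GT η i r) : G.WB η 0 i r = G.re (G.ell (G.z i)) := by
  classical
  rw [GroA_WB]
  have h1 : Finset.Ico (G.io^[0] i) (G.io^[0] (i + 1)) = {i} := by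
    ext x
    simp only [Function.iterate_zero, id_eq, Finset.mem_Ico, Finset.mem_singleton]
    omega
  rw [h1, Finset.sum_singleton, pow_zero, one_mul, if_pos h]

theorem WB_good {η : ℝ} {i : ℤ} {r : K} (h : G.GT η i r) (k : ℕ) : G.WB η k i r = 0 := by
  classical
  rw [GroA_WB]
  refine Finset.sum_eq_zero fun m hm => ?_
  rw [Finset.mem_Ico] at hm
  rw [if_neg (not_not.2 ((G.gt_desc k).1 h m hm.1 hm.2))]

theorem NB_good {η : ℝ} {i : ℤ} {r : K} (h : G.GT η i r) (k : ℕ) : G.NB η k i r = 0 := by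
  classical
  rw [GroA_NB]
  refine Finset.sum_eq_zero fun m hm => ?_
  rw [Finset.mem_Ico] at hm
  rw [if_neg (not_not.2 ((G.gt_desc k).1 h m hm.1 hm.2))]

theorem WB_nonneg (η : ℝ) (k : ℕ) (i : ℤ) (r : K) : 0 ≤ G.WB η k i r := by
  classical
  rw [WB]
  exact Finset.sum_nonneg fun m _ => zero_le_one.trans (G.one_le _)

theorem WB_add (η : ℝ) (k l : ℕ) (i : ℤ) (r : K) :
    G.WB η (k + l) i r =
      ∑ m ∈ Finset.Ico (G.io^[k] i) (G.io^[k] (i + 1)), G.WB η l m (G.lam ^ k * r) := by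
  classical
  have h : G.io^[k] i ≤ G.io^[k] (i + 1) := ((G.iter_strictMono k) (by omega)).le
  have e : G.lam ^ (k + l) * r = G.lam ^ l * (G.lam ^ k * r) := by ring
  rw [GroA_WB, e, add_comm k l, Function.iterate_add_apply, Function.iterate_add_apply,
    GroA_split (G.iter_strictMono l) h]
  refine Finset.sum_congr rfl fun m _ => ?_
  rw [GroA_WB]

theorem NB_add (η : ℝ) (k l : ℕ) (i : ℤ) (r : K) :
    G.NB η (k + l) i r =
      ∑ m ∈ Finset.Ico (G.io^[k] i) (G.io^[k] (i + 1)), G.NB η l m (G.lam ^ k * r) := by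
  classical
  have h : G.io^[k] i ≤ G.io^[k] (i + 1) := ((G.iter_strictMono k) (by omega)).le
  have e : G.lam ^ (k + l) * r = G.lam ^ l * (G.lam ^ k * r) := by ring
  rw [GroA_NB, e, add_comm k l, Function.iterate_add_apply, Function.iterate_add_apply,
    GroA_split (G.iter_strictMono l) h]
  refine Finset.sum_congr rfl fun m _ => ?_
  rw [GroA_NB]

theorem NB_pos {η : ℝ} {i : ℤ} {r : K} (h : ¬ G.GT η i r) (k : ℕ) : 1 ≤ G.NB η k i r := by
  classical
  rw [NB, Nat.one_le_iff_ne_zero, Finset.card_ne_zero]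
  rw [G.gt_desc k] at h
  push Not at h
  obtain ⟨m, h1, h2, h3⟩ := h
  exact ⟨m, Finset.mem_filter.2 ⟨Finset.mem_Ico.2 ⟨h1, h2⟩, h3⟩⟩

theorem NB_le_WB (η : ℝ) (k : ℕ) (i : ℤ) (r : K) : (G.NB η k i r : ℝ) ≤ G.WB η k i r := by
  classical
  rw [NB, WB, Finset.card_eq_sum_ones, Nat.cast_sum]
  refine Finset.sum_le_sum fun m _ => ?_
  simpa using G.one_le (G.z m)

theorem WB_le_NB (η : ℝ) (k : ℕ) (i : ℤ) (r : K) : G.WB η k i r ≤ G.lm * G.NB η k i r := by
  classical
  rw [NB, WB, Finset.card_eq_sum_ones, Nat.cast_sum, Finset.mul_sum]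
  refine Finset.sum_le_sum fun m _ => ?_
  simpa using G.ell_le_lm (G.z m)

private theorem GroA_tel {p q : ℤ} (h : p ≤ q) :
    ∑ m ∈ Finset.Ico p q, G.re (G.ell (G.z m)) = G.P q - G.P p := by
  induction q, h using Int.leInduction with
  | base => simp
  | succ q hq ih =>
    have h2 : Finset.Ico p (q + 1) = Finset.Ico p q ∪ {q} := by
      ext x
      simp only [Finset.mem_Ico, Finset.mem_union, Finset.mem_singleton]
      omega
    rw [h2, Finset.sum_union (by simp), Finset.sum_singleton, ih, G.P_succ]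
    ring

theorem WB_all {η : ℝ} {i : ℤ} {r : K}
    (h : ∀ m, G.io i ≤ m → m < G.io (i + 1) → ¬ G.GT η m (G.lam * r)) :
    G.WB η 1 i r = G.L * G.re (G.ell (G.z i)) := by
  classical
  rw [GroA_WB]
  have h1 : ∑ m ∈ Finset.Ico (G.io^[1] i) (G.io^[1] (i + 1)),
      (if ¬ G.GT η m (G.lam ^ 1 * r) then G.re (G.ell (G.z m)) else 0) =
      ∑ m ∈ Finset.Ico (G.io^[1] i) (G.io^[1] (i + 1)), G.re (G.ell (G.z m)) := by
    refine Finset.sum_congr rfl fun m hm => ?_
    rw [Finset.mem_Ico] at hm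
    rw [pow_one, if_pos (h m hm.1 hm.2)]
  rw [h1, GroA_tel G ((G.iter_strictMono 1) (by omega)).le, G.P_iter, G.P_iter, G.P_succ]
  ring

/-- the number of bad tiles in `[io^[k] p, io^[k] q)` -/
theorem NB_range {η : ℝ} (k : ℕ) {p q : ℤ} (h : p ≤ q) (r : K) :
    (open Classical in ((Finset.Ico (G.io^[k] p) (G.io^[k] q)).filter
      (fun m => ¬ G.GT η m (G.lam ^ k * r))).card) = ∑ i ∈ Finset.Ico p q, G.NB η k i r := by
  classical
  rw [Finset.card_filter, GroA_split (G.iter_strictMono k) h]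
  refine Finset.sum_congr rfl fun m _ => ?_
  rw [GroA_NB]

end H69.ED.Geo
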