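import Pool.Agent.H69.ED.MeanC
import Pool.Agent.H69.ED.GoodB

/-!
# MeanD: good shifts have bounded non-contracting conjugates

`non_bd` for one `φ`: let `s ∈ [x,y)`, `x + 1 ≤ y`. There is `x'` with `x ≤ x' ≤ s < x' + 1 ≤ y`
(`x' = min s (y-1)`); `Good η x' (x'+1) r`. Put `n = tl s`, `n' = tl (s + re r)`,
`o = v s + r - v (s + re r) = pos n + r - pos n'`, `ζ = φ lam`. For `k ≥ 0` let
`h t = φ (v t) + φ (lam^k r) - φ (v (t + re (lam^k r)))` on `I = [L^k x', L^k (x'+1)]`.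
* `h t = 0` unless `t ∈ nc (lam^k r)`.
* `‖h t‖ ≤ ‖ζ‖^k (‖φ o‖ + 2 C (k+1))` by `v_far` at `t` and at `t + re (lam^k r) ∈ [L^k (x'+re r), L^k (x'+re r+1)]`.
* `∫_I h = L^k ζ^k φ o + error`, error `≤ 2 C (L‖ζ‖)^k`, by `unit_bd` at `(n, x')` and `(n', x' + re r)`
  (`|P n - x'| ≤ lm + 1`), after the substitution `t ↦ t + re (lam^k r)`.
* so `(L‖ζ‖)^k ‖φ o‖ ≤ 2C (L‖ζ‖)^k + V k x' (x'+1) r · ‖ζ‖^k (‖φ o‖ + 2C(k+1))` (the integral of a function which
  vanishes outside a set of finite outer measure; use a measurable hull or that `{t ∈ I | h t ≠ 0}` is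
  measurable, `h` being a function of `tl t` and `tl (t + ·)`), and `V k ≤ C_r L^(η k)`:
  `‖φ o‖ ≤ 2C + C_r L^((η-1) k) (‖φ o‖ + 2C(k+1))`; let `k → ∞`: `‖φ o‖ ≤ 2C`.
Finally take the maximum over the finitely many `φ`.
-/

namespace H69.ED.Geo

open MeasureTheory intervalIntegral

variable {A K : Type} [Fintype A] [Field K] [NumberField K] (G : Geo A K)

private theorem abs_P_tl {x s : ℝ} (h1 : x ≤ s) (h2 : s < x + 1) :
    |G.P (G.tl s) - x| ≤ G.lm + 1 := by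
  have h3 := (G.tl_spec s).1
  have h4 := G.lt_P_tl s
  have h5 := G.one_le_lm
  rw [abs_le]
  constructor <;> linarith

/-- the integral of a function which vanishes outside a set -/
private theorem int_hull {h : ℝ → ℂ} {a b B : ℝ} (hab : a ≤ b) {S : Set ℝ} (hB : 0 ≤ B)
    (h1 : ∀ t, a ≤ t → t < b → ‖h t‖ ≤ B) (h2 : ∀ t, a ≤ t → t < b → t ∉ S → h t = 0) :
    ‖∫ t in a..b, h t‖ ≤ B * (volume (S ∩ Set.Ico a b)).toReal := by
  rw [intervalIntegral.integral_of_le hab, ← integral_Ico_eq_integral_Ioc]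
  set T := toMeasurable volume (S ∩ Set.Ico a b) with hT
  have hTm : MeasurableSet T := measurableSet_toMeasurable _ _
  have hvT : volume T = volume (S ∩ Set.Ico a b) := measure_toMeasurable _
  have hfin : volume (S ∩ Set.Ico a b) < ⊤ :=
    lt_of_le_of_lt (measure_mono Set.inter_subset_right) (by simp)
  have e1 : ∫ t in Set.Ico a b ∩ T, h t = ∫ t in Set.Ico a b, h t := by
    refine (setIntegral_eq_of_subset_of_forall_sdiff_eq_zero measurableSet_Ico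
      Set.inter_subset_left ?_).symm
    intro t ht
    refine h2 t ht.1.1 ht.1.2 fun hS => ht.2 ⟨ht.1, ?_⟩
    exact subset_toMeasurable _ _ ⟨hS, ht.1⟩
  rw [← e1]
  have hfin2 : volume (Set.Ico a b ∩ T) < ⊤ :=
    lt_of_le_of_lt (measure_mono Set.inter_subset_right) (by rw [hvT]; exact hfin)
  refine (norm_setIntegral_le_of_norm_le_const hfin2
    (fun t ht => h1 t ht.1.1 ht.1.2)).trans ?_
  refine mul_le_mul_of_nonneg_left ?_ hB
  rw [measureReal_def, ← hvT]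
  exact ENNReal.toReal_mono (by rw [hvT]; exact hfin.ne) (measure_mono Set.inter_subset_right)

theorem mean_ineq (φ : K →+* ℂ) (hφ : G.Non φ) : ∃ C : ℝ, 0 ≤ C ∧ ∀ (k : ℕ) (x s : ℝ) (r : K),
    x ≤ s → s < x + 1 →
    (G.L * ‖φ G.lam‖) ^ k * ‖φ (G.v s + r - G.v (s + G.re r))‖ ≤
      C * (G.L * ‖φ G.lam‖) ^ k + G.V k x (x + 1) r *
        (‖φ G.lam‖ ^ k * (‖φ (G.v s + r - G.v (s + G.re r))‖ + C * (k + 1))) := by
  obtain ⟨C1, hC1, H1⟩ := G.unit_bd φ hφ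
  obtain ⟨C2, hC2, H2⟩ := G.v_far φ hφ
  refine ⟨2 * C1 + 2 * C2, by positivity, ?_⟩
  intro k x s r hxs hsx
  have hL : 0 < G.L := lt_trans one_pos G.L_gt_one
  have hLk : 0 < G.L ^ k := pow_pos hL k
  have hz : 0 < ‖φ G.lam‖ := lt_of_lt_of_le one_pos hφ.1
  set ζ := φ G.lam with hζ
  set n := G.tl s with hn
  set n' := G.tl (s + G.re r) with hn'
  set x' := x + G.re r with hx'
  have hPn : |G.P n - x| ≤ G.lm + 1 := abs_P_tl G hxs hsx
  have hPn' : |G.P n' - x'| ≤ G.lm + 1 := abs_P_tl G (by linarith) (by linarith)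
  have ho : φ (G.v s + r - G.v (s + G.re r)) = φ (G.pos n) + φ r - φ (G.pos n') := by
    rw [map_sub, map_add]; rfl
  rw [ho]
  set o : ℂ := φ (G.pos n) + φ r - φ (G.pos n') with hodef
  set R := G.re (G.lam ^ k * r) with hR
  have hR' : R = G.L ^ k * G.re r := by
    rw [hR, map_mul, map_pow]; rfl
  have hab : G.L ^ k * x ≤ G.L ^ k * (x + 1) :=
    mul_le_mul_of_nonneg_left (by linarith) hLk.le
  set h : ℝ → ℂ := fun t => φ (G.v t) + ζ ^ k * φ r - φ (G.v (t + R)) with hh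
  -- the integral
  have hint : ∫ t in (G.L ^ k * x)..(G.L ^ k * (x + 1)), h t =
      (∫ t in (G.L ^ k * x)..(G.L ^ k * (x + 1)), φ (G.v t)) + (G.L : ℂ) ^ k * (ζ ^ k * φ r) -
      ∫ t in (G.L ^ k * x')..(G.L ^ k * (x' + 1)), φ (G.v t) := by
    have e2 : ∫ t in (G.L ^ k * x)..(G.L ^ k * (x + 1)), φ (G.v (t + R)) =
        ∫ t in (G.L ^ k * x')..(G.L ^ k * (x' + 1)), φ (G.v t) := by
      rw [intervalIntegral.integral_comp_add_right (fun t => φ (G.v t)) R]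
      congr 1 <;> rw [hR', hx'] <;> ring
    have i1 := G.int_v φ (G.L ^ k * x) (G.L ^ k * (x + 1))
    have i2 : IntervalIntegrable (fun t => φ (G.v (t + R))) volume (G.L ^ k * x)
        (G.L ^ k * (x + 1)) := by
      have := (G.int_v φ (G.L ^ k * x + R) (G.L ^ k * (x + 1) + R)).comp_add_right R
      simpa using this
    rw [hh, intervalIntegral.integral_sub (i1.add intervalIntegrable_const) i2,
      intervalIntegral.integral_add i1 intervalIntegrable_const, e2,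
      intervalIntegral.integral_const]
    congr 2
    rw [Complex.real_smul]
    push_cast
    ring
  have b1 := H1 k n x hPn
  have b2 := H1 k n' x' hPn'
  have key : (G.L : ℂ) ^ k * (ζ ^ k * o) =
      (∫ t in (G.L ^ k * x)..(G.L ^ k * (x + 1)), h t) -
      ((∫ t in (G.L ^ k * x)..(G.L ^ k * (x + 1)), φ (G.v t)) -
        (G.L : ℂ) ^ k * (ζ ^ k * φ (G.pos n))) +
      ((∫ t in (G.L ^ k * x')..(G.L ^ k * (x' + 1)), φ (G.v t)) -
        (G.L : ℂ) ^ k * (ζ ^ k * φ (G.pos n'))) := by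
    rw [hint, hodef]; ring
  have hnorm : ‖(G.L : ℂ) ^ k * (ζ ^ k * o)‖ = (G.L * ‖ζ‖) ^ k * ‖o‖ := by
    rw [norm_mul, norm_mul, norm_pow, norm_pow, Complex.norm_real, Real.norm_of_nonneg hL.le,
      mul_pow]
    ring
  -- the bound for `h`
  have hbd : ∀ t, G.L ^ k * x ≤ t → t < G.L ^ k * (x + 1) →
      ‖h t‖ ≤ ‖ζ‖ ^ k * (‖o‖ + (2 * C1 + 2 * C2) * (k + 1)) := by
    intro t ht1 ht2
    have c1 := H2 k n x t hPn ht1 ht2.le
    have c2 := H2 k n' x' (t + R) hPn' (by rw [hR', hx']; nlinarith) (by rw [hR', hx']; nlinarith)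
    have e : h t = ζ ^ k * o + (φ (G.v t) - ζ ^ k * φ (G.pos n)) -
        (φ (G.v (t + R)) - ζ ^ k * φ (G.pos n')) := by
      simp only [hh, hodef]; ring
    rw [e]
    have hkk : (0 : ℝ) ≤ (k : ℝ) + 1 := by positivity
    have hzk : 0 ≤ ‖ζ‖ ^ k := by positivity
    have h3 : 0 ≤ C1 * ((k : ℝ) + 1) * ‖ζ‖ ^ k := by positivity
    calc ‖ζ ^ k * o + (φ (G.v t) - ζ ^ k * φ (G.pos n)) -
          (φ (G.v (t + R)) - ζ ^ k * φ (G.pos n'))‖
        ≤ ‖ζ ^ k * o‖ + ‖φ (G.v t) - ζ ^ k * φ (G.pos n)‖ +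
          ‖φ (G.v (t + R)) - ζ ^ k * φ (G.pos n')‖ := by
          refine (norm_sub_le _ _).trans ?_
          gcongr
          exact norm_add_le _ _
      _ ≤ ‖ζ‖ ^ k * ‖o‖ + C2 * (k + 1) * ‖ζ‖ ^ k + C2 * (k + 1) * ‖ζ‖ ^ k := by
          rw [norm_mul, norm_pow]
          gcongr
      _ ≤ ‖ζ‖ ^ k * (‖o‖ + (2 * C1 + 2 * C2) * (k + 1)) := by nlinarith
  have hzero : ∀ t, G.L ^ k * x ≤ t → t < G.L ^ k * (x + 1) → t ∉ G.nc (G.lam ^ k * r) →
      h t = 0 := by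
    intro t _ _ ht
    have ht' : G.Mt (G.lam ^ k * r) t := by
      by_contra hc
      exact ht hc
    have e := ht'.1
    simp only [hh]
    rw [← hR] at e
    rw [e, map_add, map_mul, map_pow, ← hζ]
    ring
  have hfin := int_hull hab (S := G.nc (G.lam ^ k * r)) (h := h)
    (B := ‖ζ‖ ^ k * (‖o‖ + (2 * C1 + 2 * C2) * (k + 1))) (by positivity) hbd hzero
  have hV : (volume (G.nc (G.lam ^ k * r) ∩ Set.Ico (G.L ^ k * x) (G.L ^ k * (x + 1)))).toReal =
      G.V k x (x + 1) r := rfl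
  rw [hV] at hfin
  have hpow : 0 ≤ (G.L * ‖ζ‖) ^ k := by positivity
  calc (G.L * ‖ζ‖) ^ k * ‖o‖ = ‖(G.L : ℂ) ^ k * (ζ ^ k * o)‖ := hnorm.symm
    _ ≤ ‖ζ‖ ^ k * (‖o‖ + (2 * C1 + 2 * C2) * (k + 1)) * G.V k x (x + 1) r +
        C1 * (G.L * ‖ζ‖) ^ k + C1 * (G.L * ‖ζ‖) ^ k := by
        rw [key]
        refine (norm_add_le _ _).trans ?_
        refine add_le_add ((norm_sub_le _ _).trans (add_le_add hfin b1)) b2
    _ ≤ _ := by
        have : 0 ≤ C2 * (G.L * ‖ζ‖) ^ k := by positivity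
        nlinarith

private theorem one_phi (φ : K →+* ℂ) (hφ : G.Non φ) : ∃ C : ℝ, 0 ≤ C ∧
    ∀ (η x y s : ℝ) (r : K), η < 1 → G.Good η x y r → x + 1 ≤ y →
    x ≤ s → s < y → ‖φ (G.v s + r - G.v (s + G.re r))‖ ≤ C := by
  obtain ⟨C, hC, H⟩ := G.mean_ineq φ hφ
  refine ⟨C, hC, ?_⟩
  intro η x y s r hη hg hxy hxs hsy
  obtain ⟨Cr, hCr⟩ := hg
  have hL1 := G.L_gt_one
  have hL : 0 < G.L := lt_trans one_pos hL1
  have hz : 0 < ‖φ G.lam‖ := lt_of_lt_of_le one_pos hφ.1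
  set x' := min s (y - 1) with hx'
  have hx1 : x ≤ x' := le_min hxs (by linarith)
  have hx2 : x' ≤ s := min_le_left _ _
  have hx3 : x' + 1 ≤ y := by have := min_le_right s (y - 1); linarith
  have hx4 : s < x' + 1 := by
    rcases min_choice s (y - 1) with h | h
    · rw [hx', h]; linarith
    · rw [hx', h]; linarith
  set o := ‖φ (G.v s + r - G.v (s + G.re r))‖ with ho
  have ho0 : 0 ≤ o := norm_nonneg _
  set q := G.L ^ (η - 1) with hq
  have hq0 : 0 < q := Real.rpow_pos_of_pos hL _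
  have hq1 : q < 1 := Real.rpow_lt_one_of_one_lt_of_neg hL1 (by linarith)
  have hCr0 : 0 ≤ Cr := by
    have h0 := hCr 0
    have h1 := G.V_nonneg 0 x y r
    simp only [Nat.cast_zero, mul_zero, Real.rpow_zero, mul_one] at h0
    linarith
  have main : ∀ k : ℕ, o ≤ C + Cr * (q ^ k * o + C * (((k : ℝ) + 1) * q ^ k)) := by
    intro k
    have h1 := H k x' s r hx2 hx4
    rw [← ho] at h1
    have h2 : G.V k x' (x' + 1) r ≤ Cr * G.L ^ (η * k) :=
      (G.V_mono k hx1 hx3 r).trans (hCr k)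
    have hLp : G.L ^ (η * (k : ℝ)) = G.L ^ k * q ^ k := by
      rw [hq, ← Real.rpow_natCast G.L k, ← Real.rpow_natCast (G.L ^ (η - 1)) k,
        ← Real.rpow_mul hL.le, ← Real.rpow_add hL]
      congr 1
      ring
    rw [hLp] at h2
    have hp : 0 < (G.L * ‖φ G.lam‖) ^ k := by positivity
    have hzk : 0 < ‖φ G.lam‖ ^ k := by positivity
    have h3 : G.V k x' (x' + 1) r * (‖φ G.lam‖ ^ k * (o + C * (k + 1))) ≤
        Cr * (G.L ^ k * q ^ k) * (‖φ G.lam‖ ^ k * (o + C * (k + 1))) :=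
      mul_le_mul_of_nonneg_right h2 (by positivity)
    have h4 : (G.L * ‖φ G.lam‖) ^ k * o ≤ (G.L * ‖φ G.lam‖) ^ k *
        (C + Cr * (q ^ k * o + C * (((k : ℝ) + 1) * q ^ k))) := by
      calc (G.L * ‖φ G.lam‖) ^ k * o ≤ C * (G.L * ‖φ G.lam‖) ^ k +
            Cr * (G.L ^ k * q ^ k) * (‖φ G.lam‖ ^ k * (o + C * (k + 1))) := by linarith
        _ = _ := by rw [mul_pow]; ring
    exact le_of_mul_le_mul_left h4 hp
  have t1 : Filter.Tendsto (fun k : ℕ => q ^ k) Filter.atTop (nhds 0) :=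
    tendsto_pow_atTop_nhds_zero_of_lt_one hq0.le hq1
  have t2 : Filter.Tendsto (fun k : ℕ => (k : ℝ) * q ^ k) Filter.atTop (nhds 0) :=
    tendsto_self_mul_const_pow_of_lt_one hq0.le hq1
  have t3 : Filter.Tendsto (fun k : ℕ => C + Cr * (q ^ k * o + C * (((k : ℝ) + 1) * q ^ k)))
      Filter.atTop (nhds (C + Cr * (0 * o + C * (0 + 0)))) := by
    have t4 : Filter.Tendsto (fun k : ℕ => ((k : ℝ) + 1) * q ^ k) Filter.atTop (nhds (0 + 0)) := by
      have := t2.add t1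
      refine this.congr fun k => ?_
      ring
    exact tendsto_const_nhds.add (((t1.mul_const o).add (t4.const_mul C)).const_mul Cr)
  have := ge_of_tendsto' t3 main
  simpa using this

theorem non_bd : ∃ C : ℝ, 1 ≤ C ∧ ∀ (η x y s : ℝ) (r : K), η < 1 → G.Good η x y r → x + 1 ≤ y →
    x ≤ s → s < y → ∀ φ : K →+* ℂ, G.Non φ → ‖φ (G.v s + r - G.v (s + G.re r))‖ ≤ C := by
  classical
  have hex : ∀ φ : K →+* ℂ, ∃ C : ℝ, 0 ≤ C ∧ (G.Non φ → ∀ (η x y s : ℝ) (r : K), η < 1 →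
      G.Good η x y r → x + 1 ≤ y → x ≤ s → s < y →
      ‖φ (G.v s + r - G.v (s + G.re r))‖ ≤ C) := by
    intro φ
    by_cases h : G.Non φ
    · obtain ⟨C, h1, h2⟩ := one_phi G φ h
      exact ⟨C, h1, fun _ => h2⟩
    · exact ⟨0, le_rfl, fun h' => absurd h' h⟩
  choose C hC0 hC using hex
  have hfin : Fintype (K →+* ℂ) := inferInstance
  refine ⟨1 + ∑ φ, C φ, ?_, ?_⟩
  · have := Finset.sum_nonneg (s := Finset.univ) (fun φ _ => hC0 φ)
    linarith
  · intro η x y s r h1 h2 h3 h4 h5 φ h6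
    have h7 := hC φ h6 η x y s r h1 h2 h3 h4 h5
    have h8 := Finset.single_le_sum (f := C) (fun φ _ => hC0 φ) (Finset.mem_univ φ)
    linarith

end H69.ED.Geo
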