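import Pool.Agent.H69.ED.PicA
import Pool.Agent.H69.ED.MeanD

/-!
# PicB: finitely many pictures

`pic_fin`: the offset `o = pos i + r - v (P i + re r)` is integral, `0 ≤ re o < lm` (`tl_spec`, `lt_P_tl`) and its
other conjugates are bounded by `B`, so it lies in a finite set (`fin_set`); letters and words of length `m` are
finitely many.

`pic_unif`: for every picture `p` in this finite set which occurs for some good state choose a constant; take
the maximum (`pic_V`).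

`reg_offset`: for `r ∈ Reg C` and `Good η` on a unit interval around `P i`: contracting `φ`:
`‖φ o‖ ≤ 2 C0 + C`; non-contracting: `non_bd` at `s = P i` (`v (P i) = pos i`).

`good_unif`: combine. `far_bad`: if `‖φ o‖ > R0` for a non-contracting `φ` then no child is good: for a child `m`,
`io i ≤ m < io (i+1)`: `v (P m + re (lam r)) = pos j'` where `j'` is at bounded index distance from `io j`
(`j = tl (P i + re r)`): `|P m + re (lam r) - P (io j)| = |P m - P (io i) + L (P i + re r - P j)| ≤ 2 L lm`. So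
`o' = pos m + lam r - pos j' = lam o + (pos m - pos (io i)) - (pos j' - pos (io j))`, `‖φ o'‖ ≥ ‖φ o‖ - C'` by `lip`
and `‖φ lam‖ ≥ 1`, which exceeds the constant of `non_bd` if `R0` is large; a tile has length at least one.
-/

namespace H69.ED.Geo

variable {A K : Type} [Fintype A] [Field K] [NumberField K] (G : Geo A K)

private theorem offset_re (i : ℤ) (r : K) :
    0 ≤ G.re (G.pos i + r - G.v (G.P i + G.re r)) ∧
      G.re (G.pos i + r - G.v (G.P i + G.re r)) ≤ G.lm := by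
  have h1 := (G.tl_spec (G.P i + G.re r)).1
  have h2 := G.lt_P_tl (G.P i + G.re r)
  have h3 : G.re (G.pos i + r - G.v (G.P i + G.re r)) =
      G.P i + G.re r - G.P (G.tl (G.P i + G.re r)) := by
    rw [map_sub, map_add, G.re_v]; rfl
  rw [h3]
  exact ⟨by linarith, by linarith⟩

theorem pic_fin (m : ℕ) (B : ℝ) : {p : A × K × List A | ∃ (i : ℤ) (r : K), p = G.pic m i r ∧
    IsIntegral ℤ r ∧ ∀ φ : K →+* ℂ, φ ≠ G.idC →
      ‖φ (G.pos i + r - G.v (G.P i + G.re r))‖ ≤ B}.Finite := by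
  have hfin : ((Set.univ : Set A) ×ˢ ({x : K | IsIntegral ℤ x ∧ |G.re x| ≤ max B G.lm ∧
      ∀ φ : K →+* ℂ, φ ≠ G.idC → ‖φ x‖ ≤ max B G.lm} ×ˢ {w : List A | w.length = m})).Finite :=
    Set.finite_univ.prod ((G.fin_set _).prod (List.finite_length_eq A m))
  refine hfin.subset ?_
  rintro p ⟨i, r, rfl, hr, hb⟩
  obtain ⟨h1, h2⟩ := G.offset_re i r
  refine Set.mk_mem_prod (Set.mem_univ _) (Set.mk_mem_prod ⟨?_, ?_, ?_⟩ ?_)
  · exact (IsIntegral.add (G.pos_int i) hr).sub (G.pos_int _)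
  · rw [abs_of_nonneg h1]
    exact h2.trans (le_max_right _ _)
  · intro φ hφ
    exact (hb φ hφ).trans (le_max_left _ _)
  · show (H95.Edit.word G.z _ m).length = m
    unfold H95.Edit.word
    simp

theorem pic_unif (η B : ℝ) : ∃ C : ℝ, 0 ≤ C ∧ ∀ (i : ℤ) (r : K), IsIntegral ℤ r →
    (∀ φ : K →+* ℂ, φ ≠ G.idC → ‖φ (G.pos i + r - G.v (G.P i + G.re r))‖ ≤ B) →
    G.GT η i r → ∀ k : ℕ, G.V k (G.P i) (G.P (i + 1)) r ≤ C * G.L ^ (η * k) := by
  classical
  have hL : 0 < G.L := by have := G.L_gt_one; linarith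
  obtain ⟨m, hm⟩ : ∃ m : ℕ, G.lm + 1 ≤ m := ⟨⌈G.lm + 1⌉₊, Nat.le_ceil _⟩
  have hS := G.pic_fin m B
  have hex : ∀ p : A × K × List A, ∃ c : ℝ, 0 ≤ c ∧ ∀ (i : ℤ) (r : K), p = G.pic m i r →
      G.GT η i r → ∀ k : ℕ, G.V k (G.P i) (G.P (i + 1)) r ≤ c * G.L ^ (η * k) := by
    intro p
    by_cases hp : ∃ (i : ℤ) (r : K), p = G.pic m i r ∧ G.GT η i r
    · obtain ⟨i0, r0, hp0, c0, hc0⟩ := hp
      refine ⟨|c0|, abs_nonneg _, ?_⟩
      intro i r hpi _ k
      have h1 : G.pic m i r = G.pic m i0 r0 := by rw [← hpi, hp0]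
      rw [G.pic_V hm h1 k]
      refine (hc0 k).trans ?_
      have : 0 < G.L ^ (η * k) := Real.rpow_pos_of_pos hL _
      exact mul_le_mul_of_nonneg_right (le_abs_self _) this.le
    · refine ⟨0, le_rfl, ?_⟩
      intro i r hpi hg
      exact absurd ⟨i, r, hpi, hg⟩ hp
  choose c hc0 hc using hex
  refine ⟨∑ p ∈ hS.toFinset, c p, Finset.sum_nonneg fun p _ => hc0 p, ?_⟩
  intro i r hr hb hg k
  have hmem : G.pic m i r ∈ hS.toFinset := by
    rw [Set.Finite.mem_toFinset]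
    exact ⟨i, r, rfl, hr, hb⟩
  refine (hc _ i r rfl hg k).trans ?_
  have : 0 < G.L ^ (η * k) := Real.rpow_pos_of_pos hL _
  refine mul_le_mul_of_nonneg_right ?_ this.le
  exact Finset.single_le_sum (fun p _ => hc0 p) hmem

theorem reg_offset {η : ℝ} (hη : η < 1) (C : ℝ) : ∃ B : ℝ, 1 ≤ B ∧ ∀ (i : ℤ) (r : K),
    r ∈ G.Reg C → G.Good η (G.P i) (G.P i + 1) r → ∀ φ : K →+* ℂ, φ ≠ G.idC →
      ‖φ (G.pos i + r - G.v (G.P i + G.re r))‖ ≤ B := by
  obtain ⟨C1, hC1, h1⟩ := G.non_bd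
  obtain ⟨C0, hC0, h0⟩ := G.con_pos
  refine ⟨2 * C0 + |C| + C1, by have := abs_nonneg C; linarith, ?_⟩
  intro i r hr hg φ hφ
  rcases G.con_or_non hφ with hc | hn
  · have e1 := h0 φ hc i
    have e2 := h0 φ hc (G.tl (G.P i + G.re r))
    have e3 := hr.2 φ hc
    have e4 := le_abs_self C
    rw [map_sub, map_add]
    have e5 := norm_sub_le (φ (G.pos i) + φ r) (φ (G.v (G.P i + G.re r)))
    have e6 := norm_add_le (φ (G.pos i)) (φ r)
    have e7 : ‖φ (G.v (G.P i + G.re r))‖ ≤ C0 := e2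
    linarith
  · have e1 := h1 η (G.P i) (G.P i + 1) (G.P i) r hη hg le_rfl le_rfl (by linarith) φ hn
    rw [G.v_P] at e1
    have := abs_nonneg C
    linarith

theorem good_unif {η : ℝ} (hη : η < 1) (C : ℝ) : ∃ Q : ℝ, 0 ≤ Q ∧ ∀ (i : ℤ) (r : K),
    r ∈ G.Reg C → G.GT η i r → ∀ k : ℕ, G.V k (G.P i) (G.P (i + 1)) r ≤ Q * G.L ^ (η * k) := by
  obtain ⟨B, _, hB⟩ := G.reg_offset hη C
  obtain ⟨Q, hQ, h⟩ := G.pic_unif η B
  refine ⟨Q, hQ, ?_⟩
  intro i r hr hg
  exact h i r hr.1 (hB i r hr (G.good_mono le_rfl (G.P_succ_ge i) hg)) hg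

theorem far_bad {η : ℝ} (hη : η < 1) : ∃ R0 : ℝ, 1 ≤ R0 ∧ ∀ (i : ℤ) (r : K) (φ : K →+* ℂ),
    G.Non φ → R0 < ‖φ (G.pos i + r - G.v (G.P i + G.re r))‖ →
    ∀ m, G.io i ≤ m → m < G.io (i + 1) → ¬ G.GT η m (G.lam * r) := by
  obtain ⟨C1, hC1, h1⟩ := G.non_bd
  obtain ⟨C2, hC2, h2⟩ := G.lip
  have hL1 := G.L_gt_one
  have hlm := G.one_le_lm
  have hLlm : 1 ≤ G.L * G.lm := by nlinarith
  refine ⟨C1 + C2 * (G.L * G.lm) + C2 * (2 * (G.L * G.lm) + 1), by nlinarith, ?_⟩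
  intro i r φ hφ hbig m hm1 hm2 hgt
  set j := G.tl (G.P i + G.re r) with hj
  set j' := G.tl (G.P m + G.re (G.lam * r)) with hj'
  have hP1 : ∀ n, G.P (G.io n) = G.L * G.P n := by
    intro n
    have := G.P_iter 1 n
    simpa using this
  -- the offset upstairs
  have e1 := h1 η (G.P m) (G.P (m + 1)) (G.P m) (G.lam * r) hη hgt (G.P_succ_ge m) le_rfl
    (by have := G.P_succ_ge m; linarith) φ hφ
  rw [G.v_P] at e1
  have hv : G.v (G.P m + G.re (G.lam * r)) = G.pos j' := rfl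
  rw [hv] at e1
  -- real distances
  have hd1 : 0 ≤ G.P m - G.P (G.io i) ∧ G.P m - G.P (G.io i) ≤ G.L * G.lm := by
    constructor
    · have := (G.P_le_iff (G.io i) m).mpr hm1
      linarith
    · have e2 := (G.P_le_iff m (G.io (i + 1))).mpr hm2.le
      rw [hP1] at e2 ⊢
      have e3 := G.P_succ_le i
      have e4 : G.L * G.P (i + 1) ≤ G.L * (G.P i + G.lm) :=
        mul_le_mul_of_nonneg_left e3 (by linarith)
      linarith
  have hd2 : 0 ≤ G.P i + G.re r - G.P j ∧ G.P i + G.re r - G.P j ≤ G.lm := by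
    have e2 := (G.tl_spec (G.P i + G.re r)).1
    have e3 := G.lt_P_tl (G.P i + G.re r)
    rw [← hj] at e2 e3
    exact ⟨by linarith, by linarith⟩
  -- index distances
  have hi1 : |((m - G.io i : ℤ) : ℝ)| ≤ G.L * G.lm := by
    have e2 := G.P_sub_ge hm1
    have e3 : (0 : ℝ) ≤ ((m - G.io i : ℤ) : ℝ) := by exact_mod_cast Int.sub_nonneg.mpr hm1
    rw [abs_of_nonneg e3]
    linarith [hd1.2]
  have hi2 : |((j' - G.io j : ℤ) : ℝ)| ≤ 2 * (G.L * G.lm) + 1 := by
    have e2 := G.abs_tl_sub_lt (G.P (G.io j)) (G.P m + G.re (G.lam * r))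
    rw [← hj', G.tl_P] at e2
    have e3 : |G.P m + G.re (G.lam * r) - G.P (G.io j)| ≤ 2 * (G.L * G.lm) := by
      have e4 : G.re (G.lam * r) = G.L * G.re r := by rw [map_mul]; rfl
      have e5 : G.P m + G.re (G.lam * r) - G.P (G.io j) =
          (G.P m - G.P (G.io i)) + G.L * (G.P i + G.re r - G.P j) := by
        rw [e4, hP1, hP1]; ring
      rw [e5]
      have e6 : 0 ≤ G.L * (G.P i + G.re r - G.P j) := mul_nonneg (by linarith) hd2.1
      have e7 : G.L * (G.P i + G.re r - G.P j) ≤ G.L * G.lm :=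
        mul_le_mul_of_nonneg_left hd2.2 (by linarith)
      rw [abs_of_nonneg (by linarith [hd1.1])]
      linarith [hd1.2]
    linarith
  have hio : ∀ n, G.pos (G.io n) = G.lam * G.pos n := G.pos_io
  have hid : G.lam * (G.pos i + r - G.pos j) =
      (G.pos m + G.lam * r - G.pos j') - (G.pos m - G.pos (G.io i)) +
        (G.pos j' - G.pos (G.io j)) := by
    rw [hio, hio]; ring
  have hv2 : G.v (G.P i + G.re r) = G.pos j := rfl
  rw [hv2] at hbig
  have e8 : ‖φ (G.lam * (G.pos i + r - G.pos j))‖ ≤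
      C1 + C2 * (G.L * G.lm) + C2 * (2 * (G.L * G.lm) + 1) := by
    rw [hid, map_add, map_sub]
    refine (norm_add_le _ _).trans (add_le_add ((norm_sub_le _ _).trans (add_le_add e1 ?_)) ?_)
    · rw [map_sub]
      refine (h2 φ m (G.io i)).trans ?_
      exact mul_le_mul_of_nonneg_left hi1 (by linarith)
    · rw [map_sub]
      refine (h2 φ j' (G.io j)).trans ?_
      exact mul_le_mul_of_nonneg_left hi2 (by linarith)
  rw [map_mul, norm_mul] at e8
  have e9 : ‖φ (G.pos i + r - G.pos j)‖ ≤ ‖φ G.lam‖ * ‖φ (G.pos i + r - G.pos j)‖ :=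
    le_mul_of_one_le_left (norm_nonneg _) hφ.1
  linarith

end H69.ED.Geo
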