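import Pool.Agent.H69.ED.GroA
import Pool.Agent.H69.ED.PicB

/-!
# GroB: the unmatched volume of a bad state is controlled by its bad descendants

With `Q` from `good_unif` and `C' = max 1 (L Q)`. Induction on `k` for all bad `(i,r)`, `r ∈ Reg C`
(`k = 0`: `V 0 ≤ P (i+1) - P i = WB 0`). Step: by `V_desc` (level one)
`V (k+1) (P i) (P (i+1)) r = ∑_{m child} V k (P m) (P (m+1)) (lam r)`, `lam r ∈ Reg C`. The good children contribute
at most `(number of children) Q L^(η k) ≤ L re (ell (z i)) Q L^(η k) ≤ C' WB 0 i r L^(η k)`, the bad ones by induction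
`C' (WB k m (lam r) + ∑_{j<k} WB j m (lam r) L^(η (k-1-j)))`; sum over `m` with `WB_add` (level one, `WB = 0` for
good children): `C' (WB (k+1) i r + ∑_{j<k} WB (j+1) i r L^(η (k-1-j)))`. Together the claim for `k+1`
(`Finset.sum_range_succ'`).
-/

namespace H69.ED.Geo

variable {A K : Type} [Fintype A] [Field K] [NumberField K] (G : Geo A K)

private theorem GroB_reg {C : ℝ} {r : K} (h : r ∈ G.Reg C) : G.lam * r ∈ G.Reg C := by
  refine ⟨G.lam_int.mul h.1, fun φ hφ => ?_⟩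
  have h1 : ‖φ G.lam‖ < 1 := hφ
  rw [map_mul, norm_mul]
  calc ‖φ G.lam‖ * ‖φ r‖ ≤ 1 * ‖φ r‖ :=
        mul_le_mul_of_nonneg_right h1.le (norm_nonneg _)
    _ = ‖φ r‖ := one_mul _
    _ ≤ C := h.2 φ hφ

theorem V_le_WB {η C : ℝ} (hη : η < 1) (hC : 0 ≤ C) : ∃ C' : ℝ, 0 ≤ C' ∧
    ∀ (k : ℕ) (i : ℤ) (r : K), r ∈ G.Reg C → ¬ G.GT η i r →
      G.V k (G.P i) (G.P (i + 1)) r ≤ C' * (G.WB η k i r +
        ∑ j ∈ Finset.range k, G.WB η j i r * G.L ^ (η * ((k : ℝ) - 1 - j))) := by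
  obtain ⟨Q, hQ, hgood⟩ := G.good_unif hη C
  have hL : 0 < G.L := lt_trans one_pos G.L_gt_one
  have hC0 : (0 : ℝ) ≤ max 1 (G.L * Q) := le_trans zero_le_one (le_max_left _ _)
  refine ⟨max 1 (G.L * Q), hC0, ?_⟩
  intro k
  induction k with
  | zero =>
    intro i r hr hb
    have h1 := G.V_le 0 (G.P_strictMono.monotone (by omega : i ≤ i + 1)) r
    rw [pow_zero, one_mul, G.P_succ, add_sub_cancel_left] at h1
    have h0 := G.WB_zero hb
    rw [Finset.range_zero, Finset.sum_empty, add_zero]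
    have h2 := G.WB_nonneg η 0 i r
    rw [G.P_succ]
    calc G.V 0 (G.P i) (G.P i + G.re (G.ell (G.z i))) r ≤ 1 * G.WB η 0 i r := by
          rw [one_mul, h0]; exact h1
      _ ≤ max 1 (G.L * Q) * G.WB η 0 i r := mul_le_mul_of_nonneg_right (le_max_left _ _) h2
  | succ k ih =>
    intro i r hr hb
    have e1 := G.V_desc 1 k i r
    rw [pow_one] at e1
    have e2 : ∀ l, G.WB η (l + 1) i r =
        ∑ m ∈ Finset.Ico (G.io^[1] i) (G.io^[1] (i + 1)), G.WB η l m (G.lam * r) := by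
      intro l
      have h := G.WB_add η 1 l i r
      rw [pow_one, add_comm] at h
      exact h
    have hr1 := GroB_reg G hr
    -- each child
    have h1 : ∀ m ∈ Finset.Ico (G.io^[1] i) (G.io^[1] (i + 1)),
        G.V k (G.P m) (G.P (m + 1)) (G.lam * r) ≤
          max 1 (G.L * Q) * (G.WB η k m (G.lam * r) +
            ∑ j ∈ Finset.range k, G.WB η j m (G.lam * r) * G.L ^ (η * ((k : ℝ) - 1 - j))) +
          Q * G.L ^ (η * k) := by
      intro m _
      have hq : 0 ≤ Q * G.L ^ (η * k) := mul_nonneg hQ (Real.rpow_nonneg hL.le _)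
      by_cases hg : G.GT η m (G.lam * r)
      · have h2 := hgood m (G.lam * r) hr1 hg k
        have h3 : 0 ≤ max 1 (G.L * Q) * (G.WB η k m (G.lam * r) +
            ∑ j ∈ Finset.range k, G.WB η j m (G.lam * r) * G.L ^ (η * ((k : ℝ) - 1 - j))) := by
          refine mul_nonneg hC0 (add_nonneg (G.WB_nonneg _ _ _ _) (Finset.sum_nonneg ?_))
          intro j _
          exact mul_nonneg (G.WB_nonneg _ _ _ _) (Real.rpow_nonneg hL.le _)
        linarith
      · have h2 := ih m (G.lam * r) hr1 hg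
        linarith
    -- the number of children
    have h2 : ((Finset.Ico (G.io^[1] i) (G.io^[1] (i + 1))).card : ℝ) ≤ G.L * G.WB η 0 i r := by
      have h3 := G.iter_sub_le 1 (by omega : i ≤ i + 1)
      rw [pow_one, G.P_succ, add_sub_cancel_left, ← G.WB_zero hb] at h3
      rw [Int.card_Ico]
      have h4 : 0 ≤ G.io^[1] (i + 1) - G.io^[1] i := by
        have := (G.iter_strictMono 1).monotone (by omega : i ≤ i + 1)
        omega
      have h5 : (((G.io^[1] (i + 1) - G.io^[1] i).toNat : ℤ) : ℝ) =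
          ((G.io^[1] (i + 1) - G.io^[1] i : ℤ) : ℝ) := by
        rw [Int.toNat_of_nonneg h4]
      have h6 : (((G.io^[1] (i + 1) - G.io^[1] i).toNat : ℕ) : ℝ) =
          (((G.io^[1] (i + 1) - G.io^[1] i).toNat : ℤ) : ℝ) := by
        push_cast
        rfl
      rw [h6, h5]
      exact h3
    have e3 : G.V (k + 1) (G.P i) (G.P (i + 1)) r =
        ∑ m ∈ Finset.Ico (G.io^[1] i) (G.io^[1] (i + 1)),
          G.V k (G.P m) (G.P (m + 1)) (G.lam * r) := by
      rw [add_comm k 1]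
      exact e1
    rw [e3]
    refine (Finset.sum_le_sum h1).trans ?_
    rw [Finset.sum_add_distrib, ← Finset.mul_sum, Finset.sum_add_distrib, ← e2 k, Finset.sum_comm,
      Finset.sum_const, nsmul_eq_mul, Finset.sum_range_succ']
    have e4 : ∀ j ∈ Finset.range k,
        (∑ m ∈ Finset.Ico (G.io^[1] i) (G.io^[1] (i + 1)),
          G.WB η j m (G.lam * r) * G.L ^ (η * ((k : ℝ) - 1 - j))) =
        G.WB η (j + 1) i r * G.L ^ (η * (((k + 1 : ℕ) : ℝ) - 1 - ((j + 1 : ℕ) : ℝ))) := by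
      intro j _
      rw [← Finset.sum_mul, ← e2 j]
      congr 2
      push_cast
      ring
    rw [Finset.sum_congr rfl e4]
    have e5 : G.L ^ (η * (((k + 1 : ℕ) : ℝ) - 1 - ((0 : ℕ) : ℝ))) = G.L ^ (η * k) := by
      congr 1
      push_cast
      ring
    rw [e5]
    have hp : 0 ≤ G.L ^ (η * (k : ℝ)) := Real.rpow_nonneg hL.le _
    have h7 : ((Finset.Ico (G.io^[1] i) (G.io^[1] (i + 1))).card : ℝ) * (Q * G.L ^ (η * (k : ℝ))) ≤
        max 1 (G.L * Q) * (G.WB η 0 i r * G.L ^ (η * (k : ℝ))) := by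
      have h8 : 0 ≤ G.WB η 0 i r * G.L ^ (η * (k : ℝ)) := mul_nonneg (G.WB_nonneg _ _ _ _) hp
      calc ((Finset.Ico (G.io^[1] i) (G.io^[1] (i + 1))).card : ℝ) * (Q * G.L ^ (η * (k : ℝ)))
          ≤ (G.L * G.WB η 0 i r) * (Q * G.L ^ (η * (k : ℝ))) :=
            mul_le_mul_of_nonneg_right h2 (mul_nonneg hQ hp)
        _ = (G.L * Q) * (G.WB η 0 i r * G.L ^ (η * (k : ℝ))) := by ring
        _ ≤ max 1 (G.L * Q) * (G.WB η 0 i r * G.L ^ (η * (k : ℝ))) :=
            mul_le_mul_of_nonneg_right (le_max_right _ _) h8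
    calc max 1 (G.L * Q) * (G.WB η (k + 1) i r + ∑ j ∈ Finset.range k,
          G.WB η (j + 1) i r * G.L ^ (η * (((k + 1 : ℕ) : ℝ) - 1 - ((j + 1 : ℕ) : ℝ)))) +
          ((Finset.Ico (G.io^[1] i) (G.io^[1] (i + 1))).card : ℝ) * (Q * G.L ^ (η * (k : ℝ)))
        ≤ max 1 (G.L * Q) * (G.WB η (k + 1) i r + ∑ j ∈ Finset.range k,
          G.WB η (j + 1) i r * G.L ^ (η * (((k + 1 : ℕ) : ℝ) - 1 - ((j + 1 : ℕ) : ℝ)))) +
          max 1 (G.L * Q) * (G.WB η 0 i r * G.L ^ (η * (k : ℝ))) := by linarith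
      _ = _ := by ring

end H69.ED.Geo
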