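import Pool.Agent.H69.ED.GroB

/-!
# GroC: bad states grow

`exists_J`: suppose not: for every `J ≥ 1` there is a bad state `(i_J, r_J)`, `r_J ∈ Reg C`, with
`WB η j i_J r_J < θ^j re (ell (z i_J))` for all `1 ≤ j ≤ J`. For `j = 1`: not all children are bad
(`WB_all`, `θ < L^η ≤ L`), so by `far_bad` all non-contracting conjugates of the offset are at most `R0`, the
contracting ones are at most `C + 2 C0` (`con_pos`): the picture (`m = ⌈lm⌉ + 1`) lies in the finite set `pic_fin`. So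
infinitely many `J` have the same picture; fix one of these states `(i, r)`: `pic_WB` gives
`WB η j i r < θ^j re (ell (z i))` for ALL `j ≥ 1` (the letter is part of the picture). Then `V_le_WB` gives
`V k ≤ C' (θ^k lm + ∑_{j<k} θ^j lm L^(η (k-1-j))) ≤ C'' L^(η k)`, a geometric series as `θ < L^η`: the state is good,
contradiction.

`gro`: `c0 = (θ^J lm)⁻¹`; claim `c0 θ^k re (ell (z i)) ≤ WB η k i r` for all `k` and all bad `(i,r)`, `r ∈ Reg C`, by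
strong induction on `k`: take `j` from `exists_J`. If `k < j`: `1 ≤ NB ≤ WB η k i r` and
`c0 θ^k re (ell) ≤ c0 θ^J lm = 1`. If `k ≥ j`: `WB η k i r = ∑_{m} WB η (k-j) m (lam^j r) ≥
∑_{m bad} c0 θ^(k-j) re (ell (z m)) = c0 θ^(k-j) WB η j i r ≥ c0 θ^k re (ell (z i))`. Finally `WB ≤ lm NB`.
-/

namespace H69.ED.Geo

variable {A K : Type} [Fintype A] [Field K] [NumberField K] (G : Geo A K)

private theorem lt_L {η θ : ℝ} (hη : η < 1) (h2 : θ < G.L ^ η) : θ < G.L := by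
  have h3 : G.L ^ η ≤ G.L ^ (1 : ℝ) := Real.rpow_le_rpow_of_exponent_le G.L_gt_one.le hη.le
  rw [Real.rpow_one] at h3
  linarith

private theorem off_bd {η C θ : ℝ} (hη : η < 1) (h2 : θ < G.L ^ η) : ∃ B : ℝ,
    ∀ (i : ℤ) (r : K), r ∈ G.Reg C → G.WB η 1 i r < θ ^ 1 * G.re (G.ell (G.z i)) →
      ∀ φ : K →+* ℂ, φ ≠ G.idC → ‖φ (G.pos i + r - G.v (G.P i + G.re r))‖ ≤ B := by
  obtain ⟨R0, hR0, hfar⟩ := G.far_bad hη
  obtain ⟨C0, hC0, hcon⟩ := G.con_pos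
  refine ⟨max R0 (C0 + C + C0), fun i r hr hW φ hφ => ?_⟩
  rcases G.con_or_non hφ with hc | hn
  · refine le_trans ?_ (le_max_right _ _)
    rw [map_sub, map_add]
    have e1 := hcon φ hc i
    have e2 := hr.2 φ hc
    have e3 : ‖φ (G.v (G.P i + G.re r))‖ ≤ C0 := hcon φ hc _
    calc ‖φ (G.pos i) + φ r - φ (G.v (G.P i + G.re r))‖
        ≤ ‖φ (G.pos i) + φ r‖ + ‖φ (G.v (G.P i + G.re r))‖ := norm_sub_le _ _
      _ ≤ ‖φ (G.pos i)‖ + ‖φ r‖ + ‖φ (G.v (G.P i + G.re r))‖ := by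
          gcongr
          exact norm_add_le _ _
      _ ≤ C0 + C + C0 := by linarith
  · refine le_trans ?_ (le_max_left _ _)
    by_contra hlt
    push Not at hlt
    have hall := G.WB_all (η := η) (i := i) (r := r) (hfar i r φ hn hlt)
    rw [hall, pow_one] at hW
    have hpos : 0 < G.re (G.ell (G.z i)) := lt_of_lt_of_le one_pos (G.one_le _)
    have := lt_L G hη h2
    have := mul_lt_mul_of_pos_right this hpos
    linarith

private theorem good_of_small {η C θ : ℝ} (hη : η < 1) (hC : 0 ≤ C) (h1 : 1 ≤ θ)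
    (h2 : θ < G.L ^ η) {i : ℤ} {r : K} (hr : r ∈ G.Reg C) (hb : ¬ G.GT η i r)
    (h : ∀ j : ℕ, 1 ≤ j → G.WB η j i r < θ ^ j * G.re (G.ell (G.z i))) : G.GT η i r := by
  obtain ⟨C', hC', hV⟩ := G.V_le_WB hη hC
  have hLp : 0 < G.L := lt_trans one_pos G.L_gt_one
  set X : ℝ := G.L ^ η with hX
  have hX0 : 0 < X := Real.rpow_pos_of_pos hLp _
  have hXt : 0 < X - θ := sub_pos.2 h2
  have hlm : 0 ≤ G.lm := le_trans zero_le_one G.one_le_lm
  have hθ : 0 ≤ θ := le_trans zero_le_one h1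
  have hpw : ∀ n : ℕ, G.L ^ (η * (n : ℝ)) = X ^ n := fun n => by
    rw [hX, ← Real.rpow_natCast, ← Real.rpow_mul hLp.le]
  have hW : ∀ j : ℕ, G.WB η j i r ≤ θ ^ j * G.lm := by
    intro j
    rcases Nat.eq_zero_or_pos j with hj | hj
    · subst hj
      rw [G.WB_zero hb, pow_zero, one_mul]
      exact G.ell_le_lm _
    · refine le_trans (h j hj).le ?_
      exact mul_le_mul_of_nonneg_left (G.ell_le_lm _) (pow_nonneg hθ _)
  refine ⟨C' * (G.lm + G.lm / (X - θ)), fun k => ?_⟩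
  refine le_trans (hV k i r hr hb) ?_
  rw [hpw, mul_assoc]
  refine mul_le_mul_of_nonneg_left ?_ hC'
  have hsum : ∑ j ∈ Finset.range k, G.WB η j i r * G.L ^ (η * ((k : ℝ) - 1 - j)) ≤
      G.lm / (X - θ) * X ^ k := by
    have e1 : ∀ j ∈ Finset.range k, G.WB η j i r * G.L ^ (η * ((k : ℝ) - 1 - j)) ≤
        G.lm * (θ ^ j * X ^ (k - 1 - j)) := by
      intro j hj
      have hjk : j < k := Finset.mem_range.1 hj
      have hc : ((k : ℝ) - 1 - j) = ((k - 1 - j : ℕ) : ℝ) := by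
        have : k - 1 - j + 1 + j = k := by omega
        have h3 : ((k - 1 - j + 1 + j : ℕ) : ℝ) = (k : ℝ) := by rw [this]
        push_cast at h3
        linarith
      rw [hc, hpw]
      calc G.WB η j i r * X ^ (k - 1 - j) ≤ (θ ^ j * G.lm) * X ^ (k - 1 - j) :=
            mul_le_mul_of_nonneg_right (hW j) (pow_nonneg hX0.le _)
        _ = G.lm * (θ ^ j * X ^ (k - 1 - j)) := by ring
    refine le_trans (Finset.sum_le_sum e1) ?_
    rw [← Finset.mul_sum]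
    have hg : (∑ j ∈ Finset.range k, θ ^ j * X ^ (k - 1 - j)) * (X - θ) ≤ X ^ k := by
      have := (Commute.all θ X).geom_sum₂_mul k
      have h4 : 0 ≤ θ ^ k := pow_nonneg hθ _
      nlinarith
    have hg2 : ∑ j ∈ Finset.range k, θ ^ j * X ^ (k - 1 - j) ≤ X ^ k / (X - θ) := by
      rw [le_div_iff₀ hXt]
      exact hg
    calc G.lm * ∑ j ∈ Finset.range k, θ ^ j * X ^ (k - 1 - j)
        ≤ G.lm * (X ^ k / (X - θ)) := mul_le_mul_of_nonneg_left hg2 hlm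
      _ = G.lm / (X - θ) * X ^ k := by ring
  have hk : G.WB η k i r ≤ G.lm * X ^ k := by
    refine le_trans (hW k) ?_
    rw [mul_comm]
    exact mul_le_mul_of_nonneg_left (pow_le_pow_left₀ hθ h2.le _) hlm
  rw [add_mul]
  exact add_le_add hk hsum

theorem exists_J {η C θ : ℝ} (h0 : 0 < η) (hη : η < 1) (hC : 0 ≤ C) (h1 : 1 ≤ θ)
    (h2 : θ < G.L ^ η) : ∃ J : ℕ, 1 ≤ J ∧ ∀ (i : ℤ) (r : K), r ∈ G.Reg C → ¬ G.GT η i r →
      ∃ j : ℕ, 1 ≤ j ∧ j ≤ J ∧ θ ^ j * G.re (G.ell (G.z i)) ≤ G.WB η j i r := by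
  by_contra hcon
  push Not at hcon
  have hcon' : ∀ J : ℕ, ∃ i : ℤ, ∃ r : K, r ∈ G.Reg C ∧ ¬ G.GT η i r ∧
      ∀ j : ℕ, 1 ≤ j → j ≤ J + 1 → G.WB η j i r < θ ^ j * G.re (G.ell (G.z i)) := by
    intro J
    obtain ⟨i, r, a, b, c⟩ := hcon (J + 1) (by omega)
    exact ⟨i, r, a, b, c⟩
  choose i r hreg hbad hsm using hcon'
  obtain ⟨B, hB⟩ := off_bd G (C := C) hη h2
  obtain ⟨m, hm⟩ := exists_nat_ge (G.lm + 1)
  have hfin := G.pic_fin m B
  let S := {p : A × K × List A | ∃ (i : ℤ) (r : K), p = G.pic m i r ∧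
    IsIntegral ℤ r ∧ ∀ φ : K →+* ℂ, φ ≠ G.idC →
      ‖φ (G.pos i + r - G.v (G.P i + G.re r))‖ ≤ B}
  have : Finite S := hfin
  let f : ℕ → S := fun J => ⟨G.pic m (i J) (r J), i J, r J, rfl, (hreg J).1,
    hB (i J) (r J) (hreg J) (hsm J 1 le_rfl (by omega))⟩
  obtain ⟨y, hy⟩ := Finite.exists_infinite_fiber f
  have hinf : (f ⁻¹' {y}).Infinite := Set.infinite_coe_iff.1 hy
  obtain ⟨J0, hJ0⟩ := hinf.nonempty
  have key : ∀ j : ℕ, 1 ≤ j →
      G.WB η j (i J0) (r J0) < θ ^ j * G.re (G.ell (G.z (i J0))) := by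
    intro j hj
    obtain ⟨J, hJ, hjJ⟩ := hinf.exists_gt j
    have e1 : f J = f J0 := by
      rw [Set.mem_preimage, Set.mem_singleton_iff] at hJ hJ0
      rw [hJ, hJ0]
    have e2 : G.pic m (i J) (r J) = G.pic m (i J0) (r J0) := congrArg Subtype.val e1
    have e3 := G.pic_WB hm e2 η j
    have e4 : G.z (i J) = G.z (i J0) := congrArg Prod.fst e2
    rw [← e3, ← e4]
    exact hsm J j hj (by omega)
  exact hbad J0 (good_of_small G hη hC h1 h2 (hreg J0) (hbad J0) key)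

private theorem gro_aux {η C θ : ℝ} (hC : 0 ≤ C) (h1 : 1 ≤ θ) {J : ℕ}
    (hJ : ∀ (i : ℤ) (r : K), r ∈ G.Reg C → ¬ G.GT η i r →
      ∃ j : ℕ, 1 ≤ j ∧ j ≤ J ∧ θ ^ j * G.re (G.ell (G.z i)) ≤ G.WB η j i r) (k : ℕ) :
    ∀ (i : ℤ) (r : K), r ∈ G.Reg C → ¬ G.GT η i r →
      (θ ^ J * G.lm)⁻¹ * θ ^ k * G.re (G.ell (G.z i)) ≤ G.WB η k i r := by
  classical
  have hθ : 0 < θ := lt_of_lt_of_le one_pos h1
  have hlm : 0 < G.lm := lt_of_lt_of_le one_pos G.one_le_lm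
  have hc0 : 0 < (θ ^ J * G.lm)⁻¹ := by positivity
  induction k using Nat.strong_induction_on with
  | _ k ih =>
    intro i r hr hb
    obtain ⟨j, hj1, hjJ, hj⟩ := hJ i r hr hb
    rcases lt_or_ge k j with hk | hk
    · have e1 : (1 : ℝ) ≤ G.NB η k i r := by exact_mod_cast G.NB_pos hb k
      have e2 := G.NB_le_WB η k i r
      have e3 : θ ^ k ≤ θ ^ J := pow_le_pow_right₀ h1 (by omega)
      have e4 : θ ^ k * G.re (G.ell (G.z i)) ≤ θ ^ J * G.lm :=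
        mul_le_mul e3 (G.ell_le_lm _) (le_trans zero_le_one (G.one_le _)) (by positivity)
      calc (θ ^ J * G.lm)⁻¹ * θ ^ k * G.re (G.ell (G.z i))
          = (θ ^ J * G.lm)⁻¹ * (θ ^ k * G.re (G.ell (G.z i))) := by ring
        _ ≤ (θ ^ J * G.lm)⁻¹ * (θ ^ J * G.lm) := mul_le_mul_of_nonneg_left e4 hc0.le
        _ = 1 := inv_mul_cancel₀ (by positivity)
        _ ≤ G.WB η k i r := le_trans e1 e2
    · obtain ⟨l, rfl⟩ := Nat.exists_eq_add_of_le hk
      rw [G.WB_add η j l i r]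
      have e1 : ∑ m ∈ (Finset.Ico (G.io^[j] i) (G.io^[j] (i + 1))).filter
          (fun m => ¬ G.GT η m (G.lam ^ j * r)), G.WB η l m (G.lam ^ j * r) ≤
          ∑ m ∈ Finset.Ico (G.io^[j] i) (G.io^[j] (i + 1)), G.WB η l m (G.lam ^ j * r) :=
        Finset.sum_le_sum_of_subset_of_nonneg (Finset.filter_subset _ _)
          (fun m _ _ => G.WB_nonneg η l m _)
      refine le_trans ?_ e1
      have e2 : ∑ m ∈ (Finset.Ico (G.io^[j] i) (G.io^[j] (i + 1))).filter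
          (fun m => ¬ G.GT η m (G.lam ^ j * r)),
            (θ ^ J * G.lm)⁻¹ * θ ^ l * G.re (G.ell (G.z m)) ≤
          ∑ m ∈ (Finset.Ico (G.io^[j] i) (G.io^[j] (i + 1))).filter
          (fun m => ¬ G.GT η m (G.lam ^ j * r)), G.WB η l m (G.lam ^ j * r) := by
        refine Finset.sum_le_sum fun m hm => ?_
        exact ih l (by omega) m _ (G.reg_lam_pow hC j hr) (Finset.mem_filter.1 hm).2
      refine le_trans ?_ e2
      rw [← Finset.mul_sum]
      have e3 : ∑ m ∈ (Finset.Ico (G.io^[j] i) (G.io^[j] (i + 1))).filter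
          (fun m => ¬ G.GT η m (G.lam ^ j * r)), G.re (G.ell (G.z m)) = G.WB η j i r := by
        unfold WB
        congr
      rw [e3, pow_add]
      calc (θ ^ J * G.lm)⁻¹ * (θ ^ j * θ ^ l) * G.re (G.ell (G.z i))
          = (θ ^ J * G.lm)⁻¹ * θ ^ l * (θ ^ j * G.re (G.ell (G.z i))) := by ring
        _ ≤ (θ ^ J * G.lm)⁻¹ * θ ^ l * G.WB η j i r :=
            mul_le_mul_of_nonneg_left hj (by positivity)

theorem gro {η C θ : ℝ} (h0 : 0 < η) (hη : η < 1) (hC : 0 ≤ C) (h1 : 1 ≤ θ)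
    (h2 : θ < G.L ^ η) : ∃ c : ℝ, 0 < c ∧ G.Gro η C θ c := by
  obtain ⟨J, _, hJ⟩ := G.exists_J h0 hη hC h1 h2
  have hθ : 0 < θ := lt_of_lt_of_le one_pos h1
  have hlm : 0 < G.lm := lt_of_lt_of_le one_pos G.one_le_lm
  have hc0 : 0 < (θ ^ J * G.lm)⁻¹ := by positivity
  refine ⟨(θ ^ J * G.lm)⁻¹ / G.lm, by positivity, fun k i r hr hb => ?_⟩
  have e1 := gro_aux G hC h1 hJ k i r hr hb
  have e2 := G.WB_le_NB η k i r
  have e3 : (θ ^ J * G.lm)⁻¹ * θ ^ k * 1 ≤ (θ ^ J * G.lm)⁻¹ * θ ^ k * G.re (G.ell (G.z i)) :=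
    mul_le_mul_of_nonneg_left (G.one_le _) (by positivity)
  rw [div_mul_eq_mul_div, div_le_iff₀ hlm]
  linarith

theorem gro_one (η C : ℝ) : G.Gro η C 1 1 := by
  intro k i r _ hb
  rw [one_pow, mul_one]
  exact_mod_cast G.NB_pos hb k

end H69.ED.Geo
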