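import Pool.Agent.H69.ED.Scale

/-!
# Hts: the conjugates of the positions

* `pos_int`: induction on `n` in both directions.
* `fin_set`: `NumberField.Embeddings.finite_of_norm_le` (every embedding is `idC`, whose norm is `|re x|`, or not).
* `lip`: `φ (pos m) - φ (pos n)` is a sum of `|m - n|` numbers `± φ (ell a)`; take for `C` the sum over the
  finitely many `φ` and `a` of `‖φ (ell a)‖` (`Fintype (K →+* ℂ)` is an instance).
* `rho`: the maximum of the finitely many `‖φ lam‖ < 1` over `Con φ` (or `0`).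
* `con_pos`: let `M = max (‖φ (pos (-1))‖)`-type constant and `D` a bound for
  `‖φ (pos (io m + j) - pos (io m))‖`, `0 ≤ j < |tau (z m)|` (`lip`, finitely many lengths). Claim
  `‖φ (pos n)‖ ≤ C0 := (D + E) / (1 - ρ)` with `E = ‖φ(pos 0)‖ + ‖φ (pos (-1))‖`-bound. Strong induction on `|n|`:
  every `n` is `io m + j` with `0 ≤ j < |tau (z m)|`; if `n ∉ {0, -1}` and `|m| < |n|` use
  `‖φ (pos n)‖ ≤ ρ ‖φ (pos m)‖ + D`. It may happen that `|m| = |n|` (images of length one): then use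
  instead `P`: for `k` large `n = io^[k] m + j` with `m ∈ {0, -1}` (since `L^k P 1 > |P n|` and `io^[k] 0 = 0`), and
  the chain `n = n_0, n_1, ..., n_k = m`, `n_i = io n_{i+1} + j_i` has `k` steps:
  `‖φ (pos n_i)‖ ≤ ρ ‖φ (pos n_{i+1})‖ + D`, so `‖φ (pos n)‖ ≤ ρ^k E + D / (1 - ρ)`.
-/

namespace H69.ED.Geo

variable {A K : Type} [Fintype A] [Field K] [NumberField K] (G : Geo A K)

theorem pos_int (n : ℤ) : IsIntegral ℤ (G.pos n) := by
  induction n using Int.induction_on with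
  | zero => rw [G.pos_zero]; exact isIntegral_zero
  | succ i ih => rw [G.pos_succ]; exact ih.add (G.ell_int _)
  | pred i ih =>
    have h := G.pos_succ (-(i : ℤ) - 1)
    rw [sub_add_cancel] at h
    have e : G.pos (-(i : ℤ) - 1) = G.pos (-(i : ℤ)) - G.ell (G.z (-(i : ℤ) - 1)) := by
      rw [h]; ring
    rw [e]
    exact ih.sub (G.ell_int _)

theorem norm_idC (x : K) : ‖G.idC x‖ = |G.re x| := by
  show ‖((G.re x : ℝ) : ℂ)‖ = |G.re x|
  rw [Complex.norm_real, Real.norm_eq_abs]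

theorem fin_set (B : ℝ) : {x : K | IsIntegral ℤ x ∧ |G.re x| ≤ B ∧
    ∀ φ : K →+* ℂ, φ ≠ G.idC → ‖φ x‖ ≤ B}.Finite := by
  refine (NumberField.Embeddings.finite_of_norm_le K ℂ B).subset ?_
  rintro x ⟨h1, h2, h3⟩
  refine ⟨h1, fun φ => ?_⟩
  by_cases h : φ = G.idC
  · rw [h, norm_idC]; exact h2
  · exact h3 φ h

theorem lip : ∃ C : ℝ, 1 ≤ C ∧ ∀ (φ : K →+* ℂ) (m n : ℤ),
    ‖φ (G.pos m) - φ (G.pos n)‖ ≤ C * |((m - n : ℤ) : ℝ)| := by
  classical
  let S : ℝ := ∑ φ : K →+* ℂ, ∑ a : A, ‖φ (G.ell a)‖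
  have hS : ∀ (φ : K →+* ℂ) (a : A), ‖φ (G.ell a)‖ ≤ 1 + S := by
    intro φ a
    have h1 : ‖φ (G.ell a)‖ ≤ ∑ a : A, ‖φ (G.ell a)‖ :=
      Finset.single_le_sum (f := fun a => ‖φ (G.ell a)‖) (fun _ _ => norm_nonneg _)
        (Finset.mem_univ a)
    have h2 : ∑ a : A, ‖φ (G.ell a)‖ ≤ S :=
      Finset.single_le_sum (f := fun φ : K →+* ℂ => ∑ a : A, ‖φ (G.ell a)‖)
        (fun _ _ => Finset.sum_nonneg fun _ _ => norm_nonneg _) (Finset.mem_univ φ)
    linarith
  have hS0 : 0 ≤ S := Finset.sum_nonneg fun _ _ => Finset.sum_nonneg fun _ _ => norm_nonneg _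
  refine ⟨1 + S, by linarith, ?_⟩
  have key : ∀ (φ : K →+* ℂ) (n : ℤ) (j : ℕ),
      ‖φ (G.pos (n + j)) - φ (G.pos n)‖ ≤ (1 + S) * j := by
    intro φ n j
    induction j with
    | zero => simp
    | succ j ih =>
      have e : n + ((j + 1 : ℕ) : ℤ) = (n + j) + 1 := by push_cast; ring
      rw [e, G.pos_succ, map_add]
      have h1 := hS φ (G.z (n + j))
      calc ‖φ (G.pos (n + j)) + φ (G.ell (G.z (n + j))) - φ (G.pos n)‖
          = ‖(φ (G.pos (n + j)) - φ (G.pos n)) + φ (G.ell (G.z (n + j)))‖ := by ring_nf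
        _ ≤ ‖φ (G.pos (n + j)) - φ (G.pos n)‖ + ‖φ (G.ell (G.z (n + j)))‖ := norm_add_le _ _
        _ ≤ (1 + S) * j + (1 + S) := add_le_add ih h1
        _ = (1 + S) * ((j + 1 : ℕ) : ℝ) := by push_cast; ring
  intro φ m n
  rcases le_total n m with h | h
  · obtain ⟨j, hj⟩ := Int.eq_ofNat_of_zero_le (sub_nonneg.2 h)
    have hm : m = n + j := by omega
    have h1 := key φ n j
    rw [← hm] at h1
    rw [hj]
    simpa using h1
  · obtain ⟨j, hj⟩ := Int.eq_ofNat_of_zero_le (sub_nonneg.2 h)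
    have hm : n = m + j := by omega
    have h1 := key φ m j
    rw [← hm] at h1
    have e : ((m - n : ℤ) : ℝ) = -(j : ℝ) := by
      have : m - n = -(j : ℤ) := by omega
      rw [this]; push_cast; ring
    rw [norm_sub_rev, e, abs_neg, Nat.abs_cast]
    exact h1

theorem rho : ∃ ρ : ℝ, 0 ≤ ρ ∧ ρ < 1 ∧ ∀ φ : K →+* ℂ, G.Con φ → ‖φ G.lam‖ ≤ ρ := by
  classical
  let f : (K →+* ℂ) → ℝ := fun φ => if ‖φ G.lam‖ < 1 then ‖φ G.lam‖ else 0
  obtain ⟨φ0, -, h⟩ := Finset.exists_max_image (Finset.univ : Finset (K →+* ℂ)) f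
    ⟨G.idC, Finset.mem_univ _⟩
  refine ⟨f φ0, ?_, ?_, fun φ hφ => ?_⟩
  · simp only [f]
    split_ifs
    · exact norm_nonneg _
    · exact le_rfl
  · simp only [f]
    split_ifs with h1
    · exact h1
    · exact one_pos
  · have h1 := h φ (Finset.mem_univ _)
    have h2 : f φ = ‖φ G.lam‖ := if_pos hφ
    rwa [h2] at h1

theorem con_pos : ∃ C : ℝ, 1 ≤ C ∧ ∀ φ : K →+* ℂ, G.Con φ → ∀ n : ℤ, ‖φ (G.pos n)‖ ≤ C := by
  classical
  obtain ⟨C, hC1, hC⟩ := G.lip
  obtain ⟨ρ, hρ0, hρ1, hρ⟩ := G.rho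
  let T : ℕ := ∑ a : A, (G.tau a).length
  have hT : ∀ a : A, (G.tau a).length ≤ T := fun a =>
    Finset.single_le_sum (f := fun a => (G.tau a).length) (fun _ _ => Nat.zero_le _)
      (Finset.mem_univ a)
  have hL0 : 0 < G.L := lt_trans one_pos G.L_gt_one
  set D : ℝ := C * T with hD
  have hD0 : 0 ≤ D := mul_nonneg (by linarith) (Nat.cast_nonneg _)
  have h1ρ : 0 < 1 - ρ := by linarith
  set C0 : ℝ := C + D / (1 - ρ) with hC0
  have hC0' : C ≤ C0 := by
    have : 0 ≤ D / (1 - ρ) := div_nonneg hD0 h1ρ.le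
    linarith
  have hstep : ρ * C0 + D ≤ C0 := by
    have h2 : D / (1 - ρ) * (1 - ρ) = D := div_mul_cancel₀ _ h1ρ.ne'
    rw [hC0]
    nlinarith
  have key : ∀ φ : K →+* ℂ, G.Con φ → ∀ (k : ℕ) (n : ℤ), G.io^[k] (-1) ≤ n → n < G.io^[k] 1 →
      ‖φ (G.pos n)‖ ≤ C0 := by
    intro φ hφ k
    induction k with
    | zero =>
      intro n h1 h2
      simp only [Function.iterate_zero, id_eq] at h1 h2
      have h3 := hC φ n 0
      rw [G.pos_zero, map_zero, sub_zero] at h3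
      have h4 : |((n - 0 : ℤ) : ℝ)| ≤ 1 := by
        have : n = -1 ∨ n = 0 := by omega
        rcases this with rfl | rfl <;> norm_num
      nlinarith
    | succ k ih =>
      intro n h1 h2
      rw [Function.iterate_succ_apply'] at h1 h2
      set m : ℤ := G.tl (G.P n / G.L) with hm
      obtain ⟨h3, h4⟩ := G.tl_spec (G.P n / G.L)
      rw [← hm] at h3 h4
      have hio1 : ∀ q : ℤ, G.P (G.io q) = G.L * G.P q := by
        intro q
        have := G.P_iter 1 q
        simpa using this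
      have h5 : G.io m ≤ n := by
        rw [← G.P_le_iff, hio1]
        rw [le_div_iff₀ hL0] at h3
        linarith
      have h6 : n < G.io (m + 1) := by
        rw [← G.P_lt_iff, hio1]
        rw [div_lt_iff₀ hL0] at h4
        linarith
      have h7 : G.io^[k] (-1) ≤ m := by
        by_contra hcon
        push Not at hcon
        have := G.io_strictMono.monotone (show m + 1 ≤ G.io^[k] (-1) by omega)
        omega
      have h8 : m < G.io^[k] 1 := by
        by_contra hcon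
        push Not at hcon
        have := G.io_strictMono.monotone hcon
        omega
      have h9 := ih m h7 h8
      have h10 := hC φ n (G.io m)
      have h11 : |((n - G.io m : ℤ) : ℝ)| ≤ T := by
        rw [G.io_succ] at h6
        have h12 := hT (G.z m)
        have h13 : n - G.io m ≤ T := by omega
        have h14 : 0 ≤ n - G.io m := by omega
        rw [abs_of_nonneg (by exact_mod_cast h14)]
        exact_mod_cast h13
      have h15 : ‖φ (G.pos (G.io m))‖ ≤ ρ * C0 := by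
        rw [G.pos_io, map_mul, norm_mul]
        exact mul_le_mul (hρ φ hφ) h9 (norm_nonneg _) hρ0
      calc ‖φ (G.pos n)‖ = ‖(φ (G.pos n) - φ (G.pos (G.io m))) + φ (G.pos (G.io m))‖ := by
            ring_nf
        _ ≤ ‖φ (G.pos n) - φ (G.pos (G.io m))‖ + ‖φ (G.pos (G.io m))‖ := norm_add_le _ _
        _ ≤ D + ρ * C0 := by
            refine add_le_add (h10.trans ?_) h15
            exact mul_le_mul_of_nonneg_left h11 (by linarith)
        _ ≤ C0 := by linarith
  refine ⟨C0, hC1.trans hC0', fun φ hφ n => ?_⟩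
  obtain ⟨k, hk⟩ := pow_unbounded_of_one_lt (|G.P n|) G.L_gt_one
  have hLk : 0 < G.L ^ k := pow_pos hL0 k
  refine key φ hφ k n ?_ ?_
  · rw [← G.P_le_iff, G.P_iter]
    have h1 := G.P_succ_ge (-1)
    norm_num at h1
    rw [G.P_zero] at h1
    have h2 := neg_abs_le (G.P n)
    nlinarith
  · rw [← G.P_lt_iff, G.P_iter]
    have h1 := G.P_succ_ge 0
    norm_num at h1
    rw [G.P_zero] at h1
    have h2 := le_abs_self (G.P n)
    nlinarith

/-- an embedding is the identical one, contracting or non-contracting -/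
theorem con_or_non {φ : K →+* ℂ} (h : φ ≠ G.idC) : G.Con φ ∨ G.Non φ := by
  rcases lt_or_ge ‖φ G.lam‖ 1 with h1 | h1
  · exact Or.inl h1
  · exact Or.inr ⟨h1, h⟩

theorem con_ne {φ : K →+* ℂ} (h : G.Con φ) : φ ≠ G.idC := by
  rintro rfl
  unfold Con at h
  rw [norm_idC] at h
  have h1 := G.one_lt
  have h2 := le_abs_self (G.re G.lam)
  linarith

theorem lam_ne_zero : G.lam ≠ 0 := by
  intro h
  have h1 := G.one_lt
  rw [h, map_zero] at h1
  linarith

theorem reg_lam {C : ℝ} (hC : 0 ≤ C) {r : K} (h : r ∈ G.Reg C) : G.lam * r ∈ G.Reg C := by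
  refine ⟨G.lam_int.mul h.1, fun φ hφ => ?_⟩
  rw [map_mul, norm_mul]
  have h1 := h.2 φ hφ
  have h2 : ‖φ G.lam‖ ≤ 1 := le_of_lt hφ
  calc ‖φ G.lam‖ * ‖φ r‖ ≤ 1 * C := mul_le_mul h2 h1 (norm_nonneg _) zero_le_one
    _ = C := one_mul C

theorem reg_lam_pow {C : ℝ} (hC : 0 ≤ C) (k : ℕ) {r : K} (h : r ∈ G.Reg C) :
    G.lam ^ k * r ∈ G.Reg C := by
  induction k with
  | zero => simpa using h
  | succ k ih =>
    rw [pow_succ', mul_assoc]
    exact G.reg_lam hC ih

end H69.ED.Geo
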