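import Pool.Agent.H69.ED.Path
import Pool.Agent.H69.ED.GoodB

/-!
# KapA: the windows of a cheap alignment

`U = word z (io^[m+k] p) _` is the image of order `m` of the tiles `q ∈ [a, e)`, `a = io^[k] p`, `e = io^[k] (p+l)`
(`io^[m+k] = io^[m] ∘ io^[k]`). Let `γ, cost` be the path (`path`) of the alignment of `U` with `V = word z b n`,
`Dd = D U V`, `α = io^[m] a`. For `q ∈ [a, e - l]` put `i_q = (io^[m] q - α).toNat`, `j_q = i_(q+l)`,
`w_q = cost j_q - cost i_q`. `bad` is the set of `q` with `w_q ≥ Q`. As `w_q = ∑_{q ≤ u < q+l} (cost i_(u+1) - cost i_u)`,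
every `u` occurs for at most `l` values of `q`: `∑_q w_q ≤ l cost n₀ ≤ l Dd`, so `card bad * Q ≤ l Dd`.
If `q ∉ bad`: the word `word z (α + i_q) (j_q - i_q)` is the image of order `m` of `z[q, q+l)`, and its distance to
`word z (γ i_q) _` is at most `w_q < Q`: `Kap` gives `r ∈ Reg C`, good on `[P q, P (q+l))`, with
`|P (γ i_q) - L^m (P q + re r)| ≤ κ L^m`. By `len_lip` and `path` for `(0, i_q)`:
`|(P (γ i_q) - P b) - (L^m P q - L^m P a)| ≤ lm cost i_q ≤ lm Dd ≤ κ L^m` (`P (io^[m] q) = L^m P q`). So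
`|L^m re r - (P b - L^m P a)| ≤ 2 κ L^m`.
-/

namespace H69.ED.Geo

open H95.Edit

variable {A K : Type} [Fintype A] [Field K] [NumberField K] (G : Geo A K)

omit [Fintype A] in
private theorem sum_shift_le (h : ℕ → ℝ) (M l : ℕ) (B : ℝ) (h0 : ∀ x, 0 ≤ h x)
    (hB : ∀ x, x < l → h (M + x) ≤ B) :
    ∑ s ∈ Finset.range M, (h (s + l) - h s) ≤ l * B := by
  have h1 := Finset.sum_range_add h l M
  have h2 := Finset.sum_range_add h M l
  rw [add_comm l M] at h1
  have h3 : ∑ s ∈ Finset.range M, h (s + l) = ∑ s ∈ Finset.range M, h (l + s) :=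
    Finset.sum_congr rfl fun s _ => by rw [add_comm]
  rw [Finset.sum_sub_distrib, h3]
  have h4 : ∑ x ∈ Finset.range l, h (M + x) ≤ ∑ _x ∈ Finset.range l, B :=
    Finset.sum_le_sum fun x hx => hB x (Finset.mem_range.1 hx)
  rw [Finset.sum_const, Finset.card_range, nsmul_eq_mul] at h4
  have h5 : 0 ≤ ∑ x ∈ Finset.range l, h x := Finset.sum_nonneg fun x _ => h0 x
  linarith

theorem kap_windows {η C κ Q : ℝ} {l m : ℕ} (hl : 1 ≤ l) (hQ : 0 < Q)
    (hK : G.Kap η C κ l m Q) (k : ℕ) (p b : ℤ) (n : ℕ)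
    (hD : G.lm * D (word G.z (G.io^[m + k] p) (G.io^[m + k] (p + l) - G.io^[m + k] p).toNat)
      (word G.z b n) ≤ κ * G.L ^ m) :
    ∃ bad : Finset ℤ, (bad.card : ℝ) * Q ≤
      l * D (word G.z (G.io^[m + k] p) (G.io^[m + k] (p + l) - G.io^[m + k] p).toNat)
        (word G.z b n) ∧
      ∀ q, G.io^[k] p ≤ q → q + l ≤ G.io^[k] (p + l) → q ∉ bad →
        ∃ r ∈ G.Reg C, G.Good η (G.P q) (G.P (q + l)) r ∧
          |G.re r - (G.P b - G.L ^ m * G.P (G.io^[k] p)) / G.L ^ m| ≤ 2 * κ := by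
  classical
  have hL : 0 < G.L ^ m := pow_pos (lt_trans one_pos G.L_gt_one) m
  rw [Function.iterate_add_apply, Function.iterate_add_apply] at hD ⊢
  set a := G.io^[k] p with ha
  set e := G.io^[k] (p + l) with he
  have hae : a ≤ e := (G.iter_strictMono k).monotone (by omega)
  have hmono := (G.iter_strictMono m).monotone
  obtain ⟨n₀, hn₀⟩ := Int.eq_ofNat_of_zero_le (sub_nonneg.2 (hmono hae))
  rw [hn₀] at hD ⊢
  rw [Int.toNat_natCast] at hD ⊢
  set α := G.io^[m] a with hα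
  obtain ⟨γ, cost, hγ0, hγ, hc0, hc, hcn, hpath⟩ := path G.z α b n₀ n
  set Dd : ℕ := D (word G.z α n₀) (word G.z b n) with hDd
  -- indices
  let I : ℤ → ℕ := fun q => (G.io^[m] q - α).toNat
  have hI : ∀ q, a ≤ q → ((I q : ℕ) : ℤ) = G.io^[m] q - α := fun q hq =>
    Int.toNat_of_nonneg (sub_nonneg.2 (hmono hq))
  have hIm : ∀ q q', q ≤ q' → I q ≤ I q' := fun q q' h =>
    Int.toNat_le_toNat (by have := hmono h; omega)
  have hIe : ∀ q, a ≤ q → q ≤ e → I q ≤ n₀ := by
    intro q h1 h2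
    have h3 := hI q h1
    have h4 := hmono h2
    omega
  let bad : Finset ℤ := (Finset.Icc a (e - l)).filter fun q =>
    Q ≤ (cost (I (q + l)) : ℝ) - cost (I q)
  refine ⟨bad, ?_, ?_⟩
  · have hnn : ∀ q, 0 ≤ (cost (I (q + l)) : ℝ) - cost (I q) := fun q => by
      have h1 : (cost (I q) : ℝ) ≤ cost (I (q + l)) := by
        exact_mod_cast hc (hIm q (q + l) (by omega))
      linarith
    have h1 : (bad.card : ℝ) * Q ≤ ∑ q ∈ bad, ((cost (I (q + l)) : ℝ) - cost (I q)) := by
      rw [← nsmul_eq_mul]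
      exact Finset.card_nsmul_le_sum _ _ _ fun q hq => (Finset.mem_filter.1 hq).2
    have h2 : ∑ q ∈ bad, ((cost (I (q + l)) : ℝ) - cost (I q)) ≤
        ∑ q ∈ Finset.Icc a (e - l), ((cost (I (q + l)) : ℝ) - cost (I q)) :=
      Finset.sum_le_sum_of_subset_of_nonneg (Finset.filter_subset _ _) fun q _ _ => hnn q
    have h3 : ∑ q ∈ Finset.Icc a (e - l), ((cost (I (q + l)) : ℝ) - cost (I q)) ≤ l * (Dd : ℝ) := by
      set M : ℕ := (e - l - a + 1).toNat with hM
      have h4 : Finset.Icc a (e - l) = (Finset.range M).image fun s : ℕ => a + s := by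
        ext q
        simp only [Finset.mem_Icc, Finset.mem_image, Finset.mem_range]
        constructor
        · rintro ⟨h5, h6⟩
          refine ⟨(q - a).toNat, by omega, by omega⟩
        · rintro ⟨s, hs, rfl⟩
          constructor <;> omega
      rw [h4, Finset.sum_image (fun s _ s' _ h => by
        have : a + (s : ℤ) = a + (s' : ℤ) := h
        omega)]
      have h5 : ∀ s : ℕ, a + (s : ℤ) + l = a + ((s + l : ℕ) : ℤ) := fun s => by push_cast; ring
      have h6 : ∑ s ∈ Finset.range M, ((cost (I (a + (s : ℤ) + l)) : ℝ) - cost (I (a + (s : ℤ)))) =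
          ∑ s ∈ Finset.range M, ((fun s : ℕ => (cost (I (a + (s : ℤ))) : ℝ)) (s + l) -
            (fun s : ℕ => (cost (I (a + (s : ℤ))) : ℝ)) s) :=
        Finset.sum_congr rfl fun s _ => by simp only [h5]
      rw [h6]
      rcases Nat.eq_zero_or_pos M with hM0 | hMpos
      · rw [hM0, Finset.range_zero, Finset.sum_empty]
        positivity
      · refine sum_shift_le (fun s : ℕ => (cost (I (a + (s : ℤ))) : ℝ)) M l (Dd : ℝ)
          (fun x => Nat.cast_nonneg _) fun x hx => ?_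
        have h7 : cost (I (a + ((M + x : ℕ) : ℤ))) ≤ Dd := by
          refine le_trans (hc ?_) hcn
          exact hIe _ (by omega) (by push_cast; omega)
        exact_mod_cast h7
    linarith
  · intro q hq1 hq2 hqb
    have hw : (cost (I (q + l)) : ℝ) - cost (I q) < Q := by
      by_contra hcon
      push Not at hcon
      exact hqb (Finset.mem_filter.2 ⟨Finset.mem_Icc.2 ⟨hq1, by omega⟩, hcon⟩)
    have hIl : I q ≤ I (q + l) := hIm q (q + l) (by omega)
    have hIn : I (q + l) ≤ n₀ := hIe _ (by omega) hq2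
    have h1 := hpath (I q) (I (q + l)) hIl hIn
    have e1 : α + ((I q : ℕ) : ℤ) = G.io^[m] q := by rw [hI q hq1]; ring
    have e2 : I (q + l) - I q = (G.io^[m] (q + l) - G.io^[m] q).toNat := by
      have h2 := hI q hq1
      have h3 := hI (q + l) (by omega)
      omega
    rw [e1, e2] at h1
    have h2 : (D (word G.z (G.io^[m] q) (G.io^[m] (q + l) - G.io^[m] q).toNat)
        (word G.z (γ (I q)) (γ (I (q + l)) - γ (I q)).toNat) : ℝ) < Q := by
      refine lt_of_le_of_lt ?_ hw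
      have h3 : cost (I q) ≤ cost (I (q + l)) := hc hIl
      have h4 := (Nat.cast_le (α := ℝ)).2 h1
      rw [Nat.cast_sub h3] at h4
      exact h4
    obtain ⟨r, hr, hgood, hr2⟩ := hK q (γ (I q)) _ h2
    refine ⟨r, hr, hgood, ?_⟩
    have h5 := hpath 0 (I q) (Nat.zero_le _) (hIl.trans hIn)
    rw [hγ0, hc0, Nat.sub_zero, Nat.sub_zero, Nat.cast_zero, add_zero] at h5
    have h6 := G.len_lip α b (I q) (γ (I q) - b).toNat
    have h7 : b ≤ γ (I q) := by rw [← hγ0]; exact hγ (Nat.zero_le _)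
    have e3 : b + (((γ (I q) - b).toNat : ℕ) : ℤ) = γ (I q) := by omega
    rw [e1, e3, hα, G.P_iter, G.P_iter] at h6
    have hlm : 0 ≤ G.lm := le_trans zero_le_one G.one_le_lm
    have h8 : G.lm * (D (word G.z (G.io^[m] a) (I q)) (word G.z b (γ (I q) - b).toNat) : ℝ) ≤
        κ * G.L ^ m := by
      refine le_trans (mul_le_mul_of_nonneg_left ?_ hlm) hD
      have h9 : D (word G.z α (I q)) (word G.z b (γ (I q) - b).toNat) ≤ Dd :=
        h5.trans ((hc (hIl.trans hIn)).trans hcn)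
      exact_mod_cast h9
    have h9 := h6.trans h8
    have h10 : G.re r - (G.P b - G.L ^ m * G.P a) / G.L ^ m =
        (-(G.P (γ (I q)) - G.L ^ m * (G.P q + G.re r)) -
          (G.L ^ m * G.P q - G.L ^ m * G.P a - (G.P (γ (I q)) - G.P b))) / G.L ^ m := by
      field_simp
      ring
    rw [h10, abs_div, abs_of_pos hL, div_le_iff₀ hL]
    have h11 := abs_sub (-(G.P (γ (I q)) - G.L ^ m * (G.P q + G.re r)))
      (G.L ^ m * G.P q - G.L ^ m * G.P a - (G.P (γ (I q)) - G.P b))
    rw [abs_neg] at h11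
    linarith

end H69.ED.Geo
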