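import Pool.Agent.H69.ED.PicB

/-!
# KapB: close windows with close shifts have the same shift

`same_shift`: `B` from `reg_offset` (`P (q+l) ≥ P q + 1`). With `o = pos q + r - v (P q + re r)` and `o'` for `q'`, `r'`:
`r - r' = (o - o') - (pos q - pos q') + (v (P q + re r) - v (P q' + re r'))`, where the two tiles in the last difference have
indices which differ by less than `|P q - P q'| + |re r - re r'| + 1 ≤ lm g + 2` (`abs_tl_sub_lt`, `P_sub_le`). So by `lip`
all conjugates `≠ idC` of `r - r'` are bounded by some `B_g`; the set of integral `x` with `|re x| ≤ 1` and these bounds is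
finite (`fin_set`); let `κ1 ≤ 1` be smaller than all `|re x|`, `x ≠ 0` in this set.

`one_shift`: let `q_1 < q_2 < ...` be the elements of `[a, e-l]` outside `bad` (there is at least one). Consecutive ones differ by
at most `card bad + 1 ≤ g`, so all have the same shift `r` (`same_shift`; `|re r - re r'| ≤ 2 κ ≤ κ1`). A tile
`u ∈ [a, e)` which is not good for `r` lies in no window `[q, q+l)` with `q ∉ bad` (`good_tiles`); it lies in some window,
so it lies in a window with `q ∈ bad`: at most `l * card bad` such `u`.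
-/

namespace H69.ED.Geo

variable {A K : Type} [Fintype A] [Field K] [NumberField K] (G : Geo A K)

theorem kapb_small (S : Set K) (hS : S.Finite) :
    ∃ κ : ℝ, 0 < κ ∧ κ ≤ 1 ∧ ∀ x ∈ S, x ≠ 0 → κ < |G.re x| := by
  induction S, hS using Set.Finite.induction_on with
  | empty => exact ⟨1, one_pos, le_refl _, by simp⟩
  | @insert a S ha hS ih =>
    obtain ⟨κ, h0, h1, h2⟩ := ih
    by_cases hz : a = 0
    · refine ⟨κ, h0, h1, ?_⟩
      intro x hx hx0
      rcases Set.mem_insert_iff.1 hx with h | h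
      · exact absurd (h.trans hz) hx0
      · exact h2 x h hx0
    · have hpos : 0 < |G.re a| := by
        rw [abs_pos]
        intro h
        exact hz (G.re_injective (by rw [h, map_zero]))
      refine ⟨min κ (|G.re a| / 2), lt_min h0 (by linarith), (min_le_left _ _).trans h1, ?_⟩
      intro x hx hx0
      rcases Set.mem_insert_iff.1 hx with h | h
      · rw [h]
        exact lt_of_le_of_lt (min_le_right _ _) (by linarith)
      · exact lt_of_le_of_lt (min_le_left _ _) (h2 x h hx0)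

theorem kapb_P_abs (q q' : ℤ) : |G.P q - G.P q'| ≤ G.lm * |((q - q' : ℤ) : ℝ)| := by
  rcases le_total q q' with h | h
  · have h1 := G.P_sub_le h
    have h2 := (G.P_le_iff q q').2 h
    have h3 : |((q - q' : ℤ) : ℝ)| = ((q' - q : ℤ) : ℝ) := by
      rw [abs_of_nonpos (by exact_mod_cast sub_nonpos.2 h)]
      push_cast
      ring
    rw [abs_of_nonpos (by linarith), h3]
    linarith
  · have h1 := G.P_sub_le h
    have h2 := (G.P_le_iff q' q).2 h
    have h3 : |((q - q' : ℤ) : ℝ)| = ((q - q' : ℤ) : ℝ) :=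
      abs_of_nonneg (by exact_mod_cast sub_nonneg.2 h)
    rw [abs_of_nonneg (by linarith), h3]
    linarith

theorem kapb_unit {η : ℝ} {l : ℕ} (hl : 1 ≤ l) {q : ℤ} {r : K}
    (h : G.Good η (G.P q) (G.P (q + l)) r) : G.Good η (G.P q) (G.P q + 1) r := by
  refine G.good_mono (le_refl _) ?_ h
  have h1 := G.P_succ_ge q
  have h2 : G.P (q + 1) ≤ G.P (q + l) := (G.P_le_iff _ _).2 (by
    have : (1 : ℤ) ≤ l := by exact_mod_cast hl
    linarith)
  linarith

theorem same_shift {η : ℝ} (hη : η < 1) (C : ℝ) {l : ℕ} (hl : 1 ≤ l) (g : ℕ) :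
    ∃ κ1 : ℝ, 0 < κ1 ∧ ∀ (q q' : ℤ) (r r' : K), r ∈ G.Reg C → r' ∈ G.Reg C →
      G.Good η (G.P q) (G.P (q + l)) r → G.Good η (G.P q') (G.P (q' + l)) r' →
      |q - q'| ≤ g → |G.re r - G.re r'| ≤ κ1 → r = r' := by
  obtain ⟨B, hB1, hB⟩ := G.reg_offset hη C
  obtain ⟨Cl, hCl1, hlip⟩ := G.lip
  obtain ⟨κ, h0, h1, h2⟩ := G.kapb_small _
    (G.fin_set (2 * B + Cl * g + Cl * (G.lm * g + 2)))
  refine ⟨κ, h0, ?_⟩
  intro q q' r r' hr hr' hg hg' hqq hrr
  by_contra hne
  have hqq' : |((q - q' : ℤ) : ℝ)| ≤ g := by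
    have : ((|q - q'| : ℤ) : ℝ) ≤ ((g : ℤ) : ℝ) := by exact_mod_cast hqq
    simpa using this
  have hmem : r - r' ∈ {x : K | IsIntegral ℤ x ∧ |G.re x| ≤
      (2 * B + Cl * g + Cl * (G.lm * g + 2)) ∧
      ∀ φ : K →+* ℂ, φ ≠ G.idC → ‖φ x‖ ≤ (2 * B + Cl * g + Cl * (G.lm * g + 2))} := by
    refine ⟨hr.1.sub hr'.1, ?_, ?_⟩
    · rw [map_sub]
      have hlm := G.one_le_lm
      have hgn : (0 : ℝ) ≤ g := Nat.cast_nonneg g
      have e1 : 0 ≤ Cl * g := by positivity
      have e2 : 0 ≤ Cl * (G.lm * g + 2) := by positivity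
      linarith
    · intro φ hφ
      have a1 := hB q r hr (G.kapb_unit hl hg) φ hφ
      have a2 := hB q' r' hr' (G.kapb_unit hl hg') φ hφ
      have a3 := hlip φ q q'
      have a4 := hlip φ (G.tl (G.P q + G.re r)) (G.tl (G.P q' + G.re r'))
      have a5 := G.abs_tl_sub_lt (G.P q' + G.re r') (G.P q + G.re r)
      have a6 := G.kapb_P_abs q q'
      have hlm := G.one_le_lm
      have a7 : |G.P q + G.re r - (G.P q' + G.re r')| ≤ G.lm * g + 1 := by
        have e1 : G.P q + G.re r - (G.P q' + G.re r') =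
            (G.P q - G.P q') + (G.re r - G.re r') := by ring
        rw [e1]
        refine (abs_add_le _ _).trans ?_
        have : G.lm * |((q - q' : ℤ) : ℝ)| ≤ G.lm * g :=
          mul_le_mul_of_nonneg_left hqq' (by linarith)
        linarith
      have a8 : |((G.tl (G.P q + G.re r) - G.tl (G.P q' + G.re r') : ℤ) : ℝ)| ≤
          G.lm * g + 2 := by linarith
      have e : φ (r - r') = (φ (G.pos q + r - G.v (G.P q + G.re r)) -
          φ (G.pos q' + r' - G.v (G.P q' + G.re r'))) - (φ (G.pos q) - φ (G.pos q')) +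
          (φ (G.pos (G.tl (G.P q + G.re r))) - φ (G.pos (G.tl (G.P q' + G.re r')))) := by
        simp only [map_sub, map_add, v]
        ring
      rw [e]
      have b1 : Cl * |((q - q' : ℤ) : ℝ)| ≤ Cl * g :=
        mul_le_mul_of_nonneg_left hqq' (by linarith)
      have b2 : Cl * |((G.tl (G.P q + G.re r) - G.tl (G.P q' + G.re r') : ℤ) : ℝ)| ≤
          Cl * (G.lm * g + 2) := mul_le_mul_of_nonneg_left a8 (by linarith)
      refine (norm_add_le _ _).trans ?_
      refine (add_le_add_left (norm_sub_le _ _) _).trans ?_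
      refine (add_le_add_left (add_le_add_left (norm_sub_le _ _) _) _).trans ?_
      linarith
  have := h2 _ hmem (sub_ne_zero.2 hne)
  rw [map_sub] at this
  linarith

/-- an integer interval with more elements than `bad` has an element outside `bad` -/
theorem kapb_pick (bad : Finset ℤ) {x y : ℤ} (h : (bad.card : ℤ) < y - x) :
    ∃ q, x ≤ q ∧ q < y ∧ q ∉ bad := by
  by_contra hcon
  push Not at hcon
  have hsub : Finset.Ico x y ⊆ bad := by
    intro q hq
    rw [Finset.mem_Ico] at hq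
    exact hcon q hq.1 hq.2
  have h1 := Finset.card_le_card hsub
  rw [Int.card_Ico] at h1
  omega

open Classical in
theorem one_shift {η : ℝ} (hη : η < 1) (C : ℝ) {l : ℕ} (hl : 1 ≤ l) (g : ℕ) :
    ∃ κ1 : ℝ, 0 < κ1 ∧ ∀ (a e : ℤ) (X κ : ℝ) (bad : Finset ℤ), 2 * κ ≤ κ1 →
      (bad.card : ℤ) < e - a - l + 1 → bad.card + 1 ≤ g →
      (∀ q, a ≤ q → q + l ≤ e → q ∉ bad → ∃ r ∈ G.Reg C, G.Good η (G.P q) (G.P (q + l)) r ∧
        |G.re r - X| ≤ κ) →
      ∃ r ∈ G.Reg C, |G.re r - X| ≤ κ ∧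
        ((Finset.Ico a e).filter (fun u => ¬ G.GT η u r)).card ≤ l * bad.card := by
  obtain ⟨κ1, hκ1, hsame⟩ := G.same_shift hη C hl g
  refine ⟨κ1, hκ1, ?_⟩
  intro a e X κ bad h2κ hcard hgc hq
  -- the connection step
  have key : ∀ n : ℕ, ∀ (q1 q2 : ℤ) (r1 r2 : K), a ≤ q1 → q1 ≤ q2 → q2 + l ≤ e →
      q1 ∉ bad → q2 ∉ bad → q2 - q1 ≤ n →
      (r1 ∈ G.Reg C ∧ G.Good η (G.P q1) (G.P (q1 + l)) r1 ∧ |G.re r1 - X| ≤ κ) →
      (r2 ∈ G.Reg C ∧ G.Good η (G.P q2) (G.P (q2 + l)) r2 ∧ |G.re r2 - X| ≤ κ) →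
      r1 = r2 := by
    intro n
    induction n using Nat.strong_induction_on with
    | _ n ih =>
      intro q1 q2 r1 r2 ha h12 he hb1 hb2 hn hr1 hr2
      by_cases hsmall : q2 - q1 ≤ g
      · refine hsame q1 q2 r1 r2 hr1.1 hr2.1 hr1.2.1 hr2.2.1 ?_ ?_
        · rw [abs_sub_comm, abs_of_nonneg (by linarith)]
          exact hsmall
        · have e1 : G.re r1 - G.re r2 = (G.re r1 - X) - (G.re r2 - X) := by ring
          rw [e1]
          refine (abs_sub _ _).trans ?_
          linarith [hr1.2.2, hr2.2.2]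
      · push Not at hsmall
        obtain ⟨q, hq1, hq2, hqb⟩ := kapb_pick bad (x := q1 + 1) (y := q2) (by omega)
        obtain ⟨r, hr⟩ := hq q (by linarith) (by linarith) hqb
        have hr' : r ∈ G.Reg C ∧ G.Good η (G.P q) (G.P (q + l)) r ∧ |G.re r - X| ≤ κ := hr
        have s1 : r1 = r := ih (q - q1).toNat (by omega) q1 q r1 r ha (by linarith)
          (by linarith) hb1 hqb (by omega) hr1 hr'
        have s2 : r = r2 := ih (q2 - q).toNat (by omega) q q2 r r2 (by linarith) (by linarith)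
          he hqb hb2 (by omega) hr' hr2
        exact s1.trans s2
  have key2 : ∀ (q1 q2 : ℤ) (r1 r2 : K), a ≤ q1 → a ≤ q2 → q1 + l ≤ e → q2 + l ≤ e →
      q1 ∉ bad → q2 ∉ bad →
      (r1 ∈ G.Reg C ∧ G.Good η (G.P q1) (G.P (q1 + l)) r1 ∧ |G.re r1 - X| ≤ κ) →
      (r2 ∈ G.Reg C ∧ G.Good η (G.P q2) (G.P (q2 + l)) r2 ∧ |G.re r2 - X| ≤ κ) →
      r1 = r2 := by
    intro q1 q2 r1 r2 h1 h2 h3 h4 h5 h6 h7 h8
    rcases le_total q1 q2 with h | h
    · exact key (q2 - q1).toNat q1 q2 r1 r2 h1 h h4 h5 h6 (by omega) h7 h8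
    · exact (key (q1 - q2).toNat q2 q1 r2 r1 h2 h h3 h6 h5 (by omega) h8 h7).symm
  obtain ⟨q0, hq0a, hq0e, hq0b⟩ := kapb_pick bad (x := a) (y := e - l + 1) (by linarith)
  obtain ⟨r, hrC, hrG, hrX⟩ := hq q0 hq0a (by linarith) hq0b
  refine ⟨r, hrC, hrX, ?_⟩
  have hl' : (1 : ℤ) ≤ l := by exact_mod_cast hl
  have hsub : (Finset.Ico a e).filter (fun u => ¬ G.GT η u r) ⊆
      bad.biUnion (fun q => Finset.Ico q (q + l)) := by
    intro u hu
    rw [Finset.mem_filter, Finset.mem_Ico] at hu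
    obtain ⟨⟨hu1, hu2⟩, hu3⟩ := hu
    rw [Finset.mem_biUnion]
    refine ⟨max a (u - l + 1), ?_, ?_⟩
    · by_contra hnb
      have c1 : a ≤ max a (u - l + 1) := le_max_left _ _
      have c2 : max a (u - l + 1) + l ≤ e := by
        rcases max_cases a (u - l + 1) with ⟨h, _⟩ | ⟨h, _⟩ <;> rw [h]
        · have := Int.natCast_nonneg bad.card
          linarith
        · linarith
      obtain ⟨r', hr'C, hr'G, hr'X⟩ := hq _ c1 c2 hnb
      have : r = r' := key2 q0 _ r r' hq0a c1 (by linarith) c2 hq0b hnb ⟨hrC, hrG, hrX⟩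
        ⟨hr'C, hr'G, hr'X⟩
      subst this
      refine hu3 ((G.good_tiles (by linarith)).1 hr'G u ?_ ?_)
      · exact max_le hu1 (by linarith)
      · have := le_max_right a (u - l + 1)
        linarith
    · rw [Finset.mem_Ico]
      refine ⟨max_le hu1 (by linarith), ?_⟩
      have := le_max_right a (u - l + 1)
      linarith
  refine (Finset.card_le_card hsub).trans ?_
  refine (Finset.card_biUnion_le).trans ?_
  have : ∑ q ∈ bad, (Finset.Ico q (q + (l : ℤ))).card = ∑ q ∈ bad, l := by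
    refine Finset.sum_congr rfl ?_
    intro q _
    rw [Int.card_Ico]
    simp
  rw [this, Finset.sum_const, smul_eq_mul, mul_comm]

end H69.ED.Geo
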