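import Pool.Agent.H69.ED.GroA
import Pool.Agent.H69.ED.Hts

/-!
# KapC: climbing the levels

`c' = min c (c / (4 lm L))`-type constant, independent of `k`. Let `r ∈ Reg C`, fewer than `c' θ^k` bad tiles in
`[io^[k] p, io^[k] (p+l))`. For `v ≤ k` let `r_v = r / lam^v`. Claim: `r_v ∈ Reg C`. `v = 0`: hypothesis. Step `v → v+1 ≤ k`:
let `w = k - v - 1`, `[a, e) = [io^[w] p, io^[w] (p+l))`; `e - a ≥ l` and `≥ L^w l / lm` (`iter_sub_ge`). It contains
`⌊(e-a)/l⌋ ≥ L^w / (2 lm)` disjoint groups `[q, q+l)`. Suppose `Good η (P q) (P (q+l)) r_{v+1}` for none of them. By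
`good_scale` `Good η (L P q) (L P (q+l)) r_v` fails, `L P q = P (io q)`, so (`good_tiles`) there is a bad tile for `r_v` in
`[io q, io (q+l))`, and (`Gro`) it has at least `c θ^v` bad descendants of level `v` for the shift `lam^v r_v = r`; they lie in
`[io^[v+1] q, io^[v+1] (q+l)) ⊆ [io^[k] p, io^[k] (p+l))`, disjoint for the different groups. Total
`≥ L^w / (2 lm) · c θ^v ≥ c θ^(k-1) / (2 lm) ≥ c' θ^k` (`θ ≤ L`, `w + v = k - 1`): contradiction. So
`Good η (P q) (P (q+l)) r_{v+1}` for some `q`, `lam r_{v+1} = r_v ∈ Reg C`, and `Rec` gives `r_{v+1} ∈ Reg C`.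
Finally `r₁ = r_k`: if `[P p, P (p+l))` were not good for `r₁`, a tile `i ∈ [p, p+l)` is bad and has `≥ c θ^k` bad descendants
for `lam^k r₁ = r`: contradiction.
-/

namespace H69.ED.Geo

variable {A K : Type} [Fintype A] [Field K] [NumberField K] (G : Geo A K)

/-- from a group which is not good upstairs to a bad tile downstairs -/
private theorem KapC_bad_child {η : ℝ} {l : ℕ} {q : ℤ} {r : K}
    (h : ¬ G.Good η (G.P q) (G.P (q + l)) r) :
    ∃ m, G.io q ≤ m ∧ m < G.io (q + l) ∧ ¬ G.GT η m (G.lam * r) := by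
  rw [← G.good_scale] at h
  have h1 : ∀ n : ℤ, G.L * G.P n = G.P (G.io n) := by
    intro n
    have := G.P_iter 1 n
    rw [pow_one, Function.iterate_one] at this
    exact this.symm
  rw [h1, h1, G.good_tiles (G.io_strictMono.monotone (by omega))] at h
  push Not at h
  exact h

private theorem KapC_sub {f : ℤ → ℤ} (hf : StrictMono f) {m n : ℤ} (h : m ≤ n) :
    n - m ≤ f n - f m := by
  induction n, h using Int.le_induction with
  | base => simp
  | succ n _ ih =>
    have : f n < f (n + 1) := hf (by omega)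
    omega

open Classical in
private theorem KapC_groups {η : ℝ} {l : ℕ} (g : ℕ) {a e : ℤ} (hae : a + g * l ≤ e) {r : K}
    (h : ∀ q, a ≤ q → q + l ≤ e → ¬ G.Good η (G.P q) (G.P (q + l)) r) :
    g ≤ ((Finset.Ico (G.io a) (G.io e)).filter
      (fun m => ¬ G.GT η m (G.lam * r))).card := by
  have hq : ∀ i : Fin g, ∃ m, G.io (a + i * l) ≤ m ∧ m < G.io (a + i * l + l) ∧
      ¬ G.GT η m (G.lam * r) := by
    intro i
    refine G.KapC_bad_child (h _ ?_ ?_)
    · have : (0 : ℤ) ≤ (i : ℕ) * (l : ℤ) := by positivity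
      omega
    · have h1 : ((i : ℕ) : ℤ) + 1 ≤ g := by exact_mod_cast i.2
      nlinarith [mul_le_mul_of_nonneg_right h1 (Int.natCast_nonneg l)]
  choose m hm1 hm2 hm3 using hq
  have hmono := G.io_strictMono.monotone
  have hlt : ∀ i j : Fin g, i < j → m i < m j := by
    intro i j hij
    refine (hm2 i).trans_le ((hmono ?_).trans (hm1 j))
    have h1 : ((i : ℕ) : ℤ) + 1 ≤ ((j : ℕ) : ℤ) := by exact_mod_cast hij
    nlinarith [mul_le_mul_of_nonneg_right h1 (Int.natCast_nonneg l)]
  have hinj : Function.Injective m := by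
    intro i j hij
    rcases lt_trichotomy i j with h | h | h
    · exact absurd hij (hlt i j h).ne
    · exact h
    · exact absurd hij (hlt j i h).ne'
  calc g = (Finset.univ : Finset (Fin g)).card := by simp
    _ ≤ _ := by
      refine Finset.card_le_card_of_injOn m ?_ hinj.injOn
      intro i _
      simp only [Finset.coe_filter, Finset.mem_Ico, Set.mem_ofPred_eq]
      refine ⟨⟨(hmono ?_).trans (hm1 i), (hm2 i).trans_le (hmono ?_)⟩, hm3 i⟩
      · have : (0 : ℤ) ≤ (i : ℕ) * (l : ℤ) := by positivity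
        omega
      · have h1 : ((i : ℕ) : ℤ) + 1 ≤ g := by exact_mod_cast i.2
        nlinarith [mul_le_mul_of_nonneg_right h1 (Int.natCast_nonneg l)]

open Classical in
theorem climb {η C θ c : ℝ} (hC : 0 ≤ C) {l : ℕ} (hl : 1 ≤ l) (hrec : G.Rec η C l)
    (hc : 0 < c) (h1 : 1 ≤ θ) (h2 : θ ≤ G.L) (hg : G.Gro η C θ c) :
    ∃ c' : ℝ, 0 < c' ∧ ∀ (k : ℕ) (p : ℤ) (r : K), r ∈ G.Reg C →
      ((((Finset.Ico (G.io^[k] p) (G.io^[k] (p + l))).filter
        (fun u => ¬ G.GT η u r)).card : ℕ) : ℝ) < c' * θ ^ k →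
      ∃ r₁ ∈ G.Reg C, G.lam ^ k * r₁ = r ∧ G.Good η (G.P p) (G.P (p + l)) r₁ := by
  have hL : 1 < G.L := G.L_gt_one
  have hL0 : 0 < G.L := by linarith
  have hlm : 1 ≤ G.lm := G.one_le_lm
  have hlam : G.lam ≠ 0 := G.lam_ne_zero
  have hθ0 : 0 < θ := by linarith
  refine ⟨c / (2 * G.lm * G.L), by positivity, ?_⟩
  intro k p r hr hcard
  set c' := c / (2 * G.lm * G.L) with hc'
  have hc'c : c' ≤ c := by
    rw [hc']
    refine div_le_self hc.le ?_
    nlinarith
  -- the shifts `r / lam ^ v`
  have hmul : ∀ v w : ℕ, G.lam ^ v * (r / G.lam ^ (v + w)) = r / G.lam ^ w := by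
    intro v w
    field_simp
    ring
  have hreg : ∀ v, v ≤ k → r / G.lam ^ v ∈ G.Reg C := by
    intro v
    induction v with
    | zero => intro _; simpa using hr
    | succ v ih =>
      intro hv
      have hv' := ih (by omega)
      obtain ⟨w, hw⟩ : ∃ w, k = v + (w + 1) := ⟨k - v - 1, by omega⟩
      have hlv : G.lam * (r / G.lam ^ (v + 1)) = r / G.lam ^ v := by
        have := hmul 1 v
        rwa [pow_one, add_comm 1 v] at this
      by_contra hnot
      have hno : ∀ q, G.io^[w] p ≤ q → q + l ≤ G.io^[w] (p + l) →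
          ¬ G.Good η (G.P q) (G.P (q + l)) (r / G.lam ^ (v + 1)) := by
        intro q _ _ hgood
        exact hnot (hrec _ q (by rw [hlv]; exact hv') hgood)
      set a := G.io^[w] p with ha
      set e := G.io^[w] (p + l) with he
      have hae : (l : ℤ) ≤ e - a := by
        have := KapC_sub (G.iter_strictMono w) (show p ≤ p + l by omega)
        omega
      have hl0 : (0 : ℤ) < l := by exact_mod_cast hl
      set g := ((e - a) / l).toNat with hgdef
      have hg0 : 1 ≤ (e - a) / l := by
        rw [Int.le_ediv_iff_mul_le hl0]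
        omega
      have hgz : ((g : ℕ) : ℤ) = (e - a) / l := Int.toNat_of_nonneg (by omega)
      have hgl : (g : ℤ) * l ≤ e - a := by
        rw [hgz]
        exact Int.ediv_mul_le _ (by omega)
      have hgl' : e - a < ((g : ℤ) + 1) * l := by
        rw [hgz]
        exact Int.lt_ediv_add_one_mul_self _ hl0
      have hgr := G.KapC_groups g (show a + g * l ≤ e by omega) hno
      rw [hlv] at hgr
      have hrange := G.NB_range (η := η) v (p := G.io a) (q := G.io e)
        (G.io_strictMono.monotone (by omega)) (r / G.lam ^ v)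
      have hit : ∀ x, G.io^[v] (G.io (G.io^[w] x)) = G.io^[k] x := by
        intro x
        rw [hw, Function.iterate_add_apply, Function.iterate_succ_apply']
      have hlamr : G.lam ^ v * (r / G.lam ^ v) = r := by
        have := hmul v 0
        simpa using this
      rw [ha, he, hit, hit, hlamr] at hrange
      -- the lower bound for the sum
      have hsum : (g : ℝ) * (c * θ ^ v) ≤
          ((∑ i ∈ Finset.Ico (G.io a) (G.io e), G.NB η v i (r / G.lam ^ v) : ℕ) : ℝ) := by
        push_cast
        calc (g : ℝ) * (c * θ ^ v) ≤ (((Finset.Ico (G.io a) (G.io e)).filter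
              (fun m => ¬ G.GT η m (r / G.lam ^ v))).card : ℝ) * (c * θ ^ v) := by
              refine mul_le_mul_of_nonneg_right (by exact_mod_cast hgr) (by positivity)
          _ = ∑ i ∈ (Finset.Ico (G.io a) (G.io e)).filter
              (fun m => ¬ G.GT η m (r / G.lam ^ v)), (c * θ ^ v) := by
              rw [Finset.sum_const, nsmul_eq_mul]
          _ ≤ ∑ i ∈ (Finset.Ico (G.io a) (G.io e)).filter
              (fun m => ¬ G.GT η m (r / G.lam ^ v)), (G.NB η v i (r / G.lam ^ v) : ℝ) := by
              refine Finset.sum_le_sum fun i hi => ?_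
              exact hg v i _ hv' (Finset.mem_filter.mp hi).2
          _ ≤ _ := Finset.sum_le_sum_of_subset_of_nonneg (Finset.filter_subset _ _)
              (fun i _ _ => Nat.cast_nonneg _)
      have hge : G.L ^ w / (2 * G.lm) ≤ (g : ℝ) := by
        have h3 := G.iter_sub_ge w (show p ≤ p + l by omega)
        have h4 := G.P_sub_ge (show p ≤ p + l by omega)
        have h5 : ((e - a : ℤ) : ℝ) ≤ ((g : ℝ) + 1) * l := by exact_mod_cast hgl'.le
        have h6 : (1 : ℝ) ≤ g := by
          have : (1 : ℤ) ≤ g := by omega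
          exact_mod_cast this
        have hlr : (0 : ℝ) < l := by exact_mod_cast hl
        have h7 : G.L ^ w * l ≤ G.lm * (((g : ℝ) + 1) * l) := by
          calc G.L ^ w * l ≤ G.L ^ w * (G.P (p + l) - G.P p) := by
                refine mul_le_mul_of_nonneg_left ?_ (by positivity)
                have : (((p + l - p : ℤ)) : ℝ) = (l : ℝ) := by push_cast; ring
                rw [this] at h4
                exact h4
            _ ≤ G.lm * ((e - a : ℤ) : ℝ) := h3
            _ ≤ _ := mul_le_mul_of_nonneg_left h5 (by linarith)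
        have h8 : G.L ^ w ≤ G.lm * ((g : ℝ) + 1) := by
          have : G.L ^ w * l ≤ (G.lm * ((g : ℝ) + 1)) * l := by linarith
          exact le_of_mul_le_mul_right this hlr
        rw [div_le_iff₀ (by positivity)]
        nlinarith
      have hfin : c' * θ ^ k ≤ (g : ℝ) * (c * θ ^ v) := by
        have hθw : θ ^ w ≤ G.L ^ w := pow_le_pow_left₀ hθ0.le h2 w
        calc c' * θ ^ k = (c * θ ^ v) * (θ ^ w * (θ / G.L) / (2 * G.lm)) := by
              rw [hc', hw, pow_add, pow_succ]
              field_simp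
          _ ≤ (c * θ ^ v) * (G.L ^ w * 1 / (2 * G.lm)) := by
              refine mul_le_mul_of_nonneg_left ?_ (by positivity)
              refine div_le_div_of_nonneg_right ?_ (by positivity)
              exact mul_le_mul hθw ((div_le_one hL0).mpr h2) (by positivity) (by positivity)
          _ ≤ (c * θ ^ v) * g := by
              refine mul_le_mul_of_nonneg_left ?_ (by positivity)
              rwa [mul_one]
          _ = _ := mul_comm _ _
      rw [hrange] at hcard
      linarith
  refine ⟨r / G.lam ^ k, hreg k le_rfl, ?_, ?_⟩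
  · have := hmul k 0
    simpa using this
  · by_contra hbad
    rw [G.good_tiles (by omega)] at hbad
    push Not at hbad
    obtain ⟨i, hi1, hi2, hi3⟩ := hbad
    have hlamr : G.lam ^ k * (r / G.lam ^ k) = r := by
      have := hmul k 0
      simpa using this
    have hrange := G.NB_range (η := η) k (p := p) (q := p + l) (by omega) (r / G.lam ^ k)
    rw [hlamr] at hrange
    have h3 := hg k i _ (hreg k le_rfl) hi3
    have h4 : G.NB η k i (r / G.lam ^ k) ≤
        ∑ i ∈ Finset.Ico p (p + l), G.NB η k i (r / G.lam ^ k) :=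
      Finset.single_le_sum (f := fun i => G.NB η k i (r / G.lam ^ k))
        (fun _ _ => Nat.zero_le _) (Finset.mem_Ico.mpr ⟨hi1, hi2⟩)
    rw [hrange] at hcard
    have h5 : ((G.NB η k i (r / G.lam ^ k) : ℕ) : ℝ) ≤
        ((∑ i ∈ Finset.Ico p (p + l), G.NB η k i (r / G.lam ^ k) : ℕ) : ℝ) := by
      exact_mod_cast h4
    have h6 : c' * θ ^ k ≤ c * θ ^ k := mul_le_mul_of_nonneg_right hc'c (by positivity)
    linarith

end H69.ED.Geo
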