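import Pool.Agent.H69.ED.KapA
import Pool.Agent.H69.ED.KapB
import Pool.Agent.H69.ED.KapC

/-!
# KapD: the recursion

`kap_zero`: `D < 1` means `D = 0`, the words are equal (`D_eq_zero`; the lengths agree): `r = pos b - pos p` is integral,
`‖φ r‖ ≤ 2 C0 ≤ C` for contracting `φ`, it matches on `[P p, P (p+l))` (`mt_word`), `P b = P p + re r`.
`kap_mono`: clear.

`kap_step`: `c'` = minimum of `1 / (2 lm l)` and `(constant of climb) / l²`. Let `D < min (κ L^m / lm) (c' θ^k Q)`. `kap_windows`: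
`card bad * Q ≤ l D < l c' θ^k Q`, so `card bad < l c' θ^k`. `g = ⌈l c' θ^k⌉₊ + 1`, `κ1` = half of the constant of
`one_shift` for `g` (the shifts are within `2 κ` of `X`, and `one_shift` is applied with `κ := 2 κ`, so `4 κ ≤` its constant).
The number of windows `e - a - l + 1` (`a = io^[k] p`, `e = io^[k] (p+l)`) exceeds `card bad`: if `e - a ≥ 2 l` then
`e - a - l + 1 ≥ (e-a)/2 ≥ L^k l / (2 lm) ≥ l c' θ^k` (`iter_sub_ge`, `θ ≤ L`); otherwise `L^k l ≤ lm (e - a) < 2 lm l`, so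
`l c' θ^k < 2 lm l c' ≤ 1` and `card bad = 0`. `one_shift`: `r ∈ Reg C`, at most `l card bad < l² c' θ^k` bad tiles, `climb`:
`r₁`. `|P b - L^(m+k) (P p + re r₁)| = |P b - L^m P (io^[k] p) - L^m re r| ≤ 2 κ L^m ≤ κ L^(m+k)` since `L^k ≥ 2`.
-/

namespace H69.ED.Geo

variable {A K : Type} [Fintype A] [Field K] [NumberField K] (G : Geo A K)

theorem kap_mono {η C κ Q Q' : ℝ} {l m : ℕ} (h : Q' ≤ Q) (hK : G.Kap η C κ l m Q) :
    G.Kap η C κ l m Q' := by
  intro p b n hD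
  exact hK p b n (lt_of_lt_of_le hD h)

theorem kap_zero {η C C0 κ : ℝ} (l : ℕ)
    (hC0 : ∀ φ : K →+* ℂ, G.Con φ → ∀ n : ℤ, ‖φ (G.pos n)‖ ≤ C0) (hC : 2 * C0 ≤ C)
    (hκ : 0 ≤ κ) : G.Kap η C κ l 0 1 := by
  intro p b n hD
  simp only [Function.iterate_zero, id_eq] at hD
  rw [show (p + (l : ℤ) - p).toNat = l by omega] at hD
  have hD0 : H95.Edit.D (H95.Edit.word G.z p l) (H95.Edit.word G.z b n) = 0 := by
    have : H95.Edit.D (H95.Edit.word G.z p l) (H95.Edit.word G.z b n) < 1 := by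
      exact_mod_cast hD
    omega
  have hw : H95.Edit.word G.z p l = H95.Edit.word G.z b n := H95.Edit.D_eq_zero hD0
  have hln : l = n := by
    have := congrArg List.length hw
    simpa [H95.Edit.word] using this
  subst hln
  have hz : ∀ i : ℕ, i < l → G.z (p + i) = G.z (b + i) := by
    intro i hi
    have h1 := congrArg (fun x : List A => x[i]?) hw
    simpa [H95.Edit.word, hi] using h1
  refine ⟨G.pos b - G.pos p, ⟨(G.pos_int b).sub (G.pos_int p), ?_⟩, ?_, ?_⟩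
  · intro φ hφ
    rw [map_sub]
    have h1 := hC0 φ hφ b
    have h2 := hC0 φ hφ p
    have h3 := norm_sub_le (φ (G.pos b)) (φ (G.pos p))
    linarith
  · refine G.good_of_mt η fun t ht1 ht2 => G.mt_word hz ht1 ht2
  · have : G.P b - G.L ^ 0 * (G.P p + G.re (G.pos b - G.pos p)) = 0 := by
      rw [pow_zero, one_mul, map_sub]
      change G.P b - (G.P p + (G.P b - G.P p)) = 0
      ring
    rw [this, abs_zero, pow_zero, mul_one]
    exact hκ

theorem kap_step {η C θ c : ℝ} (hη : η < 1) (hC : 0 ≤ C) {l : ℕ} (hl : 1 ≤ l)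
    (hrec : G.Rec η C l) (hc : 0 < c) (h1 : 1 ≤ θ) (h2 : θ ≤ G.L) (hg : G.Gro η C θ c) :
    ∃ c' : ℝ, 0 < c' ∧ ∀ k : ℕ, 2 ≤ G.L ^ k → ∃ κ1 : ℝ, 0 < κ1 ∧ ∀ κ : ℝ, 0 < κ → κ ≤ κ1 →
      ∀ (m : ℕ) (Q : ℝ), 0 < Q → G.Kap η C κ l m Q →
        G.Kap η C κ l (m + k) (min (κ * G.L ^ m / G.lm) (c' * θ ^ k * Q)) := by
  classical
  obtain ⟨c0, hc0, hclimb⟩ := G.climb hC hl hrec hc h1 h2 hg
  have hL : 1 < G.L := G.L_gt_one
  have hL0 : 0 < G.L := by linarith
  have hlm : 1 ≤ G.lm := G.one_le_lm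
  have hθ0 : 0 < θ := by linarith
  have hlr : (1 : ℝ) ≤ l := by exact_mod_cast hl
  refine ⟨min (1 / (2 * G.lm * l)) (c0 / (l * l)), by positivity, ?_⟩
  set c' := min (1 / (2 * G.lm * l)) (c0 / (l * l)) with hc'
  have hc'0 : 0 < c' := by positivity
  have hc'1 : c' * (2 * G.lm * l) ≤ 1 := by
    rw [← le_div_iff₀ (by positivity)]
    exact min_le_left _ _
  have hc'2 : c' * (l * l) ≤ c0 := by
    rw [← le_div_iff₀ (by positivity)]
    exact min_le_right _ _
  intro k hk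
  obtain ⟨κ1, hκ1, hone⟩ := G.one_shift hη C hl (⌈l * c' * θ ^ k⌉₊ + 1)
  refine ⟨κ1 / 4, by positivity, ?_⟩
  intro κ hκ hκκ m Q hQ hK p b n hD
  have hD1 := lt_of_lt_of_le hD (min_le_left _ _)
  have hD2 := lt_of_lt_of_le hD (min_le_right _ _)
  have hDlm : G.lm * (H95.Edit.D (H95.Edit.word G.z (G.io^[m + k] p)
      (G.io^[m + k] (p + l) - G.io^[m + k] p).toNat) (H95.Edit.word G.z b n) : ℝ)
      ≤ κ * G.L ^ m := by
    rw [lt_div_iff₀ (by linarith)] at hD1
    linarith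
  obtain ⟨bad, hbad, hwin⟩ := G.kap_windows hl hQ hK k p b n hDlm
  have hbadc : (bad.card : ℝ) < l * c' * θ ^ k := by
    have h3 : (bad.card : ℝ) * Q < l * (c' * θ ^ k * Q) :=
      lt_of_le_of_lt hbad (mul_lt_mul_of_pos_left hD2 (by linarith))
    have h4 : (bad.card : ℝ) * Q < (l * c' * θ ^ k) * Q := by
      calc (bad.card : ℝ) * Q < l * (c' * θ ^ k * Q) := h3
        _ = _ := by ring
    exact lt_of_mul_lt_mul_right h4 hQ.le
  set a := G.io^[k] p with ha
  set e := G.io^[k] (p + l) with he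
  have hae : (l : ℤ) ≤ e - a := by
    have h5 := G.iter_sub_ge k (show p ≤ p + l by omega)
    have h6 : StrictMono G.io^[k] := G.iter_strictMono k
    have h7 : ∀ j : ℕ, (j : ℤ) ≤ G.io^[k] (p + j) - a := by
      intro j
      induction j with
      | zero => simp [ha]
      | succ j ih =>
        have : G.io^[k] (p + j) < G.io^[k] (p + (j + 1 : ℕ)) := h6 (by push_cast; omega)
        omega
    exact h7 l
  have hreal : G.L ^ k * l ≤ G.lm * ((e - a : ℤ) : ℝ) := by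
    have h5 := G.iter_sub_ge k (show p ≤ p + l by omega)
    have h6 := G.P_sub_ge (show p ≤ p + l by omega)
    have h7 : (((p + l - p : ℤ)) : ℝ) = (l : ℝ) := by push_cast; ring
    rw [h7] at h6
    calc G.L ^ k * l ≤ G.L ^ k * (G.P (p + l) - G.P p) :=
          mul_le_mul_of_nonneg_left h6 (by positivity)
      _ ≤ _ := h5
  have hθL : θ ^ k ≤ G.L ^ k := pow_le_pow_left₀ hθ0.le h2 k
  have hcount : (bad.card : ℤ) < e - a - l + 1 := by
    by_cases hcase : 2 * (l : ℤ) ≤ e - a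
    · have h5 : (bad.card : ℝ) < ((e - a : ℤ) : ℝ) / 2 := by
        calc (bad.card : ℝ) < l * c' * θ ^ k := hbadc
          _ ≤ l * c' * G.L ^ k := mul_le_mul_of_nonneg_left hθL (by positivity)
          _ = c' * (G.L ^ k * l) := by ring
          _ ≤ c' * (G.lm * ((e - a : ℤ) : ℝ)) := mul_le_mul_of_nonneg_left hreal hc'0.le
          _ = (c' * (2 * G.lm * 1)) * ((e - a : ℤ) : ℝ) / 2 := by ring
          _ ≤ (c' * (2 * G.lm * l)) * ((e - a : ℤ) : ℝ) / 2 := by
              have : (0 : ℝ) ≤ ((e - a : ℤ) : ℝ) := by exact_mod_cast (by omega : 0 ≤ e - a)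
              gcongr
          _ ≤ 1 * ((e - a : ℤ) : ℝ) / 2 := by
              have : (0 : ℝ) ≤ ((e - a : ℤ) : ℝ) := by exact_mod_cast (by omega : 0 ≤ e - a)
              gcongr
          _ = _ := by ring
      have h6 : 2 * (bad.card : ℤ) < e - a := by
        have : 2 * (bad.card : ℝ) < ((e - a : ℤ) : ℝ) := by linarith
        exact_mod_cast this
      omega
    · push Not at hcase
      have h5 : ((e - a : ℤ) : ℝ) < 2 * l := by exact_mod_cast hcase
      have h6 : G.L ^ k * l < G.lm * (2 * l) :=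
        lt_of_le_of_lt hreal (mul_lt_mul_of_pos_left h5 (by linarith))
      have h7 : (bad.card : ℝ) < 1 := by
        calc (bad.card : ℝ) < l * c' * θ ^ k := hbadc
          _ ≤ l * c' * G.L ^ k := mul_le_mul_of_nonneg_left hθL (by positivity)
          _ = c' * (G.L ^ k * l) := by ring
          _ ≤ c' * (G.lm * (2 * l)) := mul_le_mul_of_nonneg_left h6.le hc'0.le
          _ = c' * (2 * G.lm * l) := by ring
          _ ≤ 1 := hc'1
      have h8 : bad.card < 1 := by exact_mod_cast h7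
      omega
  obtain ⟨r, hr, hrX, hrc⟩ := hone a e ((G.P b - G.L ^ m * G.P a) / G.L ^ m) (2 * κ) bad
    (by linarith) hcount (by
      have : bad.card ≤ ⌈l * c' * θ ^ k⌉₊ := by
        have h5 : (bad.card : ℝ) ≤ (⌈l * c' * θ ^ k⌉₊ : ℝ) := hbadc.le.trans (Nat.le_ceil _)
        exact_mod_cast h5
      omega) hwin
  obtain ⟨r₁, hr₁, hr₁r, hgood⟩ := hclimb k p r hr (by
    calc ((((Finset.Ico (G.io^[k] p) (G.io^[k] (p + l))).filter
        (fun u => ¬ G.GT η u r)).card : ℕ) : ℝ) ≤ ((l * bad.card : ℕ) : ℝ) := by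
          exact_mod_cast hrc
      _ = l * (bad.card : ℝ) := by push_cast; ring
      _ < l * (l * c' * θ ^ k) := mul_lt_mul_of_pos_left hbadc (by linarith)
      _ = (c' * (l * l)) * θ ^ k := by ring
      _ ≤ c0 * θ ^ k := mul_le_mul_of_nonneg_right hc'2 (by positivity))
  refine ⟨r₁, hr₁, hgood, ?_⟩
  have hLm : (0 : ℝ) < G.L ^ m := by positivity
  have hre : G.L ^ k * G.re r₁ = G.re r := by
    rw [← hr₁r, map_mul, map_pow]
    rfl
  have heq : G.P b - G.L ^ (m + k) * (G.P p + G.re r₁) =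
      - (G.L ^ m * (G.re r - (G.P b - G.L ^ m * G.P a) / G.L ^ m)) := by
    have hPa : G.P a = G.L ^ k * G.P p := G.P_iter k p
    rw [hPa, ← hre, pow_add]
    field_simp
    ring
  rw [heq, abs_neg, abs_mul, abs_of_pos hLm]
  calc G.L ^ m * |G.re r - (G.P b - G.L ^ m * G.P a) / G.L ^ m| ≤ G.L ^ m * (2 * κ) :=
        mul_le_mul_of_nonneg_left hrX hLm.le
    _ = κ * (G.L ^ m * 2) := by ring
    _ ≤ κ * (G.L ^ m * G.L ^ k) := by gcongr
    _ = κ * G.L ^ (m + k) := by rw [pow_add]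

end H69.ED.Geo
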