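import Pool.Agent.H69.ED.MhA

/-!
# MhB: the Morse-Hedlund step

`mh`: let `B ≥ B0 := max (2 C0 + 1) C1` (`C0` from `con_pos`, `C1` from `non_bd`) and suppose that on `Lam (SB B)` the
relation `EqM η M` implies `EqM η (M + 2 lm)`, `M ≥ 1`.
1. Pigeonhole over `n ∈ ℕ`: the finitely many classes `cls η M B` (of `pos n ∈ Lam (SB B)`, `s = 0`) and the finitely
   many cells of the bounded vectors `(φ (pos n))_{φ contracting}` (cells of diameter at most one): there are `n < n'` with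
   `EqM η M (pos n) (pos n')` and `‖φ (pos n' - pos n)‖ ≤ 1` for all contracting `φ`. Let `r = pos n' - pos n`, `re r > 0`.
2. `Good η (P n) (P n + M + j lm) r` for all `j ∈ ℕ`. Induction: let `M' = M + j lm`, `i = tl (P n + M' - M) ≥ n`:
   `P i ≤ P n + M' - M < P (i+1)`. Then `Good η (P i) (P i + M) r`. Put `y = pos i + r`, `s = y - v (re y)`: integral,
   `0 ≤ re s < lm`; contracting `φ`: `‖φ s‖ ≤ 2 C0 + 1`; non-contracting: `non_bd` at `P i`. So `pos i, y ∈ Lam (SB B)`,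
   `EqM η M (pos i) y`, hence `EqM η (M + 2 lm) (pos i) y`: `Good η (P i) (P i + M + 2 lm) r`; `P i > P n + M' - M - lm`, so
   together with `Good η (P n) (P n + M') r` we get `Good η (P n) (P n + M' + lm) r` (`good_union`).
3. `GT η i0 r` for every `i0 ∈ ℤ`: let the word `z[a, a+w)` contain `i0` and all tiles which meet
   `[P i0 + re r, P (i0+1) + re r)`. By `recur` there is `t ≥ 0` with `z (q + t + u) = z (a + u)`, `u < w`, with `q ≥ n`; so for
   `i1 = q + t + (i0 - a) ≥ n` the state `(i1, r)` has the same picture (`good_local` with `d = e = pos (q+t) - pos a`), and it is good by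
   2. Hence `r ∈ R η` (`mem_R_of_tiles`), `r ≠ 0`.
-/

namespace H69.ED.Geo

variable {A K : Type} [Fintype A] [Field K] [NumberField K] (G : Geo A K)

/-- goodness on a half line implies goodness everywhere -/
theorem good_of_half {η : ℝ} {r : K} (n : ℤ) (h : ∀ i, n ≤ i → G.GT η i r) : r ∈ G.R η := by
  apply G.mem_R_of_tiles
  intro i0
  obtain ⟨a, ha⟩ : ∃ a, a = min i0 (G.tl (G.P i0 + G.re r)) := ⟨_, rfl⟩
  obtain ⟨b, hb⟩ : ∃ b, b = max (i0 + 1) (G.tl (G.P (i0 + 1) + G.re r) + 1) := ⟨_, rfl⟩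
  have ha1 : a ≤ i0 := ha ▸ min_le_left _ _
  have ha2 : a ≤ G.tl (G.P i0 + G.re r) := ha ▸ min_le_right _ _
  have hb1 : i0 + 1 ≤ b := hb ▸ le_max_left _ _
  have hb2 : G.tl (G.P (i0 + 1) + G.re r) + 1 ≤ b := hb ▸ le_max_right _ _
  obtain ⟨w, hw⟩ : ∃ w : ℕ, (w : ℤ) = b - a := ⟨(b - a).toNat, by
    rw [Int.toNat_of_nonneg]; omega⟩
  have hbw : b = a + w := by omega
  obtain ⟨R, hR⟩ := G.recur w
  obtain ⟨t, -, ht⟩ := hR a n
  have hword : ∀ i : ℕ, i < w → G.z (a + i) = G.z (n + t + i) := fun i hi => (ht i hi).symm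
  obtain ⟨d, hd⟩ : ∃ d, d = G.pos (n + t) - G.pos a := ⟨_, rfl⟩
  have hmt : ∀ x, G.P a ≤ x → x < G.P b → G.Mt d x := by
    intro x h1 h2
    rw [hd]
    exact G.mt_word hword h1 (by rw [← hbw]; exact h2)
  have h1 : ∀ s, G.P i0 ≤ s → s < G.P (i0 + 1) → G.Mt d s := fun s hs1 hs2 =>
    hmt s (((G.P_le_iff _ _).2 ha1).trans hs1) (hs2.trans_le ((G.P_le_iff _ _).2 hb1))
  have h2 : ∀ s, G.P i0 ≤ s → s < G.P (i0 + 1) → G.Mt d (s + G.re r) := by
    intro s hs1 hs2
    apply hmt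
    · have e1 := (G.P_le_iff _ _).2 ha2
      have e2 := (G.tl_spec (G.P i0 + G.re r)).1
      linarith
    · have e1 := (G.P_le_iff _ _).2 hb2
      have e2 := (G.tl_spec (G.P (i0 + 1) + G.re r)).2
      linarith
  have key := G.good_local (η := η) h1 h2
  have hpw := G.pos_word hword
  obtain ⟨u, hu⟩ : ∃ u : ℕ, (u : ℤ) = i0 - a := ⟨(i0 - a).toNat, by
    rw [Int.toNat_of_nonneg]; omega⟩
  have hu1 : a + u = i0 := by omega
  have e1 : G.P i0 + G.re d = G.P (n + t + u) := by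
    have := hpw u (by omega)
    rw [hu1] at this
    have h3 : G.pos (n + t + u) = G.pos i0 + d := by rw [hd]; linear_combination -this
    unfold Geo.P
    rw [h3, map_add]
  have e2 : G.P (i0 + 1) + G.re d = G.P (n + t + u + 1) := by
    have := hpw (u + 1) (by omega)
    have hc : ((u + 1 : ℕ) : ℤ) = u + 1 := by push_cast; ring
    rw [hc, ← add_assoc, ← add_assoc, hu1] at this
    have h3 : G.pos (n + t + u + 1) = G.pos (i0 + 1) + d := by rw [hd]; linear_combination -this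
    unfold Geo.P
    rw [h3, map_add]
  have e3 : r + d - d = r := by ring
  rw [e1, e2, e3] at key
  unfold Geo.GT
  exact key.1 (h _ (by omega))

/-- pigeonhole -/
theorem close_pair (η M : ℝ) {B : ℝ} (hB : 0 ≤ B) : ∃ n n' : ℤ, n < n' ∧
    G.EqM η M (G.pos n) (G.pos n') ∧
    ∀ φ : K →+* ℂ, G.Con φ → ‖φ (G.pos n' - G.pos n)‖ ≤ 1 := by
  classical
  obtain ⟨C, hC1, hC⟩ := G.con_pos
  have hlam : ∀ n : ℤ, G.pos n ∈ G.Lam (G.SB B) := fun n => ⟨n, 0, G.zero_mem_SB hB, by simp⟩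
  obtain ⟨N, hN⟩ : ∃ N : ℤ, 2 * C + 1 ≤ N := by
    obtain ⟨N, hN⟩ := exists_nat_ge (2 * C + 1)
    exact ⟨N, by exact_mod_cast hN⟩
  let cell : ℕ → (K →+* ℂ) → ℤ × ℤ := fun n φ =>
    if G.Con φ then (⌊2 * (φ (G.pos n)).re⌋, ⌊2 * (φ (G.pos n)).im⌋) else (0, 0)
  let cl : ℕ → Set K := fun n => {y | y ∈ G.Lam (G.SB B) ∧ G.EqM η M (G.pos n) y}
  have hfl : ∀ x : ℝ, |x| ≤ C → -N ≤ ⌊2 * x⌋ ∧ ⌊2 * x⌋ ≤ N := by
    intro x hx
    have hx' := abs_le.1 hx
    constructor
    · rw [Int.le_floor]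
      push_cast
      linarith
    · have h1 : (⌊2 * x⌋ : ℝ) ≤ 2 * x := Int.floor_le _
      have h2 : (⌊2 * x⌋ : ℝ) ≤ N := by linarith
      exact_mod_cast h2
  have hN0 : 0 ≤ N := by
    have : (0 : ℝ) ≤ N := by linarith
    exact_mod_cast this
  have hfin : (Set.range fun n => (cl n, cell n)).Finite := by
    have h1 : ((G.cls η M B) ×ˢ (Set.pi Set.univ
        fun _ : K →+* ℂ => (Set.Icc (-N) N ×ˢ Set.Icc (-N) N : Set (ℤ × ℤ)))).Finite := by
      apply (G.cls_fin η M B).prod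
      apply Set.Finite.pi
      intro φ
      exact (Set.finite_Icc _ _).prod (Set.finite_Icc _ _)
    apply h1.subset
    rintro _ ⟨n, rfl⟩
    refine ⟨⟨G.pos n, hlam n, rfl⟩, ?_⟩
    intro φ _
    simp only [cell]
    split_ifs with hφ
    · have hn := hC φ hφ n
      refine ⟨?_, ?_⟩
      · exact hfl _ ((Complex.abs_re_le_norm _).trans hn)
      · exact hfl _ ((Complex.abs_im_le_norm _).trans hn)
    · exact ⟨⟨by simp [hN0], by simp [hN0]⟩, ⟨by simp [hN0], by simp [hN0]⟩⟩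
  have : Finite (Set.range fun n => (cl n, cell n)) := hfin
  obtain ⟨a, b, hab, he⟩ := Finite.exists_ne_map_eq_of_infinite
    (fun n : ℕ => (⟨(cl n, cell n), n, rfl⟩ : Set.range fun n => (cl n, cell n)))
  have he' : (cl a, cell a) = (cl b, cell b) := congrArg Subtype.val he
  have hcl : cl a = cl b := congrArg Prod.fst he'
  have hce : cell a = cell b := congrArg Prod.snd he'
  have hE : G.EqM η M (G.pos a) (G.pos b) := by
    have : G.pos b ∈ cl b := ⟨hlam b, G.eqM_refl η M _⟩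
    rw [← hcl] at this
    exact this.2
  have hcl2 : ∀ φ : K →+* ℂ, G.Con φ → ‖φ (G.pos b) - φ (G.pos a)‖ ≤ 1 := by
    intro φ hφ
    have h1 := congrFun hce φ
    simp only [cell, if_pos hφ, Prod.mk.injEq] at h1
    have h2 := Int.abs_sub_lt_one_of_floor_eq_floor h1.1
    have h3 := Int.abs_sub_lt_one_of_floor_eq_floor h1.2
    have h4 := Complex.norm_le_abs_re_add_abs_im (φ (G.pos b) - φ (G.pos a))
    rw [Complex.sub_re, Complex.sub_im] at h4
    have h5 : |2 * (φ (G.pos a)).re - 2 * (φ (G.pos b)).re| =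
        2 * |(φ (G.pos b)).re - (φ (G.pos a)).re| := by
      rw [← mul_sub, abs_mul, abs_sub_comm]
      simp
    have h6 : |2 * (φ (G.pos a)).im - 2 * (φ (G.pos b)).im| =
        2 * |(φ (G.pos b)).im - (φ (G.pos a)).im| := by
      rw [← mul_sub, abs_mul, abs_sub_comm]
      simp
    rw [h5] at h2
    rw [h6] at h3
    linarith
  rcases lt_or_gt_of_ne hab with h | h
  · refine ⟨a, b, by exact_mod_cast h, hE, fun φ hφ => ?_⟩
    rw [map_sub]
    exact hcl2 φ hφ
  · refine ⟨b, a, by exact_mod_cast h, G.eqM_symm hE, fun φ hφ => ?_⟩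
    rw [map_sub, norm_sub_rev]
    exact hcl2 φ hφ

theorem mh {η : ℝ} (hη : η < 1) : ∃ B0 : ℝ, 1 ≤ B0 ∧ ∀ B, B0 ≤ B → ∀ M : ℝ, 1 ≤ M →
    (∀ x ∈ G.Lam (G.SB B), ∀ y ∈ G.Lam (G.SB B), G.EqM η M x y → G.EqM η (M + 2 * G.lm) x y) →
    ∃ r ∈ G.R η, r ≠ 0 := by
  obtain ⟨C0, hC0, hcon⟩ := G.con_pos
  obtain ⟨C1, hC1, hnon⟩ := G.non_bd
  refine ⟨max (2 * C0 + 1) C1, le_max_of_le_right hC1, ?_⟩
  intro B hB M hM hyp
  have hB1 : 2 * C0 + 1 ≤ B := (le_max_left _ _).trans hB
  have hB2 : C1 ≤ B := (le_max_right _ _).trans hB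
  have hlm := G.one_le_lm
  obtain ⟨n, n', hnn, hE, hcl⟩ := G.close_pair η M (B := B) (by linarith)
  obtain ⟨r, hr⟩ : ∃ r, r = G.pos n' - G.pos n := ⟨_, rfl⟩
  rw [← hr] at hcl
  have hrint : IsIntegral ℤ r := by
    rw [hr]; exact (G.pos_int n').sub (G.pos_int n)
  have hrpos : 0 < G.re r := by
    rw [hr, map_sub]
    have := (G.P_lt_iff n n').2 hnn
    unfold Geo.P at this
    linarith
  have step2 : ∀ j : ℕ, G.Good η (G.P n) (G.P n + M + j * G.lm) r := by
    intro j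
    induction j with
    | zero =>
      have : G.Good η (G.re (G.pos n)) (G.re (G.pos n) + M) (G.pos n' - G.pos n) := hE
      rw [← hr] at this
      simpa [Geo.P] using this
    | succ j ih =>
      obtain ⟨i, hi⟩ : ∃ i, i = G.tl (G.P n + j * G.lm) := ⟨_, rfl⟩
      have hjl : 0 ≤ (j : ℝ) * G.lm := by positivity
      have hni : n ≤ i := by
        rw [hi, G.le_tl_iff]
        linarith
      have hPni := (G.P_le_iff n i).2 hni
      have hPi : G.P i ≤ G.P n + j * G.lm := by rw [hi]; exact (G.tl_spec _).1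
      have hPi2 : G.P n + j * G.lm - G.lm < G.P i := by rw [hi]; exact G.lt_P_tl _
      have hg : G.Good η (G.P i) (G.P i + M) r :=
        G.good_mono hPni (by linarith) ih
      obtain ⟨y, hy⟩ : ∃ y, y = G.pos i + r := ⟨_, rfl⟩
      have hrey : G.re y = G.P i + G.re r := by rw [hy, map_add]; rfl
      obtain ⟨s, hs⟩ : ∃ s, s = y - G.v (G.re y) := ⟨_, rfl⟩
      have hsSB : s ∈ G.SB B := by
        refine ⟨?_, ?_, ?_, ?_⟩
        · rw [hs, hy]
          exact ((G.pos_int i).add hrint).sub (G.pos_int _)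
        · rw [hs, map_sub, G.re_v]
          linarith [(G.tl_spec (G.re y)).1]
        · rw [hs, map_sub, G.re_v]
          linarith [G.lt_P_tl (G.re y)]
        · intro φ hφ
          rcases G.con_or_non hφ with hc | hn
          · have h1 := hcon φ hc i
            have h2 := hcl φ hc
            have h3 : ‖φ (G.v (G.re y))‖ ≤ C0 := hcon φ hc _
            have h4 : φ s = φ (G.pos i) + φ r - φ (G.v (G.re y)) := by
              rw [hs, hy, map_sub, map_add]
            rw [h4]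
            calc ‖φ (G.pos i) + φ r - φ (G.v (G.re y))‖
                ≤ ‖φ (G.pos i)‖ + ‖φ r‖ + ‖φ (G.v (G.re y))‖ :=
                  (norm_sub_le _ _).trans (add_le_add (norm_add_le _ _) le_rfl)
              _ ≤ B := by linarith
          · have h1 := hnon η (G.P i) (G.P i + M) (G.P i) r hη hg (by linarith) le_rfl
              (by linarith) φ hn
            rw [G.v_P, ← hrey, ← hy, ← hs] at h1
            linarith
      have hx : G.pos i ∈ G.Lam (G.SB B) :=
        ⟨i, 0, G.zero_mem_SB (by linarith), by simp⟩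
      have hyL : y ∈ G.Lam (G.SB B) :=
        ⟨G.tl (G.re y), s, hsSB, by
          rw [hs]
          show y = G.v (G.re y) + (y - G.v (G.re y))
          ring⟩
      have hyr : y - G.pos i = r := by rw [hy]; ring
      have hE1 : G.EqM η M (G.pos i) y := by
        unfold Geo.EqM
        rw [hyr]
        exact hg
      have hE2 := hyp _ hx _ hyL hE1
      unfold Geo.EqM at hE2
      rw [hyr] at hE2
      change G.Good η (G.P i) (G.P i + (M + 2 * G.lm)) r at hE2
      have g1 : G.Good η (G.P n) (G.P i) r := G.good_mono le_rfl (by linarith) ih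
      have g2 : G.Good η (G.P i) (G.P n + M + (j + 1 : ℕ) * G.lm) r := by
        refine G.good_mono le_rfl ?_ hE2
        push_cast
        nlinarith
      exact G.good_union g1 g2
  refine ⟨r, G.good_of_half n ?_, ?_⟩
  · intro i hi
    obtain ⟨j, hj⟩ := exists_nat_ge (G.P (i + 1) - G.P n)
    have hPni := (G.P_le_iff n i).2 hi
    refine G.good_mono hPni ?_ (step2 j)
    have : (j : ℝ) ≤ j * G.lm := by
      have hj0 : (0 : ℝ) ≤ j := Nat.cast_nonneg j
      nlinarith
    linarith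
  · intro h
    rw [h, map_zero] at hrpos
    exact lt_irrefl _ hrpos

/-- linear growth of the number of classes -/
theorem cls_linear {η : ℝ} (hη : η < 1) (hR : ∀ r ∈ G.R η, r = 0) : ∃ B0 : ℝ, 1 ≤ B0 ∧
    ∀ B, B0 ≤ B → ∀ j : ℕ, j ≤ (G.cls η (1 + j * (2 * G.lm)) B).ncard := by
  obtain ⟨B0, hB0, h⟩ := G.mh hη
  refine ⟨B0, hB0, ?_⟩
  intro B hB
  have hlm := G.one_le_lm
  have hlt : ∀ M : ℝ, 1 ≤ M → (G.cls η M B).ncard < (G.cls η (M + 2 * G.lm) B).ncard := by
    intro M hM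
    by_contra hcon
    rw [not_lt] at hcon
    obtain ⟨r, hr, hr0⟩ := h B hB M hM (G.cls_eq η (by linarith) B hcon)
    exact hr0 (hR r hr)
  intro j
  induction j with
  | zero => exact Nat.zero_le _
  | succ j ih =>
    have h1 := hlt (1 + j * (2 * G.lm)) (by
      have : 0 ≤ (j : ℝ) * (2 * G.lm) := by positivity
      linarith)
    have h2 : (1 : ℝ) + j * (2 * G.lm) + 2 * G.lm = 1 + ((j + 1 : ℕ) : ℝ) * (2 * G.lm) := by
      push_cast; ring
    rw [h2] at h1
    omega

end H69.ED.Geo
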