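import Pool.Agent.H69.ED.MhA

/-!
# RecB: codes

`code i Lc y`: with `p = tl (re y / L^i)` (the tile of level `i` which contains `y`) and `u = tl (re y)`: the
word `z[p, p+Lc)`, the index `u - io^[i] p` of `u` inside the inflated tile, and the offset `y - pos u`.
`io^[i] p ≤ u < io^[i] (p+1)` by `tl_scale`.
* `code_eq`: equal codes of `y`, `y'`: the words at `p`, `p'` agree, so (`io_word_iter`, `pos_word`)
  `pos u - pos (io^[i] p) = pos u' - pos (io^[i] p')`, i.e. `y' - y = lam^i (pos p' - pos p)`; `pos p' - pos p` matches on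
  `[P p, P (p+Lc))`, so (`mt_scale_pow`) `y' - y` matches on `[L^i P p, L^i P (p+Lc))`, which contains
  `[re y, re y + L^i)` when `Lc ≥ lm + 2` (`re y < L^i P (p+1)`): `good_of_mt`.
* `code_count`: the codes of the elements of `Lam (SB B)`: `y = pos n + s`, `s ∈ SB B`, so
  `y - pos (tl (re y)) = s - (pos u - pos n)` with `0 ≤ u - n ≤ lm` (`P u ≤ P n + re s`), integral with bounded conjugates:
  it lies in `SB B'` for a `B' = B'(B)` (`lip`; `0 ≤ re ≤ lm` by `tl_spec`, `lt_P_tl`). So there are at most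
  `|A|^Lc · (lm L^i + 1) · ncard (SB B')` codes (`iter_sub_le`: an inflated tile contains at most `L^i lm` tiles).
-/

namespace H69.ED.Geo

open H95.Edit

variable {A K : Type} [Fintype A] [Field K] [NumberField K] (G : Geo A K)

noncomputable def code (i Lc : ℕ) (y : K) : List A × ℕ × K :=
  (word G.z (G.tl (G.re y / G.L ^ i)) Lc,
    (G.tl (G.re y) - G.io^[i] (G.tl (G.re y / G.L ^ i))).toNat, y - G.v (G.re y))

theorem recb_tl (i : ℕ) (x : ℝ) :
    G.io^[i] (G.tl (x / G.L ^ i)) ≤ G.tl x ∧ G.tl x < G.io^[i] (G.tl (x / G.L ^ i) + 1) := by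
  have hL : (0 : ℝ) < G.L ^ i := pow_pos (lt_trans one_pos G.L_gt_one) i
  have h := G.tl_scale i (x / G.L ^ i)
  rwa [mul_div_cancel₀ x (ne_of_gt hL)] at h

theorem recb_word {z : ℤ → A} {p q : ℤ} {n : ℕ} (h : word z p n = word z q n) :
    ∀ i : ℕ, i < n → z (p + i) = z (q + i) := by
  intro i hi
  unfold word at h
  rw [List.map_inj_left] at h
  exact h i (List.mem_range.2 hi)

theorem code_eq (η : ℝ) {i Lc : ℕ} (hL : G.lm + 2 ≤ Lc) {y y' : K}
    (h : G.code i Lc y = G.code i Lc y') :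
    G.EqM η (G.L ^ i) y y' ∧ ∃ p p' : ℤ, y' - y = G.lam ^ i * (G.pos p' - G.pos p) := by
  have hLpos : (0 : ℝ) < G.L ^ i := pow_pos (lt_trans one_pos G.L_gt_one) i
  obtain ⟨hw, hn, hs⟩ : word G.z (G.tl (G.re y / G.L ^ i)) Lc =
      word G.z (G.tl (G.re y' / G.L ^ i)) Lc ∧
      (G.tl (G.re y) - G.io^[i] (G.tl (G.re y / G.L ^ i))).toNat =
      (G.tl (G.re y') - G.io^[i] (G.tl (G.re y' / G.L ^ i))).toNat ∧
      y - G.v (G.re y) = y' - G.v (G.re y') := by
    unfold code at h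
    simpa [Prod.ext_iff] using h
  have hword := recb_word hw
  have h1 := G.recb_tl i (G.re y)
  have h1' := G.recb_tl i (G.re y')
  have hLc : 3 ≤ Lc := by
    have := G.one_le_lm
    have h3 : (3 : ℝ) ≤ Lc := by linarith
    exact_mod_cast h3
  set p := G.tl (G.re y / G.L ^ i) with hp
  set p' := G.tl (G.re y' / G.L ^ i) with hp'
  set u := G.tl (G.re y) with hu
  set u' := G.tl (G.re y') with hu'
  obtain ⟨w1, w2⟩ := G.io_word_iter i hword
  set n := (u - G.io^[i] p).toNat with hndef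
  have eu : u = G.io^[i] p + n := by omega
  have eu' : u' = G.io^[i] p' + n := by omega
  have hmono : G.io^[i] (p + 1) ≤ G.io^[i] (p + Lc) :=
    (G.iter_strictMono i).monotone (by omega)
  have hN : ∀ j : ℕ, j < (G.io^[i] (p + Lc) - G.io^[i] p).toNat →
      G.z (G.io^[i] p + j) = G.z (G.io^[i] p' + j) := by
    intro j hj
    exact w2 j (by omega)
  have hpos := G.pos_word hN n (by omega)
  have key : y' - y = G.lam ^ i * (G.pos p' - G.pos p) := by
    have e1 : y' - y = G.pos u' - G.pos u := by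
      have : G.v (G.re y) = G.pos u := rfl
      have : G.v (G.re y') = G.pos u' := rfl
      simp only [v] at hs
      linear_combination -hs
    rw [e1, eu, eu', mul_sub, ← G.pos_iter, ← G.pos_iter]
    linear_combination -hpos
  refine ⟨?_, p, p', key⟩
  unfold EqM
  refine G.good_of_mt η ?_
  intro t ht1 ht2
  rw [key]
  have et : t = G.L ^ i * (t / G.L ^ i) := (mul_div_cancel₀ t (ne_of_gt hLpos)).symm
  rw [et]
  refine G.mt_scale_pow i ?_
  refine G.mt_word hword ?_ ?_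
  · have : G.P p ≤ G.re y / G.L ^ i := (G.tl_spec _).1
    refine this.trans ?_
    exact div_le_div_of_nonneg_right ht1 hLpos.le
  · have h2 : G.re y / G.L ^ i < G.P (p + 1) := (G.tl_spec _).2
    have h3 : t / G.L ^ i < G.re y / G.L ^ i + 1 := by
      rw [div_lt_iff₀ hLpos, add_mul, div_mul_cancel₀ _ (ne_of_gt hLpos), one_mul]
      exact ht2
    have h4 := G.P_sub_ge (m := p + 1) (n := p + Lc) (by omega)
    have h5 : ((p + Lc - (p + 1) : ℤ) : ℝ) = (Lc : ℝ) - 1 := by
      push_cast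
      ring
    rw [h5] at h4
    have h6 : (3 : ℝ) ≤ Lc := by exact_mod_cast hLc
    linarith

theorem code_count (Lc : ℕ) (B : ℝ) : ∃ C : ℝ, 0 ≤ C ∧ ∀ i : ℕ,
    (G.code i Lc '' G.Lam (G.SB B)).Finite ∧
    ((G.code i Lc '' G.Lam (G.SB B)).ncard : ℝ) ≤ C * G.L ^ i := by
  obtain ⟨Cl, hCl1, hlip⟩ := G.lip
  have hfinW : {w : List A | w.length = Lc}.Finite := List.finite_length_eq A Lc
  have hfinS := G.SB_fin (B + Cl * G.lm)
  have hlm := G.one_le_lm
  refine ⟨({w : List A | w.length = Lc}.ncard : ℝ) * ((G.lm + 1) *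
    ((G.SB (B + Cl * G.lm)).ncard : ℝ)), by positivity, ?_⟩
  intro i
  have hLpos : (0 : ℝ) < G.L ^ i := pow_pos (lt_trans one_pos G.L_gt_one) i
  have hL1 : (1 : ℝ) ≤ G.L ^ i := one_le_pow₀ G.L_gt_one.le
  have hsub : G.code i Lc '' G.Lam (G.SB B) ⊆
      {w : List A | w.length = Lc} ×ˢ ((Set.Iic ⌊G.L ^ i * G.lm⌋₊) ×ˢ G.SB (B + Cl * G.lm)) := by
    rintro _ ⟨y, ⟨m, s, hs, rfl⟩, rfl⟩
    refine ⟨?_, ?_, ?_⟩
    · simp [code, word]
    · simp only [code, Set.mem_Iic]
      refine Nat.le_floor ?_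
      have h1 := G.recb_tl i (G.re (G.pos m + s))
      set p := G.tl (G.re (G.pos m + s) / G.L ^ i)
      have h2 := G.iter_sub_le i (m := p) (n := p + 1) (by omega)
      have h3 := G.P_succ_le p
      have h4 : G.L ^ i * (G.P (p + 1) - G.P p) ≤ G.L ^ i * G.lm :=
        mul_le_mul_of_nonneg_left (by linarith) hLpos.le
      have h5 : (((G.tl (G.re (G.pos m + s)) - G.io^[i] p).toNat : ℕ) : ℝ) ≤
          ((G.io^[i] (p + 1) - G.io^[i] p : ℤ) : ℝ) := by
        have : (((G.tl (G.re (G.pos m + s)) - G.io^[i] p).toNat : ℕ) : ℤ) ≤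
          (G.io^[i] (p + 1) - G.io^[i] p : ℤ) := by omega
        exact_mod_cast this
      linarith
    · simp only [code]
      obtain ⟨hs1, hs2, hs3, hs4⟩ := hs
      set y : K := G.pos m + s with hy
      have hrey : G.re y = G.P m + G.re s := by
        rw [hy, map_add]
        rfl
      have t1 := G.tl_spec (G.re y)
      have t2 := G.lt_P_tl (G.re y)
      refine ⟨?_, ?_, ?_, ?_⟩
      · exact ((G.pos_int m).add hs1).sub (G.pos_int _)
      · rw [map_sub, G.re_v]
        linarith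
      · rw [map_sub, G.re_v]
        linarith
      · intro φ hφ
        have hmu : m ≤ G.tl (G.re y) := (G.le_tl_iff _ _).2 (by linarith)
        have h7 := G.P_sub_ge hmu
        have h8 : |((G.tl (G.re y) - m : ℤ) : ℝ)| ≤ G.lm := by
          rw [abs_of_nonneg (by exact_mod_cast sub_nonneg.2 hmu)]
          linarith
        have h9 := hlip φ (G.tl (G.re y)) m
        have e : φ (y - G.v (G.re y)) = φ s -
            (φ (G.pos (G.tl (G.re y))) - φ (G.pos m)) := by
          simp only [map_sub, v]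
          rw [hy, map_add]
          ring
        rw [e]
        refine (norm_sub_le _ _).trans ?_
        have h10 : Cl * |((G.tl (G.re y) - m : ℤ) : ℝ)| ≤ Cl * G.lm :=
          mul_le_mul_of_nonneg_left h8 (by linarith)
        linarith [hs4 φ hφ]
  have hfin : ({w : List A | w.length = Lc} ×ˢ
      ((Set.Iic ⌊G.L ^ i * G.lm⌋₊) ×ˢ G.SB (B + Cl * G.lm))).Finite :=
    hfinW.prod ((Set.finite_Iic _).prod hfinS)
  refine ⟨hfin.subset hsub, ?_⟩
  have hc := Set.ncard_le_ncard hsub hfin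
  rw [Set.ncard_prod, Set.ncard_prod] at hc
  have hI : (Set.Iic ⌊G.L ^ i * G.lm⌋₊).ncard = ⌊G.L ^ i * G.lm⌋₊ + 1 := by
    rw [← Finset.coe_Iic, Set.ncard_coe_finset, Nat.card_Iic]
  rw [hI] at hc
  have hc' : ((G.code i Lc '' G.Lam (G.SB B)).ncard : ℝ) ≤
      ({w : List A | w.length = Lc}.ncard : ℝ) * (((⌊G.L ^ i * G.lm⌋₊ : ℝ) + 1) *
      ((G.SB (B + Cl * G.lm)).ncard : ℝ)) := by exact_mod_cast hc
  refine hc'.trans ?_
  have hf : (⌊G.L ^ i * G.lm⌋₊ : ℝ) + 1 ≤ (G.lm + 1) * G.L ^ i := by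
    have h1 : (⌊G.L ^ i * G.lm⌋₊ : ℝ) ≤ G.L ^ i * G.lm := Nat.floor_le (by positivity)
    nlinarith
  calc ({w : List A | w.length = Lc}.ncard : ℝ) * (((⌊G.L ^ i * G.lm⌋₊ : ℝ) + 1) *
      ((G.SB (B + Cl * G.lm)).ncard : ℝ))
      ≤ ({w : List A | w.length = Lc}.ncard : ℝ) * (((G.lm + 1) * G.L ^ i) *
      ((G.SB (B + Cl * G.lm)).ncard : ℝ)) := by gcongr
    _ = _ := by ring

end H69.ED.Geo
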