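import Pool.Agent.H69.ED.MhA

/-!
# RecC: equivalent positions stay near vertices

Let `x = pos n + s ∈ Lam (SB B)`, `j ≥ 1`, `lam r ∈ Reg C'`, `y = x + lam^j r`, `EqM η M x y`, `M ≥ 1`. Then
`y ∈ Lam (SB B')`, `B' = B'(B, C')`: let `u = tl (re y)`, `s' = y - pos u`. `0 ≤ re s' ≤ lm`. `y` is integral as
`lam^j r = lam^(j-1) (lam r)`. Contracting `φ`: `‖φ s'‖ ≤ ‖φ x‖ + ‖φ (lam^(j-1) (lam r))‖ + C0 ≤ 2 C0 + B + C'`.
Non-contracting `φ`: `non_bd` at `re x` (`Good η (re x) (re x + M) (lam^j r)`, `M ≥ 1`):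
`‖φ (v (re x) + lam^j r - pos u)‖ ≤ C1`, and `s' = (x - v (re x)) + (v (re x) + lam^j r - pos u)` with
`x - v (re x) = s - (pos (tl (re x)) - pos n)`, `0 ≤ tl (re x) - n ≤ lm` (`lip`). An embedding `≠ idC` is one or the
other (`con_or_non`).
-/

namespace H69.ED.Geo

variable {A K : Type} [Fintype A] [Field K] [NumberField K] (G : Geo A K)

theorem partner_mem {η : ℝ} (hη : η < 1) (B C' : ℝ) : ∃ B' : ℝ, 0 ≤ B' ∧ ∀ (M : ℝ), 1 ≤ M →
    ∀ x ∈ G.Lam (G.SB B), ∀ (j : ℕ), 1 ≤ j → ∀ r : K, G.lam * r ∈ G.Reg C' →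
      G.EqM η M x (x + G.lam ^ j * r) → x + G.lam ^ j * r ∈ G.Lam (G.SB B') := by
  obtain ⟨C0, hC0, hpos⟩ := G.con_pos
  obtain ⟨C1, hC1, hnon⟩ := G.non_bd
  obtain ⟨C2, hC2, hlip⟩ := G.lip
  have hlm := G.one_le_lm
  have hC2lm : 0 ≤ C2 * G.lm := mul_nonneg (by linarith) (by linarith)
  have hB := le_abs_self B
  have hB0 := abs_nonneg B
  have hC' := le_abs_self C'
  have hC'0 := abs_nonneg C'
  refine ⟨|B| + |C'| + 2 * C0 + C1 + C2 * G.lm, by linarith, ?_⟩
  rintro M hM x ⟨n, s, hs, rfl⟩ j hj r hr hE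
  have hlj : G.lam ^ j * r = G.lam ^ (j - 1) * (G.lam * r) := by
    rw [← mul_assoc, ← pow_succ, Nat.sub_add_cancel hj]
  set y := G.pos n + s + G.lam ^ j * r with hy
  have hsp := G.tl_spec (G.re y)
  have hPu : G.P (G.tl (G.re y)) = G.re (G.pos (G.tl (G.re y))) := rfl
  refine ⟨G.tl (G.re y), y - G.pos (G.tl (G.re y)), ⟨?_, ?_, ?_, ?_⟩, by ring⟩
  · refine IsIntegral.sub ?_ (G.pos_int _)
    rw [hy, hlj]
    exact ((G.pos_int n).add hs.1).add ((G.lam_int.pow _).mul hr.1)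
  · rw [map_sub]
    linarith [hsp.1]
  · rw [map_sub]
    linarith [hsp.2, G.P_succ_le (G.tl (G.re y))]
  · intro φ hφ
    have hsB : ‖φ s‖ ≤ B := hs.2.2.2 φ hφ
    rcases G.con_or_non hφ with hc | hn
    · have h1 : ‖φ (G.lam ^ j * r)‖ ≤ C' := by
        rw [hlj, map_mul, norm_mul, map_pow, norm_pow]
        have h3 : ‖φ G.lam‖ ^ (j - 1) ≤ 1 := pow_le_one₀ (norm_nonneg _) (le_of_lt hc)
        calc ‖φ G.lam‖ ^ (j - 1) * ‖φ (G.lam * r)‖ ≤ 1 * ‖φ (G.lam * r)‖ :=
              mul_le_mul_of_nonneg_right h3 (norm_nonneg _)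
          _ ≤ C' := by rw [one_mul]; exact hr.2 φ hc
      have h2 := hpos φ hc n
      have h3 := hpos φ hc (G.tl (G.re y))
      have h4 : φ (y - G.pos (G.tl (G.re y))) =
          φ (G.pos n) + φ s + φ (G.lam ^ j * r) - φ (G.pos (G.tl (G.re y))) := by
        rw [map_sub, hy, map_add, map_add]
      rw [h4]
      refine (norm_sub_le _ _).trans ?_
      have h5 := norm_add_le (φ (G.pos n) + φ s) (φ (G.lam ^ j * r))
      have h6 := norm_add_le (φ (G.pos n)) (φ s)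
      linarith
    · have hg : G.Good η (G.re (G.pos n + s)) (G.re (G.pos n + s) + M) (G.lam ^ j * r) := by
        unfold EqM at hE
        have e : y - (G.pos n + s) = G.lam ^ j * r := by rw [hy]; ring
        rwa [e] at hE
      have h1 := hnon η _ _ (G.re (G.pos n + s)) _ hη hg (by linarith) le_rfl (by linarith) φ hn
      have e1 : G.v (G.re (G.pos n + s) + G.re (G.lam ^ j * r)) = G.pos (G.tl (G.re y)) := by
        show G.pos (G.tl _) = _
        rw [hy, map_add G.re (G.pos n + s)]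
      rw [e1] at h1
      have h2 : G.v (G.re (G.pos n + s)) = G.pos (G.tl (G.re (G.pos n + s))) := rfl
      rw [h2] at h1
      have hPn : G.P n = G.re (G.pos n) := rfl
      have hrs : G.re (G.pos n + s) = G.P n + G.re s := by rw [map_add, hPn]
      have hle : n ≤ G.tl (G.re (G.pos n + s)) := by
        rw [G.le_tl_iff, hrs]
        linarith [hs.2.1]
      have h3 := hlip φ (G.tl (G.re (G.pos n + s))) n
      have h4 := G.P_sub_ge hle
      have h5 := (G.tl_spec (G.re (G.pos n + s))).1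
      have h6 : |((G.tl (G.re (G.pos n + s)) - n : ℤ) : ℝ)| ≤ G.lm := by
        rw [abs_of_nonneg (by exact_mod_cast sub_nonneg.2 hle)]
        linarith [hs.2.2.1]
      have h7 : C2 * |((G.tl (G.re (G.pos n + s)) - n : ℤ) : ℝ)| ≤ C2 * G.lm :=
        mul_le_mul_of_nonneg_left h6 (by linarith)
      have h8 : φ (y - G.pos (G.tl (G.re y))) = φ s
          - (φ (G.pos (G.tl (G.re (G.pos n + s)))) - φ (G.pos n))
          + φ (G.pos (G.tl (G.re (G.pos n + s))) + G.lam ^ j * r - G.pos (G.tl (G.re y))) := by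
        rw [hy]
        simp only [map_sub, map_add]
        ring
      rw [h8]
      refine (norm_add_le _ _).trans ?_
      have h9 := norm_sub_le (φ s) (φ (G.pos (G.tl (G.re (G.pos n + s)))) - φ (G.pos n))
      linarith

end H69.ED.Geo
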