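import Pool.Agent.H69.ED.RecA
import Pool.Agent.H69.ED.RecB
import Pool.Agent.H69.ED.RecC
import Pool.Agent.H69.ED.MhB

/-!
# RecD: registration passes up one level

Let `R η = 0`, `C0 ≥ 1` from `con_pos`, `ρ` from `rho`, `C ≥ 6 C0 / (1 - ρ)`. Suppose `¬ Rec η C l` for all `l`.

`many_codes`: for `x ∈ Lam (SB B)`, `Kk ∈ ℕ`, `i ≥ 2 Kk + 1`, `M = L^i`: there are `Kk` elements `y_1, ..., y_Kk` of
`Lam (SB B')` with `EqM η M x y_a` and pairwise different codes `code i Lc y_a`.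
For `a = 1..Kk` let `j = 2a`, `p = tl (re x / L^j)`, `n₁ ≥ L^(i-j) + lm + 1`, `r_j` from `rec_transport`:
`Good η (P p) (P (p+n₁)) r_j`; by `good_scale_pow` `Good η (L^j P p) (L^j P (p+n₁)) (lam^j r_j)`, and
`[re x, re x + L^i) ⊆ [L^j P p, L^j P (p+n₁))` (`P p ≤ re x / L^j < P p + lm`, `P (p+n₁) ≥ P p + n₁`). So
`EqM η M x y_a` for `y_a = x + lam^j r_j`, and `y_a ∈ Lam (SB B')` (`partner_mem` with `C' = C + 2 C0`).
Codes of `y_a`, `y_b`, `j = 2a < k = 2b`, equal: by `code_eq` `lam^j r_j - lam^k r_k = lam^i (pos p - pos p')` for some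
`p, p'`; divide by `lam^j ≠ 0`: `r_j = lam^(k-j-1) (lam r_k) + lam^(i-j) (pos p - pos p')`: integral, and for contracting `φ`
`‖φ r_j‖ ≤ ρ (C + 2 C0) + 2 C0 ≤ C - 2 C0` (`k - j - 1 ≥ 1`, `i ≥ j`; `C (1-ρ) ≥ 6 C0 ≥ 4 C0 + 2 ρ C0`). But
`r_j ∉ Reg (C - 2 C0)`.

`rec_of_R`: choose for every class of `cls η M B` a representative `x` and its `y_a`: the map
`(class, a) ↦ code (y_a)` is injective: equal codes give `EqM η M y_a y'_b` (`code_eq`), so `x`, `x'` are equivalent, so the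
classes, hence `x = x'`, and then `a = b`. So `Kk · ncard (cls η M B) ≤ C1 L^i` (`code_count`, `C1` independent of
`Kk` and `i`). But `ncard (cls η (L^i) B) ≥ j` for `1 + j (2 lm) ≤ L^i` (`cls_linear`, `cls_mono`), so
`≥ L^i / (2 lm) - 2`: a contradiction for `Kk > 4 lm C1 + ...` and `i` large.
-/

namespace H69.ED.Geo

open H95.Edit

variable {A K : Type} [Fintype A] [Field K] [NumberField K] (G : Geo A K)

private theorem recD_mem_reg {C C0 ρ : ℝ} (h1 : 1 ≤ C0)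
    (hC0 : ∀ φ : K →+* ℂ, G.Con φ → ∀ n : ℤ, ‖φ (G.pos n)‖ ≤ C0) (h2 : 0 ≤ ρ) (h3 : ρ < 1)
    (hρ : ∀ φ : K →+* ℂ, G.Con φ → ‖φ G.lam‖ ≤ ρ) (hC : 6 * C0 / (1 - ρ) ≤ C)
    {i j k : ℕ} (hjk : j + 2 ≤ k) (hki : k ≤ i) {rj rk : K} (hrk : G.lam * rk ∈ G.Reg (C + 2 * C0))
    {p p' : ℤ}
    (h : G.lam ^ k * rk - G.lam ^ j * rj = G.lam ^ i * (G.pos p' - G.pos p)) :
    rj ∈ G.Reg (C - 2 * C0) := by
  have hl0 : G.lam ≠ 0 := G.lam_ne_zero
  have e : rj = G.lam ^ (k - j - 1) * (G.lam * rk) + G.lam ^ (i - j) * (G.pos p - G.pos p') := by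
    have e1 : G.lam ^ k = G.lam ^ j * (G.lam ^ (k - j - 1) * G.lam) := by
      rw [← pow_succ, ← pow_add]
      congr 1
      omega
    have e2 : G.lam ^ i = G.lam ^ j * G.lam ^ (i - j) := by
      rw [← pow_add]
      congr 1
      omega
    have e3 : G.lam ^ j * rj = G.lam ^ j * (G.lam ^ (k - j - 1) * (G.lam * rk) +
        G.lam ^ (i - j) * (G.pos p - G.pos p')) := by
      rw [e1, e2] at h
      linear_combination -h
    exact mul_left_cancel₀ (pow_ne_zero _ hl0) e3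
  rw [e]
  refine ⟨?_, ?_⟩
  · exact ((G.lam_int.pow _).mul hrk.1).add
      ((G.lam_int.pow _).mul ((G.pos_int p).sub (G.pos_int p')))
  · intro φ hφ
    have a1 : ‖φ G.lam‖ ≤ ρ := hρ φ hφ
    have a0 : 0 ≤ ‖φ G.lam‖ := norm_nonneg _
    have a2 : ‖φ (G.lam * rk)‖ ≤ C + 2 * C0 := hrk.2 φ hφ
    have a3 : ‖φ G.lam‖ ^ (k - j - 1) ≤ ρ := by
      obtain ⟨n, hn⟩ : ∃ n, k - j - 1 = n + 1 := ⟨k - j - 2, by omega⟩
      rw [hn, pow_succ]
      calc ‖φ G.lam‖ ^ n * ‖φ G.lam‖ ≤ 1 * ρ :=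
            mul_le_mul (pow_le_one₀ a0 (a1.trans h3.le)) a1 a0 zero_le_one
        _ = ρ := one_mul _
    have a4 : ‖φ G.lam‖ ^ (i - j) ≤ 1 := pow_le_one₀ a0 (a1.trans h3.le)
    have a5 : ‖φ (G.pos p - G.pos p')‖ ≤ 2 * C0 := by
      rw [map_sub]
      have := norm_sub_le (φ (G.pos p)) (φ (G.pos p'))
      have b1 := hC0 φ hφ p
      have b2 := hC0 φ hφ p'
      linarith
    have hC' : 6 * C0 ≤ C * (1 - ρ) := by
      rwa [div_le_iff₀ (by linarith)] at hC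
    have hCpos : 0 ≤ C + 2 * C0 := (norm_nonneg _).trans a2
    rw [map_add, map_mul φ (G.lam ^ (k - j - 1)) (G.lam * rk),
      map_mul φ (G.lam ^ (i - j)) (G.pos p - G.pos p'), map_pow, map_pow]
    calc ‖φ G.lam ^ (k - j - 1) * φ (G.lam * rk) + φ G.lam ^ (i - j) * φ (G.pos p - G.pos p')‖
        ≤ ‖φ G.lam‖ ^ (k - j - 1) * ‖φ (G.lam * rk)‖ +
          ‖φ G.lam‖ ^ (i - j) * ‖φ (G.pos p - G.pos p')‖ := by
          refine (norm_add_le _ _).trans ?_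
          rw [norm_mul, norm_mul, norm_pow, norm_pow]
      _ ≤ ρ * (C + 2 * C0) + 1 * (2 * C0) :=
          add_le_add (mul_le_mul a3 a2 (norm_nonneg _) h2)
            (mul_le_mul a4 a5 (norm_nonneg _) zero_le_one)
      _ ≤ C - 2 * C0 := by nlinarith

theorem many_codes {η C C0 ρ : ℝ} (hη : η < 1) (h1 : 1 ≤ C0)
    (hC0 : ∀ φ : K →+* ℂ, G.Con φ → ∀ n : ℤ, ‖φ (G.pos n)‖ ≤ C0) (h2 : 0 ≤ ρ) (h3 : ρ < 1)
    (hρ : ∀ φ : K →+* ℂ, G.Con φ → ‖φ G.lam‖ ≤ ρ) (hC : 6 * C0 / (1 - ρ) ≤ C)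
    (h : ∀ l : ℕ, ¬ G.Rec η C l) {Lc : ℕ} (hL : G.lm + 2 ≤ Lc) (B : ℝ) :
    ∃ B' : ℝ, 0 ≤ B' ∧ ∀ (Kk i : ℕ), 2 * Kk + 1 ≤ i → ∀ x ∈ G.Lam (G.SB B),
      ∃ y : Fin Kk → K, (∀ a, y a ∈ G.Lam (G.SB B') ∧ G.EqM η (G.L ^ i) x (y a)) ∧
        Function.Injective (fun a => G.code i Lc (y a)) := by
  obtain ⟨B', hB', hpm⟩ := G.partner_mem hη B (C + 2 * C0)
  refine ⟨B', hB', fun Kk i hi x hx => ?_⟩
  have hL1 : 1 < G.L := G.L_gt_one
  have hL0 : 0 < G.L := by linarith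
  have hlm := G.one_le_lm
  choose r hr1 hr2 hr3 using fun j : ℕ => G.rec_transport hC0 h (G.tl (G.re x / G.L ^ j))
    ⌈G.L ^ i / G.L ^ j + G.lm + 1⌉₊
  have hEq : ∀ j, G.EqM η (G.L ^ i) x (x + G.lam ^ j * r j) := by
    intro j
    have hj : 0 < G.L ^ j := pow_pos hL0 j
    set p := G.tl (G.re x / G.L ^ j) with hp
    set n₁ := ⌈G.L ^ i / G.L ^ j + G.lm + 1⌉₊ with hn₁
    have g1 := (G.good_scale_pow j).2 (hr1 j)
    unfold EqM
    rw [add_sub_cancel_left]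
    refine G.good_mono ?_ ?_ g1
    · have := (G.tl_spec (G.re x / G.L ^ j)).1
      rw [← hp, le_div_iff₀ hj] at this
      linarith
    · have b1 : G.L ^ i / G.L ^ j + G.lm + 1 ≤ n₁ := Nat.le_ceil _
      have b2 := G.P_sub_ge (show p ≤ p + (n₁ : ℤ) by omega)
      have b3 := G.lt_P_tl (G.re x / G.L ^ j)
      rw [← hp] at b3
      have b4 : ((p + (n₁ : ℤ) - p : ℤ) : ℝ) = n₁ := by push_cast; ring
      rw [b4] at b2
      have b5 : G.re x / G.L ^ j + G.L ^ i / G.L ^ j ≤ G.P (p + n₁) := by linarith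
      rw [← add_div, div_le_iff₀ hj] at b5
      linarith
  have hmem : ∀ j, 1 ≤ j → x + G.lam ^ j * r j ∈ G.Lam (G.SB B') := fun j hj =>
    hpm _ (one_le_pow₀ hL1.le) x hx j hj (r j) (hr2 j) (hEq j)
  refine ⟨fun a => x + G.lam ^ (2 * ((a : ℕ) + 1)) * r (2 * ((a : ℕ) + 1)), fun a =>
    ⟨hmem _ (by omega), hEq _⟩, ?_⟩
  have key : ∀ a b : Fin Kk, (a : ℕ) < b →
      G.code i Lc (x + G.lam ^ (2 * ((a : ℕ) + 1)) * r (2 * ((a : ℕ) + 1))) ≠
      G.code i Lc (x + G.lam ^ (2 * ((b : ℕ) + 1)) * r (2 * ((b : ℕ) + 1))) := by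
    intro a b hab hcode
    obtain ⟨-, p, p', hpp⟩ := G.code_eq η hL hcode
    have hb := b.2
    apply hr3 (2 * ((a : ℕ) + 1))
    apply G.recD_mem_reg h1 hC0 h2 h3 hρ hC (i := i) (j := 2 * ((a : ℕ) + 1))
      (k := 2 * ((b : ℕ) + 1)) (by omega) (by omega) (hr2 (2 * ((b : ℕ) + 1))) (p := p)
      (p' := p')
    rw [← hpp]
    ring
  intro a b hab
  rcases lt_trichotomy (a : ℕ) b with hlt | heq | hgt
  · exact absurd hab (key a b hlt)
  · exact Fin.ext heq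
  · exact absurd hab.symm (key b a hgt)

theorem rec_of_R {η : ℝ} (hη : η < 1) (hR : ∀ r ∈ G.R η, r = 0) : ∃ C0 : ℝ, 1 ≤ C0 ∧
    ∀ C, C0 ≤ C → ∃ l : ℕ, 1 ≤ l ∧ G.Rec η C l := by
  obtain ⟨C0, h1, hC0⟩ := G.con_pos
  obtain ⟨ρ, h2, h3, hρ⟩ := G.rho
  refine ⟨max 1 (6 * C0 / (1 - ρ)), le_max_left _ _, fun C hC => ?_⟩
  by_contra hcon
  push Not at hcon
  have h : ∀ l : ℕ, ¬ G.Rec η C l := by
    intro l hl
    rcases Nat.eq_zero_or_pos l with rfl | hl0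
    · apply hcon 1 le_rfl
      intro r p hr hg
      apply hl r p hr
      apply G.good_mono le_rfl _ hg
      rw [G.P_le_iff]
      simp
    · exact hcon l hl0 hl
  have hL1 : 1 < G.L := G.L_gt_one
  have hL0 : 0 < G.L := by linarith
  have hlm := G.one_le_lm
  obtain ⟨B, hB, hlin⟩ := G.cls_linear hη hR
  have hlinB := hlin B le_rfl
  set Lc : ℕ := ⌈G.lm + 2⌉₊ with hLc
  have hLc' : G.lm + 2 ≤ (Lc : ℝ) := Nat.le_ceil _
  obtain ⟨B', hB', hmany⟩ := G.many_codes hη h1 hC0 h2 h3 hρ ((le_max_right _ _).trans hC) h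
    hLc' B
  obtain ⟨C1, hC1, hcount⟩ := G.code_count Lc B'
  -- the number of codes per class
  obtain ⟨Kk, hKk⟩ := exists_nat_gt (2 * G.lm * (C1 + 1))
  obtain ⟨i0, hi0⟩ := pow_unbounded_of_one_lt ((C1 + 1) * (1 + 2 * G.lm) + 1) hL1
  set i : ℕ := max i0 (2 * Kk + 1) with hi
  have hiK : 2 * Kk + 1 ≤ i := le_max_right _ _
  set X : ℝ := G.L ^ i with hX
  have hXbig : (C1 + 1) * (1 + 2 * G.lm) + 1 < X :=
    hi0.trans_le (pow_le_pow_right₀ hL1.le (le_max_left _ _))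
  obtain ⟨hfin, hcard⟩ := hcount i
  have hcf := G.cls_fin η X B
  -- representatives
  have hrep : ∀ c ∈ G.cls η X B, ∃ x ∈ G.Lam (G.SB B),
      c = {y | y ∈ G.Lam (G.SB B) ∧ G.EqM η X x y} := by
    rintro c ⟨x, hx, rfl⟩
    exact ⟨x, hx, rfl⟩
  choose! x hx hxc using hrep
  have hyex : ∀ c ∈ G.cls η X B, ∃ y : Fin Kk → K,
      (∀ a, y a ∈ G.Lam (G.SB B') ∧ G.EqM η X (x c) (y a)) ∧
        Function.Injective (fun a => G.code i Lc (y a)) := fun c hc =>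
    hmany Kk i hiK (x c) (hx c hc)
  choose! y hy hyinj using hyex
  have hle : hcf.toFinset.card * Kk ≤ hfin.toFinset.card := by
    have e1 : hcf.toFinset.card * Kk = (hcf.toFinset ×ˢ (Finset.univ : Finset (Fin Kk))).card := by
      rw [Finset.card_product, Finset.card_univ, Fintype.card_fin]
    rw [e1]
    apply Finset.card_le_card_of_injOn (fun q : Set K × Fin Kk => G.code i Lc (y q.1 q.2))
    · rintro ⟨c, a⟩ hq
      simp only [Finset.coe_product, Set.mem_prod, Finset.mem_coe, Set.Finite.mem_toFinset,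
        Finset.mem_univ, and_true] at hq
      simp only [Finset.mem_coe, Set.Finite.mem_toFinset]
      exact ⟨y c a, ((hy c hq) a).1, rfl⟩
    · rintro ⟨c, a⟩ hq ⟨c', a'⟩ hq' hcode
      simp only [Finset.coe_product, Set.mem_prod, Finset.mem_coe, Set.Finite.mem_toFinset,
        Finset.mem_univ, and_true] at hq hq'
      simp only at hcode
      have g1 := (G.code_eq η hLc' hcode).1
      have g2 : G.EqM η X (x c) (x c') :=
        G.eqM_trans ((hy c hq) a).2 (G.eqM_trans g1 (G.eqM_symm ((hy c' hq') a').2))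
      have hcc : c = c' := by
        rw [hxc c hq, hxc c' hq']
        ext w
        constructor
        · rintro ⟨w1, w2⟩
          exact ⟨w1, G.eqM_trans (G.eqM_symm g2) w2⟩
        · rintro ⟨w1, w2⟩
          exact ⟨w1, G.eqM_trans g2 w2⟩
      subst hcc
      have haa := hyinj c hq hcode
      rw [haa]
  have hle' : ((G.cls η X B).ncard : ℝ) * Kk ≤ C1 * X := by
    rw [Set.ncard_eq_toFinset_card _ hcf]
    rw [Set.ncard_eq_toFinset_card _ hfin] at hcard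
    calc ((hcf.toFinset.card : ℕ) : ℝ) * Kk = ((hcf.toFinset.card * Kk : ℕ) : ℝ) := by push_cast; ring
      _ ≤ ((hfin.toFinset.card : ℕ) : ℝ) := by exact_mod_cast hle
      _ ≤ C1 * X := hcard
  -- linear growth
  set j : ℕ := ⌊(X - 1) / (2 * G.lm)⌋₊ with hj
  have hX1 : 0 ≤ (X - 1) / (2 * G.lm) := by
    apply div_nonneg _ (by linarith)
    nlinarith
  have hj1 : (j : ℝ) ≤ (X - 1) / (2 * G.lm) := Nat.floor_le hX1
  have hj2 : (X - 1) / (2 * G.lm) < j + 1 := Nat.lt_floor_add_one _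
  have hjM : 1 + (j : ℝ) * (2 * G.lm) ≤ X := by
    rw [le_div_iff₀ (by linarith)] at hj1
    linarith
  have hlow : (j : ℝ) ≤ ((G.cls η X B).ncard : ℝ) := by
    exact_mod_cast (hlinB j).trans (G.cls_mono η hjM B)
  have hK0 : (0 : ℝ) < Kk := by nlinarith
  have e1 : (j : ℝ) * Kk ≤ C1 * X := (mul_le_mul_of_nonneg_right hlow hK0.le).trans hle'
  rw [div_lt_iff₀ (by linarith)] at hj2
  -- X - 1 < (j + 1) (2 lm)
  have e2 : (X - 1 - 2 * G.lm) * Kk < C1 * X * (2 * G.lm) + 1 := by nlinarith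
  have e3 : (X - 1 - 2 * G.lm) * (2 * G.lm * (C1 + 1)) ≤ (X - 1 - 2 * G.lm) * Kk := by
    apply mul_le_mul_of_nonneg_left hKk.le
    nlinarith
  nlinarith

end H69.ED.Geo
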