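import Pool.Agent.H69.ED.KapD
import Pool.Agent.H69.ED.RecD
import Pool.Agent.H69.ED.GroC

/-!
# KapE: cheap alignments are registered at all levels

Let `e = max η 0`, `ε > 0` (WLOG `ε ≤ 1`). `C` large, `l` from `rec_of_R`. Choose `θ`: if `η > 0` and `η - ε/2 > 0` put
`θ = L^(η-ε/2)`, `1 ≤ θ < L^η`, `c` from `gro`; otherwise `θ = 1`, `c = 1` (`gro_one`). `c'` from `kap_step`. Choose `k ≥ 1` with
`L^k ≥ 2` and `c' θ^k ≥ L^((e-ε) k)` (in both cases `θ ≥ L^(e-ε/2)`, so `c' L^(ε k/2) ≥ 1` suffices).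
`κ = min κ0 κ1`. `c1 = min 1 (κ / (lm L^k))`. Claim `Kap η C κ l (j k) (c1 L^((e-ε) j k))`: `j = 0`: `kap_zero`, `kap_mono`. Step:
`kap_step` and `kap_mono`: `κ L^(jk) / lm ≥ c1 L^k L^(jk) ≥ c1 L^((e-ε)(j+1)k)` (`e - ε ≤ 1`),
`c' θ^k c1 L^((e-ε)jk) ≥ c1 L^((e-ε)(j+1)k)`.
-/

namespace H69.ED.Geo

variable {A K : Type} [Fintype A] [Field K] [NumberField K] (G : Geo A K)

theorem kap_all {η : ℝ} (hη : η < 1) (hR : ∀ r ∈ G.R η, r = 0) :
    ∃ (C : ℝ) (l : ℕ), 1 ≤ l ∧ ∀ ε : ℝ, 0 < ε → ∀ κ0 : ℝ, 0 < κ0 →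
      ∃ (κ c1 : ℝ) (k : ℕ), 0 < κ ∧ κ ≤ κ0 ∧ 0 < c1 ∧ 1 ≤ k ∧ ∀ j : ℕ,
        G.Kap η C κ l (j * k) (c1 * G.L ^ ((max η 0 - ε) * ((j * k : ℕ) : ℝ))) := by
  obtain ⟨Cr, hCr1, hCr⟩ := G.rec_of_R hη hR
  obtain ⟨Cp, hCp1, hCp⟩ := G.con_pos
  obtain ⟨l, hl, hrec⟩ := hCr (max Cr (2 * Cp)) (le_max_left _ _)
  set C := max Cr (2 * Cp) with hC
  have hC0 : 0 ≤ C := by
    have : Cr ≤ C := le_max_left _ _
    linarith
  refine ⟨C, l, hl, ?_⟩
  intro ε hε κ0 hκ0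
  have hL : 1 < G.L := G.L_gt_one
  have hL0 : 0 < G.L := by linarith
  have hlm : 1 ≤ G.lm := G.one_le_lm
  set e := max η 0 with he
  have he1 : e < 1 := max_lt hη one_pos
  have he0 : 0 ≤ e := le_max_right _ _
  -- the growth rate
  obtain ⟨θ, c, hθ1, hθL, hθe, hc, hgro⟩ : ∃ θ c : ℝ, 1 ≤ θ ∧ θ ≤ G.L ∧
      G.L ^ (e - ε / 2) ≤ θ ∧ 0 < c ∧ G.Gro η C θ c := by
    by_cases hcase : 0 < η - ε / 2
    · have hη0 : 0 < η := by linarith
      have hθ1 : 1 ≤ G.L ^ (η - ε / 2) := Real.one_le_rpow hL.le hcase.le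
      obtain ⟨c, hc, hg⟩ := G.gro hη0 hη hC0 hθ1 (Real.rpow_lt_rpow_of_exponent_lt hL
        (by linarith : η - ε / 2 < η))
      refine ⟨_, c, hθ1, ?_, ?_, hc, hg⟩
      · calc G.L ^ (η - ε / 2) ≤ G.L ^ (1 : ℝ) :=
            Real.rpow_le_rpow_of_exponent_le hL.le (by linarith)
          _ = G.L := Real.rpow_one _
      · rw [he, max_eq_left hη0.le]
    · refine ⟨1, 1, le_rfl, hL.le, ?_, one_pos, G.gro_one η C⟩
      refine Real.rpow_le_one_of_one_le_of_nonpos hL.le ?_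
      rcases le_total η 0 with h | h
      · rw [he, max_eq_right h]
        linarith
      · rw [he, max_eq_left h]
        linarith
  obtain ⟨c', hc', hstep⟩ := G.kap_step hη hC0 hl hrec hc hθ1 hθL hgro
  -- the number of levels
  have hLe : 1 < G.L ^ (ε / 2) := Real.one_lt_rpow hL (by linarith)
  obtain ⟨k1, hk1⟩ := pow_unbounded_of_one_lt (1 / c') hLe
  obtain ⟨k2, hk2⟩ := pow_unbounded_of_one_lt 2 hL
  obtain ⟨k, hkk1, hkk2, hk⟩ : ∃ k, k1 ≤ k ∧ k2 ≤ k ∧ 1 ≤ k :=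
    ⟨max k1 (max k2 1), le_max_left _ _, (le_max_left _ _).trans (le_max_right _ _),
      (le_max_right _ _).trans (le_max_right _ _)⟩
  have hk3 : 2 ≤ G.L ^ k := hk2.le.trans (pow_le_pow_right₀ hL.le hkk2)
  have hk4 : 1 ≤ c' * (G.L ^ (ε / 2)) ^ k := by
    have h1 : 1 / c' ≤ (G.L ^ (ε / 2)) ^ k := hk1.le.trans (pow_le_pow_right₀ hLe.le hkk1)
    rw [div_le_iff₀ hc'] at h1
    linarith
  have hk5 : G.L ^ ((e - ε) * (k : ℝ)) ≤ c' * θ ^ k := by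
    calc G.L ^ ((e - ε) * (k : ℝ)) = 1 * (G.L ^ (e - ε)) ^ k := by
          rw [one_mul, ← Real.rpow_natCast, ← Real.rpow_mul hL0.le]
      _ ≤ (c' * (G.L ^ (ε / 2)) ^ k) * (G.L ^ (e - ε)) ^ k :=
          mul_le_mul_of_nonneg_right hk4 (by positivity)
      _ = c' * (G.L ^ (e - ε / 2)) ^ k := by
          rw [mul_assoc, ← mul_pow, ← Real.rpow_add hL0]
          congr 3
          ring
      _ ≤ c' * θ ^ k := by
          refine mul_le_mul_of_nonneg_left ?_ hc'.le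
          exact pow_le_pow_left₀ (by positivity) hθe k
  obtain ⟨κ1, hκ1, hκ⟩ := hstep k hk3
  refine ⟨min κ0 κ1, min 1 (min κ0 κ1 / (G.lm * G.L ^ k)), k, lt_min hκ0 hκ1, min_le_left _ _,
    by positivity, hk, ?_⟩
  set κ := min κ0 κ1 with hκdef
  have hκ0' : 0 < κ := lt_min hκ0 hκ1
  set c1 := min 1 (κ / (G.lm * G.L ^ k)) with hc1
  have hc1pos : 0 < c1 := by positivity
  have hc1le : c1 * (G.lm * G.L ^ k) ≤ κ := by
    rw [← le_div_iff₀ (by positivity)]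
    exact min_le_right _ _
  intro j
  induction j with
  | zero =>
    rw [zero_mul, Nat.cast_zero, mul_zero, Real.rpow_zero, mul_one]
    exact G.kap_mono (min_le_left _ _) (G.kap_zero l hCp (le_max_right _ _) hκ0'.le)
  | succ j ih =>
    have h1 := hκ κ hκ0' (min_le_right _ _) (j * k) _ (by positivity) ih
    rw [show (j + 1) * k = j * k + k by ring]
    refine G.kap_mono (le_min ?_ ?_) h1
    · rw [le_div_iff₀ (by linarith)]
      calc c1 * G.L ^ ((e - ε) * ((j * k + k : ℕ) : ℝ)) * G.lm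
          ≤ c1 * G.L ^ (1 * ((j * k + k : ℕ) : ℝ)) * G.lm := by
            have h2 : G.L ^ ((e - ε) * ((j * k + k : ℕ) : ℝ)) ≤
                G.L ^ (1 * ((j * k + k : ℕ) : ℝ)) :=
              Real.rpow_le_rpow_of_exponent_le hL.le
                (mul_le_mul_of_nonneg_right (by linarith) (Nat.cast_nonneg _))
            gcongr
        _ = (c1 * (G.lm * G.L ^ k)) * G.L ^ (j * k) := by
            rw [one_mul, Real.rpow_natCast, pow_add]
            ring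
        _ ≤ κ * G.L ^ (j * k) := mul_le_mul_of_nonneg_right hc1le (by positivity)
    · calc c1 * G.L ^ ((e - ε) * ((j * k + k : ℕ) : ℝ))
          = G.L ^ ((e - ε) * (k : ℝ)) * (c1 * G.L ^ ((e - ε) * ((j * k : ℕ) : ℝ))) := by
            rw [show (e - ε) * ((j * k + k : ℕ) : ℝ) = (e - ε) * (k : ℝ) +
              (e - ε) * ((j * k : ℕ) : ℝ) by push_cast; ring, Real.rpow_add hL0]
            ring
        _ ≤ c' * θ ^ k * (c1 * G.L ^ ((e - ε) * ((j * k : ℕ) : ℝ))) :=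
            mul_le_mul_of_nonneg_right hk5 (by positivity)

end H69.ED.Geo
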