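import Pool.Agent.H69.ED.Defs

/-!
# Line: the tiles tile the line

`P n = re (pos n)`, `P 0 = 0`, `P (n+1) - P n = re (ell (z n)) ∈ [1, lm]` (`lm` is the sum of all
`re (ell a) ≥ 1 > 0`, so each summand is at most `lm`: `Finset.single_le_sum`).  Hence `P` is
strictly increasing and `n - m ≤ P n - P m ≤ lm (n - m)` for `m ≤ n` (`Int.le_induction`), so every
`x` lies in a unique tile: existence: the set `{n | P n ≤ x}` is bounded above (by `⌈|x|⌉`) and
nonempty (`P (-N) ≤ -N`), take its maximum (`Int.exists_greatest_of_bdd`);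
`tl_spec` is `Classical.epsilon_spec`.  `tl_sub_lt`: for `x ≤ y`: `P (tl y) ≤ y`,
`x < P (tl x + 1)`, so if `tl y ≥ tl x + 1` then `tl y - (tl x + 1) ≤ P (tl y) - P (tl x + 1) < y - x`.
-/

namespace H69.ED.Geo

variable {A K : Type} [Fintype A] [Field K] [NumberField K] (G : Geo A K)

theorem L_gt_one : 1 < G.L := G.one_lt

theorem ell_le_lm (a : A) : G.re (G.ell a) ≤ G.lm :=
  Finset.single_le_sum (f := fun a => G.re (G.ell a))
    (fun b _ => le_trans zero_le_one (G.one_le b)) (Finset.mem_univ a)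

theorem one_le_lm : 1 ≤ G.lm := le_trans (G.one_le (G.z 0)) (G.ell_le_lm _)

theorem P_zero : G.P 0 = 0 := by
  unfold P
  rw [G.pos_zero, map_zero]

theorem P_succ (n : ℤ) : G.P (n + 1) = G.P n + G.re (G.ell (G.z n)) := by
  unfold P
  rw [G.pos_succ, map_add]

theorem P_succ_ge (n : ℤ) : G.P n + 1 ≤ G.P (n + 1) := by
  rw [P_succ]
  linarith [G.one_le (G.z n)]

theorem P_succ_le (n : ℤ) : G.P (n + 1) ≤ G.P n + G.lm := by
  rw [P_succ]
  linarith [G.ell_le_lm (G.z n)]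

theorem P_sub_ge {m n : ℤ} (h : m ≤ n) : ((n - m : ℤ) : ℝ) ≤ G.P n - G.P m := by
  induction n, h using Int.leInduction with
  | base => simp
  | succ n h ih =>
    have h1 := G.P_succ_ge n
    push_cast at ih ⊢
    linarith

theorem P_sub_le {m n : ℤ} (h : m ≤ n) : G.P n - G.P m ≤ G.lm * ((n - m : ℤ) : ℝ) := by
  induction n, h using Int.leInduction with
  | base => simp
  | succ n h ih =>
    have h1 := G.P_succ_le n
    push_cast at ih ⊢
    linarith

theorem P_strictMono : StrictMono G.P := by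
  refine strictMono_int_of_lt_succ fun n => ?_
  linarith [G.P_succ_ge n]

theorem P_le_iff (m n : ℤ) : G.P m ≤ G.P n ↔ m ≤ n := G.P_strictMono.le_iff_le

theorem P_lt_iff (m n : ℤ) : G.P m < G.P n ↔ m < n := G.P_strictMono.lt_iff_lt

private theorem line_exists (x : ℝ) : ∃ n : ℤ, G.P n ≤ x ∧ x < G.P (n + 1) := by
  have hb : ∃ b : ℤ, ∀ n : ℤ, G.P n ≤ x → n ≤ b := by
    refine ⟨max 0 ⌈x⌉, fun n hn => ?_⟩
    rcases le_total n 0 with h | h
    · exact le_trans h (le_max_left _ _)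
    · have h1 := G.P_sub_ge h
      rw [G.P_zero, sub_zero, sub_zero] at h1
      have h2 : (n : ℝ) ≤ x := le_trans h1 hn
      have h3 : (n : ℝ) ≤ (⌈x⌉ : ℤ) := le_trans h2 (Int.le_ceil x)
      exact le_trans (Int.cast_le.mp h3) (le_max_right _ _)
  have hi : ∃ n : ℤ, G.P n ≤ x := by
    refine ⟨min 0 ⌊x⌋, ?_⟩
    have h1 := G.P_sub_ge (min_le_left 0 ⌊x⌋)
    rw [G.P_zero] at h1
    have h2 : ((min 0 ⌊x⌋ : ℤ) : ℝ) ≤ x :=
      le_trans (Int.cast_le.mpr (min_le_right 0 ⌊x⌋)) (Int.floor_le x)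
    push_cast at h1 h2 ⊢
    linarith
  obtain ⟨n, hn, hmax⟩ := Int.exists_greatest_of_bdd hb hi
  refine ⟨n, hn, ?_⟩
  by_contra hc
  have := hmax (n + 1) (not_lt.mp hc)
  omega

theorem tl_spec (x : ℝ) : G.P (G.tl x) ≤ x ∧ x < G.P (G.tl x + 1) :=
  Classical.epsilon_spec (line_exists G x)

theorem tl_unique {x : ℝ} {n : ℤ} (h1 : G.P n ≤ x) (h2 : x < G.P (n + 1)) : G.tl x = n := by
  have h3 := G.tl_spec x
  have h4 := (G.P_lt_iff _ _).mp (lt_of_le_of_lt h1 h3.2)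
  have h5 := (G.P_lt_iff _ _).mp (lt_of_le_of_lt h3.1 h2)
  omega

theorem tl_P (n : ℤ) : G.tl (G.P n) = n :=
  G.tl_unique le_rfl (G.P_strictMono (by omega))

theorem le_tl_iff (n : ℤ) (x : ℝ) : n ≤ G.tl x ↔ G.P n ≤ x := by
  constructor
  · intro h
    exact le_trans ((G.P_le_iff _ _).mpr h) (G.tl_spec x).1
  · intro h
    have := (G.P_lt_iff _ _).mp (lt_of_le_of_lt h (G.tl_spec x).2)
    omega

theorem tl_mono {x y : ℝ} (h : x ≤ y) : G.tl x ≤ G.tl y :=
  (G.le_tl_iff _ _).mpr (le_trans (G.tl_spec x).1 h)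

theorem tl_lt_iff (n : ℤ) (x : ℝ) : G.tl x < n ↔ x < G.P n := by
  rw [← not_le, ← not_le, le_tl_iff]

theorem lt_P_tl (x : ℝ) : x - G.lm < G.P (G.tl x) := by
  have h1 := (G.tl_spec x).2
  have h2 := G.P_succ_le (G.tl x)
  linarith

theorem tl_sub_lt {x y : ℝ} (h : x ≤ y) : ((G.tl y - G.tl x : ℤ) : ℝ) < y - x + 1 := by
  have h1 := G.tl_mono h
  rcases eq_or_lt_of_le h1 with h2 | h2
  · rw [h2]
    simp only [sub_self, Int.cast_zero]
    linarith
  · have h3 := G.P_sub_ge (by omega : G.tl x + 1 ≤ G.tl y)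
    have h4 := (G.tl_spec y).1
    have h5 := (G.tl_spec x).2
    push_cast at h3 ⊢
    linarith

theorem abs_tl_sub_lt (x y : ℝ) : |((G.tl y - G.tl x : ℤ) : ℝ)| < |y - x| + 1 := by
  rcases le_total x y with h | h
  · have h1 := G.tl_sub_lt h
    have h2 : (0 : ℝ) ≤ ((G.tl y - G.tl x : ℤ) : ℝ) := by
      have := G.tl_mono h
      exact_mod_cast (by omega : (0 : ℤ) ≤ G.tl y - G.tl x)
    rw [abs_of_nonneg h2, abs_of_nonneg (by linarith)]
    exact h1
  · have h1 := G.tl_sub_lt h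
    have h2 : ((G.tl y - G.tl x : ℤ) : ℝ) ≤ 0 := by
      have := G.tl_mono h
      exact_mod_cast (by omega : G.tl y - G.tl x ≤ (0 : ℤ))
    rw [abs_of_nonpos h2, abs_of_nonpos (by linarith)]
    push_cast at h1 ⊢
    linarith

theorem re_v (x : ℝ) : G.re (G.v x) = G.P (G.tl x) := rfl

theorem v_P (n : ℤ) : G.v (G.P n) = G.pos n := by
  unfold v
  rw [tl_P]

theorem re_injective : Function.Injective G.re := G.re.injective

end H69.ED.Geo
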