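import Pool.Agent.H69.ED.Scale

/-!
# Mat: matched points

* `mt_tile`: being matched under `r` depends on the tile only: if `Mt r x` then with `i = tl x` and
  `j = tl (x + re r)` one has `pos j = pos i + r` and `z j = z i`, so `ell (z j) = ell (z i)` and for every
  `y` in the tile `i` the point `y + re r` lies in the tile `j` (`tl_unique`).
* `mt_scale`: with `i, j` as before `pos (io j) = pos (io i) + lam r` and the images of the letters `z i`,
  `z j` are equal, so (`io_word` with `n = 1`) the tile `io i + t` of `L x` and the tile `io j + t` of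
  `L x + re (lam r)` match.
* `mt_trans`, `mt_symm`, `mt_zero`: by definition (`x + re (r+s) = x + re r + re s`).
* `mt_local`: from `Mt d x`, `Mt e (x + re r)`: `v (x + re d) = v x + d`, `v (x + re r + re e) = v (x + re r) + e`
  and `x + re d + re (r+e-d) = x + re r + re e`.
* `mt_word`: `x` in the tile `p + i`, `i < n`: by `pos_word` the tile `q + i` is its translate by
  `pos q - pos p`.
-/

namespace H69.ED.Geo

variable {A K : Type} [Fintype A] [Field K] [NumberField K] (G : Geo A K)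

theorem mt_of_partner {r : K} {i j : ℤ} (h1 : G.pos j = G.pos i + r) (h2 : G.z j = G.z i) {x : ℝ}
    (hx : G.tl x = i) : G.Mt r x := by
  have hs := G.tl_spec x
  rw [hx] at hs
  have hPj : G.P j = G.P i + G.re r := by
    show G.re (G.pos j) = G.re (G.pos i) + G.re r
    rw [h1, map_add]
  have hj : G.tl (x + G.re r) = j := by
    apply G.tl_unique
    · rw [hPj]; linarith [hs.1]
    · rw [G.P_succ, hPj, h2]
      have h3 := hs.2
      rw [G.P_succ] at h3
      linarith
  refine ⟨?_, ?_⟩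
  · show G.pos (G.tl (x + G.re r)) = G.pos (G.tl x) + r
    rw [hj, hx, h1]
  · show G.z (G.tl (x + G.re r)) = G.z (G.tl x)
    rw [hj, hx, h2]

theorem mt_tile {r : K} {x y : ℝ} (h : G.Mt r x) (hy : G.tl y = G.tl x) : G.Mt r y :=
  G.mt_of_partner (i := G.tl x) (j := G.tl (x + G.re r)) h.1 h.2 hy

/-- the partner tile -/
theorem mt_partner {r : K} {i : ℤ} (h : G.Mt r (G.P i)) :
    ∃ j : ℤ, G.pos j = G.pos i + r ∧ G.z j = G.z i := by
  refine ⟨G.tl (G.P i + G.re r), ?_, ?_⟩
  · have h1 : G.pos (G.tl (G.P i + G.re r)) = G.pos (G.tl (G.P i)) + r := h.1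
    rw [G.tl_P] at h1
    exact h1
  · have h1 : G.z (G.tl (G.P i + G.re r)) = G.z (G.tl (G.P i)) := h.2
    rw [G.tl_P] at h1
    exact h1

theorem mt_scale {r : K} {x : ℝ} (h : G.Mt r x) : G.Mt (G.lam * r) (G.L * x) := by
  have h1 : G.pos (G.tl (x + G.re r)) = G.pos (G.tl x) + r := h.1
  have h2 : G.z (G.tl (x + G.re r)) = G.z (G.tl x) := h.2
  set i := G.tl x with hi
  set j := G.tl (x + G.re r) with hj
  have hsc := G.tl_scale 1 x
  rw [pow_one, Function.iterate_one, ← hi] at hsc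
  obtain ⟨t, ht⟩ : ∃ t : ℕ, G.tl (G.L * x) = G.io i + t :=
    ⟨(G.tl (G.L * x) - G.io i).toNat, by
      rw [Int.toNat_of_nonneg (by linarith [hsc.1])]; ring⟩
  have hlt : (t : ℤ) < G.io (i + 1) - G.io i := by
    have := hsc.2
    rw [ht] at this
    linarith
  have hw : ∀ m : ℕ, m < 1 → G.z (i + m) = G.z (j + m) := by
    intro m hm
    have hm0 : m = 0 := by omega
    subst hm0
    simpa using h2.symm
  have hio := G.io_word hw
  have hlt' : (t : ℤ) < G.io (i + (1 : ℕ)) - G.io i := by simpa using hlt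
  have hz : G.z (G.io i + t) = G.z (G.io j + t) := hio.2 t hlt'
  have hpos : G.pos (G.io i + t) - G.pos (G.io i) = G.pos (G.io j + t) - G.pos (G.io j) := by
    have h5 : ∀ m : ℕ, m < t → G.z (G.io i + m) = G.z (G.io j + m) := by
      intro m hm
      apply hio.2 m
      have : (m : ℤ) < t := by exact_mod_cast hm
      linarith
    exact G.pos_word h5 t le_rfl
  apply G.mt_of_partner (i := G.io i + t) (j := G.io j + t) _ hz.symm ht
  rw [G.pos_io, G.pos_io, h1] at hpos
  linear_combination -hpos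

theorem mt_scale_pow (k : ℕ) {r : K} {x : ℝ} (h : G.Mt r x) :
    G.Mt (G.lam ^ k * r) (G.L ^ k * x) := by
  induction k with
  | zero => simpa using h
  | succ k ih =>
    have h1 := G.mt_scale ih
    rw [pow_succ', pow_succ', mul_assoc, mul_assoc]
    exact h1

theorem mt_zero (x : ℝ) : G.Mt 0 x := by
  refine ⟨?_, ?_⟩
  · rw [map_zero, add_zero, add_zero]
  · rw [map_zero, add_zero]

theorem mt_trans {r s : K} {x : ℝ} (h1 : G.Mt r x) (h2 : G.Mt s (x + G.re r)) :
    G.Mt (r + s) x := by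
  have hx : x + G.re (r + s) = x + G.re r + G.re s := by rw [map_add]; ring
  refine ⟨?_, ?_⟩
  · rw [hx, h2.1, h1.1]; ring
  · rw [hx, h2.2, h1.2]

theorem mt_symm {r : K} {x : ℝ} : G.Mt r x ↔ G.Mt (-r) (x + G.re r) := by
  have hx : x + G.re r + G.re (-r) = x := by rw [map_neg]; ring
  unfold Mt
  rw [hx]
  constructor
  · rintro ⟨h1, h2⟩
    exact ⟨by rw [h1]; ring, h2.symm⟩
  · rintro ⟨h1, h2⟩
    exact ⟨by rw [h1]; ring, h2.symm⟩

theorem mt_local {r d e : K} {x : ℝ} (h1 : G.Mt d x) (h2 : G.Mt e (x + G.re r)) :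
    G.Mt r x ↔ G.Mt (r + e - d) (x + G.re d) := by
  have hx : x + G.re d + G.re (r + e - d) = x + G.re r + G.re e := by
    rw [map_sub, map_add]; ring
  obtain ⟨a1, a2⟩ := h1
  obtain ⟨b1, b2⟩ := h2
  unfold Mt
  rw [hx, a1, a2, b1, b2]
  constructor
  · rintro ⟨c1, c2⟩
    exact ⟨by rw [c1]; ring, c2⟩
  · rintro ⟨c1, c2⟩
    exact ⟨by linear_combination c1, c2⟩

theorem mt_word {p q : ℤ} {n : ℕ} (h : ∀ i : ℕ, i < n → G.z (p + i) = G.z (q + i)) {x : ℝ}
    (h1 : G.P p ≤ x) (h2 : x < G.P (p + n)) : G.Mt (G.pos q - G.pos p) x := by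
  have e1 : p ≤ G.tl x := (G.le_tl_iff p x).2 h1
  have e2 : G.tl x < p + n := (G.tl_lt_iff _ x).2 h2
  obtain ⟨i, hi⟩ : ∃ i : ℕ, G.tl x = p + i :=
    ⟨(G.tl x - p).toNat, by rw [Int.toNat_of_nonneg (by linarith)]; ring⟩
  have hin : i < n := by
    rw [hi] at e2
    have : (i : ℤ) < n := by linarith
    exact_mod_cast this
  have hp := G.pos_word h i hin.le
  exact G.mt_of_partner (i := p + i) (j := q + i) (by linear_combination -hp) (h i hin).symm hi

end H69.ED.Geo
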