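import Pool.Agent.H69.ED.Hts

/-!
# MeanA: integrals of `φ (v x)`

`v` is a function of `tl`, `tl : ℝ → ℤ` is monotone, hence measurable, and every function on `ℤ` is measurable;
on a bounded interval `tl` takes finitely many values, so `φ ∘ v` is bounded there: `int_v`.
`int_tile`: on `(P n, P (n+1))` the integrand is constant.

`Iv φ k n y` is the integral of `φ (v x) - φ lam ^ k φ (pos n)` from `L^k P n` to `y`.

`Iv_step`: additivity at the points `L^k P m = P (io^[k] m)`: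
`Iv φ (k+1) n (L^(k+1) P (n+1)) = ∑_{m ∈ [io n, io (n+1))} (Iv φ k m (L^k P (m+1)) +
  L^k re (ell (z m)) φ lam ^ k (φ (pos m) - φ lam φ (pos n)))`, because `L^(k+1) P n = L^k P (io n)` and the
integrands differ by the constant `φ lam ^ k (φ (pos m) - φ lam φ (pos n))` on
`[L^k P m, L^k P (m+1))`, an interval of length `L^k re (ell (z m))`.

`Iv_step_part`: the same for a partial integral: for `y` with `L^k P m₀ ≤ y ≤ L^k P (m₀+1)`,
`io n ≤ m₀ < io (n+1)`: sum over `m ∈ [io n, m₀)` plus the partial term.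
-/

namespace H69.ED.Geo

open MeasureTheory intervalIntegral

variable {A K : Type} [Fintype A] [Field K] [NumberField K] (G : Geo A K)

noncomputable def Iv (φ : K →+* ℂ) (k : ℕ) (n : ℤ) (y : ℝ) : ℂ :=
  ∫ x in (G.L ^ k * G.P n)..y, (φ (G.v x) - φ G.lam ^ k * φ (G.pos n))

private theorem meanA_sum (f : ℝ → ℂ) (hf : ∀ a b, IntervalIntegrable f volume a b) (b : ℤ → ℝ)
    {m n : ℤ} (h : m ≤ n) :
    ∑ i ∈ Finset.Ico m n, ∫ x in (b i)..(b (i + 1)), f x = ∫ x in (b m)..(b n), f x := by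
  induction n, h using Int.leInduction with
  | base => simp
  | succ n hn ih =>
    have e : Finset.Ico m (n + 1) = insert n (Finset.Ico m n) := by
      ext i; simp only [Finset.mem_Ico, Finset.mem_insert]; omega
    have hnot : n ∉ Finset.Ico m n := by simp
    rw [e, Finset.sum_insert hnot, ih, add_comm]
    exact integral_add_adjacent_intervals (hf _ _) (hf _ _)

theorem int_v (φ : K →+* ℂ) (a b : ℝ) : IntervalIntegrable (fun x => φ (G.v x)) volume a b := by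
  have hm : Measurable (fun x => φ (G.v x)) := by
    have h1 : Measurable G.tl := Monotone.measurable (fun x y h => G.tl_mono h)
    have h2 : Measurable (fun n : ℤ => φ (G.pos n)) := measurable_from_top
    exact h2.comp h1
  rw [intervalIntegrable_iff]
  refine Measure.integrableOn_of_bounded (M := ∑ i ∈ Finset.Icc (G.tl (min a b)) (G.tl (max a b)),
    ‖φ (G.pos i)‖) ?_ hm.aestronglyMeasurable ?_
  · rw [Set.uIoc]; simp
  · refine (ae_restrict_iff' measurableSet_uIoc).2 (Filter.Eventually.of_forall fun x hx => ?_)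
    rw [Set.uIoc, Set.mem_Ioc] at hx
    have h1 : G.tl (min a b) ≤ G.tl x := G.tl_mono hx.1.le
    have h2 : G.tl x ≤ G.tl (max a b) := G.tl_mono hx.2
    exact Finset.single_le_sum (f := fun i => ‖φ (G.pos i)‖) (fun i _ => norm_nonneg _)
      (Finset.mem_Icc.2 ⟨h1, h2⟩)

private theorem meanA_congr (φ : K →+* ℂ) (n : ℤ) {y : ℝ} (h1 : G.P n ≤ y)
    (h2 : y ≤ G.P (n + 1)) (c : ℂ) :
    ∫ x in (G.P n)..y, (φ (G.v x) - c) = ∫ _x in (G.P n)..y, (φ (G.pos n) - c) := by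
  refine integral_congr_ae ?_
  have h3 : ∀ᵐ x : ℝ ∂volume, x ≠ G.P (n + 1) := by
    simp [ae_iff, measure_singleton]
  filter_upwards [h3] with x hx hx2
  rw [Set.uIoc_of_le h1, Set.mem_Ioc] at hx2
  have h4 : x < G.P (n + 1) := lt_of_le_of_ne (hx2.2.trans h2) hx
  have h5 : G.tl x = n := G.tl_unique hx2.1.le h4
  simp only [Geo.v, h5]

theorem int_tile (φ : K →+* ℂ) (n : ℤ) {y : ℝ} (h1 : G.P n ≤ y) (h2 : y ≤ G.P (n + 1)) :
    ∫ x in (G.P n)..y, φ (G.v x) = ((y - G.P n : ℝ) : ℂ) * φ (G.pos n) := by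
  have h := G.meanA_congr φ n h1 h2 0
  simp only [sub_zero] at h
  rw [h, intervalIntegral.integral_const]
  simp

theorem Iv_zero (φ : K →+* ℂ) (n : ℤ) {y : ℝ} (h1 : G.P n ≤ y) (h2 : y ≤ G.P (n + 1)) :
    G.Iv φ 0 n y = 0 := by
  unfold Geo.Iv
  simp only [pow_zero, one_mul]
  rw [G.meanA_congr φ n h1 h2]
  simp

private theorem meanA_piece (φ : K →+* ℂ) (k : ℕ) (n m : ℤ) (y : ℝ) :
    ∫ x in (G.L ^ k * G.P m)..y, (φ (G.v x) - φ G.lam ^ (k + 1) * φ (G.pos n)) =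
      G.Iv φ k m y + ((y - G.L ^ k * G.P m : ℝ) : ℂ) *
          (φ G.lam ^ k * (φ (G.pos m) - φ G.lam * φ (G.pos n))) := by
  have e : ∀ x : ℝ, φ (G.v x) - φ G.lam ^ (k + 1) * φ (G.pos n) =
      (φ (G.v x) - φ G.lam ^ k * φ (G.pos m)) +
        φ G.lam ^ k * (φ (G.pos m) - φ G.lam * φ (G.pos n)) := by
    intro x; ring
  simp only [e]
  rw [integral_add ((G.int_v φ _ _).sub intervalIntegrable_const) intervalIntegrable_const,
    intervalIntegral.integral_const]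
  unfold Geo.Iv
  simp

private theorem meanA_P_io (n : ℤ) (k : ℕ) : G.L ^ (k + 1) * G.P n = G.L ^ k * G.P (G.io n) := by
  have h := G.P_iter 1 n
  rw [Function.iterate_one, pow_one] at h
  rw [h, pow_succ]; ring

theorem Iv_step_part (φ : K →+* ℂ) (k : ℕ) (n m₀ : ℤ) (h1 : G.io n ≤ m₀)
    (h2 : m₀ < G.io (n + 1)) (y : ℝ) (h3 : G.L ^ k * G.P m₀ ≤ y) (h4 : y ≤ G.L ^ k * G.P (m₀ + 1)) :
    G.Iv φ (k + 1) n y =
      ∑ m ∈ Finset.Ico (G.io n) m₀, (G.Iv φ k m (G.L ^ k * G.P (m + 1)) +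
        ((G.L ^ k * G.re (G.ell (G.z m)) : ℝ) : ℂ) *
          (φ G.lam ^ k * (φ (G.pos m) - φ G.lam * φ (G.pos n)))) +
      (G.Iv φ k m₀ y + ((y - G.L ^ k * G.P m₀ : ℝ) : ℂ) *
          (φ G.lam ^ k * (φ (G.pos m₀) - φ G.lam * φ (G.pos n)))) := by
  have hint : ∀ a b, IntervalIntegrable
      (fun x => φ (G.v x) - φ G.lam ^ (k + 1) * φ (G.pos n)) volume a b :=
    fun a b => (G.int_v φ a b).sub intervalIntegrable_const
  have e1 : G.Iv φ (k + 1) n y =
      ∫ x in (G.L ^ k * G.P (G.io n))..y, (φ (G.v x) - φ G.lam ^ (k + 1) * φ (G.pos n)) := by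
    unfold Geo.Iv
    rw [G.meanA_P_io]
  rw [e1, ← integral_add_adjacent_intervals (hint _ (G.L ^ k * G.P m₀)) (hint _ _),
    ← meanA_sum _ hint (fun m => G.L ^ k * G.P m) h1, G.meanA_piece φ k n m₀ y]
  congr 1
  refine Finset.sum_congr rfl fun m _ => ?_
  rw [G.meanA_piece φ k n m]
  congr 3
  rw [G.P_succ m]; ring

theorem Iv_step (φ : K →+* ℂ) (k : ℕ) (n : ℤ) :
    G.Iv φ (k + 1) n (G.L ^ (k + 1) * G.P (n + 1)) =
      ∑ m ∈ Finset.Ico (G.io n) (G.io (n + 1)), (G.Iv φ k m (G.L ^ k * G.P (m + 1)) +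
        ((G.L ^ k * G.re (G.ell (G.z m)) : ℝ) : ℂ) *
          (φ G.lam ^ k * (φ (G.pos m) - φ G.lam * φ (G.pos n)))) := by
  have hint : ∀ a b, IntervalIntegrable
      (fun x => φ (G.v x) - φ G.lam ^ (k + 1) * φ (G.pos n)) volume a b :=
    fun a b => (G.int_v φ a b).sub intervalIntegrable_const
  have hle : G.io n ≤ G.io (n + 1) := (G.io_strictMono (by omega)).le
  have e1 : G.Iv φ (k + 1) n (G.L ^ (k + 1) * G.P (n + 1)) =
      ∫ x in (G.L ^ k * G.P (G.io n))..(G.L ^ k * G.P (G.io (n + 1))),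
        (φ (G.v x) - φ G.lam ^ (k + 1) * φ (G.pos n)) := by
    unfold Geo.Iv
    rw [G.meanA_P_io, G.meanA_P_io]
  rw [e1, ← meanA_sum _ hint (fun m => G.L ^ k * G.P m) hle]
  refine Finset.sum_congr rfl fun m _ => ?_
  rw [G.meanA_piece φ k n m]
  congr 3
  rw [G.P_succ m]; ring

end H69.ED.Geo
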