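import Pool.Agent.H69.ED.MeanA

/-!
# MeanB: bounds for the integrals over tiles

Let `φ` be non-contracting, `ζ = φ lam`, `θ = L ζ`: `‖θ‖ = L ‖ζ‖ ≥ L` and `θ ≠ L` because `ζ ≠ 1`
(if `φ lam = 1` then `lam = 1` by injectivity, but `re lam > 1`).

`full_bd`: let `g a = ∑_{j < |tau a|} re (ell (tau a)_j) φ (sum of ell over the first j letters of tau a)` and `u`
with `∑_{b ∈ tau a} u b - θ u a = g a` (`solv`). For `n` with `z n = a`:
`∑_{m ∈ [io n, io (n+1))} re (ell (z m)) (φ (pos m) - ζ φ (pos n)) = g a` (`pos (io n) = lam pos n`). Claim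
`Iv φ k n (L^k P (n+1)) = ∑_{m ∈ [io^[k] n, io^[k] (n+1))} u (z m) - θ^k u (z n)`: induction on `k` with `Iv_step`:
`∑_{m} (∑_{m' ∈ desc_k m} u (z m') - θ^k u (z m)) + L^k ζ^k g a
 = ∑_{m' ∈ desc_{k+1} n} u (z m') - θ^k (g a + θ u a) + θ^k g a`. The number of descendants is at most
`L^k re (ell (z n)) ≤ L^k lm` (`iter_sub_le`), so the norm is at most `2 lm max|u| (L ‖ζ‖)^k`.

`part_bd`: induction on `k` with `Iv_step_part` (`k = 0`: `Iv_zero`): the number of `m` is at most `L lm`, each full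
integral is at most `C (L‖ζ‖)^k`, and `‖φ (pos m) - ζ φ (pos n)‖ = ‖φ (pos m) - φ (pos (io n))‖ ≤ C' L lm`
(`lip`), the lengths are at most `L^(k+1) lm`. So `B_{k+1} ≤ B_k + C'' (L‖ζ‖)^k`, and `L‖ζ‖ ≥ L > 1`:
`B_k ≤ C''' (L‖ζ‖)^k`.
-/

namespace H69.ED.Geo

variable {A K : Type} [Fintype A] [Field K] [NumberField K] (G : Geo A K)

private theorem meanB_range {M : Type*} [AddCommMonoid M] (f : ℤ → M) (a : ℤ) (N : ℕ) :
    ∑ m ∈ Finset.Ico a (a + N), f m = ∑ j ∈ Finset.range N, f (a + j) := by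
  induction N with
  | zero => simp
  | succ N ih =>
    have e : Finset.Ico a (a + (N + 1 : ℕ)) = insert (a + N) (Finset.Ico a (a + N)) := by
      ext i; simp only [Finset.mem_Ico, Finset.mem_insert]; push_cast; omega
    have hnot : a + (N : ℤ) ∉ Finset.Ico a (a + N) := by simp
    rw [e, Finset.sum_insert hnot, ih, Finset.sum_range_succ, add_comm]

private theorem meanB_concat {M : Type*} [AddCommMonoid M] (f : ℤ → M) (b : ℤ → ℤ)
    (hb : StrictMono b) {p q : ℤ} (h : p ≤ q) :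
    ∑ m ∈ Finset.Ico p q, ∑ m' ∈ Finset.Ico (b m) (b (m + 1)), f m' =
      ∑ m' ∈ Finset.Ico (b p) (b q), f m' := by
  induction q, h using Int.leInduction with
  | base => simp
  | succ n hn ih =>
    have e : Finset.Ico p (n + 1) = insert n (Finset.Ico p n) := by
      ext i; simp only [Finset.mem_Ico, Finset.mem_insert]; omega
    have hnot : n ∉ Finset.Ico p n := by simp
    rw [e, Finset.sum_insert hnot, ih, add_comm,
      ← Finset.sum_union (Finset.Ico_disjoint_Ico_consecutive _ _ _),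
      Finset.Ico_union_Ico_eq_Ico (hb.monotone hn) (hb.monotone (by omega))]

private theorem meanB_lam_ne_one (φ : K →+* ℂ) : φ G.lam ≠ 1 := by
  intro h
  have h1 : φ G.lam = φ 1 := by rw [h, map_one]
  have h2 : G.lam = 1 := φ.injective h1
  have h3 := G.one_lt
  rw [h2, map_one] at h3
  exact lt_irrefl _ h3

private noncomputable def meanB_g (φ : K →+* ℂ) (a : A) : ℂ :=
  ∑ j ∈ Finset.range (G.tau a).length,
    ((G.re ((((G.tau a).map G.ell).getD j 0)) : ℝ) : ℂ) *
      φ ((((G.tau a).map G.ell).take j).sum)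

private theorem meanB_img (n : ℤ) (j : ℕ) (h : j < (G.tau (G.z n)).length) :
    ((G.tau (G.z n)).map G.ell).getD j 0 = G.ell (G.z (G.io n + j)) := by
  rw [List.getD_eq_getElem _ _ (by simpa using h), List.getElem_map, G.img n j h]

private theorem meanB_take (n : ℤ) (j : ℕ) (h : j ≤ (G.tau (G.z n)).length) :
    (((G.tau (G.z n)).map G.ell).take j).sum = G.pos (G.io n + j) - G.lam * G.pos n := by
  induction j with
  | zero => simp [G.pos_io]
  | succ j ih =>
    have hj : j < (G.tau (G.z n)).length := by omega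
    have hj' : j < ((G.tau (G.z n)).map G.ell).length := by simpa using hj
    rw [List.take_succ_eq_append_getElem hj', List.sum_append, ih hj.le]
    have e1 : ((G.tau (G.z n)).map G.ell)[j] = G.ell (G.z (G.io n + j)) := by
      rw [List.getElem_map, G.img n j hj]
    have e2 : G.io n + ((j + 1 : ℕ) : ℤ) = G.io n + j + 1 := by push_cast; ring
    rw [e2, G.pos_succ]
    simp only [List.sum_cons, List.sum_nil, add_zero, e1]
    ring

private theorem meanB_sum_g (φ : K →+* ℂ) (n : ℤ) :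
    ∑ m ∈ Finset.Ico (G.io n) (G.io (n + 1)), ((G.re (G.ell (G.z m)) : ℝ) : ℂ) *
      (φ (G.pos m) - φ G.lam * φ (G.pos n)) = G.meanB_g φ (G.z n) := by
  rw [G.io_succ, meanB_range]
  refine Finset.sum_congr rfl fun j hj => ?_
  have hj' := Finset.mem_range.1 hj
  rw [G.meanB_img n j hj', G.meanB_take n j hj'.le, map_sub, map_mul]

private theorem meanB_sum_u (u : A → ℂ) (n : ℤ) :
    ∑ m ∈ Finset.Ico (G.io n) (G.io (n + 1)), u (G.z m) = ((G.tau (G.z n)).map u).sum := by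
  rw [G.io_succ, meanB_range]
  have h : ∀ N ≤ (G.tau (G.z n)).length, ∑ j ∈ Finset.range N, u (G.z (G.io n + j)) =
      (((G.tau (G.z n)).map u).take N).sum := by
    intro N
    induction N with
    | zero => simp
    | succ N ih =>
      intro hN
      have hj : N < (G.tau (G.z n)).length := by omega
      have hj' : N < ((G.tau (G.z n)).map u).length := by simpa using hj
      rw [Finset.sum_range_succ, ih hj.le, List.take_succ_eq_append_getElem hj', List.sum_append]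
      have e1 : ((G.tau (G.z n)).map u)[N] = u (G.z (G.io n + N)) := by
        rw [List.getElem_map, G.img n N hj]
      simp only [List.sum_cons, List.sum_nil, add_zero, e1]
  rw [h _ le_rfl, List.take_of_length_le (by simp)]

private theorem meanB_full (φ : K →+* ℂ) (u : A → ℂ)
    (hu : ∀ a, ((G.tau a).map u).sum - ((G.L : ℝ) : ℂ) * φ G.lam * u a = G.meanB_g φ a)
    (k : ℕ) : ∀ n : ℤ, G.Iv φ k n (G.L ^ k * G.P (n + 1)) =
      ∑ m ∈ Finset.Ico (G.io^[k] n) (G.io^[k] (n + 1)), u (G.z m) -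
        (((G.L : ℝ) : ℂ) * φ G.lam) ^ k * u (G.z n) := by
  induction k with
  | zero =>
    intro n
    have h1 : G.P n ≤ G.P (n + 1) := G.P_strictMono.monotone (by omega)
    have e : G.L ^ 0 * G.P (n + 1) = G.P (n + 1) := by simp
    rw [e, G.Iv_zero φ n h1 le_rfl]
    have e2 : Finset.Ico n (n + 1) = {n} := by
      ext i; simp only [Finset.mem_Ico, Finset.mem_singleton]; omega
    simp [e2]
  | succ k ih =>
    intro n
    have hle : G.io n ≤ G.io (n + 1) := (G.io_strictMono (by omega)).le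
    rw [G.Iv_step φ k n, Finset.sum_add_distrib]
    have e1 : ∑ m ∈ Finset.Ico (G.io n) (G.io (n + 1)), G.Iv φ k m (G.L ^ k * G.P (m + 1)) =
        ∑ m ∈ Finset.Ico (G.io^[k + 1] n) (G.io^[k + 1] (n + 1)), u (G.z m) -
        (((G.L : ℝ) : ℂ) * φ G.lam) ^ k * ((G.tau (G.z n)).map u).sum := by
      simp only [ih]
      rw [Finset.sum_sub_distrib, meanB_concat _ _ (G.iter_strictMono k) hle, ← Finset.mul_sum,
        G.meanB_sum_u, Function.iterate_succ_apply, Function.iterate_succ_apply]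
    have e2 : ∑ m ∈ Finset.Ico (G.io n) (G.io (n + 1)),
        ((G.L ^ k * G.re (G.ell (G.z m)) : ℝ) : ℂ) *
          (φ G.lam ^ k * (φ (G.pos m) - φ G.lam * φ (G.pos n))) =
        (((G.L : ℝ) : ℂ) * φ G.lam) ^ k * G.meanB_g φ (G.z n) := by
      rw [← G.meanB_sum_g, Finset.mul_sum]
      refine Finset.sum_congr rfl fun m _ => ?_
      push_cast
      ring
    rw [e1, e2, ← hu (G.z n)]
    ring

private theorem meanB_one_le {φ : K →+* ℂ} (hφ : G.Non φ) : G.L ≤ G.L * ‖φ G.lam‖ := by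
  have h1 := hφ.1
  have h2 := G.L_gt_one
  nlinarith

private theorem meanB_tile (n : ℤ) : G.P (n + 1) - G.P n ≤ G.lm := by
  have := G.P_succ_le n
  linarith

theorem full_bd (φ : K →+* ℂ) (hφ : G.Non φ) : ∃ C : ℝ, 0 ≤ C ∧ ∀ (k : ℕ) (n : ℤ),
    ‖G.Iv φ k n (G.L ^ k * G.P (n + 1))‖ ≤ C * (G.L * ‖φ G.lam‖) ^ k := by
  have hL := G.L_gt_one
  have hL0 : 0 < G.L := by linarith
  have hq := G.meanB_one_le hφ
  have hlm := G.one_le_lm
  obtain ⟨u, hu⟩ := G.solv (((G.L : ℝ) : ℂ) * φ G.lam) (by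
      rw [norm_mul, Complex.norm_real, Real.norm_eq_abs, abs_of_pos hL0]
      exact hq) (by
      intro h
      have h0 : ((G.L : ℝ) : ℂ) ≠ 0 := by exact_mod_cast hL0.ne'
      have h1 : ((G.L : ℝ) : ℂ) * φ G.lam = ((G.L : ℝ) : ℂ) * 1 := by rw [mul_one]; exact h
      exact G.meanB_lam_ne_one φ (mul_left_cancel₀ h0 h1)) (G.meanB_g φ)
  set U : ℝ := ∑ a, ‖u a‖ with hU
  have hU0 : 0 ≤ U := Finset.sum_nonneg fun a _ => norm_nonneg _
  have hUa : ∀ a, ‖u a‖ ≤ U := fun a =>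
    Finset.single_le_sum (f := fun a => ‖u a‖) (fun i _ => norm_nonneg _) (Finset.mem_univ a)
  refine ⟨U * (G.lm + 1), by positivity, fun k n => ?_⟩
  rw [G.meanB_full φ u hu k n]
  have hmono := G.iter_strictMono k
  have hle : G.io^[k] n ≤ G.io^[k] (n + 1) := (hmono (by omega)).le
  have h1 : ‖∑ m ∈ Finset.Ico (G.io^[k] n) (G.io^[k] (n + 1)), u (G.z m)‖ ≤
      (G.L ^ k * G.lm) * U := by
    refine (norm_sum_le_of_le _ (fun m _ => hUa (G.z m))).trans ?_
    rw [Finset.sum_const, nsmul_eq_mul]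
    refine mul_le_mul_of_nonneg_right ?_ hU0
    have h2 := G.iter_sub_le k (m := n) (n := n + 1) (by omega)
    have h3 : ((Finset.Ico (G.io^[k] n) (G.io^[k] (n + 1))).card : ℝ) =
        ((G.io^[k] (n + 1) - G.io^[k] n : ℤ) : ℝ) := by
      rw [Int.card_Ico]
      exact_mod_cast (Int.toNat_of_nonneg (by omega :
        0 ≤ G.io^[k] (n + 1) - G.io^[k] n))
    rw [h3]
    refine h2.trans ?_
    exact mul_le_mul_of_nonneg_left (G.meanB_tile n) (by positivity)
  have h2 : ‖(((G.L : ℝ) : ℂ) * φ G.lam) ^ k * u (G.z n)‖ ≤ (G.L * ‖φ G.lam‖) ^ k * U := by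
    rw [norm_mul, norm_pow, norm_mul, Complex.norm_real, Real.norm_eq_abs, abs_of_pos hL0]
    exact mul_le_mul_of_nonneg_left (hUa _) (by positivity)
  have h3 : G.L ^ k ≤ (G.L * ‖φ G.lam‖) ^ k := pow_le_pow_left₀ hL0.le hq k
  calc _ ≤ _ + _ := norm_sub_le _ _
    _ ≤ (G.L ^ k * G.lm) * U + (G.L * ‖φ G.lam‖) ^ k * U := add_le_add h1 h2
    _ ≤ ((G.L * ‖φ G.lam‖) ^ k * G.lm) * U + (G.L * ‖φ G.lam‖) ^ k * U := by gcongr
    _ = U * (G.lm + 1) * (G.L * ‖φ G.lam‖) ^ k := by ring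

theorem part_bd (φ : K →+* ℂ) (hφ : G.Non φ) : ∃ C : ℝ, 0 ≤ C ∧ ∀ (k : ℕ) (n : ℤ) (y : ℝ),
    G.L ^ k * G.P n ≤ y → y ≤ G.L ^ k * G.P (n + 1) →
    ‖G.Iv φ k n y‖ ≤ C * (G.L * ‖φ G.lam‖) ^ k := by
  obtain ⟨C1, hC1, hfull⟩ := G.full_bd φ hφ
  obtain ⟨C2, hC2, hlip⟩ := G.lip
  have hL := G.L_gt_one
  have hL0 : 0 < G.L := by linarith
  have hlm := G.one_le_lm
  have hlm0 : 0 < G.lm := by linarith
  have hq := G.meanB_one_le hφ
  set q : ℝ := G.L * ‖φ G.lam‖ with hqdef
  have hq0 : 0 < q := by linarith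
  set N : ℝ := G.L * G.lm with hN
  have hN0 : 0 < N := by positivity
  set E : ℝ := N * (C1 + G.lm * (C2 * N)) + G.lm * (C2 * N) with hE
  have hE0 : 0 ≤ E := by positivity
  have hL1 : 0 < G.L - 1 := by linarith
  have hstep : ∀ n : ℤ, ((G.io (n + 1) - G.io n : ℤ) : ℝ) ≤ N := by
    intro n
    have h := G.iter_sub_le 1 (m := n) (n := n + 1) (by omega)
    simp only [Function.iterate_one, pow_one] at h
    exact h.trans (mul_le_mul_of_nonneg_left (G.meanB_tile n) hL0.le)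
  have hdiff : ∀ n m : ℤ, G.io n ≤ m → m < G.io (n + 1) →
      ‖φ (G.pos m) - φ G.lam * φ (G.pos n)‖ ≤ C2 * N := by
    intro n m h1 h2
    rw [← map_mul, ← G.pos_io]
    refine (hlip φ m (G.io n)).trans (mul_le_mul_of_nonneg_left ?_ (by linarith))
    have h3 : (0 : ℝ) ≤ ((m - G.io n : ℤ) : ℝ) := by exact_mod_cast (by omega : 0 ≤ m - G.io n)
    rw [abs_of_nonneg h3]
    refine le_trans ?_ (hstep n)
    exact_mod_cast (by omega : m - G.io n ≤ G.io (n + 1) - G.io n)
  have hterm : ∀ (k : ℕ) (n m : ℤ) (t : ℝ), 0 ≤ t → t ≤ G.L ^ k * G.lm → G.io n ≤ m →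
      m < G.io (n + 1) →
      ‖((t : ℝ) : ℂ) * (φ G.lam ^ k * (φ (G.pos m) - φ G.lam * φ (G.pos n)))‖ ≤
        G.lm * (C2 * N) * q ^ k := by
    intro k n m t ht0 ht1 h1 h2
    rw [norm_mul, norm_mul, norm_pow, Complex.norm_real, Real.norm_eq_abs, abs_of_nonneg ht0]
    calc t * (‖φ G.lam‖ ^ k * ‖φ (G.pos m) - φ G.lam * φ (G.pos n)‖)
        ≤ (G.L ^ k * G.lm) * (‖φ G.lam‖ ^ k * (C2 * N)) := by
          refine mul_le_mul ht1 ?_ (by positivity) (by positivity)
          exact mul_le_mul_of_nonneg_left (hdiff n m h1 h2) (by positivity)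
      _ = G.lm * (C2 * N) * q ^ k := by rw [hqdef, mul_pow]; ring
  refine ⟨E / (G.L - 1), by positivity, fun k => ?_⟩
  induction k with
  | zero =>
    intro n y h1 h2
    simp only [pow_zero, one_mul] at h1 h2
    rw [G.Iv_zero φ n h1 h2]
    simp only [norm_zero]
    positivity
  | succ k ih =>
    intro n y h1 h2
    have hLk : 0 < G.L ^ k := pow_pos hL0 k
    have hPio : ∀ m : ℤ, G.L ^ (k + 1) * G.P m = G.L ^ k * G.P (G.io m) := by
      intro m
      have h := G.P_iter 1 m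
      rw [Function.iterate_one, pow_one] at h
      rw [h, pow_succ]; ring
    rw [hPio] at h1 h2
    have hy1 : G.P (G.io n) ≤ y / G.L ^ k := by rw [le_div_iff₀ hLk]; linarith
    have hy2 : y / G.L ^ k ≤ G.P (G.io (n + 1)) := by rw [div_le_iff₀ hLk]; linarith
    have hyk : G.L ^ k * (y / G.L ^ k) = y := by field_simp
    have hlt : G.io n < G.io (n + 1) := G.io_strictMono (by omega)
    have hex : ∃ m₀ : ℤ, G.io n ≤ m₀ ∧ m₀ < G.io (n + 1) ∧ G.P m₀ ≤ y / G.L ^ k ∧
        y / G.L ^ k ≤ G.P (m₀ + 1) := by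
      rcases hy2.lt_or_eq with h | h
      · refine ⟨G.tl (y / G.L ^ k), (G.le_tl_iff _ _).2 hy1, (G.tl_lt_iff _ _).2 h,
          (G.tl_spec _).1, (G.tl_spec _).2.le⟩
      · refine ⟨G.io (n + 1) - 1, by omega, by omega, ?_, ?_⟩
        · rw [h]; exact G.P_strictMono.monotone (by omega)
        · rw [h]; exact G.P_strictMono.monotone (by omega)
    obtain ⟨m₀, hm1, hm2, hm3, hm4⟩ := hex
    have g3 : G.L ^ k * G.P m₀ ≤ y := by
      calc G.L ^ k * G.P m₀ ≤ G.L ^ k * (y / G.L ^ k) := by gcongr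
        _ = y := hyk
    have g4 : y ≤ G.L ^ k * G.P (m₀ + 1) := by
      calc y = G.L ^ k * (y / G.L ^ k) := hyk.symm
        _ ≤ _ := by gcongr
    rw [G.Iv_step_part φ k n m₀ hm1 hm2 y g3 g4]
    have b1 : ‖∑ m ∈ Finset.Ico (G.io n) m₀, (G.Iv φ k m (G.L ^ k * G.P (m + 1)) +
        ((G.L ^ k * G.re (G.ell (G.z m)) : ℝ) : ℂ) *
          (φ G.lam ^ k * (φ (G.pos m) - φ G.lam * φ (G.pos n))))‖ ≤
        N * ((C1 + G.lm * (C2 * N)) * q ^ k) := by
      refine (norm_sum_le_of_le (n := fun _ => (C1 + G.lm * (C2 * N)) * q ^ k) _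
        (fun m hm => ?_)).trans ?_
      · have hm' := Finset.mem_Ico.1 hm
        have hell : 0 ≤ G.re (G.ell (G.z m)) := by linarith [G.one_le (G.z m)]
        refine (norm_add_le _ _).trans ?_
        rw [add_mul]
        refine add_le_add (hfull k m) (hterm k n m _ (by positivity) ?_ hm'.1 (by omega))
        exact mul_le_mul_of_nonneg_left (G.ell_le_lm _) hLk.le
      · rw [Finset.sum_const, nsmul_eq_mul]
        refine mul_le_mul_of_nonneg_right ?_ (by positivity)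
        have h3 : ((Finset.Ico (G.io n) m₀).card : ℝ) = ((m₀ - G.io n : ℤ) : ℝ) := by
          rw [Int.card_Ico]
          exact_mod_cast (Int.toNat_of_nonneg (by omega : 0 ≤ m₀ - G.io n))
        rw [h3]
        refine le_trans ?_ (hstep n)
        exact_mod_cast (by omega : m₀ - G.io n ≤ G.io (n + 1) - G.io n)
    have b2 : ‖G.Iv φ k m₀ y‖ ≤ E / (G.L - 1) * q ^ k := ih m₀ y g3 g4
    have b3 := hterm k n m₀ (y - G.L ^ k * G.P m₀) (by linarith) (by
      have h5 := G.P_succ_le m₀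
      have h6 : G.L ^ k * G.P (m₀ + 1) ≤ G.L ^ k * (G.P m₀ + G.lm) := by gcongr
      linarith) hm1 hm2
    calc _ ≤ _ + _ := norm_add_le _ _
      _ ≤ N * ((C1 + G.lm * (C2 * N)) * q ^ k) +
          (E / (G.L - 1) * q ^ k + G.lm * (C2 * N) * q ^ k) :=
        add_le_add b1 ((norm_add_le _ _).trans (add_le_add b2 b3))
      _ = (E + E / (G.L - 1)) * q ^ k := by rw [hE]; ring
      _ ≤ (E / (G.L - 1) * q) * q ^ k := by
        refine mul_le_mul_of_nonneg_right ?_ (by positivity)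
        have h7 : E + E / (G.L - 1) = E / (G.L - 1) * G.L := by
          field_simp
          ring
        rw [h7]
        exact mul_le_mul_of_nonneg_left hq (by positivity)
      _ = E / (G.L - 1) * q ^ (k + 1) := by rw [pow_succ]; ring

end H69.ED.Geo
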