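import Pool.Agent.H69.ED.MeanB

/-!
# MeanC: the integral over an inflated unit interval

`unit_bd`: let `n₁ = tl x`. As tiles have length at least one, `[x, x+1)` is covered by the tiles `n₁` and
`n₁ + 1`. Cut at `P (n₁+1)` (if it is less than `x+1`): on `[L^k x, L^k min (x+1) (P (n₁+1))]` the integral of
`φ (v t) - ζ^k φ (pos n₁)` is a difference of two partial integrals `Iv φ k n₁`, on the rest it is
`Iv φ k (n₁+1) (L^k (x+1))` (`part_bd`). Replacing `pos n₁`, `pos (n₁+1)` by `pos n` costs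
`L^k ‖ζ‖^k · C |n₁ + 1 - n|`-type terms (`lip`), where `|P n - x| ≤ lm + 1` gives `|n - n₁| ≤ lm + 2`
(`abs_tl_sub_lt`, `tl (P n) = n`).
`v_far`: for `t ∈ [L^k x, L^k (x+1)]` and the same `n`: `‖φ (v t) - ζ^k φ (pos n)‖ ≤ C (k+1) ‖ζ‖^k`: chain of
parents: `n_0 = tl t`, `io n_{i+1} ≤ n_i < io (n_{i+1} + 1)`, `n_k = tl (t / L^k)`;
`‖φ (pos n_i) - ζ φ (pos n_{i+1})‖ ≤ C'` (`lip`), so
`‖φ (pos n_0) - ζ^k φ (pos n_k)‖ ≤ C' (1 + ‖ζ‖ + ... + ‖ζ‖^(k-1)) ≤ C' k ‖ζ‖^k` as `‖ζ‖ ≥ 1`, and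
`|n_k - n|` is bounded.
-/

namespace H69.ED.Geo

open MeasureTheory intervalIntegral

variable {A K : Type} [Fintype A] [Field K] [NumberField K] (G : Geo A K)

private theorem MeanC_Iv (φ : K →+* ℂ) (k : ℕ) (m : ℤ) (y : ℝ) :
    G.Iv φ k m y = (∫ t in (G.L ^ k * G.P m)..y, φ (G.v t)) -
      ((y - G.L ^ k * G.P m : ℝ) : ℂ) * (φ G.lam ^ k * φ (G.pos m)) := by
  unfold Iv
  rw [intervalIntegral.integral_sub (G.int_v φ _ _) intervalIntegrable_const,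
    intervalIntegral.integral_const, Complex.real_smul]

private theorem MeanC_seg (φ : K →+* ℂ) (k : ℕ) (m : ℤ) (a b : ℝ) :
    ∫ t in (G.L ^ k * a)..(G.L ^ k * b), φ (G.v t) =
      G.Iv φ k m (G.L ^ k * b) - G.Iv φ k m (G.L ^ k * a) +
        ((G.L ^ k * (b - a) : ℝ) : ℂ) * (φ G.lam ^ k * φ (G.pos m)) := by
  rw [MeanC_Iv, MeanC_Iv]
  have h := intervalIntegral.integral_add_adjacent_intervals
    (G.int_v φ (G.L ^ k * G.P m) (G.L ^ k * a)) (G.int_v φ (G.L ^ k * a) (G.L ^ k * b))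
  rw [← h]
  push_cast
  ring

private theorem MeanC_segbd (φ : K →+* ℂ) {Cp Cl : ℝ}
    (hp : ∀ (k : ℕ) (n : ℤ) (y : ℝ), G.L ^ k * G.P n ≤ y → y ≤ G.L ^ k * G.P (n + 1) →
      ‖G.Iv φ k n y‖ ≤ Cp * (G.L * ‖φ G.lam‖) ^ k)
    (hl : ∀ m n : ℤ, ‖φ (G.pos m) - φ (G.pos n)‖ ≤ Cl * |((m - n : ℤ) : ℝ)|)
    (k : ℕ) (m n : ℤ) {a b : ℝ} (h1 : G.P m ≤ a) (h2 : a ≤ b) (h3 : b ≤ G.P (m + 1)) :
    ‖(∫ t in (G.L ^ k * a)..(G.L ^ k * b), φ (G.v t)) -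
      ((G.L ^ k * (b - a) : ℝ) : ℂ) * (φ G.lam ^ k * φ (G.pos n))‖ ≤
      2 * Cp * (G.L * ‖φ G.lam‖) ^ k +
        (b - a) * (Cl * |((m - n : ℤ) : ℝ)|) * (G.L * ‖φ G.lam‖) ^ k := by
  have hL : 0 < G.L ^ k := pow_pos (lt_trans one_pos G.L_gt_one) k
  have e : (∫ t in (G.L ^ k * a)..(G.L ^ k * b), φ (G.v t)) -
      ((G.L ^ k * (b - a) : ℝ) : ℂ) * (φ G.lam ^ k * φ (G.pos n)) =
      (G.Iv φ k m (G.L ^ k * b) - G.Iv φ k m (G.L ^ k * a)) +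
        ((G.L ^ k * (b - a) : ℝ) : ℂ) * (φ G.lam ^ k * (φ (G.pos m) - φ (G.pos n))) := by
    rw [MeanC_seg G φ k m a b]
    ring
  rw [e]
  have b1 := hp k m (G.L ^ k * b) (mul_le_mul_of_nonneg_left (h1.trans h2) hL.le)
    (mul_le_mul_of_nonneg_left h3 hL.le)
  have b2 := hp k m (G.L ^ k * a) (mul_le_mul_of_nonneg_left h1 hL.le)
    (mul_le_mul_of_nonneg_left (h2.trans h3) hL.le)
  have b3 : ‖((G.L ^ k * (b - a) : ℝ) : ℂ) * (φ G.lam ^ k * (φ (G.pos m) - φ (G.pos n)))‖ ≤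
      (b - a) * (Cl * |((m - n : ℤ) : ℝ)|) * (G.L * ‖φ G.lam‖) ^ k := by
    rw [norm_mul, norm_mul, norm_pow, Complex.norm_real, Real.norm_eq_abs,
      abs_of_nonneg (mul_nonneg hL.le (sub_nonneg.2 h2)), mul_pow]
    have b4 := mul_le_mul_of_nonneg_left (hl m n)
      (mul_nonneg (mul_nonneg hL.le (sub_nonneg.2 h2)) (pow_nonneg (norm_nonneg (φ G.lam)) k))
    calc G.L ^ k * (b - a) * (‖φ G.lam‖ ^ k * ‖φ (G.pos m) - φ (G.pos n)‖)
        = G.L ^ k * (b - a) * ‖φ G.lam‖ ^ k * ‖φ (G.pos m) - φ (G.pos n)‖ := by ring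
      _ ≤ G.L ^ k * (b - a) * ‖φ G.lam‖ ^ k * (Cl * |((m - n : ℤ) : ℝ)|) := b4
      _ = _ := by ring
  calc ‖(G.Iv φ k m (G.L ^ k * b) - G.Iv φ k m (G.L ^ k * a)) +
        ((G.L ^ k * (b - a) : ℝ) : ℂ) * (φ G.lam ^ k * (φ (G.pos m) - φ (G.pos n)))‖
      ≤ ‖G.Iv φ k m (G.L ^ k * b)‖ + ‖G.Iv φ k m (G.L ^ k * a)‖ +
        ‖((G.L ^ k * (b - a) : ℝ) : ℂ) * (φ G.lam ^ k * (φ (G.pos m) - φ (G.pos n)))‖ :=
        (norm_add_le _ _).trans (add_le_add_left (norm_sub_le _ _) _)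
    _ ≤ _ := by linarith

private theorem MeanC_near {n : ℤ} {x : ℝ} (h : |G.P n - x| ≤ G.lm + 1) :
    |((G.tl x - n : ℤ) : ℝ)| ≤ G.lm + 2 := by
  have h1 := G.abs_tl_sub_lt (G.P n) x
  rw [G.tl_P] at h1
  rw [abs_sub_comm] at h
  linarith

theorem unit_bd (φ : K →+* ℂ) (hφ : G.Non φ) : ∃ C : ℝ, 0 ≤ C ∧ ∀ (k : ℕ) (n : ℤ) (x : ℝ),
    |G.P n - x| ≤ G.lm + 1 →
    ‖(∫ t in (G.L ^ k * x)..(G.L ^ k * (x + 1)), φ (G.v t)) -
      (G.L : ℂ) ^ k * (φ G.lam ^ k * φ (G.pos n))‖ ≤ C * (G.L * ‖φ G.lam‖) ^ k := by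
  obtain ⟨Cp, hCp, hp⟩ := G.part_bd φ hφ
  obtain ⟨Cl, hCl, hl'⟩ := G.lip
  have hl := hl' φ
  have hlm := G.one_le_lm
  refine ⟨4 * Cp + Cl * (G.lm + 3), by positivity, ?_⟩
  intro k n x hx
  have hq : 0 ≤ (G.L * ‖φ G.lam‖) ^ k :=
    pow_nonneg (mul_nonneg (lt_trans one_pos G.L_gt_one).le (norm_nonneg _)) k
  obtain ⟨h1, h2⟩ := G.tl_spec x
  have h3 := G.P_succ_ge (G.tl x + 1)
  have hn := MeanC_near G hx
  have hn1 : |((G.tl x + 1 - n : ℤ) : ℝ)| ≤ G.lm + 3 := by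
    have e : ((G.tl x + 1 - n : ℤ) : ℝ) = ((G.tl x - n : ℤ) : ℝ) + 1 := by push_cast; ring
    rw [e]
    calc |((G.tl x - n : ℤ) : ℝ) + 1| ≤ |((G.tl x - n : ℤ) : ℝ)| + |(1 : ℝ)| := abs_add_le _ _
      _ ≤ G.lm + 3 := by rw [abs_one]; linarith
  rcases le_total (x + 1) (G.P (G.tl x + 1)) with hc | hc
  · have b := MeanC_segbd G φ hp hl k (G.tl x) n h1 (by linarith : x ≤ x + 1) hc
    have e : ((G.L ^ k * (x + 1 - x) : ℝ) : ℂ) = (G.L : ℂ) ^ k := by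
      rw [add_sub_cancel_left, mul_one]
      push_cast
      rfl
    rw [e] at b
    refine b.trans ?_
    have b2 : (x + 1 - x) * (Cl * |((G.tl x - n : ℤ) : ℝ)|) ≤ Cl * (G.lm + 3) := by
      rw [add_sub_cancel_left, one_mul]
      exact mul_le_mul_of_nonneg_left (by linarith) (by linarith)
    have b3 := mul_le_mul_of_nonneg_right b2 hq
    nlinarith [mul_nonneg hCp hq]
  · have b := MeanC_segbd G φ hp hl k (G.tl x) n h1 h2.le le_rfl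
    have b' := MeanC_segbd G φ hp hl k (G.tl x + 1) n le_rfl hc (by linarith)
    have hadd := intervalIntegral.integral_add_adjacent_intervals
      (G.int_v φ (G.L ^ k * x) (G.L ^ k * G.P (G.tl x + 1)))
      (G.int_v φ (G.L ^ k * G.P (G.tl x + 1)) (G.L ^ k * (x + 1)))
    have e : (∫ t in (G.L ^ k * x)..(G.L ^ k * (x + 1)), φ (G.v t)) -
        (G.L : ℂ) ^ k * (φ G.lam ^ k * φ (G.pos n)) =
        ((∫ t in (G.L ^ k * x)..(G.L ^ k * G.P (G.tl x + 1)), φ (G.v t)) -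
          ((G.L ^ k * (G.P (G.tl x + 1) - x) : ℝ) : ℂ) * (φ G.lam ^ k * φ (G.pos n))) +
        ((∫ t in (G.L ^ k * G.P (G.tl x + 1))..(G.L ^ k * (x + 1)), φ (G.v t)) -
          ((G.L ^ k * (x + 1 - G.P (G.tl x + 1)) : ℝ) : ℂ) * (φ G.lam ^ k * φ (G.pos n))) := by
      rw [← hadd]
      push_cast
      ring
    rw [e]
    refine (norm_add_le _ _).trans ((add_le_add b b').trans ?_)
    have b2 : (G.P (G.tl x + 1) - x) * (Cl * |((G.tl x - n : ℤ) : ℝ)|) ≤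
        (G.P (G.tl x + 1) - x) * (Cl * (G.lm + 3)) :=
      mul_le_mul_of_nonneg_left (mul_le_mul_of_nonneg_left (by linarith) (by linarith))
        (by linarith)
    have b3 : (x + 1 - G.P (G.tl x + 1)) * (Cl * |((G.tl x + 1 - n : ℤ) : ℝ)|) ≤
        (x + 1 - G.P (G.tl x + 1)) * (Cl * (G.lm + 3)) :=
      mul_le_mul_of_nonneg_left (mul_le_mul_of_nonneg_left (by linarith) (by linarith))
        (by linarith)
    have b4 := mul_le_mul_of_nonneg_right b2 hq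
    have b5 := mul_le_mul_of_nonneg_right b3 hq
    calc _ ≤ 2 * Cp * (G.L * ‖φ G.lam‖) ^ k +
          (G.P (G.tl x + 1) - x) * (Cl * (G.lm + 3)) * (G.L * ‖φ G.lam‖) ^ k +
          (2 * Cp * (G.L * ‖φ G.lam‖) ^ k +
          (x + 1 - G.P (G.tl x + 1)) * (Cl * (G.lm + 3)) * (G.L * ‖φ G.lam‖) ^ k) := by
          linarith
      _ = _ := by ring

private theorem MeanC_chain (φ : K →+* ℂ) (hφ : 1 ≤ ‖φ G.lam‖) {Cl : ℝ} (hCl : 0 ≤ Cl)
    (hl : ∀ m n : ℤ, ‖φ (G.pos m) - φ (G.pos n)‖ ≤ Cl * |((m - n : ℤ) : ℝ)|)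
    (k : ℕ) : ∀ (m : ℤ) (t : ℝ), G.L ^ k * G.P m ≤ t → t < G.L ^ k * G.P (m + 1) →
    ‖φ (G.v t) - φ G.lam ^ k * φ (G.pos m)‖ ≤ Cl * (G.L * G.lm) * k * ‖φ G.lam‖ ^ k := by
  have hL1 := G.L_gt_one
  have hlm := G.one_le_lm
  induction k with
  | zero =>
    intro m t h1 h2
    rw [pow_zero, one_mul] at h1 h2
    have h3 : G.v t = G.pos m := by
      unfold v
      rw [G.tl_unique h1 h2]
    rw [h3]
    simp
  | succ k ih =>
    intro m t h1 h2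
    have hL : 0 < G.L ^ k := pow_pos (lt_trans one_pos hL1) k
    have hL' : 0 < G.L ^ (k + 1) := pow_pos (lt_trans one_pos hL1) (k + 1)
    have e1 : G.L ^ (k + 1) * G.P m = G.L ^ k * G.P (G.io m) := by
      have := G.P_iter 1 m
      rw [Function.iterate_one, pow_one] at this
      rw [this, pow_succ]
      ring
    have e2 : G.L ^ (k + 1) * G.P (m + 1) = G.L ^ k * G.P (G.io (m + 1)) := by
      have := G.P_iter 1 (m + 1)
      rw [Function.iterate_one, pow_one] at this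
      rw [this, pow_succ]
      ring
    obtain ⟨h3, h4⟩ := G.tl_spec (t / G.L ^ k)
    have h5 : G.L ^ k * G.P (G.tl (t / G.L ^ k)) ≤ t := by
      have := mul_le_mul_of_nonneg_left h3 hL.le
      rwa [mul_div_cancel₀ _ hL.ne'] at this
    have h6 : t < G.L ^ k * G.P (G.tl (t / G.L ^ k) + 1) := by
      have := mul_lt_mul_of_pos_left h4 hL
      rwa [mul_div_cancel₀ _ hL.ne'] at this
    have h7 : G.io m ≤ G.tl (t / G.L ^ k) := by
      rw [G.le_tl_iff, le_div_iff₀ hL, mul_comm, ← e1]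
      exact h1
    have h8 : G.tl (t / G.L ^ k) < G.io (m + 1) := by
      rw [G.tl_lt_iff, div_lt_iff₀ hL, mul_comm, ← e2]
      exact h2
    have h9 := ih (G.tl (t / G.L ^ k)) t h5 h6
    set m' := G.tl (t / G.L ^ k) with hm'
    have h10 : |((m' - G.io m : ℤ) : ℝ)| ≤ G.L * G.lm := by
      rw [abs_of_nonneg (by exact_mod_cast sub_nonneg.2 h7)]
      have h11 := G.iter_sub_le 1 (show m ≤ m + 1 by omega)
      rw [Function.iterate_one, pow_one] at h11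
      have h12 : ((m' - G.io m : ℤ) : ℝ) ≤ ((G.io (m + 1) - G.io m : ℤ) : ℝ) := by
        exact_mod_cast sub_le_sub_right h8.le _
      have h13 := G.P_succ_le m
      have h14 : G.L * (G.P (m + 1) - G.P m) ≤ G.L * G.lm :=
        mul_le_mul_of_nonneg_left (by linarith) (by linarith)
      linarith
    have h15 : ‖φ G.lam ^ k * φ (G.pos m') - φ G.lam ^ (k + 1) * φ (G.pos m)‖ ≤
        Cl * (G.L * G.lm) * ‖φ G.lam‖ ^ k := by
      have e3 : φ G.lam ^ k * φ (G.pos m') - φ G.lam ^ (k + 1) * φ (G.pos m) =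
          φ G.lam ^ k * (φ (G.pos m') - φ (G.pos (G.io m))) := by
        rw [G.pos_io, map_mul]
        ring
      rw [e3, norm_mul, norm_pow, mul_comm]
      exact mul_le_mul_of_nonneg_right ((hl _ _).trans (mul_le_mul_of_nonneg_left h10 hCl))
        (pow_nonneg (norm_nonneg _) k)
    have h16 : ‖φ G.lam‖ ^ k ≤ ‖φ G.lam‖ ^ (k + 1) := pow_le_pow_right₀ hφ (Nat.le_succ k)
    have h17 : 0 ≤ Cl * (G.L * G.lm) := by positivity
    have h18 : φ (G.v t) - φ G.lam ^ (k + 1) * φ (G.pos m) =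
        (φ (G.v t) - φ G.lam ^ k * φ (G.pos m')) +
          (φ G.lam ^ k * φ (G.pos m') - φ G.lam ^ (k + 1) * φ (G.pos m)) := by ring
    rw [h18]
    refine (norm_add_le _ _).trans ((add_le_add h9 h15).trans ?_)
    have h19 := mul_le_mul_of_nonneg_left h16 (mul_nonneg h17 (by positivity : (0 : ℝ) ≤ k + 1))
    push_cast
    linarith

theorem v_far (φ : K →+* ℂ) (hφ : G.Non φ) : ∃ C : ℝ, 0 ≤ C ∧ ∀ (k : ℕ) (n : ℤ) (x t : ℝ),
    |G.P n - x| ≤ G.lm + 1 → G.L ^ k * x ≤ t → t ≤ G.L ^ k * (x + 1) →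
    ‖φ (G.v t) - φ G.lam ^ k * φ (G.pos n)‖ ≤ C * (k + 1) * ‖φ G.lam‖ ^ k := by
  obtain ⟨Cl, hCl, hl'⟩ := G.lip
  have hl := hl' φ
  have hlm := G.one_le_lm
  have hL1 := G.L_gt_one
  have hCl0 : 0 ≤ Cl := by linarith
  refine ⟨Cl * (G.L * G.lm) + Cl * (G.lm + 3), by positivity, ?_⟩
  intro k n x t hx h1 h2
  have hL : 0 < G.L ^ k := pow_pos (lt_trans one_pos hL1) k
  obtain ⟨h3, h4⟩ := G.tl_spec (t / G.L ^ k)
  have h5 : G.L ^ k * G.P (G.tl (t / G.L ^ k)) ≤ t := by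
    have := mul_le_mul_of_nonneg_left h3 hL.le
    rwa [mul_div_cancel₀ _ hL.ne'] at this
  have h6 : t < G.L ^ k * G.P (G.tl (t / G.L ^ k) + 1) := by
    have := mul_lt_mul_of_pos_left h4 hL
    rwa [mul_div_cancel₀ _ hL.ne'] at this
  have h7 := MeanC_chain G φ hφ.1 hCl0 hl k _ t h5 h6
  have h8 : x ≤ t / G.L ^ k := by
    rw [le_div_iff₀ hL, mul_comm]
    exact h1
  have h9 : t / G.L ^ k ≤ x + 1 := by
    rw [div_le_iff₀ hL, mul_comm]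
    exact h2
  have h10 : |((G.tl (t / G.L ^ k) - n : ℤ) : ℝ)| ≤ G.lm + 3 := by
    have h11 := G.abs_tl_sub_lt (G.P n) (t / G.L ^ k)
    rw [G.tl_P] at h11
    have h12 : |t / G.L ^ k - G.P n| ≤ G.lm + 2 := by
      rw [abs_le] at hx ⊢
      constructor <;> linarith [hx.1, hx.2]
    linarith
  have h13 : ‖φ G.lam ^ k * φ (G.pos (G.tl (t / G.L ^ k))) - φ G.lam ^ k * φ (G.pos n)‖ ≤
      Cl * (G.lm + 3) * ‖φ G.lam‖ ^ k := by
    rw [← mul_sub, norm_mul, norm_pow, mul_comm]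
    exact mul_le_mul_of_nonneg_right ((hl _ _).trans (mul_le_mul_of_nonneg_left h10 hCl0))
      (pow_nonneg (norm_nonneg _) k)
  have h14 : φ (G.v t) - φ G.lam ^ k * φ (G.pos n) =
      (φ (G.v t) - φ G.lam ^ k * φ (G.pos (G.tl (t / G.L ^ k)))) +
        (φ G.lam ^ k * φ (G.pos (G.tl (t / G.L ^ k))) - φ G.lam ^ k * φ (G.pos n)) := by ring
  rw [h14]
  refine (norm_add_le _ _).trans ((add_le_add h7 h13).trans ?_)
  have h15 : 0 ≤ ‖φ G.lam‖ ^ k := pow_nonneg (norm_nonneg _) k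
  have h16 : 0 ≤ Cl * (G.L * G.lm) * ‖φ G.lam‖ ^ k := by positivity
  have h17 : 0 ≤ Cl * (G.lm + 3) * ‖φ G.lam‖ ^ k * k := by positivity
  calc Cl * (G.L * G.lm) * k * ‖φ G.lam‖ ^ k + Cl * (G.lm + 3) * ‖φ G.lam‖ ^ k
      ≤ Cl * (G.L * G.lm) * k * ‖φ G.lam‖ ^ k + Cl * (G.lm + 3) * ‖φ G.lam‖ ^ k +
        (Cl * (G.L * G.lm) * ‖φ G.lam‖ ^ k + Cl * (G.lm + 3) * ‖φ G.lam‖ ^ k * k) := by
        linarith
    _ = _ := by ring

end H69.ED.Geo
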