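import Pool.Agent.H69.ED.PicB

/-!
# MhA: the equivalence relation of patches

`EqM η M x y`: `Good η (re x) (re x + M) (y - x)`.
Symmetry: `good_symm` (the interval moves by `re (y - x)`, the shift becomes `x - y`); transitivity:
`good_trans` (`(y - x) + (w - y) = w - x`). `eqM_mono`: `good_mono`.
`eqM_of_word`: `x = pos n + s`, `x' = pos n' + s`, `0 ≤ re s ≤ lm`, and the words of length `m ≥ M + lm` at `n`, `n'`
agree: every point of `[re x, re x + M)` lies in `[P n, P (n+m))` and is matched under `pos n' - pos n` (`mt_word`).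
`cls_fin`: so the number of classes on `Lam (SB B)` is finite (`SB B` is finite by `fin_set`; words of
length `m`).
`cls_mono`, `cls_eq`: `x ↦` class of `x`; the `(M')`-classes refine the `M`-classes (`M ≤ M'`), so there is a
surjection from the `M'`-classes onto the `M`-classes; if the (finite) numbers agree it is injective.
-/

namespace H69.ED.Geo

variable {A K : Type} [Fintype A] [Field K] [NumberField K] (G : Geo A K)

/-- the equivalence classes of patches of length `M` at the positions in `Lam (SB B)` -/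
def cls (η M B : ℝ) : Set (Set K) :=
  (fun x => {y | y ∈ G.Lam (G.SB B) ∧ G.EqM η M x y}) '' G.Lam (G.SB B)

theorem eqM_refl (η M : ℝ) (x : K) : G.EqM η M x x := by
  have h := G.good_zero η (G.re x) (G.re x + M)
  unfold EqM
  rwa [sub_self]

theorem eqM_symm {η M : ℝ} {x y : K} (h : G.EqM η M x y) : G.EqM η M y x := by
  have h1 := G.good_symm h
  unfold EqM
  have e1 : G.re x + G.re (y - x) = G.re y := by rw [map_sub]; ring
  have e2 : G.re x + M + G.re (y - x) = G.re y + M := by rw [map_sub]; ring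
  rwa [e1, e2, neg_sub] at h1

theorem eqM_trans {η M : ℝ} {x y w : K} (h1 : G.EqM η M x y) (h2 : G.EqM η M y w) :
    G.EqM η M x w := by
  unfold EqM at h2
  have e1 : G.re x + G.re (y - x) = G.re y := by rw [map_sub]; ring
  have e2 : G.re x + M + G.re (y - x) = G.re y + M := by rw [map_sub]; ring
  have h3 := G.good_trans h1 (by rw [e1, e2]; exact h2)
  unfold EqM
  have e3 : y - x + (w - y) = w - x := by ring
  rwa [e3] at h3

theorem eqM_mono {η M M' : ℝ} (hM : M ≤ M') {x y : K} (h : G.EqM η M' x y) :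
    G.EqM η M x y :=
  G.good_mono le_rfl (by linarith) h

theorem eqM_of_word (η : ℝ) {M : ℝ} {n n' : ℤ} {s : K} {m : ℕ} (h0 : 0 ≤ G.re s)
    (h1 : G.re s ≤ G.lm) (hm : M + G.lm ≤ m)
    (h : ∀ i : ℕ, i < m → G.z (n + i) = G.z (n' + i)) :
    G.EqM η M (G.pos n + s) (G.pos n' + s) := by
  unfold EqM
  have e3 : G.pos n' + s - (G.pos n + s) = G.pos n' - G.pos n := by ring
  rw [e3]
  refine G.good_of_mt η fun t ht1 ht2 => ?_
  rw [map_add] at ht1 ht2
  have h2 := G.P_sub_ge (m := n) (n := n + m) (by omega)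
  have h3 : ((n + (m : ℤ) - n : ℤ) : ℝ) = (m : ℝ) := by push_cast; ring
  rw [h3] at h2
  refine G.mt_word h (x := t) ?_ ?_
  · have : G.P n = G.re (G.pos n) := rfl
    linarith
  · have : G.P n = G.re (G.pos n) := rfl
    linarith

theorem SB_fin (B : ℝ) : (G.SB B).Finite := by
  refine (G.fin_set (max B G.lm)).subset ?_
  rintro s ⟨h1, h2, h3, h4⟩
  refine ⟨h1, ?_, fun φ hφ => (h4 φ hφ).trans (le_max_left _ _)⟩
  rw [abs_of_nonneg h2]
  exact h3.trans (le_max_right _ _)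

theorem zero_mem_SB {B : ℝ} (hB : 0 ≤ B) : (0 : K) ∈ G.SB B := by
  refine ⟨isIntegral_zero, ?_, ?_, fun φ _ => ?_⟩
  · rw [map_zero]
  · rw [map_zero]
    exact zero_le_one.trans G.one_le_lm
  · rw [map_zero, norm_zero]
    exact hB

/-- equivalent positions have the same class -/
private theorem cls_congr {η M B : ℝ} {x y : K} (h : G.EqM η M x y) :
    {w | w ∈ G.Lam (G.SB B) ∧ G.EqM η M x w} = {w | w ∈ G.Lam (G.SB B) ∧ G.EqM η M y w} := by
  ext w
  exact and_congr_right fun _ => ⟨fun h1 => G.eqM_trans (G.eqM_symm h) h1,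
    fun h1 => G.eqM_trans h h1⟩

theorem cls_fin (η M B : ℝ) : (G.cls η M B).Finite := by
  classical
  obtain ⟨m, hm⟩ := exists_nat_ge (M + G.lm)
  let f : K × (Fin m → A) → Set K := fun p =>
    if h : ∃ n : ℤ, ∀ i : Fin m, G.z (n + (i : ℕ)) = p.2 i then
      {y | y ∈ G.Lam (G.SB B) ∧ G.EqM η M (G.pos h.choose + p.1) y} else ∅
  refine (((G.SB_fin B).prod (Set.finite_univ (α := Fin m → A))).image f).subset ?_
  rintro _ ⟨x, ⟨n, s, hs, rfl⟩, rfl⟩
  refine ⟨(s, fun i => G.z (n + (i : ℕ))), ⟨hs, Set.mem_univ _⟩, ?_⟩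
  have h : ∃ n' : ℤ, ∀ i : Fin m, G.z (n' + (i : ℕ)) = G.z (n + (i : ℕ)) := ⟨n, fun _ => rfl⟩
  have hf : f (s, fun i => G.z (n + (i : ℕ))) =
      {y | y ∈ G.Lam (G.SB B) ∧ G.EqM η M (G.pos h.choose + s) y} := dif_pos h
  rw [hf]
  exact G.cls_congr (G.eqM_of_word η hs.2.1 hs.2.2.1 hm fun i hi => h.choose_spec ⟨i, hi⟩)

/-- the class of patches of length `M` which contains a class -/
private def up (η M B : ℝ) (c : Set K) : Set K :=
  {y | y ∈ G.Lam (G.SB B) ∧ ∃ x ∈ c, G.EqM η M x y}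

private theorem up_cls (η : ℝ) {M M' : ℝ} (hM : M ≤ M') {B : ℝ} {x : K}
    (hx : x ∈ G.Lam (G.SB B)) :
    G.up η M B {y | y ∈ G.Lam (G.SB B) ∧ G.EqM η M' x y} =
      {y | y ∈ G.Lam (G.SB B) ∧ G.EqM η M x y} := by
  ext y
  constructor
  · rintro ⟨hy, w, ⟨hw, h1⟩, h2⟩
    exact ⟨hy, G.eqM_trans (G.eqM_mono hM h1) h2⟩
  · rintro ⟨hy, h⟩
    exact ⟨hy, x, ⟨hx, G.eqM_refl η M' x⟩, h⟩

private theorem cls_image (η : ℝ) {M M' : ℝ} (hM : M ≤ M') (B : ℝ) :
    G.up η M B '' G.cls η M' B = G.cls η M B := by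
  ext c
  constructor
  · rintro ⟨_, ⟨x, hx, rfl⟩, rfl⟩
    exact ⟨x, hx, (G.up_cls η hM hx).symm⟩
  · rintro ⟨x, hx, rfl⟩
    exact ⟨_, ⟨x, hx, rfl⟩, G.up_cls η hM hx⟩

theorem cls_mono (η : ℝ) {M M' : ℝ} (hM : M ≤ M') (B : ℝ) :
    (G.cls η M B).ncard ≤ (G.cls η M' B).ncard := by
  rw [← G.cls_image η hM B]
  exact Set.ncard_image_le (G.cls_fin η M' B)

theorem cls_eq (η : ℝ) {M M' : ℝ} (hM : M ≤ M') (B : ℝ)
    (h : (G.cls η M' B).ncard ≤ (G.cls η M B).ncard) :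
    ∀ x ∈ G.Lam (G.SB B), ∀ y ∈ G.Lam (G.SB B), G.EqM η M x y → G.EqM η M' x y := by
  intro x hx y hy hxy
  have hinj : Set.InjOn (G.up η M B) (G.cls η M' B) := by
    refine Set.injOn_of_ncard_image_eq ?_ (G.cls_fin η M' B)
    rw [G.cls_image η hM B]
    exact le_antisymm (G.cls_mono η hM B) h
  have h1 : G.up η M B {w | w ∈ G.Lam (G.SB B) ∧ G.EqM η M' x w} =
      G.up η M B {w | w ∈ G.Lam (G.SB B) ∧ G.EqM η M' y w} := by
    rw [G.up_cls η hM hx, G.up_cls η hM hy]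
    exact G.cls_congr hxy
  have h2 : {w | w ∈ G.Lam (G.SB B) ∧ G.EqM η M' x w} =
      {w | w ∈ G.Lam (G.SB B) ∧ G.EqM η M' y w} := hinj ⟨x, hx, rfl⟩ ⟨y, hy, rfl⟩ h1
  have h3 : y ∈ {w | w ∈ G.Lam (G.SB B) ∧ G.EqM η M' x w} := by
    rw [h2]
    exact ⟨hy, G.eqM_refl η M' y⟩
  exact h3.2

end H69.ED.Geo
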