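import Pool.Agent.H69.ED.Line
import Pool.Agent.H95.Edit.M1_Lcs

/-!
# Path: alignment paths, lengths, common subsequences

`D_append`: `D (x₁ ++ x₂) (y₁ ++ y₂) ≤ D x₁ y₁ + D x₂ y₂` (concatenate common subsequences: `exists_lcs`, `le_lcs`,
`D_add_lcs`).
`path`: `D_split_many` with `b = 1`, `r = n`, `e = 0` gives `γ, ν` with `γ (q+1) = γ q + ν q`,
`∑_{q<n} D (word z (α+q) 1) (word z (γ q) (ν q)) ≤ D (word z α n) (word z β n')`. Put
`cost i = ∑_{q<i} D (word z (α+q) 1) (word z (γ q) (ν q))`. For `i ≤ j` the word `word z (γ i) (γ j - γ i)` is the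
concatenation of the `word z (γ q) (ν q)`, `i ≤ q < j`; induction on `j` with `D_append` (`word_add`).

`len_lip`: for a sublist `w` of `x`: `0 ≤ len x - len w ≤ lm (|x| - |w|)`, `len w = ((w.map ell).sum)` under `re`; the
common subsequence of `exists_lcs` gives `|len x - len y| ≤ lm D x y`; and `len (word z a n) = P (a+n) - P a`.

`match_lcs`: let `M` be the set of `i ∈ [a, a+n)` with a partner `j ∈ [b, b+n')`: `pos j = pos i + r`, `z j = z i`. The
partner is unique and increasing in `i` (`P` strictly increasing), so the letters at `M` form a common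
subsequence of both words: length `|M|`. (Induction on `n`: for `n+1` look at the last letter `i = a+n`; if it has a partner
`j = b + m`, `m < n'`, then the partners of the other elements of `M` are `< j`: use the statement for `n` and `m` and append the
letter; otherwise the statement for `n` and `n'`.)
-/

namespace H69.ED

open H95.Edit

variable {A : Type}

theorem D_append (x₁ x₂ y₁ y₂ : List A) : D (x₁ ++ x₂) (y₁ ++ y₂) ≤ D x₁ y₁ + D x₂ y₂ := by
  obtain ⟨w₁, a1, a2, a3⟩ := exists_lcs x₁ y₁
  obtain ⟨w₂, b1, b2, b3⟩ := exists_lcs x₂ y₂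
  have h := le_lcs (a1.append b1) (a2.append b2)
  have e1 := D_add_lcs x₁ y₁
  have e2 := D_add_lcs x₂ y₂
  have e3 := D_add_lcs (x₁ ++ x₂) (y₁ ++ y₂)
  simp only [List.length_append] at h e3
  omega

theorem path (z : ℤ → A) (α β : ℤ) (n n' : ℕ) :
    ∃ (γ : ℕ → ℤ) (cost : ℕ → ℕ), γ 0 = β ∧ Monotone γ ∧ cost 0 = 0 ∧ Monotone cost ∧
      cost n ≤ D (word z α n) (word z β n') ∧
      ∀ i j : ℕ, i ≤ j → j ≤ n →
        D (word z (α + i) (j - i)) (word z (γ i) (γ j - γ i).toNat) ≤ cost j - cost i := by
  obtain ⟨γ, ν, m, h1, h2, h3, -⟩ := D_split_many z α β n 1 0 n'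
  have hγ : Monotone γ := monotone_nat_of_le_succ fun q => by rw [h2]; omega
  let cost : ℕ → ℕ := fun i => ∑ q ∈ Finset.range i, D (word z (α + q) 1) (word z (γ q) (ν q))
  have hc : Monotone cost := monotone_nat_of_le_succ fun q => by
    simp only [cost, Finset.sum_range_succ]; omega
  refine ⟨γ, cost, h1, hγ, rfl, hc, ?_, ?_⟩
  · have e : cost n = ∑ q ∈ Finset.range n,
        D (word z (α + (q : ℤ) * ((1 : ℕ) : ℤ)) 1) (word z (γ q) (ν q)) := by
      refine Finset.sum_congr rfl fun q _ => ?_
      rw [Nat.cast_one, mul_one]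
    rw [e]
    have e2 : n * 1 + 0 = n := by omega
    rw [e2] at h3
    omega
  · intro i j hij _
    induction j, hij using Nat.le_induction with
    | base =>
      have e1 : i - i = 0 := by omega
      have e2 : (γ i - γ i).toNat = 0 := by simp
      rw [e1, e2]
      have := D_add_lcs (word z (α + i) 0) (word z (γ i) 0)
      rw [length_word, length_word] at this
      omega
    | succ j hij ih =>
      have ih := ih (by omega)
      have e1 : j + 1 - i = (j - i) + 1 := by omega
      have e2 : (γ (j + 1) - γ i).toNat = (γ j - γ i).toNat + ν j := by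
        have := hγ hij
        rw [h2]
        omega
      have e3 : (α + i + ((j - i : ℕ) : ℤ)) = α + j := by
        have : ((j - i : ℕ) : ℤ) = (j : ℤ) - i := by omega
        rw [this]; ring
      have e4 : γ i + (((γ j - γ i).toNat : ℕ) : ℤ) = γ j := by
        have := hγ hij
        omega
      rw [e1, e2, word_add, word_add, e3, e4]
      refine (D_append _ _ _ _).trans ?_
      have e5 : cost (j + 1) = cost j + D (word z (α + j) 1) (word z (γ j) (ν j)) := by
        simp only [cost, Finset.sum_range_succ]
      have e6 := hc hij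
      rw [e5]
      omega

namespace Geo

variable {K : Type} [Fintype A] [Field K] [NumberField K] (G : Geo A K)

/-- the length of a word -/
noncomputable def pathLen (x : List A) : ℝ := (x.map (fun a => G.re (G.ell a))).sum

theorem pathLen_sublist {w x : List A} (h : w.Sublist x) :
    G.pathLen w ≤ G.pathLen x ∧ G.pathLen x - G.pathLen w ≤ G.lm * (x.length - w.length) := by
  induction h with
  | slnil => simp
  | @cons l₁ l₂ a h ih =>
    have h1 := G.one_le a
    have h2 := G.ell_le_lm a
    have e : G.pathLen (a :: l₂) = G.re (G.ell a) + G.pathLen l₂ := by simp [pathLen]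
    rw [e]
    push_cast [List.length_cons]
    constructor
    · linarith [ih.1]
    · linarith [ih.2]
  | @cons_cons l₁ l₂ a h ih =>
    have e : ∀ l : List A, G.pathLen (a :: l) = G.re (G.ell a) + G.pathLen l := by
      intro l; simp [pathLen]
    rw [e, e]
    push_cast [List.length_cons]
    constructor
    · linarith [ih.1]
    · linarith [ih.2]

theorem pathLen_word (a : ℤ) (n : ℕ) : G.pathLen (word G.z a n) = G.P (a + n) - G.P a := by
  induction n with
  | zero => simp [pathLen, word]
  | succ n ih =>
    rw [word_add]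
    have e : G.pathLen (word G.z a n ++ word G.z (a + n) 1) =
        G.pathLen (word G.z a n) + G.re (G.ell (G.z (a + n))) := by
      simp [pathLen, word]
    rw [e, ih]
    have := G.P_succ (a + n)
    push_cast
    rw [← add_assoc, this]
    ring

theorem len_lip (a b : ℤ) (n n' : ℕ) :
    |(G.P (a + n) - G.P a) - (G.P (b + n') - G.P b)| ≤
      G.lm * D (word G.z a n) (word G.z b n') := by
  rw [← pathLen_word, ← pathLen_word]
  obtain ⟨w, h1, h2, h3⟩ := exists_lcs (word G.z a n) (word G.z b n')
  have a1 := G.pathLen_sublist h1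
  have a2 := G.pathLen_sublist h2
  have e := D_add_lcs (word G.z a n) (word G.z b n')
  have hlm := G.one_le_lm
  have l1 := h1.length_le
  have l2 := h2.length_le
  rw [← h3] at e
  have e' : (D (word G.z a n) (word G.z b n') : ℝ) =
      ((word G.z a n).length - w.length : ℝ) + ((word G.z b n').length - w.length : ℝ) := by
    have := congrArg (Nat.cast : ℕ → ℝ) e
    push_cast at this
    linarith
  rw [e']
  have l1' : (w.length : ℝ) ≤ (word G.z a n).length := by exact_mod_cast l1
  have l2' : (w.length : ℝ) ≤ (word G.z b n').length := by exact_mod_cast l2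
  have p1 : 0 ≤ G.lm * ((word G.z a n).length - w.length : ℝ) :=
    mul_nonneg (by linarith) (by linarith)
  have p2 : 0 ≤ G.lm * ((word G.z b n').length - w.length : ℝ) :=
    mul_nonneg (by linarith) (by linarith)
  rw [abs_le]
  constructor
  · linarith [a1.1, a1.2, a2.1, a2.2]
  · linarith [a1.1, a1.2, a2.1, a2.2]

open Classical in
theorem match_aux (r : K) (a b : ℤ) (n : ℕ) : ∀ n' : ℕ,
    ∃ w : List A, w.Sublist (word G.z a n) ∧ w.Sublist (word G.z b n') ∧
      ((Finset.Ico a (a + n)).filter (fun i => ∃ j : ℤ,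
        b ≤ j ∧ j < b + n' ∧ G.pos j = G.pos i + r ∧ G.z j = G.z i)).card ≤ w.length := by
  induction n with
  | zero =>
    intro n'
    exact ⟨[], List.nil_sublist _, List.nil_sublist _, by simp⟩
  | succ n ih =>
    intro n'
    have e1 : ∀ (c : ℤ) (m : ℕ), word G.z c (m + 1) = word G.z c m ++ [G.z (c + m)] := by
      intro c m
      rw [word_add]
      simp [word]
    have e2 : Finset.Ico a (a + ((n + 1 : ℕ) : ℤ)) = insert (a + (n : ℤ)) (Finset.Ico a (a + n)) := by
      ext i
      simp only [Finset.mem_Ico, Finset.mem_insert]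
      push_cast
      omega
    rw [e2, Finset.filter_insert]
    by_cases hj : ∃ j : ℤ, b ≤ j ∧ j < b + n' ∧ G.pos j = G.pos (a + n) + r ∧
        G.z j = G.z (a + n)
    · rw [if_pos hj]
      obtain ⟨j, hj1, hj2, hj3, hj4⟩ := hj
      obtain ⟨m, hm⟩ : ∃ m : ℕ, j = b + m := ⟨(j - b).toNat, by omega⟩
      subst hm
      obtain ⟨w, h1, h2, h3⟩ := ih m
      have hm' : m + 1 ≤ n' := by omega
      have hsub : (word G.z b (m + 1)).Sublist (word G.z b n') := by
        obtain ⟨k, rfl⟩ := Nat.exists_eq_add_of_le hm'
        rw [word_add G.z b (m + 1) k]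
        exact List.sublist_append_left _ _
      refine ⟨w ++ [G.z (a + n)], ?_, ?_, ?_⟩
      · rw [e1]
        exact h1.append (List.Sublist.refl _)
      · refine List.Sublist.trans ?_ hsub
        rw [e1, ← hj4]
        exact h2.append (List.Sublist.refl _)
      · refine (Finset.card_insert_le _ _).trans ?_
        rw [List.length_append, List.length_singleton]
        refine Nat.succ_le_succ (le_trans (Finset.card_le_card ?_) h3)
        intro i hi
        rw [Finset.mem_filter] at hi ⊢
        obtain ⟨hi, j', k1, k2, k3, k4⟩ := hi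
        refine ⟨hi, j', k1, ?_, k3, k4⟩
        rw [← G.P_lt_iff]
        have g1 : G.P j' = G.P i + G.re r := by
          unfold P; rw [k3, map_add]
        have g2 : G.P (b + m) = G.P (a + n) + G.re r := by
          unfold P; rw [hj3, map_add]
        rw [g1, g2]
        have : G.P i < G.P (a + n) := (G.P_lt_iff _ _).2 (Finset.mem_Ico.1 hi).2
        linarith
    · rw [if_neg hj]
      obtain ⟨w, h1, h2, h3⟩ := ih n'
      refine ⟨w, h1.trans ?_, h2, h3⟩
      rw [e1]
      exact List.sublist_append_left _ _

open Classical in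
theorem match_lcs (r : K) (a b : ℤ) (n n' : ℕ) :
    D (word G.z a n) (word G.z b n') + 2 * ((Finset.Ico a (a + n)).filter (fun i => ∃ j : ℤ,
      b ≤ j ∧ j < b + n' ∧ G.pos j = G.pos i + r ∧ G.z j = G.z i)).card ≤ n + n' := by
  obtain ⟨w, h1, h2, h3⟩ := G.match_aux r a b n n'
  have h4 := D_le_of_sublist h1 h2
  rw [length_word, length_word] at h4
  omega

end Geo

end H69.ED
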