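import Pool.Agent.H69.ED.GoodB

/-!
# PicA: the local picture determines everything

Let `pic m i r = pic m i' r'`, `lm + 1 ≤ m`, `d = pos i' - pos i`, `j = tl (P i + re r)`, `j' = tl (P i' + re r')`,
`e = pos j' - pos j`. Then
* `Mt d t` for `t` in the tile `i` (`mt_word` with `n = 1`),
* `Mt e (t + re r)` for `t` in the tile `i`: `t + re r ∈ [P j, P (j+m))` since
  `t + re r < P (i+1) + re r ≤ P i + re r + lm < P (j+1) + lm` and `P (j+m) ≥ P (j+1) + (m-1) ≥ ...`; `mt_word`,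
* `r' = r + e - d` (equality of the offsets).
So `V_local`, `good_local` give `pic_V`, `pic_GT`. At level `k` the same data are matched by `mt_scale_pow`: for
`t = P (io^[k] i + u)`, a descendant of `i`: `io^[k] i' + u` is the corresponding descendant of `i'` and
`GT η (io^[k] i + u) (lam^k r) ↔ GT η (io^[k] i' + u) (lam^k r')` by `good_local` with `lam^k d`, `lam^k e`; the
letters agree (`io_word_iter`), so `WB` and `NB` agree (`pic_WB`, `pic_NB`).
-/

namespace H69.ED.Geo

variable {A K : Type} [Fintype A] [Field K] [NumberField K] (G : Geo A K)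

private theorem word_get {m : ℕ} {a b : ℤ} (h : H95.Edit.word G.z a m = H95.Edit.word G.z b m) :
    ∀ k : ℕ, k < m → G.z (a + k) = G.z (b + k) := by
  intro k hk
  unfold H95.Edit.word at h
  have h1 := List.map_inj_left.mp h k (List.mem_range.mpr hk)
  exact h1

theorem pic_data {m : ℕ} (hm : G.lm + 1 ≤ m) {i i' : ℤ} {r r' : K}
    (h : G.pic m i r = G.pic m i' r') : ∃ d e : K,
      (∀ t, G.P i ≤ t → t < G.P (i + 1) → G.Mt d t) ∧
      (∀ t, G.P i ≤ t → t < G.P (i + 1) → G.Mt e (t + G.re r)) ∧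
      r' = r + e - d ∧ G.P i' = G.P i + G.re d ∧ G.P (i' + 1) = G.P (i + 1) + G.re d := by
  unfold pic at h
  obtain ⟨hz, ho, hw⟩ : G.z i = G.z i' ∧
      G.pos i + r - G.v (G.P i + G.re r) = G.pos i' + r' - G.v (G.P i' + G.re r') ∧
      H95.Edit.word G.z (G.tl (G.P i + G.re r)) m =
        H95.Edit.word G.z (G.tl (G.P i' + G.re r')) m := by
    simpa [Prod.ext_iff] using h
  have hw' := G.word_get hw
  set j := G.tl (G.P i + G.re r) with hj
  set j' := G.tl (G.P i' + G.re r') with hj'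
  have hv : G.v (G.P i + G.re r) = G.pos j := rfl
  have hv' : G.v (G.P i' + G.re r') = G.pos j' := rfl
  rw [hv, hv'] at ho
  have hre : G.re (G.pos i' - G.pos i) = G.P i' - G.P i := by rw [map_sub]; rfl
  have hm1 : 1 ≤ m := by
    have := G.one_le_lm
    have h2 : (1 : ℝ) ≤ m := by linarith
    exact_mod_cast h2
  refine ⟨G.pos i' - G.pos i, G.pos j' - G.pos j, ?_, ?_, ?_, ?_, ?_⟩
  · intro t h1 h2
    refine G.mt_word (n := 1) ?_ h1 (by simpa using h2)
    intro k hk
    have : k = 0 := by omega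
    subst this
    simpa using hz
  · intro t h1 h2
    refine G.mt_word (n := m) hw' ?_ ?_
    · have := (G.tl_spec (G.P i + G.re r)).1
      rw [← hj] at this
      linarith
    · have h3 := (G.tl_spec (G.P i + G.re r)).2
      rw [← hj] at h3
      have h4 := G.P_succ_le i
      have h5 := G.P_sub_ge (m := j + 1) (n := j + m) (by omega)
      push_cast at h5
      linarith
  · linear_combination -ho
  · rw [hre]; ring
  · rw [hre, G.P_succ, G.P_succ, hz]; ring

theorem pic_V {m : ℕ} (hm : G.lm + 1 ≤ m) {i i' : ℤ} {r r' : K}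
    (h : G.pic m i r = G.pic m i' r') (k : ℕ) :
    G.V k (G.P i) (G.P (i + 1)) r = G.V k (G.P i') (G.P (i' + 1)) r' := by
  obtain ⟨d, e, h1, h2, h3, h4, h5⟩ := G.pic_data hm h
  rw [h3, h4, h5]
  exact (G.V_local k h1 h2).symm

theorem pic_GT {m : ℕ} (hm : G.lm + 1 ≤ m) {i i' : ℤ} {r r' : K}
    (h : G.pic m i r = G.pic m i' r') (η : ℝ) : G.GT η i r ↔ G.GT η i' r' := by
  obtain ⟨d, e, h1, h2, h3, h4, h5⟩ := G.pic_data hm h
  unfold GT
  rw [h3, h4, h5]
  exact (G.good_local h1 h2).symm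

theorem pic_WB {m : ℕ} (hm : G.lm + 1 ≤ m) {i i' : ℤ} {r r' : K}
    (h : G.pic m i r = G.pic m i' r') (η : ℝ) (k : ℕ) :
    G.WB η k i r = G.WB η k i' r' := by
  have hz : G.z i = G.z i' := by
    unfold pic at h
    exact (Prod.ext_iff.mp h).1
  obtain ⟨d, e, h1, h2, h3, h4, h5⟩ := G.pic_data hm h
  have hL : 0 < G.L := by have := G.L_gt_one; linarith
  have hLk : 0 < G.L ^ k := pow_pos hL k
  have hd : G.pos i' = G.pos i + d := by
    apply G.re_injective
    rw [map_add]; exact h4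
  -- the words
  have hw1 : ∀ u : ℕ, u < 1 → G.z (i + u) = G.z (i' + u) := by
    intro u hu
    have : u = 0 := by omega
    subst this
    simpa using hz
  obtain ⟨hA, hB⟩ := G.io_word_iter k hw1
  have hA1 := hA 1 le_rfl
  push_cast at hA1 hB
  have hlt : G.io^[k] i < G.io^[k] (i + 1) := G.iter_strictMono k (by omega)
  obtain ⟨N, hN⟩ : ∃ N : ℕ, G.io^[k] (i + 1) - G.io^[k] i = N :=
    ⟨(G.io^[k] (i + 1) - G.io^[k] i).toNat, (Int.toNat_of_nonneg (by omega)).symm⟩
  have hN' : G.io^[k] (i' + 1) - G.io^[k] i' = N := by rw [← hA1, hN]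
  have hB' : ∀ u : ℕ, u < N → G.z (G.io^[k] i + u) = G.z (G.io^[k] i' + u) := by
    intro u hu
    exact hB u (by rw [hN]; exact_mod_cast hu)
  have hpw := G.pos_word hB'
  have hpos : ∀ u : ℕ, u ≤ N →
      G.P (G.io^[k] i' + u) = G.P (G.io^[k] i + u) + G.re (G.lam ^ k * d) := by
    intro u hu
    have h6 := hpw u hu
    rw [G.pos_iter, G.pos_iter, hd] at h6
    have h7 : G.pos (G.io^[k] i' + u) = G.pos (G.io^[k] i + u) + G.lam ^ k * d := by
      linear_combination -h6
    show G.re _ = G.re _ + _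
    rw [h7, map_add]
  -- goodness of corresponding descendants
  have hgt : ∀ u : ℕ, u < N → (G.GT η (G.io^[k] i + u) (G.lam ^ k * r) ↔
      G.GT η (G.io^[k] i' + u) (G.lam ^ k * r')) := by
    intro u hu
    unfold GT
    have e1 := hpos u hu.le
    have e2 := hpos (u + 1) hu
    push_cast at e2
    rw [← add_assoc, ← add_assoc] at e2
    have e3 : G.lam ^ k * r' = G.lam ^ k * r + G.lam ^ k * e - G.lam ^ k * d := by
      rw [h3]; ring
    rw [e1, e2, e3]
    have hlow : G.L ^ k * G.P i ≤ G.P (G.io^[k] i + u) := by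
      rw [← G.P_iter, G.P_le_iff]; omega
    have hup : G.P (G.io^[k] i + u + 1) ≤ G.L ^ k * G.P (i + 1) := by
      rw [← G.P_iter, G.P_le_iff]; omega
    have hs : ∀ t : ℝ, G.P (G.io^[k] i + u) ≤ t → t < G.P (G.io^[k] i + u + 1) →
        G.P i ≤ t / G.L ^ k ∧ t / G.L ^ k < G.P (i + 1) ∧ G.L ^ k * (t / G.L ^ k) = t := by
      intro t ht1 ht2
      refine ⟨?_, ?_, by field_simp⟩
      · rw [le_div_iff₀ hLk]; linarith
      · rw [div_lt_iff₀ hLk]; linarith
    refine (G.good_local ?_ ?_).symm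
    · intro t ht1 ht2
      obtain ⟨a1, a2, a3⟩ := hs t ht1 ht2
      have := G.mt_scale_pow k (h1 _ a1 a2)
      rwa [a3] at this
    · intro t ht1 ht2
      obtain ⟨a1, a2, a3⟩ := hs t ht1 ht2
      have := G.mt_scale_pow k (h2 _ a1 a2)
      rw [mul_add, a3] at this
      rwa [map_mul, map_pow]
  unfold WB
  refine Finset.sum_bij (fun m _ => m + (G.io^[k] i' - G.io^[k] i)) ?_ ?_ ?_ ?_
  · intro a ha
    simp only [Finset.mem_filter, Finset.mem_Ico] at ha ⊢
    obtain ⟨⟨ha1, ha2⟩, ha3⟩ := ha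
    obtain ⟨u, hu⟩ : ∃ u : ℕ, a = G.io^[k] i + u :=
      ⟨(a - G.io^[k] i).toNat, by rw [Int.toNat_of_nonneg (by omega)]; ring⟩
    have huN : u < N := by omega
    refine ⟨⟨by omega, by omega⟩, ?_⟩
    rw [hu] at ha3
    rw [hu, show G.io^[k] i + (u : ℤ) + (G.io^[k] i' - G.io^[k] i) = G.io^[k] i' + u by ring]
    rwa [← hgt u huN]
  · intro a _ b _ hab
    simpa using hab
  · intro b hb
    simp only [Finset.mem_filter, Finset.mem_Ico] at hb
    obtain ⟨⟨hb1, hb2⟩, hb3⟩ := hb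
    obtain ⟨u, hu⟩ : ∃ u : ℕ, b = G.io^[k] i' + u :=
      ⟨(b - G.io^[k] i').toNat, by rw [Int.toNat_of_nonneg (by omega)]; ring⟩
    have huN : u < N := by omega
    refine ⟨G.io^[k] i + u, ?_, ?_⟩
    · simp only [Finset.mem_filter, Finset.mem_Ico]
      refine ⟨⟨by omega, by omega⟩, ?_⟩
      rw [hu] at hb3
      rwa [hgt u huN]
    · rw [hu]; ring
  · intro a ha
    simp only [Finset.mem_filter, Finset.mem_Ico] at ha
    obtain ⟨⟨ha1, ha2⟩, -⟩ := ha
    obtain ⟨u, hu⟩ : ∃ u : ℕ, a = G.io^[k] i + u :=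
      ⟨(a - G.io^[k] i).toNat, by rw [Int.toNat_of_nonneg (by omega)]; ring⟩
    have huN : u < N := by omega
    rw [hu, show G.io^[k] i + (u : ℤ) + (G.io^[k] i' - G.io^[k] i) = G.io^[k] i' + u by ring,
      hB' u huN]

end H69.ED.Geo
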