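import Pool.Agent.H69.ED.MeanD

/-!
# Pisot: nonzero good shifts exclude non-contracting conjugates

Let `η < 1`, `0 ≠ r ∈ R η`, `φ` non-contracting. `small`: for `g ∈ R η` with `|re g| ≤ 1`: `non_bd` at
`s = 0`, `[0,1)`: `v 0 = pos 0 = 0` (`tl 0 = 0` by `tl_P`), `v (re g) = pos (tl (re g))` with `|tl (re g)| < 2`
(`abs_tl_sub_lt`), so by `lip` `‖φ g‖ ≤ C2`.
`linear`: if moreover `g ≠ 0` then with `n = ⌊1/|re g|⌋₊ ≥ 1/(2|re g|)` one has `n g ∈ R η`, `|re (n g)| ≤ 1`, so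
`n ‖φ g‖ ≤ C2`, i.e. `‖φ g‖ ≤ 2 C2 |re g|`.
Apply `linear` to `g = r / lam^j ∈ R η` (`R_lam_pow`), `j` large: `‖φ r‖ ≤ 2 C2 |re r| (‖φ lam‖ / L)^j → 0` because
`‖φ lam‖ < L` (`dom`), but `φ r ≠ 0`.
-/

namespace H69.ED.Geo

variable {A K : Type} [Fintype A] [Field K] [NumberField K] (G : Geo A K)

theorem small {η : ℝ} (hη : η < 1) : ∃ C : ℝ, 1 ≤ C ∧ ∀ g ∈ G.R η, |G.re g| ≤ 1 →
    ∀ φ : K →+* ℂ, G.Non φ → ‖φ g‖ ≤ C := by
  obtain ⟨C1, hC1, h1⟩ := G.non_bd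
  obtain ⟨C2, hC2, h2⟩ := G.lip
  refine ⟨C1 + C2 * 2, by linarith, ?_⟩
  intro g hg hg1 φ hφ
  have key := h1 η 0 1 0 g hη (hg 0 1) (by norm_num) le_rfl (by norm_num) φ hφ
  have hv0 : G.v 0 = 0 := by
    have := G.v_P 0
    rwa [G.P_zero, G.pos_zero] at this
  have htl0 : G.tl 0 = 0 := by
    have := G.tl_P 0
    rwa [G.P_zero] at this
  rw [hv0, zero_add, zero_add] at key
  have h3 := h2 φ (G.tl (G.re g)) 0
  rw [G.pos_zero, map_zero, sub_zero, sub_zero] at h3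
  have h4 := G.abs_tl_sub_lt 0 (G.re g)
  rw [htl0, sub_zero, sub_zero] at h4
  have h5 : ‖φ (G.v (G.re g))‖ ≤ C2 * 2 := by
    refine h3.trans (mul_le_mul_of_nonneg_left (by linarith) (by linarith))
  have h6 : φ g = φ (g - G.v (G.re g)) + φ (G.v (G.re g)) := by
    rw [← map_add]; congr 1; ring
  rw [h6]
  exact (norm_add_le _ _).trans (add_le_add key h5)

private theorem linear {η : ℝ} (hη : η < 1) : ∃ C : ℝ, 0 ≤ C ∧ ∀ g ∈ G.R η, |G.re g| ≤ 1 →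
    ∀ φ : K →+* ℂ, G.Non φ → ‖φ g‖ ≤ C * |G.re g| := by
  obtain ⟨C, hC, h⟩ := G.small hη
  refine ⟨2 * C, by linarith, ?_⟩
  intro g hg hg1 φ hφ
  by_cases h0 : g = 0
  · subst h0; simp
  have hre : 0 < |G.re g| := by
    rw [abs_pos]
    intro h1
    exact h0 (G.re_injective (by rw [h1, map_zero]))
  set n : ℕ := ⌊1 / |G.re g|⌋₊ with hn
  have hn1 : (n : ℝ) ≤ 1 / |G.re g| := Nat.floor_le (by positivity)
  have hn2 : 1 / |G.re g| < (n : ℝ) + 1 := Nat.lt_floor_add_one _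
  have hge1 : 1 ≤ 1 / |G.re g| := by
    rw [le_div_iff₀ hre]; linarith
  have hnpos : 1 ≤ n := by
    rw [hn]
    exact Nat.le_floor (by simpa using hge1)
  have hn3 : 1 ≤ (n : ℝ) := by exact_mod_cast hnpos
  have hn4 : 1 / |G.re g| ≤ 2 * n := by linarith
  have h1 := h ((n : K) * g) (G.R_nsmul hg n) (by
    rw [map_mul, map_natCast, abs_mul, Nat.abs_cast]
    rwa [le_div_iff₀ hre] at hn1) φ hφ
  rw [map_mul, map_natCast, norm_mul, Complex.norm_natCast] at h1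
  have h5 : 1 ≤ 2 * n * |G.re g| := by
    rwa [div_le_iff₀ hre] at hn4
  have hnn : 0 ≤ ‖φ g‖ := norm_nonneg _
  calc ‖φ g‖ ≤ (2 * n * |G.re g|) * ‖φ g‖ := by nlinarith
    _ = 2 * |G.re g| * (n * ‖φ g‖) := by ring
    _ ≤ 2 * |G.re g| * C := by gcongr
    _ = 2 * C * |G.re g| := by ring

theorem pisot {η : ℝ} (hη : η < 1) {r : K} (hr : r ∈ G.R η) (h0 : r ≠ 0) :
    ∀ φ : K →+* ℂ, ¬ G.Non φ := by
  intro φ hφ
  obtain ⟨C, hC, h⟩ := G.linear hη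
  have hL := G.L_gt_one
  have hlt : ‖φ G.lam‖ < G.L := G.dom φ hφ.2
  have hφ1 : 1 ≤ ‖φ G.lam‖ := hφ.1
  have hlam := G.lam_ne_zero
  have hrne : φ r ≠ 0 := by
    rw [Ne, map_eq_zero]; exact h0
  -- the key inequality
  have key : ∀ᶠ j : ℕ in Filter.atTop,
      ‖φ r‖ ≤ C * |G.re r| * (‖φ G.lam‖ / G.L) ^ j := by
    have ht : Filter.Tendsto (fun j : ℕ => |G.re r| * (1 / G.L) ^ j) Filter.atTop
        (nhds (|G.re r| * 0)) :=
      (tendsto_pow_atTop_nhds_zero_of_lt_one (by positivity) (by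
        rw [div_lt_one (by linarith)]; exact hL)).const_mul _
    rw [mul_zero] at ht
    filter_upwards [ht.eventually (gt_mem_nhds (show (0 : ℝ) < 1 by norm_num))] with j hj
    have hg : r / G.lam ^ j ∈ G.R η := by
      rw [← G.R_lam_pow j, mul_div_cancel₀ _ (pow_ne_zero j hlam)]
      exact hr
    have hre : |G.re (r / G.lam ^ j)| = |G.re r| * (1 / G.L) ^ j := by
      rw [map_div₀, map_pow, abs_div, abs_pow, show G.re G.lam = G.L from rfl,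
        abs_of_pos (show 0 < G.L by linarith), one_div, inv_pow, div_eq_mul_inv]
    have h1 := h _ hg (by rw [hre]; exact hj.le) φ hφ
    rw [hre, map_div₀, map_pow, norm_div, norm_pow] at h1
    have hp : 0 < ‖φ G.lam‖ ^ j := by positivity
    rw [div_le_iff₀ hp] at h1
    calc ‖φ r‖ ≤ C * (|G.re r| * (1 / G.L) ^ j) * ‖φ G.lam‖ ^ j := h1
      _ = C * |G.re r| * (‖φ G.lam‖ / G.L) ^ j := by
        rw [div_pow, div_pow, one_pow]; ring
  have ht2 : Filter.Tendsto (fun j : ℕ => C * |G.re r| * (‖φ G.lam‖ / G.L) ^ j) Filter.atTop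
      (nhds (C * |G.re r| * 0)) :=
    (tendsto_pow_atTop_nhds_zero_of_lt_one (by positivity) (by
      rw [div_lt_one (by linarith)]; exact hlt)).const_mul _
  rw [mul_zero] at ht2
  have h2 : ‖φ r‖ ≤ 0 := ge_of_tendsto ht2 key
  exact hrne (norm_le_zero_iff.mp h2)

end H69.ED.Geo
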