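import Pool.Agent.H69.ED.MhA

/-!
# RecA: transport of an unregistered good shift

If `Rec η C l` fails for every `l` then for every `p₁` and `n₁` there is `r₁` with
`Good η (P p₁) (P (p₁ + n₁)) r₁`, `lam r₁ ∈ Reg (C + 2 C0)` and `r₁ ∉ Reg (C - 2 C0)`.
Let `Rr` be the recurrence bound for words of length `n₁` (`recur`), `l = Rr + n₁`, and `r`, `p` with `lam r ∈ Reg C`,
`Good η (P p) (P (p+l)) r`, `r ∉ Reg C`. There is `t ≤ Rr` with `z (p + t + i) = z (p₁ + i)` for `i < n₁`. Put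
`p₂ = p + t`, `d = pos p₂ - pos p₁`, `r₁ = d + r`. `d` matches on `[P p₁, P (p₁+n₁))` (`mt_word`), so
`good_of_mt`, `good_trans` (the interval moves to `[P p₂, P (p₂ + n₁))`, contained in `[P p, P (p+l))`; note
`P (p₁+n₁) + re d = P (p₂+n₁)` by `pos_word`). `d` is integral and `‖φ d‖ ≤ 2 C0` for contracting `φ`, so
`lam r₁ = lam d + lam r` (`‖φ lam‖ < 1`) and `r = r₁ - d` give the two claims.
-/

namespace H69.ED.Geo

variable {A K : Type} [Fintype A] [Field K] [NumberField K] (G : Geo A K)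

theorem rec_transport {η C C0 : ℝ} (hC0 : ∀ φ : K →+* ℂ, G.Con φ → ∀ n : ℤ, ‖φ (G.pos n)‖ ≤ C0)
    (h : ∀ l : ℕ, ¬ G.Rec η C l) (p₁ : ℤ) (n₁ : ℕ) :
    ∃ r₁ : K, G.Good η (G.P p₁) (G.P (p₁ + n₁)) r₁ ∧ G.lam * r₁ ∈ G.Reg (C + 2 * C0) ∧
      r₁ ∉ G.Reg (C - 2 * C0) := by
  obtain ⟨Rr, hRr⟩ := G.recur n₁
  have h0 := h (Rr + n₁)
  unfold Rec at h0
  push Not at h0
  obtain ⟨r, p, hr, hg, hn⟩ := h0
  obtain ⟨t, ht, hz⟩ := hRr p₁ p
  have hw : ∀ i : ℕ, i < n₁ → G.z (p₁ + i) = G.z (p + t + i) := fun i hi => (hz i hi).symm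
  have hpw := G.pos_word hw n₁ le_rfl
  have hd : ∀ φ : K →+* ℂ, G.Con φ → ‖φ (G.pos (p + t) - G.pos p₁)‖ ≤ 2 * C0 := fun φ hφ => by
    rw [map_sub]
    have h1 := norm_sub_le (φ (G.pos (p + t))) (φ (G.pos p₁))
    have h2 := hC0 φ hφ (p + t)
    have h3 := hC0 φ hφ p₁
    linarith
  have hdi : IsIntegral ℤ (G.pos (p + t) - G.pos p₁) := (G.pos_int _).sub (G.pos_int _)
  have e1 : G.P p₁ + G.re (G.pos (p + t) - G.pos p₁) = G.P (p + t) := by
    rw [map_sub]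
    show G.re (G.pos p₁) + _ = G.re (G.pos (p + t))
    ring
  have e2 : G.P (p₁ + n₁) + G.re (G.pos (p + t) - G.pos p₁) = G.P (p + t + n₁) := by
    have h4 := congrArg G.re hpw
    rw [map_sub, map_sub] at h4
    rw [map_sub]
    show G.re (G.pos (p₁ + n₁)) + _ = G.re (G.pos (p + t + n₁))
    linarith
  refine ⟨(G.pos (p + t) - G.pos p₁) + r, ?_, ⟨?_, ?_⟩, ?_⟩
  · refine G.good_trans (G.good_of_mt η fun x hx1 hx2 => G.mt_word hw hx1 hx2) ?_
    rw [e1, e2]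
    refine G.good_mono ?_ ?_ hg
    · exact (G.P_le_iff _ _).2 (by omega)
    · exact (G.P_le_iff _ _).2 (by push_cast; omega)
  · rw [mul_add]
    exact (G.lam_int.mul hdi).add hr.1
  · intro φ hφ
    rw [mul_add, map_add]
    refine (norm_add_le _ _).trans ?_
    have h1 := hr.2 φ hφ
    have h2 : ‖φ (G.lam * (G.pos (p + t) - G.pos p₁))‖ ≤ 2 * C0 := by
      rw [map_mul, norm_mul]
      have h3 : ‖φ G.lam‖ ≤ 1 := le_of_lt hφ
      calc ‖φ G.lam‖ * ‖φ (G.pos (p + t) - G.pos p₁)‖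
          ≤ 1 * ‖φ (G.pos (p + t) - G.pos p₁)‖ :=
            mul_le_mul_of_nonneg_right h3 (norm_nonneg _)
        _ ≤ 2 * C0 := by rw [one_mul]; exact hd φ hφ
    linarith
  · intro hr₁
    apply hn
    have e3 : r = (G.pos (p + t) - G.pos p₁) + r - (G.pos (p + t) - G.pos p₁) := by ring
    refine ⟨?_, fun φ hφ => ?_⟩
    · rw [e3]
      exact hr₁.1.sub hdi
    · rw [e3, map_sub]
      refine (norm_sub_le _ _).trans ?_
      have h1 := hr₁.2 φ hφ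
      have h2 := hd φ hφ
      linarith

end H69.ED.Geo
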