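import Pool.Agent.H69.ED.Line

/-!
# Scale: inflation

`pos (io n) = lam * pos n`: induction on `n` upwards and downwards from `0` (`Int.induction_on`):
`pos (io (n+1)) = pos (io n + |tau (z n)|) = pos (io n) + (sum of ell over the letters
z (io n), ..., z (io n + |tau (z n)| - 1), which are the letters of tau (z n)) = pos (io n) + lam ell (z n)`
by `eig`.  `io` is strictly increasing since `tau (z n) ≠ []`.  Iterates: `pos (io^[k] n) = lam^k pos n`.

`io_word`: if `z (p+i) = z (q+i)` for `i < n` then the images are equal: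
`io (p+i) - io p = io (q+i) - io q` for `i ≤ n` and `z (io p + j) = z (io q + j)` for
`0 ≤ j < io (p+n) - io p` (`j` lies in the image of one letter `p+i`).  `io_word_iter`: the same for the
iterates of `io` (induction on `k`).

`tl_scale`: `io^[k] (tl x) ≤ tl (L^k x) < io^[k] (tl x + 1)` because `P (io^[k] n) = L^k P n`.
-/

namespace H69.ED.Geo

variable {A K : Type} [Fintype A] [Field K] [NumberField K] (G : Geo A K)

theorem io_strictMono : StrictMono G.io := by
  refine strictMono_int_of_lt_succ fun n => ?_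
  rw [G.io_succ]
  have h1 : 0 < (G.tau (G.z n)).length := List.length_pos_iff.2 (G.ne _)
  omega

theorem iter_strictMono (k : ℕ) : StrictMono G.io^[k] := G.io_strictMono.iterate k

theorem iter_zero (k : ℕ) : G.io^[k] 0 = 0 := Function.iterate_fixed G.io_zero k

private theorem pos_io_take (n : ℤ) (j : ℕ) (hj : j ≤ (G.tau (G.z n)).length) :
    G.pos (G.io n + j) = G.pos (G.io n) + (((G.tau (G.z n)).take j).map G.ell).sum := by
  induction j with
  | zero => simp
  | succ j ih =>
    have h1 : j < (G.tau (G.z n)).length := by omega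
    have h2 : G.io n + ((j + 1 : ℕ) : ℤ) = (G.io n + j) + 1 := by push_cast; ring
    rw [h2, G.pos_succ, ih h1.le, G.img n j h1, List.take_succ_eq_append_getElem h1,
      List.map_append, List.sum_append]
    simp [add_assoc]

private theorem pos_io_succ (n : ℤ) :
    G.pos (G.io (n + 1)) = G.pos (G.io n) + G.lam * G.ell (G.z n) := by
  rw [G.io_succ, pos_io_take G n _ le_rfl, List.take_length, G.eig]

theorem pos_io (n : ℤ) : G.pos (G.io n) = G.lam * G.pos n := by
  induction n using Int.induction_on with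
  | zero => rw [G.io_zero, G.pos_zero, mul_zero]
  | succ i ih => rw [pos_io_succ, ih, G.pos_succ, mul_add]
  | pred i ih =>
    have h1 := pos_io_succ G (-(i : ℤ) - 1)
    have h2 := G.pos_succ (-(i : ℤ) - 1)
    rw [sub_add_cancel] at h1 h2
    rw [ih, h2, mul_add] at h1
    exact (add_right_cancel h1).symm

theorem pos_iter (k : ℕ) (n : ℤ) : G.pos (G.io^[k] n) = G.lam ^ k * G.pos n := by
  induction k with
  | zero => simp
  | succ k ih => rw [Function.iterate_succ_apply', pos_io, ih, pow_succ]; ring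

theorem P_iter (k : ℕ) (n : ℤ) : G.P (G.io^[k] n) = G.L ^ k * G.P n := by
  unfold P L
  rw [pos_iter, map_mul, map_pow]

theorem io_word {p q : ℤ} {n : ℕ} (h : ∀ i : ℕ, i < n → G.z (p + i) = G.z (q + i)) :
    (∀ i : ℕ, i ≤ n → G.io (p + i) - G.io p = G.io (q + i) - G.io q) ∧
    ∀ j : ℕ, (j : ℤ) < G.io (p + n) - G.io p → G.z (G.io p + j) = G.z (G.io q + j) := by
  have h1 : ∀ i : ℕ, i ≤ n → G.io (p + i) - G.io p = G.io (q + i) - G.io q := by
    intro i hi
    induction i with
    | zero => simp
    | succ i ih =>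
      have h2 := ih (by omega)
      have h3 := h i (by omega)
      have h4 : p + ((i + 1 : ℕ) : ℤ) = (p + i) + 1 := by push_cast; ring
      have h5 : q + ((i + 1 : ℕ) : ℤ) = (q + i) + 1 := by push_cast; ring
      rw [h4, h5, G.io_succ, G.io_succ, h3]
      omega
  refine ⟨h1, ?_⟩
  induction n with
  | zero => intro j hj; simp at hj; omega
  | succ n ih =>
    intro j hj
    by_cases hj2 : (j : ℤ) < G.io (p + n) - G.io p
    · exact ih (fun i hi => h i (by omega)) (fun i hi => h1 i (by omega)) j hj2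
    · push Not at hj2
      have h2 := h1 n (by omega)
      have h3 := h n (by omega)
      have h4 : p + ((n + 1 : ℕ) : ℤ) = (p + n) + 1 := by push_cast; ring
      rw [h4, G.io_succ] at hj
      obtain ⟨m, hm⟩ := Int.eq_ofNat_of_zero_le (sub_nonneg.2 hj2)
      have hml : m < (G.tau (G.z (p + n))).length := by omega
      have hml2 : m < (G.tau (G.z (q + n))).length := by rw [← h3]; exact hml
      have e1 : G.io p + j = G.io (p + n) + m := by omega
      have e2 : G.io q + j = G.io (q + n) + m := by omega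
      rw [e1, e2, G.img _ _ hml, G.img _ _ hml2]
      simp only [h3]

theorem io_word_iter (k : ℕ) {p q : ℤ} {n : ℕ}
    (h : ∀ i : ℕ, i < n → G.z (p + i) = G.z (q + i)) :
    (∀ i : ℕ, i ≤ n → G.io^[k] (p + i) - G.io^[k] p = G.io^[k] (q + i) - G.io^[k] q) ∧
    ∀ j : ℕ, (j : ℤ) < G.io^[k] (p + n) - G.io^[k] p →
      G.z (G.io^[k] p + j) = G.z (G.io^[k] q + j) := by
  induction k with
  | zero =>
    refine ⟨fun i _ => ?_, fun j hj => ?_⟩
    · simp
    · simp only [Function.iterate_zero, id_eq] at hj ⊢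
      exact h j (by omega)
  | succ k ih =>
    obtain ⟨ih1, ih2⟩ := ih
    have hmono := (G.iter_strictMono k).monotone
    obtain ⟨N, hN⟩ := Int.eq_ofNat_of_zero_le
      (sub_nonneg.2 (hmono (show p ≤ p + n by omega)))
    have hw := G.io_word (p := G.io^[k] p) (q := G.io^[k] q) (n := N)
      (fun i hi => ih2 i (by omega))
    obtain ⟨hw1, hw2⟩ := hw
    refine ⟨fun i hi => ?_, fun j hj => ?_⟩
    · simp only [Function.iterate_succ_apply']
      obtain ⟨m, hm⟩ := Int.eq_ofNat_of_zero_le
        (sub_nonneg.2 (hmono (show p ≤ p + i by omega)))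
      have h1 := ih1 i hi
      have h2 : G.io^[k] (p + i) ≤ G.io^[k] (p + n) := hmono (by omega)
      have e1 : G.io^[k] (p + i) = G.io^[k] p + m := by omega
      have e2 : G.io^[k] (q + i) = G.io^[k] q + m := by omega
      rw [e1, e2]
      exact hw1 m (by omega)
    · simp only [Function.iterate_succ_apply'] at hj ⊢
      have e1 : G.io^[k] (p + n) = G.io^[k] p + N := by omega
      rw [e1] at hj
      exact hw2 j hj

/-- positions inside equal words -/
theorem pos_word {p q : ℤ} {n : ℕ} (h : ∀ i : ℕ, i < n → G.z (p + i) = G.z (q + i)) :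
    ∀ i : ℕ, i ≤ n → G.pos (p + i) - G.pos p = G.pos (q + i) - G.pos q := by
  intro i hi
  induction i with
  | zero => simp
  | succ i ih =>
    have h2 := ih (by omega)
    have h3 := h i (by omega)
    have h4 : p + ((i + 1 : ℕ) : ℤ) = (p + i) + 1 := by push_cast; ring
    have h5 : q + ((i + 1 : ℕ) : ℤ) = (q + i) + 1 := by push_cast; ring
    rw [h4, h5, G.pos_succ, G.pos_succ, h3]
    linear_combination h2

theorem tl_scale (k : ℕ) (x : ℝ) :
    G.io^[k] (G.tl x) ≤ G.tl (G.L ^ k * x) ∧ G.tl (G.L ^ k * x) < G.io^[k] (G.tl x + 1) := by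
  have hL : 0 < G.L ^ k := pow_pos (lt_trans one_pos G.L_gt_one) k
  obtain ⟨h1, h2⟩ := G.tl_spec x
  constructor
  · rw [G.le_tl_iff, P_iter]
    exact mul_le_mul_of_nonneg_left h1 hL.le
  · rw [G.tl_lt_iff, P_iter]
    exact mul_lt_mul_of_pos_left h2 hL

/-- the number of tiles in an inflated tile -/
theorem iter_sub_le (k : ℕ) {m n : ℤ} (h : m ≤ n) :
    ((G.io^[k] n - G.io^[k] m : ℤ) : ℝ) ≤ G.L ^ k * (G.P n - G.P m) := by
  have h1 := G.P_sub_ge ((G.iter_strictMono k).monotone h)
  rw [P_iter, P_iter] at h1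
  rw [mul_sub]
  exact h1

theorem iter_sub_ge (k : ℕ) {m n : ℤ} (h : m ≤ n) :
    G.L ^ k * (G.P n - G.P m) ≤ G.lm * ((G.io^[k] n - G.io^[k] m : ℤ) : ℝ) := by
  have h1 := G.P_sub_le ((G.iter_strictMono k).monotone h)
  rw [P_iter, P_iter] at h1
  rw [mul_sub]
  exact h1

end H69.ED.Geo
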