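import Pool.Agent.H69.ED.Beta
import Pool.Agent.H69.ED.PicB
import Pool.Agent.H69.ED.Path

/-!
# Upper: the upper bound

`unif_R`: for `g ∈ R η`, integral with all conjugates `≠ idC` bounded by `C`: the offsets `pos i + g - v (P i + re g)` have
bounded conjugates (`con_pos`; every `φ ≠ idC` is contracting by `pisot` if `R η ≠ 0`, else `g = 0` and the offset is
`0`), so `pic_unif`.

`unmatched`: `g ∈ R η` as above, `r₀ = lam^m g`: the number of `i ∈ [a, a+n)` with `¬ Mt r₀ (P i)` is at most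
`C (n / L^m + 1) L^(η m)`: with `p = tl (P a / L^m)`, `q = tl (P (a+n) / L^m) + 1`, `[a, a+n) ⊆ [io^[m] p, io^[m] q)`
(`tl_scale`), `q - p ≤ (P (a+n) - P a) / L^m + 2 ≤ lm n / L^m + 2` (`tl_sub_lt`); `V_count`, `V_tiles`, `unif_R`.

`upper`: given `a, b, n, m` let `X = (P b - P a) / L^m`, `g` from `expand` (`|re g - X| ≤ C`), `r₀ = lam^m g`,
`|re r₀ - (P b - P a)| ≤ C L^m`. A matched `i ∈ [a,a+n)` has the partner `j`, `P j = P i + re r₀` (`mt_partner`). If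
`j < b`: `P i < P b - re r₀ ≤ P a + C L^m`: at most `C L^m + 1` such `i` (`P_sub_ge`). If `j ≥ b + n`:
`P i ≥ P (b+n) - re r₀ ≥ P (b+n) - P b + P a - C L^m = P (a+n) - Δ - C L^m`,
`Δ = |(P (a+n) - P a) - (P (b+n) - P b)|`: at most `Δ + C L^m + 1` such `i`. So `match_lcs` gives
`D ≤ 2 (unmatched + 2 C L^m + 2 + Δ)`; `L^m ≥ 1`.
-/

namespace H69.ED.Geo

open H95.Edit

variable {A K : Type} [Fintype A] [Field K] [NumberField K] (G : Geo A K)

theorem unif_R {η : ℝ} (hη : η < 1) (C : ℝ) : ∃ Q : ℝ, 0 ≤ Q ∧ ∀ g ∈ G.R η, IsIntegral ℤ g →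
    (∀ φ : K →+* ℂ, φ ≠ G.idC → ‖φ g‖ ≤ C) →
    ∀ (i : ℤ) (k : ℕ), G.V k (G.P i) (G.P (i + 1)) g ≤ Q * G.L ^ (η * k) := by
  obtain ⟨C0, hC0, hcon⟩ := G.con_pos
  obtain ⟨Q, hQ, hpic⟩ := G.pic_unif η (2 * C0 + C)
  refine ⟨Q, hQ, ?_⟩
  intro g hg hint hbd i k
  refine hpic i g hint ?_ (hg _ _) k
  intro φ hφ
  have hC : 0 ≤ C := (norm_nonneg _).trans (hbd φ hφ)
  by_cases h0 : g = 0
  · subst h0
    rw [map_zero, add_zero, add_zero, G.v_P, sub_self, map_zero, norm_zero]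
    linarith
  · have hc : G.Con φ := by
      rcases G.con_or_non hφ with h | h
      · exact h
      · exact absurd h (G.pisot hη hg h0 φ)
    rw [map_sub, map_add]
    have h1 : ‖φ (G.pos i)‖ ≤ C0 := hcon φ hc i
    have h2 : ‖φ (G.v (G.P i + G.re g))‖ ≤ C0 := hcon φ hc _
    have h3 := hbd φ hφ
    calc ‖φ (G.pos i) + φ g - φ (G.v (G.P i + G.re g))‖
        ≤ ‖φ (G.pos i) + φ g‖ + ‖φ (G.v (G.P i + G.re g))‖ := norm_sub_le _ _
      _ ≤ (‖φ (G.pos i)‖ + ‖φ g‖) + ‖φ (G.v (G.P i + G.re g))‖ := by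
          gcongr
          exact norm_add_le _ _
      _ ≤ 2 * C0 + C := by linarith

theorem Upper_Lm_pos (m : ℕ) : 0 < G.L ^ m := pow_pos (by linarith [G.L_gt_one]) m

theorem Upper_one_le_Lm (m : ℕ) : 1 ≤ G.L ^ m := one_le_pow₀ G.L_gt_one.le

open Classical in
theorem unmatched {η : ℝ} (hη : η < 1) (C : ℝ) : ∃ Q : ℝ, 0 ≤ Q ∧ ∀ g ∈ G.R η, IsIntegral ℤ g →
    (∀ φ : K →+* ℂ, φ ≠ G.idC → ‖φ g‖ ≤ C) → ∀ (m n : ℕ) (a : ℤ),
    ((((Finset.Ico a (a + n)).filter (fun i => ¬ G.Mt (G.lam ^ m * g) (G.P i))).card : ℕ) : ℝ) ≤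
      Q * ((n : ℝ) / G.L ^ m + 1) * G.L ^ (η * m) := by
  obtain ⟨Q0, hQ0, hu⟩ := G.unif_R hη C
  have hlm := G.one_le_lm
  refine ⟨2 * G.lm * Q0, by positivity, ?_⟩
  intro g hg hint hbd m n a
  have hL := G.Upper_Lm_pos m
  set p : ℤ := G.tl (G.P a / G.L ^ m) with hp
  set q : ℤ := G.tl (G.P (a + n) / G.L ^ m) + 1 with hq
  have hx : G.L ^ m * (G.P a / G.L ^ m) = G.P a := by field_simp
  have hx' : G.L ^ m * (G.P (a + n) / G.L ^ m) = G.P (a + n) := by field_simp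
  have h1 : G.io^[m] p ≤ a := by
    have := (G.tl_scale m (G.P a / G.L ^ m)).1
    rwa [hx, G.tl_P] at this
  have h2 : a + n < G.io^[m] q := by
    have := (G.tl_scale m (G.P (a + n) / G.L ^ m)).2
    rwa [hx', G.tl_P] at this
  have hmono : G.P a ≤ G.P (a + n) := (G.P_le_iff _ _).2 (by omega)
  have hxx : G.P a / G.L ^ m ≤ G.P (a + n) / G.L ^ m := by gcongr
  have h3 : ((G.tl (G.P (a + n) / G.L ^ m) - G.tl (G.P a / G.L ^ m) : ℤ) : ℝ) <
      G.P (a + n) / G.L ^ m - G.P a / G.L ^ m + 1 := G.tl_sub_lt hxx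
  have h4 : G.P (a + n) - G.P a ≤ G.lm * n := by
    have := G.P_sub_le (m := a) (n := a + n) (by omega)
    simpa using this
  have hpq : p ≤ q := by
    have := G.tl_mono hxx
    omega
  have h5 : ((q - p : ℤ) : ℝ) ≤ 2 * G.lm * ((n : ℝ) / G.L ^ m + 1) := by
    have e1 : ((q - p : ℤ) : ℝ) =
        ((G.tl (G.P (a + n) / G.L ^ m) - G.tl (G.P a / G.L ^ m) : ℤ) : ℝ) + 1 := by
      rw [hp, hq]
      push_cast
      ring
    have e2 : G.P (a + n) / G.L ^ m - G.P a / G.L ^ m ≤ G.lm * n / G.L ^ m := by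
      rw [← sub_div]
      gcongr
    have e3 : G.lm * n / G.L ^ m = G.lm * ((n : ℝ) / G.L ^ m) := by ring
    have e4 : 0 ≤ (n : ℝ) / G.L ^ m := by positivity
    have e5 : 0 ≤ G.lm * ((n : ℝ) / G.L ^ m) := by positivity
    rw [e1]
    nlinarith
  have h6 : ((((Finset.Ico a (a + n)).filter
      (fun i => ¬ G.Mt (G.lam ^ m * g) (G.P i))).card : ℕ) : ℝ) ≤
      ((((Finset.Ico (G.io^[m] p) (G.io^[m] q)).filter
      (fun i => ¬ G.Mt (G.lam ^ m * g) (G.P i))).card : ℕ) : ℝ) := by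
    exact_mod_cast Finset.card_le_card (Finset.filter_subset_filter _
      (Finset.Ico_subset_Ico h1 h2.le))
  have h7 := G.V_count m hpq g
  rw [G.V_tiles m hpq g] at h7
  have h8 : ∑ i ∈ Finset.Ico p q, G.V m (G.P i) (G.P (i + 1)) g ≤
      ((q - p : ℤ) : ℝ) * (Q0 * G.L ^ (η * m)) := by
    calc ∑ i ∈ Finset.Ico p q, G.V m (G.P i) (G.P (i + 1)) g
        ≤ ∑ i ∈ Finset.Ico p q, (Q0 * G.L ^ (η * m)) :=
          Finset.sum_le_sum fun i _ => hu g hg hint hbd i m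
      _ = ((q - p : ℤ) : ℝ) * (Q0 * G.L ^ (η * m)) := by
          rw [Finset.sum_const, Int.card_Ico, nsmul_eq_mul]
          congr 1
          have : ((q - p).toNat : ℤ) = q - p := Int.toNat_of_nonneg (by omega)
          exact_mod_cast this
  have hpos : 0 ≤ Q0 * G.L ^ (η * m) :=
    mul_nonneg hQ0 (Real.rpow_nonneg (by linarith [G.L_gt_one]) _)
  calc ((((Finset.Ico a (a + n)).filter
      (fun i => ¬ G.Mt (G.lam ^ m * g) (G.P i))).card : ℕ) : ℝ)
      ≤ ((q - p : ℤ) : ℝ) * (Q0 * G.L ^ (η * m)) := h6.trans (h7.trans h8)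
    _ ≤ (2 * G.lm * ((n : ℝ) / G.L ^ m + 1)) * (Q0 * G.L ^ (η * m)) := by gcongr
    _ = 2 * G.lm * Q0 * ((n : ℝ) / G.L ^ m + 1) * G.L ^ (η * m) := by ring

/-- the elements of a window close to its left end -/
theorem Upper_left {a : ℤ} {n : ℕ} {t : ℝ} (ht : 0 ≤ t) {S : Finset ℤ}
    (hS : S ⊆ Finset.Ico a (a + n)) (h : ∀ i ∈ S, G.P i < G.P a + t) : (S.card : ℝ) ≤ t + 1 := by
  have hsub : S ⊆ Finset.Ico a (a + ⌈t⌉₊) := by
    intro i hi
    have h1 := Finset.mem_Ico.1 (hS hi)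
    rw [Finset.mem_Ico]
    refine ⟨h1.1, ?_⟩
    have h2 := G.P_sub_ge h1.1
    have h3 := h i hi
    have h4 : ((i - a : ℤ) : ℝ) < (⌈t⌉₊ : ℝ) := by
      have := Nat.le_ceil t
      linarith
    have h5 : i - a < (⌈t⌉₊ : ℤ) := by exact_mod_cast h4
    omega
  have h1 := Finset.card_le_card hsub
  rw [Int.card_Ico] at h1
  have h2 : (a + (⌈t⌉₊ : ℤ) - a).toNat = ⌈t⌉₊ := by
    rw [add_sub_cancel_left]
    exact Int.toNat_natCast _
  rw [h2] at h1
  have h3 : (S.card : ℝ) ≤ (⌈t⌉₊ : ℝ) := by exact_mod_cast h1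
  exact h3.trans (Nat.ceil_lt_add_one ht).le

/-- the elements of a window close to its right end -/
theorem Upper_right {a : ℤ} {n : ℕ} {t : ℝ} (ht : 0 ≤ t) {S : Finset ℤ}
    (hS : S ⊆ Finset.Ico a (a + n)) (h : ∀ i ∈ S, G.P (a + n) - t ≤ G.P i) :
    (S.card : ℝ) ≤ t := by
  have hsub : S ⊆ Finset.Ico (a + n - ⌊t⌋₊) (a + n) := by
    intro i hi
    have h1 := Finset.mem_Ico.1 (hS hi)
    rw [Finset.mem_Ico]
    refine ⟨?_, h1.2⟩
    have h2 := G.P_sub_ge h1.2.le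
    have h3 := h i hi
    have h4 : ((a + n - i : ℤ) : ℝ) ≤ t := by linarith
    have h6 : ((a + n - i).toNat : ℤ) = a + n - i := Int.toNat_of_nonneg (by omega)
    have h7 : (((a + n - i).toNat : ℕ) : ℝ) ≤ t := by
      have : (((a + n - i).toNat : ℕ) : ℝ) = ((a + n - i : ℤ) : ℝ) := by exact_mod_cast h6
      rw [this]
      exact h4
    have h8 := Nat.le_floor h7
    omega
  have h1 := Finset.card_le_card hsub
  rw [Int.card_Ico] at h1
  have h2 : (a + n - (a + n - (⌊t⌋₊ : ℤ))).toNat = ⌊t⌋₊ := by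
    rw [sub_sub_cancel]
    exact Int.toNat_natCast _
  rw [h2] at h1
  have h3 : (S.card : ℝ) ≤ (⌊t⌋₊ : ℝ) := by exact_mod_cast h1
  exact h3.trans (Nat.floor_le ht)

theorem upper {η : ℝ} (hη : η < 1) {r : K} (hr : r ∈ G.R η) (h0 : r ≠ 0) :
    ∃ C : ℝ, 0 ≤ C ∧ ∀ (m n : ℕ) (a b : ℤ), (D (word G.z a n) (word G.z b n) : ℝ) ≤
      C * (G.L ^ m + |(G.P (a + n) - G.P a) - (G.P (b + n) - G.P b)| +
        ((n : ℝ) / G.L ^ m + 1) * G.L ^ (η * m)) := by
  classical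
  obtain ⟨C1, hC1, hexp⟩ := G.expand hη hr h0
  obtain ⟨Q, hQ, hun⟩ := G.unmatched hη C1
  refine ⟨2 * Q + 4 * C1 + 2, by positivity, ?_⟩
  intro m n a b
  have hL := G.Upper_Lm_pos m
  have hL1 := G.Upper_one_le_Lm m
  obtain ⟨g, hg, hint, hX, hbd⟩ := hexp ((G.P b - G.P a) / G.L ^ m)
  set r0 : K := G.lam ^ m * g with hr0
  set Δ : ℝ := |(G.P (a + n) - G.P a) - (G.P (b + n) - G.P b)| with hΔ
  have hΔ0 : 0 ≤ Δ := abs_nonneg _
  have hre : G.re r0 = G.L ^ m * G.re g := by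
    rw [hr0, map_mul, map_pow]
    rfl
  have hre1 : |G.re r0 - (G.P b - G.P a)| ≤ C1 * G.L ^ m := by
    have e1 : G.re r0 - (G.P b - G.P a) = G.L ^ m * (G.re g - (G.P b - G.P a) / G.L ^ m) := by
      rw [hre]
      field_simp
    rw [e1, abs_mul, abs_of_pos hL, mul_comm]
    gcongr
  obtain ⟨hre2, hre3⟩ := abs_le.1 hre1
  obtain ⟨hd1, hd2⟩ := abs_le.1 (le_of_eq hΔ.symm)
  set T : ℝ := C1 * G.L ^ m with hT
  have hT0 : 0 ≤ T := by positivity
  have hml := G.match_lcs r0 a b n n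
  set I := Finset.Ico a (a + (n : ℤ)) with hI
  set M := I.filter (fun i => ∃ j : ℤ,
      b ≤ j ∧ j < b + n ∧ G.pos j = G.pos i + r0 ∧ G.z j = G.z i) with hM
  set U := I.filter (fun i => ¬ G.Mt r0 (G.P i)) with hU
  set S1 := I.filter (fun i => G.P i < G.P a + T) with hS1
  set S2 := I.filter (fun i => G.P (a + n) - (Δ + T) ≤ G.P i) with hS2
  have hcover : I ⊆ M ∪ (U ∪ (S1 ∪ S2)) := by
    intro i hi
    simp only [Finset.mem_union, hM, hU, hS1, hS2, Finset.mem_filter]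
    by_cases hmt : G.Mt r0 (G.P i)
    · obtain ⟨j, hj1, hj2⟩ := G.mt_partner hmt
      have hPj : G.P j = G.P i + G.re r0 := by
        change G.re (G.pos j) = G.re (G.pos i) + G.re r0
        rw [hj1, map_add]
      by_cases hjb : b ≤ j
      · by_cases hjn : j < b + n
        · exact Or.inl ⟨hi, j, hjb, hjn, hj1, hj2⟩
        · right; right; right
          refine ⟨hi, ?_⟩
          have h1 : G.P (b + n) ≤ G.P j := (G.P_le_iff _ _).2 (by omega)
          linarith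
      · right; right; left
        refine ⟨hi, ?_⟩
        have h1 : G.P j < G.P b := (G.P_lt_iff _ _).2 (by omega)
        linarith
    · exact Or.inr (Or.inl ⟨hi, hmt⟩)
  have hcardI : I.card = n := by
    rw [hI, Int.card_Ico, add_sub_cancel_left]
    exact Int.toNat_natCast _
  have hcard : n ≤ M.card + (U.card + (S1.card + S2.card)) := by
    calc n = I.card := hcardI.symm
      _ ≤ (M ∪ (U ∪ (S1 ∪ S2))).card := Finset.card_le_card hcover
      _ ≤ M.card + (U ∪ (S1 ∪ S2)).card := Finset.card_union_le _ _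
      _ ≤ M.card + (U.card + (S1 ∪ S2).card) := by
          gcongr
          exact Finset.card_union_le _ _
      _ ≤ M.card + (U.card + (S1.card + S2.card)) := by
          gcongr
          exact Finset.card_union_le _ _
  have hUc : (U.card : ℝ) ≤ Q * ((n : ℝ) / G.L ^ m + 1) * G.L ^ (η * m) :=
    hun g hg hint hbd m n a
  have hS1c : (S1.card : ℝ) ≤ T + 1 := by
    refine G.Upper_left (a := a) (n := n) hT0 (Finset.filter_subset _ _) ?_
    intro i hi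
    exact (Finset.mem_filter.1 hi).2
  have hS2c : (S2.card : ℝ) ≤ Δ + T := by
    refine G.Upper_right (a := a) (n := n) (by positivity) (Finset.filter_subset _ _) ?_
    intro i hi
    exact (Finset.mem_filter.1 hi).2
  have hmain : (D (word G.z a n) (word G.z b n) : ℝ) + 2 * (M.card : ℝ) ≤ n + n := by
    exact_mod_cast hml
  have hcard' : (n : ℝ) ≤ M.card + (U.card + (S1.card + S2.card)) := by exact_mod_cast hcard
  set E : ℝ := ((n : ℝ) / G.L ^ m + 1) * G.L ^ (η * m) with hE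
  have hE0 : 0 ≤ E := by
    have : 0 ≤ G.L ^ (η * m) := Real.rpow_nonneg (by linarith [G.L_gt_one]) _
    positivity
  have hUc' : (U.card : ℝ) ≤ Q * E := by
    rw [hE, ← mul_assoc]
    exact hUc
  have hfin : (D (word G.z a n) (word G.z b n) : ℝ) ≤ 2 * (Q * E + (T + 1) + (Δ + T)) := by
    linarith
  refine hfin.trans ?_
  have k1 : 0 ≤ Q * G.L ^ m := by positivity
  have k2 : 0 ≤ Q * Δ := by positivity
  have k3 : 0 ≤ C1 * Δ := by positivity
  have k4 : 0 ≤ C1 * E := by positivity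
  rw [hT]
  nlinarith

end H69.ED.Geo
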