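import Pool.Agent.H69.ED.Mat

/-!
# Vol: the unmatched volume `V k x y r`

All sets are bounded, so all measures are finite; the additivity uses `measure_inter_add_diff` with the
measurable set `Set.Iio y` (`nc` itself need not be measurable), the scaling statement is
`lam ^ k * (lam * r) = lam ^ (k+1) * r`, the translation statements use `measure_preimage_add_right`.

* `V_trans`: a point unmatched under `r + s` is unmatched under `r` or its translate by `re r` is unmatched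
  under `s` (`mt_trans` for `lam^k r`, `lam^k s`).
* `V_symm`, `V_local`: the sets are translates of each other by `mt_symm`, `mt_local` (the hypotheses of `mt_local`
  at level `k` hold at `L^k t` by `mt_scale_pow`; every point of `[L^k x, L^k y)` is `L^k t` with `t ∈ [x,y)`).
* `V_tiles`: induction on `j`. `V_desc`: `V (k+l) (P i) (P (i+1)) r` is the volume for the interval
  `[P (io^[k] i), P (io^[k] (i+1)))` at level `l` and the shift `lam^k r`, then `V_tiles`.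
* `V_count`: if `m` is not matched then the whole tile `m` (length at least one) is unmatched (`mt_tile`);
  the tiles are disjoint and contained in `[L^k P i, L^k P j) = [P (io^[k] i), P (io^[k] j))` (induction on `j` via
  `V_tiles` for the level `0` and the shift `lam^k r`).
-/

namespace H69.ED.Geo

open MeasureTheory

variable {A K : Type} [Fintype A] [Field K] [NumberField K] (G : Geo A K)

/-- length of the part of `S` in `[a, b)` -/
private noncomputable def VolM (S : Set ℝ) (a b : ℝ) : ℝ := (volume (S ∩ Set.Ico a b)).toReal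

private theorem Vol_fin (S : Set ℝ) (a b : ℝ) : volume (S ∩ Set.Ico a b) ≠ ⊤ := by
  refine ne_top_of_le_ne_top ?_ (measure_mono Set.inter_subset_right)
  rw [Real.volume_Ico]
  exact ENNReal.ofReal_ne_top

private theorem Vol_le (S : Set ℝ) {a b : ℝ} (h : a ≤ b) : VolM S a b ≤ b - a := by
  unfold VolM
  have h1 : volume (S ∩ Set.Ico a b) ≤ ENNReal.ofReal (b - a) := by
    rw [← Real.volume_Ico]
    exact measure_mono Set.inter_subset_right
  exact ENNReal.toReal_le_of_le_ofReal (by linarith) h1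

private theorem Vol_add (S : Set ℝ) {a b c : ℝ} (h1 : a ≤ b) (h2 : b ≤ c) :
    VolM S a c = VolM S a b + VolM S b c := by
  unfold VolM
  rw [← ENNReal.toReal_add (Vol_fin S a b) (Vol_fin S b c)]
  congr 1
  rw [← measure_inter_add_sdiff (S ∩ Set.Ico a c) (measurableSet_Iio (a := b))]
  congr 2
  · ext x
    simp only [Set.mem_inter_iff, Set.mem_Ico, Set.mem_Iio]
    constructor
    · rintro ⟨⟨h3, h4, h5⟩, h6⟩
      exact ⟨h3, h4, h6⟩
    · rintro ⟨h3, h4, h5⟩
      exact ⟨⟨h3, h4, by linarith⟩, h5⟩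
  · ext x
    simp only [Set.mem_sdiff, Set.mem_inter_iff, Set.mem_Ico, Set.mem_Iio, not_lt]
    constructor
    · rintro ⟨⟨h3, h4, h5⟩, h6⟩
      exact ⟨h3, h6, h5⟩
    · rintro ⟨h3, h4, h5⟩
      exact ⟨⟨h3, by linarith, h5⟩, h4⟩

private theorem Vol_le_add {S S1 S2 : Set ℝ} {a b a1 b1 a2 b2 : ℝ}
    (h : S ∩ Set.Ico a b ⊆ (S1 ∩ Set.Ico a1 b1) ∪ (S2 ∩ Set.Ico a2 b2)) :
    VolM S a b ≤ VolM S1 a1 b1 + VolM S2 a2 b2 := by
  unfold VolM
  rw [← ENNReal.toReal_add (Vol_fin S1 a1 b1) (Vol_fin S2 a2 b2)]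
  exact ENNReal.toReal_mono (ENNReal.add_ne_top.2 ⟨Vol_fin S1 a1 b1, Vol_fin S2 a2 b2⟩)
    ((measure_mono h).trans (measure_union_le _ _))

private theorem Vol_mono (S : Set ℝ) {a b a1 b1 : ℝ} (h : Set.Ico a b ⊆ Set.Ico a1 b1) :
    VolM S a b ≤ VolM S a1 b1 := by
  unfold VolM
  exact ENNReal.toReal_mono (Vol_fin S a1 b1) (measure_mono (Set.inter_subset_inter_right _ h))

private theorem Vol_shift {S S' : Set ℝ} {a b t : ℝ}
    (h : ∀ x, a ≤ x → x < b → (x ∈ S ↔ x + t ∈ S')) : VolM S' (a + t) (b + t) = VolM S a b := by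
  unfold VolM
  rw [← measure_preimage_add_right volume t (S' ∩ Set.Ico (a + t) (b + t))]
  congr 2
  ext x
  simp only [Set.mem_preimage, Set.mem_inter_iff, Set.mem_Ico, add_le_add_iff_right,
    add_lt_add_iff_right]
  constructor
  · rintro ⟨h1, h2, h3⟩
    exact ⟨(h x h2 h3).2 h1, h2, h3⟩
  · rintro ⟨h1, h2, h3⟩
    exact ⟨(h x h2 h3).1 h1, h2, h3⟩

private theorem Vol_V (k : ℕ) (x y : ℝ) (r : K) :
    G.V k x y r = VolM (G.nc (G.lam ^ k * r)) (G.L ^ k * x) (G.L ^ k * y) := rfl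

private theorem Vol_pos (k : ℕ) : 0 < G.L ^ k := pow_pos (lt_trans one_pos G.L_gt_one) k

private theorem Vol_re (k : ℕ) (r : K) : G.re (G.lam ^ k * r) = G.L ^ k * G.re r := by
  rw [map_mul, map_pow]
  rfl

private theorem Vol_pt (k : ℕ) {x y T : ℝ} (h1 : G.L ^ k * x ≤ T) (h2 : T < G.L ^ k * y) :
    ∃ t, x ≤ t ∧ t < y ∧ T = G.L ^ k * t := by
  have hL := Vol_pos G k
  refine ⟨T / G.L ^ k, ?_, ?_, ?_⟩
  · rw [le_div_iff₀ hL]
    linarith
  · rw [div_lt_iff₀ hL]
    linarith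
  · field_simp

theorem V_nonneg (k : ℕ) (x y : ℝ) (r : K) : 0 ≤ G.V k x y r := ENNReal.toReal_nonneg

theorem V_le (k : ℕ) {x y : ℝ} (h : x ≤ y) (r : K) : G.V k x y r ≤ G.L ^ k * (y - x) := by
  rw [Vol_V, mul_sub]
  exact Vol_le _ (mul_le_mul_of_nonneg_left h (Vol_pos G k).le)

theorem V_add (k : ℕ) {x y w : ℝ} (h1 : x ≤ y) (h2 : y ≤ w) (r : K) :
    G.V k x w r = G.V k x y r + G.V k y w r := by
  exact Vol_add _ (mul_le_mul_of_nonneg_left h1 (Vol_pos G k).le)
    (mul_le_mul_of_nonneg_left h2 (Vol_pos G k).le)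

theorem V_union (k : ℕ) (x y w : ℝ) (r : K) : G.V k x w r ≤ G.V k x y r + G.V k y w r := by
  refine Vol_le_add ?_
  rintro T ⟨h1, h2, h3⟩
  rcases lt_or_ge T (G.L ^ k * y) with h4 | h4
  · exact Or.inl ⟨h1, h2, h4⟩
  · exact Or.inr ⟨h1, h4, h3⟩

theorem V_mono (k : ℕ) {x y x' y' : ℝ} (h1 : x' ≤ x) (h2 : y ≤ y') (r : K) :
    G.V k x y r ≤ G.V k x' y' r := by
  exact Vol_mono _ (Set.Ico_subset_Ico (mul_le_mul_of_nonneg_left h1 (Vol_pos G k).le)
    (mul_le_mul_of_nonneg_left h2 (Vol_pos G k).le))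

theorem V_scale (k l : ℕ) (x y : ℝ) (r : K) :
    G.V l (G.L ^ k * x) (G.L ^ k * y) (G.lam ^ k * r) = G.V (k + l) x y r := by
  rw [Vol_V, Vol_V]
  have h1 : G.lam ^ l * (G.lam ^ k * r) = G.lam ^ (k + l) * r := by ring
  have h2 : ∀ w : ℝ, G.L ^ l * (G.L ^ k * w) = G.L ^ (k + l) * w := fun w => by ring
  rw [h1, h2, h2]

theorem V_trans (k : ℕ) (x y : ℝ) (r s : K) :
    G.V k x y (r + s) ≤ G.V k x y r + G.V k (x + G.re r) (y + G.re r) s := by
  have h1 : ∀ w : ℝ, G.L ^ k * (w + G.re r) = G.L ^ k * w + G.re (G.lam ^ k * r) := by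
    intro w
    rw [Vol_re]
    ring
  rw [Vol_V, Vol_V, Vol_V, h1, h1,
    Vol_shift (S := {T | T + G.re (G.lam ^ k * r) ∈ G.nc (G.lam ^ k * s)})
      (S' := G.nc (G.lam ^ k * s)) (fun _ _ _ => Iff.rfl)]
  refine Vol_le_add ?_
  rintro T ⟨h2, h3⟩
  by_cases h4 : G.Mt (G.lam ^ k * r) T
  · refine Or.inr ⟨?_, h3⟩
    intro h5
    apply h2
    rw [mul_add]
    exact G.mt_trans h4 h5
  · exact Or.inl ⟨h4, h3⟩

theorem V_symm (k : ℕ) (x y : ℝ) (r : K) :
    G.V k (x + G.re r) (y + G.re r) (-r) = G.V k x y r := by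
  have h1 : ∀ w : ℝ, G.L ^ k * (w + G.re r) = G.L ^ k * w + G.re (G.lam ^ k * r) := by
    intro w
    rw [Vol_re]
    ring
  rw [Vol_V, Vol_V, h1, h1]
  refine Vol_shift fun T _ _ => ?_
  have h2 : G.lam ^ k * -r = -(G.lam ^ k * r) := by ring
  rw [h2]
  exact not_congr G.mt_symm

theorem V_local (k : ℕ) {x y : ℝ} {r d e : K} (h1 : ∀ t, x ≤ t → t < y → G.Mt d t)
    (h2 : ∀ t, x ≤ t → t < y → G.Mt e (t + G.re r)) :
    G.V k (x + G.re d) (y + G.re d) (r + e - d) = G.V k x y r := by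
  have h3 : ∀ w : ℝ, G.L ^ k * (w + G.re d) = G.L ^ k * w + G.re (G.lam ^ k * d) := by
    intro w
    rw [Vol_re]
    ring
  rw [Vol_V, Vol_V, h3, h3]
  refine Vol_shift fun T hT1 hT2 => ?_
  have h4 : G.lam ^ k * (r + e - d) = G.lam ^ k * r + G.lam ^ k * e - G.lam ^ k * d := by ring
  rw [h4]
  obtain ⟨t, ht1, ht2, rfl⟩ := Vol_pt G k hT1 hT2
  have h5 := G.mt_scale_pow k (h2 t ht1 ht2)
  rw [mul_add, ← Vol_re] at h5
  exact not_congr (G.mt_local (G.mt_scale_pow k (h1 t ht1 ht2)) h5)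

theorem V_eq_zero (k : ℕ) {x y : ℝ} {r : K} (h : ∀ t, x ≤ t → t < y → G.Mt r t) :
    G.V k x y r = 0 := by
  have h1 : G.nc (G.lam ^ k * r) ∩ Set.Ico (G.L ^ k * x) (G.L ^ k * y) = ∅ := by
    rw [Set.eq_empty_iff_forall_notMem]
    rintro T ⟨h2, h3, h4⟩
    obtain ⟨t, ht1, ht2, rfl⟩ := Vol_pt G k h3 h4
    exact h2 (G.mt_scale_pow k (h t ht1 ht2))
  unfold V
  rw [h1]
  simp

theorem V_tiles (k : ℕ) {i j : ℤ} (h : i ≤ j) (r : K) :
    G.V k (G.P i) (G.P j) r = ∑ m ∈ Finset.Ico i j, G.V k (G.P m) (G.P (m + 1)) r := by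
  induction j, h using Int.leInduction with
  | base =>
    rw [Finset.Ico_self, Finset.sum_empty]
    unfold V
    rw [Set.Ico_self, Set.inter_empty]
    simp
  | succ j hij ih =>
    have h1 : Finset.Ico i (j + 1) = insert j (Finset.Ico i j) := by
      ext m
      simp only [Finset.mem_Ico, Finset.mem_insert]
      omega
    have h2 : j ∉ Finset.Ico i j := by simp
    rw [h1, Finset.sum_insert h2, ← ih, add_comm (G.V k (G.P j) (G.P (j + 1)) r)]
    exact G.V_add k ((G.P_le_iff i j).2 hij) ((G.P_le_iff j (j + 1)).2 (by omega)) r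

theorem V_desc (k l : ℕ) (i : ℤ) (r : K) :
    G.V (k + l) (G.P i) (G.P (i + 1)) r =
      ∑ m ∈ Finset.Ico (G.io^[k] i) (G.io^[k] (i + 1)),
        G.V l (G.P m) (G.P (m + 1)) (G.lam ^ k * r) := by
  rw [← G.V_scale k l, ← P_iter, ← P_iter]
  exact G.V_tiles l ((G.iter_strictMono k).monotone (show i ≤ i + 1 by omega)) _

open Classical in
theorem V_count (k : ℕ) {i j : ℤ} (h : i ≤ j) (r : K) :
    ((((Finset.Ico (G.io^[k] i) (G.io^[k] j)).filter
      (fun m => ¬ G.Mt (G.lam ^ k * r) (G.P m))).card : ℕ) : ℝ) ≤ G.V k (G.P i) (G.P j) r := by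
  have h1 : G.V k (G.P i) (G.P j) r =
      ∑ m ∈ Finset.Ico (G.io^[k] i) (G.io^[k] j), G.V 0 (G.P m) (G.P (m + 1)) (G.lam ^ k * r) := by
    rw [← G.V_tiles 0 ((G.iter_strictMono k).monotone h), P_iter, P_iter, G.V_scale k 0]
    rfl
  rw [h1, Finset.card_filter, Nat.cast_sum]
  simp only [Nat.cast_ite, Nat.cast_one, Nat.cast_zero]
  refine Finset.sum_le_sum fun m _ => ?_
  by_cases h2 : G.Mt (G.lam ^ k * r) (G.P m)
  · rw [if_neg (not_not.2 h2)]
    exact G.V_nonneg _ _ _ _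
  · rw [if_pos h2]
    have h3 : G.nc (G.lam ^ k * r) ∩ Set.Ico (G.P m) (G.P (m + 1)) =
        Set.Ico (G.P m) (G.P (m + 1)) := by
      refine Set.inter_eq_right.2 ?_
      intro T hT hMt
      apply h2
      refine G.mt_tile hMt ?_
      rw [G.tl_P, G.tl_unique hT.1 hT.2]
    have h4 : G.V 0 (G.P m) (G.P (m + 1)) (G.lam ^ k * r) = G.P (m + 1) - G.P m := by
      have h5 := G.P_succ_ge m
      unfold V
      rw [pow_zero, pow_zero, one_mul, one_mul, one_mul, h3, Real.volume_Ico,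
        ENNReal.toReal_ofReal (by linarith)]
    rw [h4]
    have h5 := G.P_succ_ge m
    linarith

end H69.ED.Geo
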